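import Mathlib

/-! Cross product on Euclidean 3-space and the sine distance. -/

open scoped InnerProductSpace
open WithLp

namespace Pool.Agent.P.MP_39a2dc_an

abbrev V : Type := EuclideanSpace ℝ (Fin 3)

/-- Cross product. -/
noncomputable def cr (u v : V) : V :=
  toLp 2 ![u 1 * v 2 - u 2 * v 1, u 2 * v 0 - u 0 * v 2, u 0 * v 1 - u 1 * v 0]

lemma cr0 (u v : V) : cr u v 0 = u 1 * v 2 - u 2 * v 1 := rfl
lemma cr1 (u v : V) : cr u v 1 = u 2 * v 0 - u 0 * v 2 := rfl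
lemma cr2 (u v : V) : cr u v 2 = u 0 * v 1 - u 1 * v 0 := rfl

lemma inner3 (u v : V) : ⟪u, v⟫_ℝ = u 0 * v 0 + u 1 * v 1 + u 2 * v 2 := by
  simp [PiLp.inner_apply, Fin.sum_univ_three]; ring

lemma ext3 {u v : V} (h0 : u 0 = v 0) (h1 : u 1 = v 1) (h2 : u 2 = v 2) : u = v := by
  ext i; fin_cases i <;> assumption

lemma cr_add_left (u u' v : V) : cr (u + u') v = cr u v + cr u' v := by
  apply ext3 <;> simp [cr0, cr1, cr2] <;> ring
lemma cr_add_right (u v v' : V) : cr u (v + v') = cr u v + cr u v' := by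
  apply ext3 <;> simp [cr0, cr1, cr2] <;> ring
lemma cr_sub_left (u u' v : V) : cr (u - u') v = cr u v - cr u' v := by
  apply ext3 <;> simp [cr0, cr1, cr2] <;> ring
lemma cr_sub_right (u v v' : V) : cr u (v - v') = cr u v - cr u v' := by
  apply ext3 <;> simp [cr0, cr1, cr2] <;> ring
lemma cr_smul_left (c : ℝ) (u v : V) : cr (c • u) v = c • cr u v := by
  apply ext3 <;> simp [cr0, cr1, cr2] <;> ring
lemma cr_smul_right (c : ℝ) (u v : V) : cr u (c • v) = c • cr u v := by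
  apply ext3 <;> simp [cr0, cr1, cr2] <;> ring
lemma cr_self (u : V) : cr u u = 0 := by
  apply ext3 <;> simp [cr0, cr1, cr2] <;> ring
lemma cr_comm (u v : V) : cr u v = - cr v u := by
  apply ext3 <;> simp [cr0, cr1, cr2] <;> ring
lemma norm_cr_comm (u v : V) : ‖cr u v‖ = ‖cr v u‖ := by rw [cr_comm, norm_neg]
lemma inner_cr_left (u v : V) : ⟪u, cr u v⟫_ℝ = 0 := by
  simp [inner3, cr0, cr1, cr2]; ring
lemma inner_cr_right (u v : V) : ⟪v, cr u v⟫_ℝ = 0 := by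
  simp [inner3, cr0, cr1, cr2]; ring
lemma inner_cr_cyc (u v w : V) : ⟪cr u v, w⟫_ℝ = ⟪cr v w, u⟫_ℝ := by
  simp [inner3, cr0, cr1, cr2]; ring
lemma inner_cr_cr (u v w x : V) :
    ⟪cr u v, cr w x⟫_ℝ = ⟪u, w⟫_ℝ * ⟪v, x⟫_ℝ - ⟪u, x⟫_ℝ * ⟪v, w⟫_ℝ := by
  simp [inner3, cr0, cr1, cr2]; ring
lemma cr_cr (u v w : V) : cr u (cr v w) = ⟪u, w⟫_ℝ • v - ⟪u, v⟫_ℝ • w := by
  apply ext3 <;> simp [inner3, cr0, cr1, cr2] <;> ring

lemma norm_cr_sq (u v : V) : ‖cr u v‖ ^ 2 = ‖u‖ ^ 2 * ‖v‖ ^ 2 - ⟪u, v⟫_ℝ ^ 2 := by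
  rw [← real_inner_self_eq_norm_sq, ← real_inner_self_eq_norm_sq, ← real_inner_self_eq_norm_sq,
    inner_cr_cr, real_inner_comm u v]; ring

lemma norm_cr_le (u v : V) : ‖cr u v‖ ≤ ‖u‖ * ‖v‖ := by
  apply le_of_sq_le_sq _ (by positivity)
  rw [norm_cr_sq, mul_pow]; nlinarith [sq_nonneg ⟪u, v⟫_ℝ]

lemma norm_cr_of_orth {u v : V} (h : ⟪u, v⟫_ℝ = 0) : ‖cr u v‖ = ‖u‖ * ‖v‖ := by
  have : ‖cr u v‖ ^ 2 = (‖u‖ * ‖v‖) ^ 2 := by rw [norm_cr_sq, h]; ring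
  exact (pow_left_inj₀ (norm_nonneg _) (by positivity) two_ne_zero).1 this

/-- The component of `v` orthogonal to a unit vector `u` has norm `‖cr u v‖`. -/
lemma norm_perp {u : V} (hu : ‖u‖ = 1) (v : V) : ‖v - ⟪u, v⟫_ℝ • u‖ = ‖cr u v‖ := by
  have : ‖v - ⟪u, v⟫_ℝ • u‖ ^ 2 = ‖cr u v‖ ^ 2 := by
    rw [norm_cr_sq, hu, @norm_sub_sq_real, inner_smul_right, norm_smul, hu, real_inner_comm u v]
    simp [sq_abs]; ring
  exact (pow_left_inj₀ (norm_nonneg _) (norm_nonneg _) two_ne_zero).1 this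

lemma eq_smul_of_cr {u v : V} (hu : ‖u‖ = 1) (h : cr u v = 0) : v = ⟪u, v⟫_ℝ • u := by
  have := norm_perp hu v
  rw [h, norm_zero, norm_eq_zero, sub_eq_zero] at this
  exact this

lemma abs_inner_le_norm_of_unit {u : V} (hu : ‖u‖ = 1) (v : V) : |⟪u, v⟫_ℝ| ≤ ‖v‖ := by
  simpa [hu] using abs_real_inner_le_norm u v

/-- Triangle inequality through a unit vector. -/
lemma cr_triangle {v : V} (hv : ‖v‖ = 1) (u w : V) :
    ‖cr u w‖ ≤ ‖cr u v‖ * ‖w‖ + ‖u‖ * ‖cr v w‖ := by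
  have h : cr u w = cr (u - ⟪v, u⟫_ℝ • v) w + ⟪v, u⟫_ℝ • cr v w := by
    rw [cr_sub_left, cr_smul_left]; abel
  rw [h]
  refine (norm_add_le _ _).trans (add_le_add ?_ ?_)
  · refine (norm_cr_le _ _).trans ?_
    rw [norm_perp hv, norm_cr_comm]
  · rw [norm_smul, Real.norm_eq_abs]
    exact mul_le_mul_of_nonneg_right (abs_inner_le_norm_of_unit hv u) (norm_nonneg _)

lemma cr_triangle' {u v w : V} (hu : ‖u‖ = 1) (hv : ‖v‖ = 1) (hw : ‖w‖ = 1) :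
    ‖cr u w‖ ≤ ‖cr u v‖ + ‖cr v w‖ := by
  simpa [hu, hw] using cr_triangle hv u w

/-- Inner products with nearly parallel unit vectors. -/
lemma abs_inner_le_of_cr {y z : V} (hy : ‖y‖ = 1) (hz : ‖z‖ = 1) (u : V) :
    |⟪u, z⟫_ℝ| ≤ |⟪u, y⟫_ℝ| + ‖cr y z‖ * ‖u‖ := by
  have h : ⟪u, z⟫_ℝ = ⟪u, z - ⟪y, z⟫_ℝ • y⟫_ℝ + ⟪y, z⟫_ℝ * ⟪u, y⟫_ℝ := by
    rw [inner_sub_right, inner_smul_right]; ring
  have h1 : |⟪u, z - ⟪y, z⟫_ℝ • y⟫_ℝ| ≤ ‖cr y z‖ * ‖u‖ := by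
    rw [← norm_perp hy, mul_comm]; exact abs_real_inner_le_norm _ _
  have h2 : |⟪y, z⟫_ℝ * ⟪u, y⟫_ℝ| ≤ |⟪u, y⟫_ℝ| := by
    rw [abs_mul]
    have := abs_inner_le_norm_of_unit hy z
    rw [hz] at this
    exact mul_le_of_le_one_left (abs_nonneg _) this
  rw [h]
  exact (abs_add_le _ _).trans (by linarith)

lemma continuous_cr : Continuous fun p : V × V => cr p.1 p.2 := by
  unfold cr
  refine (PiLp.continuous_toLp 2 _).comp ?_
  refine continuous_pi fun i => ?_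
  fin_cases i <;> simp <;> fun_prop

@[fun_prop] lemma Continuous.cr {X : Type*} [TopologicalSpace X] {f g : X → V}
    (hf : Continuous f) (hg : Continuous g) : Continuous fun x => cr (f x) (g x) :=
  continuous_cr.comp (hf.prodMk hg)

lemma Filter.Tendsto.cr {X : Type*} {l : Filter X} {f g : X → V} {a b : V}
    (hf : Filter.Tendsto f l (nhds a)) (hg : Filter.Tendsto g l (nhds b)) :
    Filter.Tendsto (fun x => cr (f x) (g x)) l (nhds (cr a b)) :=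
  (continuous_cr.tendsto (a, b)).comp (hf.prodMk_nhds hg)

/-- For unit vectors, one of `z - y`, `z + y` is short when the cross product is. -/
lemma exists_sign_close {y z : V} (hy : ‖y‖ = 1) (hz : ‖z‖ = 1) :
    ∃ s : ℝ, (s = 1 ∨ s = -1) ∧ ‖z - s • y‖ ≤ 2 * ‖cr y z‖ := by
  have hc := norm_cr_sq y z
  rw [hy, hz] at hc
  have ha := abs_inner_le_norm_of_unit hy z
  rw [hz] at ha
  obtain ⟨ha1, ha2⟩ := abs_le.1 ha
  rcases le_total 0 ⟪y, z⟫_ℝ with h | h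
  · refine ⟨1, Or.inl rfl, le_of_sq_le_sq ?_ (by positivity)⟩
    rw [one_smul, @norm_sub_sq_real, hy, hz, real_inner_comm y z, mul_pow, hc]
    nlinarith
  · refine ⟨-1, Or.inr rfl, le_of_sq_le_sq ?_ (by positivity)⟩
    rw [neg_smul, one_smul, sub_neg_eq_add, @norm_add_sq_real, hy, hz, real_inner_comm y z,
      mul_pow, hc]
    nlinarith

/-- Limit of a sequence of unit vectors that is Cauchy for the sine distance. -/
lemma exists_limit (u : ℕ → V) (hu : ∀ n, ‖u n‖ = 1) {C θ : ℝ} (hθ0 : 0 ≤ θ) (hθ : θ < 1)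
    (h : ∀ n, ‖cr (u n) (u (n + 1))‖ ≤ C * θ ^ n) :
    ∃ x : V, ‖x‖ = 1 ∧ ∀ n, ‖cr (u n) x‖ ≤ C / (1 - θ) * θ ^ n := by
  have hC : 0 ≤ C := by simpa using (norm_nonneg _).trans (h 0)
  have h1 : 0 < 1 - θ := by linarith
  have key : ∀ n k, ‖cr (u n) (u (n + k))‖ ≤ C / (1 - θ) * θ ^ n * (1 - θ ^ k) := by
    intro n k
    induction k with
    | zero => simp [cr_self]
    | succ k ih =>
      have := cr_triangle' (hu n) (hu (n + k)) (hu (n + k + 1))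
      have h2 := h (n + k)
      have : C / (1 - θ) * θ ^ n * (1 - θ ^ (k + 1)) =
          C / (1 - θ) * θ ^ n * (1 - θ ^ k) + C * θ ^ (n + k) := by
        field_simp; ring
      rw [← add_assoc]; linarith
  have hmem : ∀ n, u n ∈ Metric.sphere (0 : V) 1 := by simpa using hu
  obtain ⟨x, hx, φ, hφ, hlim⟩ := (isCompact_sphere (0 : V) 1).tendsto_subseq hmem
  refine ⟨x, by simpa using hx, fun n => ?_⟩
  have ht : Filter.Tendsto (fun k => ‖cr (u n) (u (φ k))‖) Filter.atTop (nhds ‖cr (u n) x‖) :=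
    (Filter.Tendsto.cr tendsto_const_nhds hlim).norm
  refine le_of_tendsto ht ?_
  filter_upwards [Filter.eventually_ge_atTop n] with k hk
  obtain ⟨j, hj⟩ := Nat.exists_eq_add_of_le (hk.trans (hφ.id_le k))
  rw [hj]
  refine (key n j).trans ?_
  have : 0 ≤ C / (1 - θ) * θ ^ n := by positivity
  nlinarith [pow_nonneg hθ0 j]

end Pool.Agent.P.MP_39a2dc_an
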