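import Mathlib

/-! Definitions for the statement on the affinity exponent in Barbot components. -/

open scoped MatrixGroups Matrix

namespace Pool.Agent.P.MP_39a2dc_an

/-- Singular values in decreasing order: `sv g 0 = σ₁`, `sv g 1 = σ₂`, `sv g 2 = σ₃`. -/
noncomputable def sv (g : SL(3, ℝ)) (i : ℕ) : ℝ :=
  (Matrix.toEuclideanLin (g : Matrix (Fin 3) (Fin 3) ℝ)).singularValues i

variable {Γ : Type*} [Group Γ]

/-- Word length with respect to `S`. -/
noncomputable def wordLen (S : Finset Γ) (γ : Γ) : ℕ :=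
  sInf {n | ∃ l : List Γ, l.length = n ∧ (∀ s ∈ l, s ∈ S) ∧ l.prod = γ}

/-- Anosov representations. -/
def IsAnosov (S : Finset Γ) (ρ : Γ →* SL(3, ℝ)) : Prop :=
  ∃ C c : ℝ, 0 < C ∧ 0 < c ∧
    ∀ γ, C⁻¹ * Real.exp (c * wordLen S γ) ≤ sv (ρ γ) 0 / sv (ρ γ) 1

/-- The topology of convergence on the generating set `S`. -/
@[reducible] def homTop (S : Finset Γ) : TopologicalSpace (Γ →* SL(3, ℝ)) :=
  TopologicalSpace.induced (fun ρ (s : S) => ρ s) inferInstance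

/-- No invariant point and no invariant projective line. -/
def IsIrred (ρ : Γ →* SL(3, ℝ)) : Prop :=
  ∀ W : Submodule ℝ (Fin 3 → ℝ), (∀ γ, ∀ v ∈ W, (ρ γ : Matrix (Fin 3) (Fin 3) ℝ) *ᵥ v ∈ W) →
    Module.finrank ℝ W ≠ 1 ∧ Module.finrank ℝ W ≠ 2

/-- The general term of the series `P_ρ(s)`. -/
noncomputable def term (g : SL(3, ℝ)) (s : ℝ) : ℝ :=
  if s ≤ 1 then (sv g 1 / sv g 0) ^ s else sv g 1 / sv g 0 * (sv g 2 / sv g 0) ^ (s - 1)

/-- The affinity exponent: infimum of the `s ∈ (0,2]` where `P_ρ(s)` converges. -/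
noncomputable def affExp (ρ : Γ →* SL(3, ℝ)) : EReal :=
  sInf ((fun s : ℝ => (s : EReal)) '' {s | 0 < s ∧ s ≤ 2 ∧ Summable fun γ => term (ρ γ) s})

end Pool.Agent.P.MP_39a2dc_an
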