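import Pool.Agent.P.MP_39a2dc_an.Diverge
import Pool.Agent.P.MP_39a2dc_an.Defs

/-! From matrices to Anosov systems, and the final theorem. -/

open scoped InnerProductSpace MatrixGroups Matrix
open Filter Topology Set WithLp

namespace Pool.Agent.P.MP_39a2dc_an

noncomputable def op (g : SL(3, ℝ)) : V →L[ℝ] V :=
  Matrix.toEuclideanCLM (n := Fin 3) (𝕜 := ℝ) (g : Matrix (Fin 3) (Fin 3) ℝ)

lemma op_apply (g : SL(3, ℝ)) (u : V) (i : Fin 3) :
    op g u i = g i 0 * u 0 + g i 1 * u 1 + g i 2 * u 2 := by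
  simp [op, Matrix.mulVec, dotProduct, Fin.sum_univ_three]

lemma op_mul (g h : SL(3, ℝ)) : op (g * h) = op g * op h := by simp [op]
lemma op_one : op 1 = 1 := by simp [op]

/-- The contragredient. -/
def dual (g : SL(3, ℝ)) : SL(3, ℝ) := (g⁻¹).transpose

lemma dual_mul (g h : SL(3, ℝ)) : dual (g * h) = dual g * dual h := by
  apply Subtype.ext
  simp only [dual, mul_inv_rev, Matrix.SpecialLinearGroup.coe_transpose,
    Matrix.SpecialLinearGroup.coe_mul, Matrix.transpose_mul]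
lemma dual_one : dual 1 = 1 := by apply Subtype.ext; simp [dual]
lemma dual_dual (g : SL(3, ℝ)) : dual (dual g) = g := by
  have h : dual (dual g) * dual g⁻¹.transpose⁻¹⁻¹⁻¹ = 1 := by
    rw [← dual_mul, inv_inv]
    have : dual g * g⁻¹.transpose⁻¹ = 1 := mul_inv_cancel _
    rw [this, dual_one]
  have h2 : dual g⁻¹.transpose⁻¹⁻¹⁻¹ = g⁻¹ := by
    apply Subtype.ext; simp only [dual, inv_inv, Matrix.SpecialLinearGroup.coe_transpose,
      Matrix.transpose_transpose]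
  rw [h2] at h
  exact mul_inv_eq_one.1 h

lemma cr_op (g : SL(3, ℝ)) (u v : V) : cr (op g u) (op g v) = op (dual g) (cr u v) := by
  apply ext3 <;>
    simp [cr0, cr1, cr2, op_apply, dual, Matrix.adjugate_fin_three] <;> ring

lemma inner_op (g : SL(3, ℝ)) (u v : V) : ⟪op g u, op (dual g) v⟫_ℝ = ⟪u, v⟫_ℝ := by
  have h := g.det_coe
  rw [Matrix.det_fin_three] at h
  simp [inner3, op_apply, dual, Matrix.adjugate_fin_three]
  linear_combination (u 0 * v 0 + u 1 * v 1 + u 2 * v 2) * h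

variable {Γ : Type*} [Group Γ]

noncomputable def pairOf (ρ : Γ →* SL(3, ℝ)) : Pair Γ where
  A := { toFun := fun γ => op (ρ γ), map_one' := by simp [op_one],
         map_mul' := fun a b => by simp [op_mul] }
  B := { toFun := fun γ => op (dual (ρ γ)), map_one' := by simp [dual_one, op_one],
         map_mul' := fun a b => by simp [dual_mul, op_mul] }
  inn g u v := inner_op _ u v
  crA g u v := cr_op _ u v
  crB g u v := by
    change cr (op (dual (ρ g)) u) (op (dual (ρ g)) v) = op (ρ g) _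
    rw [cr_op, dual_dual]

lemma sv_spec (g : SL(3, ℝ)) : sv g 0 = ‖op g‖ ∧ sv g 2 * ‖op g⁻¹‖ = 1 ∧
    sv g 0 * sv g 1 * sv g 2 = 1 ∧ 0 < sv g 2 ∧ sv g 2 ≤ sv g 1 ∧ sv g 1 ≤ sv g 0 := by
  set T := Matrix.toEuclideanLin (g : Matrix (Fin 3) (Fin 3) ℝ) with hT
  have hn : Module.finrank ℝ V = 3 := by simp
  have hp : sv g 0 * sv g 1 * sv g 2 = 1 := by
    have h := T.normDet_eq_prod_singularValues
    rw [LinearMap.normDet_eq_abs_det, hn, hT, Matrix.toEuclideanLin_eq_toLin_orthonormal,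
      LinearMap.det_toLin, g.det_coe] at h
    simp only [Finset.prod_range_succ, Finset.prod_range_zero, one_mul, abs_one] at h
    exact h.symm
  have n2 : 0 ≤ sv g 2 := T.singularValues_nonneg 2
  have p2 : 0 < sv g 2 := lt_of_le_of_ne n2 fun h0 => by simp [← h0] at hp
  have a1 : sv g 2 ≤ sv g 1 := T.singularValues_antitone (by norm_num)
  have a0 : sv g 1 ≤ sv g 0 := T.singularValues_antitone (by norm_num)
  set b := T.isSymmetric_adjoint_comp_self.eigenvectorBasis hn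
  have nrm : ∀ v : V, ‖op g v‖ ^ 2 = sv g 0 ^ 2 * b.repr v 0 ^ 2 + sv g 1 ^ 2 * b.repr v 1 ^ 2
      + sv g 2 ^ 2 * b.repr v 2 ^ 2 := fun v => by
    have e : ‖op g v‖ ^ 2 = ⟪v, (T.adjoint ∘ₗ T) v⟫_ℝ := by
      rw [LinearMap.comp_apply, LinearMap.adjoint_inner_right, real_inner_self_eq_norm_sq]; rfl
    rw [e, ← b.repr.inner_map_map, inner3]
    simp only [b, LinearMap.IsSymmetric.eigenvectorBasis_apply_self_apply]
    have s0 := T.sq_singularValues_fin hn 0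
    have s1 := T.sq_singularValues_fin hn 1
    have s2 := T.sq_singularValues_fin hn 2
    change sv g 0 ^ 2 = _ at s0
    change sv g 1 ^ 2 = _ at s1
    change sv g 2 ^ 2 = _ at s2
    rw [s0, s1, s2]; simp; ring
  have nv : ∀ v : V, ‖v‖ ^ 2 = b.repr v 0 ^ 2 + b.repr v 1 ^ 2 + b.repr v 2 ^ 2 := fun v => by
    rw [← b.repr.norm_map, ← real_inner_self_eq_norm_sq, inner3]; ring
  have q1 : sv g 1 ^ 2 ≤ sv g 0 ^ 2 := pow_le_pow_left₀ (n2.trans a1) a0 2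
  have q2 : sv g 2 ^ 2 ≤ sv g 1 ^ 2 := pow_le_pow_left₀ n2 a1 2
  have up : ∀ v, ‖op g v‖ ≤ sv g 0 * ‖v‖ := fun v => by
    refine le_of_sq_le_sq ?_ (mul_nonneg (by linarith) (norm_nonneg _))
    rw [mul_pow, nrm, nv]
    nlinarith [sq_nonneg (b.repr v 1), sq_nonneg (b.repr v 2)]
  have lo : ∀ v, sv g 2 * ‖v‖ ≤ ‖op g v‖ := fun v => by
    refine le_of_sq_le_sq ?_ (norm_nonneg _)
    rw [mul_pow, nrm, nv]
    nlinarith [sq_nonneg (b.repr v 0), sq_nonneg (b.repr v 1)]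
  have e0 : ‖op g (b 0)‖ = sv g 0 := by
    refine (pow_left_inj₀ (norm_nonneg _) (by linarith) two_ne_zero).1 ?_
    rw [nrm]; simp
  have e2 : ‖op g (b 2)‖ = sv g 2 := by
    refine (pow_left_inj₀ (norm_nonneg _) n2 two_ne_zero).1 ?_
    rw [nrm]; simp
  have inv : ∀ v, op g⁻¹ (op g v) = v := fun v => by
    rw [← mul_apply_eq_comp, ← op_mul, inv_mul_cancel, op_one]; rfl
  have inv' : ∀ v, op g (op g⁻¹ v) = v := fun v => by
    rw [← mul_apply_eq_comp, ← op_mul, mul_inv_cancel, op_one]; rfl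
  refine ⟨le_antisymm ?_ (ContinuousLinearMap.opNorm_le_bound _ (by linarith) up),
    le_antisymm ?_ ?_, hp, p2, a1, a0⟩
  · simpa [e0] using (op g).le_opNorm (b 0)
  · rw [← le_div_iff₀' p2]
    refine ContinuousLinearMap.opNorm_le_bound _ (by positivity) fun v => ?_
    have := lo (op g⁻¹ v)
    rw [inv'] at this
    rw [div_mul_eq_mul_div, le_div_iff₀' p2]; linarith
  · have := (op g⁻¹).le_opNorm (op g (b 2))
    rw [inv, e2] at this
    simpa [mul_comm] using this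

lemma tau_eq (ρ : Γ →* SL(3, ℝ)) (γ : Γ) : (pairOf ρ).τ γ = sv (ρ γ) 1 / sv (ρ γ) 0 ∧
    (‖(pairOf ρ).A γ‖ * ‖(pairOf ρ).B γ‖)⁻¹ = sv (ρ γ) 2 / sv (ρ γ) 0 := by
  obtain ⟨h0, h2, hp, p2, a1, a0⟩ := sv_spec (ρ γ)
  have e1 : ‖(pairOf ρ).A γ‖ = sv (ρ γ) 0 := h0.symm
  have e2 : ‖(pairOf ρ).B γ‖ = (sv (ρ γ) 2)⁻¹ := by
    rw [← Pair.norm_A_inv]
    change ‖op (ρ γ⁻¹)‖ = _
    rw [map_inv]; exact (inv_eq_of_mul_eq_one_right h2).symm
  have p0 : 0 < sv (ρ γ) 0 := by linarith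
  rw [Pair.τ, e1, e2]
  constructor
  · field_simp; linarith
  · field_simp

lemma exists_fu (ρ₀ : Γ →* SL(2, ℝ))
    (hinj : Function.Injective ((QuotientGroup.mk' (Subgroup.center SL(2, ℝ))).comp ρ₀))
    (hd : DiscreteTopology ((QuotientGroup.mk' (Subgroup.center SL(2, ℝ))).comp ρ₀).range)
    (hc : CompactSpace
      (PSL(2, ℝ) ⧸ ((QuotientGroup.mk' (Subgroup.center SL(2, ℝ))).comp ρ₀).range)) :
    ∃ F : Fu Γ, F.r = ρ₀ := by
  set η := (QuotientGroup.mk' (Subgroup.center SL(2, ℝ))).comp ρ₀ with hη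
  have hcl : IsClosed ((Subgroup.center SL(2, ℝ) : Subgroup _) : Set SL(2, ℝ)) := by
    have : ((Subgroup.center SL(2, ℝ) : Subgroup _) : Set SL(2, ℝ)) = Set.centralizer univ := by
      ext x
      simp only [SetLike.mem_coe, Subgroup.mem_center_iff, Set.mem_centralizer_iff, mem_univ,
        forall_true_left]
    rw [this]
    have : T2Space SL(2, ℝ) :=
      (Matrix.SpecialLinearGroup.isClosedEmbedding_val (n := Fin 2) (R := ℝ)).isEmbedding.t2Space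
    exact Set.isClosed_centralizer _
  have cen : ∀ z ∈ Subgroup.center SL(2, ℝ), nn z ≤ 2 := by
    intro z hz
    obtain ⟨r, hr, e⟩ := Matrix.SpecialLinearGroup.mem_center_iff.1 hz
    have hr' : |r| = 1 := by
      have : r ^ 2 = 1 := by simpa using hr
      rwa [← sq_eq_sq₀ (abs_nonneg _) zero_le_one, sq_abs, one_pow]
    unfold nn
    rw [← e]; simp [hr']; norm_num
  set π : G → PSL(2, ℝ) ⧸ η.range := fun g => QuotientGroup.mk (QuotientGroup.mk g) with hπ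
  have πo : IsOpenMap π := QuotientGroup.isOpenMap_coe.comp QuotientGroup.isOpenMap_coe
  obtain ⟨T, hT⟩ : ∃ T : ℕ, ∀ x, x ∈ π '' {g | nn g < T} := by
    obtain ⟨T, hT⟩ := isCompact_univ.elim_directed_cover (fun T : ℕ => π '' {g | nn g < T})
      (fun T => πo _ (isOpen_lt continuous_nn continuous_const)) (fun x _ => by
        obtain ⟨y, rfl⟩ := QuotientGroup.mk_surjective x
        obtain ⟨g, rfl⟩ := QuotientGroup.mk_surjective y
        obtain ⟨T, hT⟩ := exists_nat_gt (nn g)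
        exact mem_iUnion.2 ⟨T, g, hT, rfl⟩)
      (Monotone.directed_le fun a b hab => image_mono fun g (hg : nn g < a) =>
        hg.trans_le (Nat.cast_le.2 hab))
    exact ⟨T, fun x => hT (mem_univ x)⟩
  refine ⟨⟨ρ₀, T * 2, fun g => ?_, fun T' => ?_⟩, rfl⟩
  · obtain ⟨k, hk, e⟩ := hT (π g⁻¹)
    obtain ⟨γ, hγ⟩ := QuotientGroup.eq.1 e.symm
    have : ((ρ₀ γ : G) : PSL(2, ℝ)) = ((g * k : G) : PSL(2, ℝ)) := by
      rw [QuotientGroup.mk_mul]; simpa [hη] using hγ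
    have hz := QuotientGroup.eq.1 this
    refine ⟨γ, (ρ₀ γ)⁻¹ * g, ?_, by group⟩
    have e' : (ρ₀ γ)⁻¹ * g = ((ρ₀ γ)⁻¹ * (g * k)) * k⁻¹ := by group
    rw [e', mul_comm]
    exact nn_mul_le (cen _ hz) (by rw [nn_inv]; exact le_of_lt hk)
  · have h := MonoidHom.tendsto_coe_cofinite_of_discrete hinj
      (isDiscrete_iff_discreteTopology.2 hd)
    have hK : IsCompact ((QuotientGroup.mk : G → PSL(2, ℝ)) '' {g | nn g ≤ T'}) :=
      (isCompact_ball T').image QuotientGroup.continuous_mk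
    have := h hK.compl_mem_cocompact
    rw [mem_map, mem_cofinite] at this
    exact this.subset fun γ hγ hc => hc ⟨ρ₀ γ, hγ, rfl⟩

lemma exists_word {S : Finset Γ} (hsym : ∀ s ∈ S, s⁻¹ ∈ S)
    (hgen : Subgroup.closure (S : Set Γ) = ⊤) (γ : Γ) :
    ∃ l : List Γ, l.length = wordLen S γ ∧ (∀ s ∈ l, s ∈ S) ∧ l.prod = γ := by
  refine Nat.sInf_mem (s := {n | ∃ l : List Γ, l.length = n ∧ (∀ s ∈ l, s ∈ S) ∧ l.prod = γ}) ?_
  have h : γ ∈ (Subgroup.closure (S : Set Γ)).toSubmonoid := by rw [hgen]; trivial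
  rw [Subgroup.closure_toSubmonoid] at h
  obtain ⟨l, hl, e⟩ := Submonoid.exists_list_of_mem_closure h
  refine ⟨_, l, rfl, fun s hs => ?_, e⟩
  rcases hl s hs with h | h
  · exact h
  · simpa using hsym _ h

lemma exists_sys {S : Finset Γ} (hsym : ∀ s ∈ S, s⁻¹ ∈ S)
    (hgen : Subgroup.closure (S : Set Γ) = ⊤) (F : Fu Γ) {ρ : Γ →* SL(3, ℝ)}
    (h : IsAnosov S ρ) : ∃ Sy : Sys Γ, Sy.toPair = pairOf ρ ∧ Sy.F = F := by
  obtain ⟨C, c, hC, hc, h⟩ := h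
  obtain ⟨M, hM⟩ := (S.finite_toSet.image fun s => nn (F.r s)).bddAbove
  set M' := max M 2 with hM'
  have M2 : 2 ≤ M' := le_max_right _ _
  have lg : 0 < Real.log M' := Real.log_pos (by linarith)
  have hl : ∀ l : List Γ, (∀ s ∈ l, s ∈ S) → nn (F.r l.prod) ≤ M' ^ (l.length + 1) := by
    intro l
    induction l with
    | nil => intro _; simp [nn]; linarith
    | cons a l ih =>
      intro hl
      rw [List.prod_cons, map_mul, List.length_cons, pow_succ']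
      exact nn_mul_le ((hM ⟨a, hl a (by simp), rfl⟩).trans (le_max_left _ _))
        (ih fun s hs => hl s (by simp [hs]))
  refine ⟨⟨pairOf ρ, F, C * Real.exp c, c / Real.log M', by positivity, fun γ => ?_⟩, rfl, rfl⟩
  obtain ⟨l, l1, l2, l3⟩ := exists_word hsym hgen γ
  have a1 := Real.log_le_log (nn_pos _) (hl l l2)
  rw [l3, l1, Real.log_pow] at a1
  obtain ⟨-, -, -, p2, a2, a0⟩ := sv_spec (ρ γ)
  rw [(tau_eq ρ γ).1, ← inv_div]
  refine (inv_anti₀ (by positivity) (h γ)).trans ?_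
  rw [mul_inv, inv_inv, ← Real.exp_neg, mul_assoc, ← Real.exp_add]
  refine mul_le_mul_of_nonneg_left (Real.exp_le_exp.2 ?_) hC.le
  have : c / Real.log M' * Real.log (nn (F.r γ)) ≤ c * (wordLen S γ + 1) := by
    rw [div_mul_eq_mul_div, div_le_iff₀ lg, mul_assoc]
    push_cast at a1
    exact mul_le_mul_of_nonneg_left a1 hc.le
  linarith

lemma irr_of {ρ : Γ →* SL(3, ℝ)} (h : IsIrred ρ) {Sy : Sys Γ} (e : Sy.toPair = pairOf ρ) :
    Sy.Irr := by
  intro ω hω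
  by_contra hc
  push Not at hc
  let φ : (Fin 3 → ℝ) →ₗ[ℝ] ℝ :=
    { toFun := fun v => ⟪(toLp 2 v : V), ω⟫_ℝ
      map_add' := fun a b => by rw [toLp_add, inner_add_left]
      map_smul' := fun c a => by rw [toLp_smul, real_inner_smul_left]; rfl }
  refine (h (LinearMap.ker φ) fun γ v hv => ?_).2 ?_
  · obtain ⟨c, hc'⟩ := par_of_cr hω (hc γ⁻¹)
    have := Sy.adj γ (toLp 2 v) ω
    rw [hc', inner_smul_right, show ⟪(toLp 2 v : V), ω⟫_ℝ = 0 from hv, mul_zero, e] at this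
    exact this
  · have h1 := φ.finrank_range_add_finrank_ker
    have h2 : LinearMap.range φ = ⊤ := by
      rw [LinearMap.range_eq_top]
      intro r
      refine ⟨(r / ‖ω‖ ^ 2) • ω.ofLp, ?_⟩
      have : φ ω.ofLp = ‖ω‖ ^ 2 := real_inner_self_eq_norm_sq ω
      rw [map_smul, this, smul_eq_mul, div_mul_cancel₀ _ (pow_ne_zero 2 (norm_ne_zero_iff.2 hω))]
    rw [h2] at h1
    simp at h1
    omega

/-- Trace of a matrix of `SL(3,R)`. -/
def tr3 (g : SL(3, ℝ)) : ℝ := g 0 0 + g 1 1 + g 2 2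

lemma char_eq (g : SL(3, ℝ)) {u : V} (hu : u ≠ 0) {l : ℝ} (h : op g u = l • u) :
    l ^ 3 - tr3 g * l ^ 2 + tr3 g⁻¹ * l - 1 = 0 := by
  have h1 : ∃ v : Fin 3 → ℝ, v ≠ 0 ∧
      (l • (1 : Matrix (Fin 3) (Fin 3) ℝ) - (g : Matrix (Fin 3) (Fin 3) ℝ)) *ᵥ v = 0 := by
    refine ⟨u.ofLp, fun h0 => hu (by ext i; simpa using congrFun h0 i), ?_⟩
    have : (g : Matrix (Fin 3) (Fin 3) ℝ) *ᵥ u.ofLp = l • u.ofLp := congrArg ofLp h
    rw [Matrix.sub_mulVec, this, Matrix.smul_mulVec, Matrix.one_mulVec, sub_self]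
  have h2 := Matrix.exists_mulVec_eq_zero_iff.1 h1
  have h3 := g.det_coe
  rw [Matrix.det_fin_three] at h2 h3
  simp [tr3, Matrix.adjugate_fin_three] at h2 ⊢
  linear_combination h2 + h3

lemma sign_facts {l1 l2 l3 t s : ℝ} (g1 : |l2| < |l1|) (g2 : |l3| < |l2|) (hp : l1 * l2 * l3 = 1)
    (h1 : l1 ^ 3 - t * l1 ^ 2 + s * l1 - 1 = 0) (h2 : l2 ^ 3 - t * l2 ^ 2 + s * l2 - 1 = 0)
    (h3 : l3 ^ 3 - t * l3 ^ 2 + s * l3 - 1 = 0) :
    t * s - 1 ≠ 0 ∧ (0 < t * s - 1 → t ≠ 0 ∧ (t < 0 → l1 < 0)) := by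
  have q : ∀ {a b : ℝ}, |b| < |a| → a - b ≠ 0 ∧ 0 < a * (a + b) := fun {a b} h => by
    refine ⟨fun h0 => by rw [sub_eq_zero.1 h0] at h; exact lt_irrefl _ h, ?_⟩
    have := sq_lt_sq.2 h
    nlinarith [sq_nonneg (a + b)]
  obtain ⟨d12, s12⟩ := q g1
  obtain ⟨d23, s23⟩ := q g2
  obtain ⟨d13, s13⟩ := q (g2.trans g1)
  have e12 : l1 ^ 2 + l1 * l2 + l2 ^ 2 - t * (l1 + l2) + s = 0 :=
    mul_left_cancel₀ d12 (by linear_combination h1 - h2)
  have e13 : l1 ^ 2 + l1 * l3 + l3 ^ 2 - t * (l1 + l3) + s = 0 :=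
    mul_left_cancel₀ d13 (by linear_combination h1 - h3)
  have ht : t = l1 + l2 + l3 := mul_left_cancel₀ d23 (by linear_combination e13 - e12)
  have hs : s = l1 * l2 + l1 * l3 + l2 * l3 := by rw [ht] at e12; linear_combination e12
  have hf : t * s - 1 = (l1 + l2) * (l1 + l3) * (l2 + l3) := by
    rw [ht, hs]; linear_combination hp
  have n1 : l1 ≠ 0 := by rintro rfl; simp at hp
  have key : 0 < (t * s - 1) * l2 * l1 ^ 2 := by
    have := mul_pos (mul_pos s12 s13) s23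
    rw [hf]; linarith
  refine ⟨fun h0 => by simp [h0] at key, fun hpos => ?_⟩
  have p2 : 0 < l2 := by
    by_contra hc
    nlinarith [mul_nonneg (mul_nonneg hpos.le (neg_nonneg.2 (not_lt.1 hc))) (sq_nonneg l1)]
  have p13 : 0 < l1 * l3 := by
    by_contra hc
    nlinarith [mul_nonneg p2.le (neg_nonneg.2 (not_lt.1 hc))]
  rcases lt_or_gt_of_ne n1 with h | h
  · have : l3 < 0 := by nlinarith
    have : l1 + l2 < 0 := by nlinarith
    exact ⟨by rw [ht]; linarith, fun _ => h⟩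
  · have : 0 < l3 := by nlinarith
    exact ⟨by rw [ht]; linarith, fun h0 => by rw [ht] at h0; linarith⟩

lemma cont_eval {S : Finset Γ} (hgen : Subgroup.closure (S : Set Γ) = ⊤) (γ : Γ) :
    Continuous[homTop S, inferInstance] fun ρ : Γ →* SL(3, ℝ) => ρ γ := by
  let := homTop S
  have h : γ ∈ Subgroup.closure (S : Set Γ) := by rw [hgen]; trivial
  induction h using Subgroup.closure_induction with
  | mem x hx =>
    have h : Continuous fun (ρ : Γ →* SL(3, ℝ)) (s : S) => ρ s := continuous_induced_dom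
    exact continuous_pi_iff.1 h ⟨x, hx⟩
  | one => simpa using continuous_const
  | mul x y _ _ hx hy => simp only [map_mul]; exact hx.mul hy
  | inv x _ hx => simp only [map_inv]; exact hx.inv

lemma cont_tr3 : Continuous tr3 := by
  have := fun i j : Fin 3 => (continuous_apply_apply i j).comp
    (continuous_subtype_val (p := fun A : Matrix (Fin 3) (Fin 3) ℝ => A.det = 1))
  exact ((this 0 0).add (this 1 1)).add (this 2 2)

theorem main {S : Finset Γ} (hsym : ∀ s ∈ S, s⁻¹ ∈ S) (hgen : Subgroup.closure (S : Set Γ) = ⊤)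
    (F : Fu Γ) (ρ₁ : Γ →* SL(3, ℝ))
    (h₁ : ∀ γ, (ρ₁ γ : Matrix (Fin 3) (Fin 3) ℝ) =
      !![F.r γ 0 0, F.r γ 0 1, 0; F.r γ 1 0, F.r γ 1 1, 0; 0, 0, 1])
    (ρ : Γ →* SL(3, ℝ)) (hρ : ρ ∈ @connectedComponentIn _ (homTop S) {ρ | IsAnosov S ρ} ρ₁)
    (hirr : IsIrred ρ) : 1 < affExp ρ := by
  let := homTop S
  set Z := connectedComponentIn {ρ | IsAnosov S ρ} ρ₁ with hZ
  have hsub : Z ⊆ {ρ | IsAnosov S ρ} := connectedComponentIn_subset _ _
  have h1Z : ρ₁ ∈ Z := mem_connectedComponentIn (connectedComponentIn_nonempty_iff.1 ⟨ρ, hρ⟩)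
  obtain ⟨Sy, e1, e2⟩ := exists_sys hsym hgen F (hsub hρ)
  have hI := irr_of hirr e1
  obtain ⟨γ, hγ, htr⟩ := F.exists_neg (e2 ▸ hI.hfix)
  have facts : ∀ ρ' ∈ Z, ∀ Sy' : Sys Γ, Sy'.toPair = pairOf ρ' → Sy'.F = F →
      tr3 (ρ' γ) * tr3 (ρ' γ⁻¹) - 1 ≠ 0 ∧ (0 < tr3 (ρ' γ) * tr3 (ρ' γ⁻¹) - 1 →
        tr3 (ρ' γ) ≠ 0 ∧ (tr3 (ρ' γ) < 0 → ¬ Sy'.Pos)) := by
    intro ρ' _ Sy' f1 f2
    obtain ⟨l1, l2, l3, u1, u2, u3, n1, n2, n3, a1, a2, a3, g1, g2, hp, hpos⟩ :=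
      Sy'.exists_eigen (γ := γ) (by rw [f2, abs_of_neg (by linarith)]; linarith)
    rw [f1] at a1 a2 a3
    obtain ⟨b1, b2⟩ := sign_facts g1 g2 hp (char_eq _ n1 a1) (char_eq _ n2 a2) (char_eq _ n3 a3)
    rw [map_inv]
    exact ⟨b1, fun h => ⟨(b2 h).1, fun h' hP => by linarith [(b2 h).2 h', hpos hP hγ]⟩⟩
  have facts' : ∀ ρ' ∈ Z, tr3 (ρ' γ) * tr3 (ρ' γ⁻¹) - 1 ≠ 0 ∧
      (0 < tr3 (ρ' γ) * tr3 (ρ' γ⁻¹) - 1 → tr3 (ρ' γ) ≠ 0) := fun ρ' h => by
    obtain ⟨Sy', f1, f2⟩ := exists_sys hsym hgen F (hsub h)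
    exact ⟨(facts ρ' h Sy' f1 f2).1, fun h' => ((facts ρ' h Sy' f1 f2).2 h').1⟩
  have t1 : ∀ g, tr3 (ρ₁ g) = F.r g 0 0 + F.r g 1 1 + 1 := fun g => by simp [tr3, h₁ g]
  have c1 := cont_tr3.comp (cont_eval hgen γ)
  have c2 := cont_tr3.comp (cont_eval hgen γ⁻¹)
  have pos1 := pos_of_preconn (isPreconnected_connectedComponentIn (F := {ρ | IsAnosov S ρ})
    (x := ρ₁)) (f := fun ρ' => tr3 (ρ' γ) * tr3 (ρ' γ⁻¹) - 1)
    ((c1.mul c2).sub continuous_const).continuousOn (fun x hx => (facts' x hx).1) h1Z (by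
      rw [t1, t1, map_inv, inv00, inv11]; nlinarith)
  have pos2 := pos_of_preconn (isPreconnected_connectedComponentIn (F := {ρ | IsAnosov S ρ})
    (x := ρ₁)) (f := fun ρ' => -tr3 (ρ' γ)) c1.neg.continuousOn
    (fun x hx => neg_ne_zero.2 ((facts' x hx).2 (pos1 x hx))) h1Z (by rw [t1]; linarith)
  have hP : ¬ Sy.Pos := ((facts ρ hρ Sy e1 e2).2 (pos1 ρ hρ)).2 (by linarith [pos2 ρ hρ])
  obtain ⟨ε, hε, hε1, hdiv⟩ := hI.diverge hP
  refine lt_of_lt_of_le (show (1 : EReal) < ((1 + ε : ℝ) : EReal) by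
    exact_mod_cast (by linarith : (1 : ℝ) < 1 + ε)) (le_sInf ?_)
  rintro _ ⟨s, ⟨s0, -, hs⟩, rfl⟩
  by_contra hc
  have hc' : s < 1 + ε := by simpa only [EReal.coe_le_coe_iff, not_le] using hc
  refine hdiv (Summable.of_nonneg_of_le (fun g => mul_nonneg (Sy.τ_pos g).le
    (Real.rpow_nonneg (mul_pos (Sy.A_pos g) (Sy.B_pos g)).le _)) (fun g => ?_) hs)
  obtain ⟨-, -, -, p2, a2, a0⟩ := sv_spec (ρ g)
  have p0 : 0 < sv (ρ g) 0 := by linarith
  have r1 : sv (ρ g) 1 / sv (ρ g) 0 ≤ 1 := (div_le_one p0).2 a0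
  have r2 : sv (ρ g) 2 / sv (ρ g) 0 ≤ 1 := (div_le_one p0).2 (a2.trans a0)
  have r3 : 0 < sv (ρ g) 1 / sv (ρ g) 0 := div_pos (by linarith) p0
  have r4 : 0 < sv (ρ g) 2 / sv (ρ g) 0 := div_pos p2 p0
  rw [Real.rpow_neg (mul_pos (Sy.A_pos g) (Sy.B_pos g)).le,
    ← Real.inv_rpow (mul_pos (Sy.A_pos g) (Sy.B_pos g)).le, e1, (tau_eq ρ g).1, (tau_eq ρ g).2]
  unfold term
  split_ifs with h
  · calc _ ≤ sv (ρ g) 1 / sv (ρ g) 0 * 1 :=
          mul_le_mul_of_nonneg_left (Real.rpow_le_one r4.le r2 hε.le) r3.le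
      _ = (sv (ρ g) 1 / sv (ρ g) 0) ^ (1 : ℝ) := by simp
      _ ≤ _ := Real.rpow_le_rpow_of_exponent_ge r3 r1 h
  · exact mul_le_mul_of_nonneg_left (Real.rpow_le_rpow_of_exponent_ge r4 r2 (by linarith)) r3.le

end Pool.Agent.P.MP_39a2dc_an
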