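import Mathlib

/-! The wedge product of two vectors of a Euclidean space and the sine distance. -/

open scoped InnerProductSpace

set_option linter.unusedSectionVars false

namespace Pool.Agent.P.MP_39a2dc_an.H

/-- The second exterior power. -/
def Wd (E : Type*) [NormedAddCommGroup E] [InnerProductSpace ℝ E] : Type _ := ⋀[ℝ]^2 E

variable {V : Type*} [NormedAddCommGroup V] [InnerProductSpace ℝ V] [FiniteDimensional ℝ V]

noncomputable instance : NormedAddCommGroup (Wd V) :=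
  inferInstanceAs (NormedAddCommGroup (⋀[ℝ]^2 V))
noncomputable instance : InnerProductSpace ℝ (Wd V) :=
  inferInstanceAs (InnerProductSpace ℝ (⋀[ℝ]^2 V))
instance : FiniteDimensional ℝ (Wd V) := inferInstanceAs (FiniteDimensional ℝ (⋀[ℝ]^2 V))

/-- The wedge product. -/
noncomputable def cr (u v : V) : Wd V := exteriorPower.ιMulti ℝ 2 ![u, v]

lemma inner_cr_cr (u v w x : V) :
    ⟪cr u v, cr w x⟫_ℝ = ⟪u, w⟫_ℝ * ⟪v, x⟫_ℝ - ⟪u, x⟫_ℝ * ⟪v, w⟫_ℝ := by
  have h := exteriorPower.inner_ιMulti_ιMulti (E := V) ![u, v] ![w, x]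
  rw [Matrix.det_fin_two] at h
  refine h.trans ?_
  simp; ring

lemma span_cr : Submodule.span ℝ (Set.range fun p : V × V => cr p.1 p.2) = ⊤ := by
  have h : Set.range (exteriorPower.ιMulti ℝ 2 (M := V)) =
      Set.range fun p : V × V => exteriorPower.ιMulti ℝ 2 ![p.1, p.2] := by
    ext w
    constructor
    · rintro ⟨a, rfl⟩
      refine ⟨(a 0, a 1), ?_⟩
      simp only; congr 1; ext i; fin_cases i <;> rfl
    · rintro ⟨p, rfl⟩; exact ⟨_, rfl⟩
  have := exteriorPower.ιMulti_span ℝ 2 V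
  rw [h] at this
  exact this

/-- The map induced on the second exterior power. -/
noncomputable def w2 (M : V →L[ℝ] V) : Wd V →L[ℝ] Wd V :=
  LinearMap.toContinuousLinearMap (𝕜 := ℝ) (E := Wd V) (F' := Wd V)
    (exteriorPower.map 2 (M : V →ₗ[ℝ] V))

lemma w2_cr (M : V →L[ℝ] V) (u v : V) : w2 M (cr u v) = cr (M u) (M v) := by
  refine (exteriorPower.map_apply_ιMulti (M : V →ₗ[ℝ] V) ![u, v]).trans ?_
  unfold cr
  congr 1; ext i; fin_cases i <;> rfl

/-- The orthonormal basis of the second exterior power given by one of the space. -/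
lemma exists_onb {ι : Type*} [Fintype ι] [LinearOrder ι] (b : OrthonormalBasis ι ℝ V) :
    ∃ B : OrthonormalBasis (Fin 2 ↪o ι) ℝ (Wd V), ∀ e, B e = cr (b (e 0)) (b (e 1)) := by
  classical
  refine ⟨(b.exteriorPower 2).reindex Set.powersetCard.ofFinEmbEquiv.symm, fun e => ?_⟩
  refine (OrthonormalBasis.reindex_apply (b.exteriorPower 2) _ e).trans ?_
  rw [Equiv.symm_symm]
  have h := congrArg (fun B => B (Set.powersetCard.ofFinEmbEquiv e)) (b.toBasis_exteriorPower 2)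
  simp only [OrthonormalBasis.coe_toBasis, exteriorPower.basis_apply,
    exteriorPower.ιMulti_family, Equiv.symm_apply_apply] at h
  refine h.trans ?_
  unfold cr
  congr 1; ext i; fin_cases i <;> rfl

attribute [irreducible] cr w2

lemma wd_ind {p : Wd V → Prop} (h : ∀ u v, p (cr u v)) (h0 : p 0)
    (ha : ∀ a b, p a → p b → p (a + b)) (hs : ∀ (c : ℝ) a, p a → p (c • a)) (w : Wd V) : p w := by
  have hw : w ∈ Submodule.span ℝ (Set.range fun p : V × V => cr p.1 p.2) := by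
    rw [span_cr]; trivial
  induction hw using Submodule.span_induction with
  | mem x hx => obtain ⟨q, rfl⟩ := hx; exact h _ _
  | zero => exact h0
  | add a b _ _ h1 h2 => exact ha a b h1 h2
  | smul c a _ h1 => exact hs c a h1

lemma wd_ext {a b : Wd V} (h : ∀ u v, ⟪a, cr u v⟫_ℝ = ⟪b, cr u v⟫_ℝ) : a = b := by
  refine ext_inner_right ℝ fun w => ?_
  refine wd_ind (p := fun w => ⟪a, w⟫_ℝ = ⟪b, w⟫_ℝ) h (by simp) ?_ ?_ w
  · intro x y h1 h2; rw [inner_add_right, inner_add_right, h1, h2]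
  · intro c x h1; rw [inner_smul_right, inner_smul_right, h1]

lemma cr_add_left (u u' v : V) : cr (u + u') v = cr u v + cr u' v :=
  wd_ext fun a b => by simp only [inner_add_left, inner_cr_cr]; ring
lemma cr_add_right (u v v' : V) : cr u (v + v') = cr u v + cr u v' :=
  wd_ext fun a b => by simp only [inner_add_left, inner_cr_cr]; ring
lemma cr_sub_left (u u' v : V) : cr (u - u') v = cr u v - cr u' v :=
  wd_ext fun a b => by simp only [inner_sub_left, inner_cr_cr]; ring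
lemma cr_sub_right (u v v' : V) : cr u (v - v') = cr u v - cr u v' :=
  wd_ext fun a b => by simp only [inner_sub_left, inner_cr_cr]; ring
lemma cr_smul_left (c : ℝ) (u v : V) : cr (c • u) v = c • cr u v :=
  wd_ext fun a b => by simp only [real_inner_smul_left, inner_cr_cr]; ring
lemma cr_smul_right (c : ℝ) (u v : V) : cr u (c • v) = c • cr u v :=
  wd_ext fun a b => by simp only [real_inner_smul_left, inner_cr_cr]; ring
lemma cr_self (u : V) : cr u u = 0 :=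
  wd_ext fun a b => by simp only [inner_zero_left, inner_cr_cr]; ring
lemma cr_comm (u v : V) : cr u v = - cr v u :=
  wd_ext fun a b => by simp only [inner_neg_left, inner_cr_cr]; ring
lemma norm_cr_comm (u v : V) : ‖cr u v‖ = ‖cr v u‖ := by rw [cr_comm, norm_neg]

lemma norm_cr_sq (u v : V) : ‖cr u v‖ ^ 2 = ‖u‖ ^ 2 * ‖v‖ ^ 2 - ⟪u, v⟫_ℝ ^ 2 := by
  rw [← real_inner_self_eq_norm_sq, ← real_inner_self_eq_norm_sq, ← real_inner_self_eq_norm_sq,
    inner_cr_cr, real_inner_comm u v]; ring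

lemma norm_cr_le (u v : V) : ‖cr u v‖ ≤ ‖u‖ * ‖v‖ := by
  apply le_of_sq_le_sq _ (by positivity)
  rw [norm_cr_sq, mul_pow]; nlinarith [sq_nonneg ⟪u, v⟫_ℝ]

lemma norm_cr_of_orth {u v : V} (h : ⟪u, v⟫_ℝ = 0) : ‖cr u v‖ = ‖u‖ * ‖v‖ := by
  have : ‖cr u v‖ ^ 2 = (‖u‖ * ‖v‖) ^ 2 := by rw [norm_cr_sq, h]; ring
  exact (pow_left_inj₀ (norm_nonneg _) (by positivity) two_ne_zero).1 this

/-- The component of `v` orthogonal to a unit vector `u` has norm `‖cr u v‖`. -/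
lemma norm_perp {u : V} (hu : ‖u‖ = 1) (v : V) : ‖v - ⟪u, v⟫_ℝ • u‖ = ‖cr u v‖ := by
  have : ‖v - ⟪u, v⟫_ℝ • u‖ ^ 2 = ‖cr u v‖ ^ 2 := by
    rw [norm_cr_sq, hu, @norm_sub_sq_real, inner_smul_right, norm_smul, hu, real_inner_comm u v]
    simp [sq_abs]; ring
  exact (pow_left_inj₀ (norm_nonneg _) (norm_nonneg _) two_ne_zero).1 this

lemma eq_smul_of_cr {u v : V} (hu : ‖u‖ = 1) (h : cr u v = 0) : v = ⟪u, v⟫_ℝ • u := by
  have := norm_perp hu v
  rw [h, norm_zero, norm_eq_zero, sub_eq_zero] at this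
  exact this

lemma abs_inner_le_norm_of_unit {u : V} (hu : ‖u‖ = 1) (v : V) : |⟪u, v⟫_ℝ| ≤ ‖v‖ := by
  simpa [hu] using abs_real_inner_le_norm u v

/-- Triangle inequality through a unit vector. -/
lemma cr_triangle {v : V} (hv : ‖v‖ = 1) (u w : V) :
    ‖cr u w‖ ≤ ‖cr u v‖ * ‖w‖ + ‖u‖ * ‖cr v w‖ := by
  have h : cr u w = cr (u - ⟪v, u⟫_ℝ • v) w + ⟪v, u⟫_ℝ • cr v w := by
    rw [cr_sub_left, cr_smul_left]; abel
  rw [h]
  refine (norm_add_le _ _).trans (add_le_add ?_ ?_)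
  · refine (norm_cr_le _ _).trans ?_
    rw [norm_perp hv, norm_cr_comm]
  · rw [norm_smul, Real.norm_eq_abs]
    exact mul_le_mul_of_nonneg_right (abs_inner_le_norm_of_unit hv u) (norm_nonneg _)

lemma cr_triangle' {u v w : V} (hu : ‖u‖ = 1) (hv : ‖v‖ = 1) (hw : ‖w‖ = 1) :
    ‖cr u w‖ ≤ ‖cr u v‖ + ‖cr v w‖ := by
  simpa [hu, hw] using cr_triangle hv u w

/-- Inner products with nearly parallel unit vectors. -/
lemma abs_inner_le_of_cr {y z : V} (hy : ‖y‖ = 1) (hz : ‖z‖ = 1) (u : V) :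
    |⟪u, z⟫_ℝ| ≤ |⟪u, y⟫_ℝ| + ‖cr y z‖ * ‖u‖ := by
  have h : ⟪u, z⟫_ℝ = ⟪u, z - ⟪y, z⟫_ℝ • y⟫_ℝ + ⟪y, z⟫_ℝ * ⟪u, y⟫_ℝ := by
    rw [inner_sub_right, inner_smul_right]; ring
  have h1 : |⟪u, z - ⟪y, z⟫_ℝ • y⟫_ℝ| ≤ ‖cr y z‖ * ‖u‖ := by
    rw [← norm_perp hy, mul_comm]; exact abs_real_inner_le_norm _ _
  have h2 : |⟪y, z⟫_ℝ * ⟪u, y⟫_ℝ| ≤ |⟪u, y⟫_ℝ| := by
    rw [abs_mul]
    have := abs_inner_le_norm_of_unit hy z
    rw [hz] at this
    exact mul_le_of_le_one_left (abs_nonneg _) this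
  rw [h]
  exact (abs_add_le _ _).trans (by linarith)

lemma continuous_cr : Continuous fun p : V × V => cr p.1 p.2 := by
  let f : V →ₗ[ℝ] V →ₗ[ℝ] Wd V := LinearMap.mk₂ ℝ cr cr_add_left cr_smul_left cr_add_right
    cr_smul_right
  exact (f.mkContinuous₂ 1 fun x y => by simpa [f] using norm_cr_le x y).continuous₂

@[fun_prop] lemma Continuous.cr {X : Type*} [TopologicalSpace X] {f g : X → V}
    (hf : Continuous f) (hg : Continuous g) : Continuous fun x => cr (f x) (g x) :=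
  continuous_cr.comp (hf.prodMk hg)

lemma Filter.Tendsto.cr {X : Type*} {l : Filter X} {f g : X → V} {a b : V}
    (hf : Filter.Tendsto f l (nhds a)) (hg : Filter.Tendsto g l (nhds b)) :
    Filter.Tendsto (fun x => cr (f x) (g x)) l (nhds (cr a b)) :=
  (continuous_cr.tendsto (a, b)).comp (hf.prodMk_nhds hg)

/-- For unit vectors, one of `z - y`, `z + y` is short when the cross product is. -/
lemma exists_sign_close {y z : V} (hy : ‖y‖ = 1) (hz : ‖z‖ = 1) :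
    ∃ s : ℝ, (s = 1 ∨ s = -1) ∧ ‖z - s • y‖ ≤ 2 * ‖cr y z‖ := by
  have hc := norm_cr_sq y z
  rw [hy, hz] at hc
  have ha := abs_inner_le_norm_of_unit hy z
  rw [hz] at ha
  obtain ⟨ha1, ha2⟩ := abs_le.1 ha
  rcases le_total 0 ⟪y, z⟫_ℝ with h | h
  · refine ⟨1, Or.inl rfl, le_of_sq_le_sq ?_ (by positivity)⟩
    rw [one_smul, @norm_sub_sq_real, hy, hz, real_inner_comm y z, mul_pow, hc]
    nlinarith
  · refine ⟨-1, Or.inr rfl, le_of_sq_le_sq ?_ (by positivity)⟩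
    rw [neg_smul, one_smul, sub_neg_eq_add, @norm_add_sq_real, hy, hz, real_inner_comm y z,
      mul_pow, hc]
    nlinarith

/-- Limit of a sequence of unit vectors that is Cauchy for the sine distance. -/
lemma exists_limit (u : ℕ → V) (hu : ∀ n, ‖u n‖ = 1) {C θ : ℝ} (hθ0 : 0 ≤ θ) (hθ : θ < 1)
    (h : ∀ n, ‖cr (u n) (u (n + 1))‖ ≤ C * θ ^ n) :
    ∃ x : V, ‖x‖ = 1 ∧ ∀ n, ‖cr (u n) x‖ ≤ C / (1 - θ) * θ ^ n := by
  have hC : 0 ≤ C := by simpa using (norm_nonneg _).trans (h 0)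
  have h1 : 0 < 1 - θ := by linarith
  have key : ∀ n k, ‖cr (u n) (u (n + k))‖ ≤ C / (1 - θ) * θ ^ n * (1 - θ ^ k) := by
    intro n k
    induction k with
    | zero => simp [cr_self]
    | succ k ih =>
      have := cr_triangle' (hu n) (hu (n + k)) (hu (n + k + 1))
      have h2 := h (n + k)
      have : C / (1 - θ) * θ ^ n * (1 - θ ^ (k + 1)) =
          C / (1 - θ) * θ ^ n * (1 - θ ^ k) + C * θ ^ (n + k) := by
        field_simp; ring
      rw [← add_assoc]; linarith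
  have hmem : ∀ n, u n ∈ Metric.sphere (0 : V) 1 := by simpa using hu
  obtain ⟨x, hx, φ, hφ, hlim⟩ := (isCompact_sphere (0 : V) 1).tendsto_subseq hmem
  refine ⟨x, by simpa using hx, fun n => ?_⟩
  have ht : Filter.Tendsto (fun k => ‖cr (u n) (u (φ k))‖) Filter.atTop (nhds ‖cr (u n) x‖) :=
    (Filter.Tendsto.cr tendsto_const_nhds hlim).norm
  refine le_of_tendsto ht ?_
  filter_upwards [Filter.eventually_ge_atTop n] with k hk
  obtain ⟨j, hj⟩ := Nat.exists_eq_add_of_le (hk.trans (hφ.id_le k))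
  rw [hj]
  refine (key n j).trans ?_
  have : 0 ≤ C / (1 - θ) * θ ^ n := by positivity
  nlinarith [pow_nonneg hθ0 j]

lemma w2_ext {M N : Wd V →L[ℝ] Wd V} (h : ∀ u v, M (cr u v) = N (cr u v)) : M = N := by
  ext1 w
  refine wd_ind (p := fun w => M w = N w) h (by simp) ?_ ?_ w
  · intro x y h1 h2; rw [map_add, map_add, h1, h2]
  · intro c x h1; rw [map_smul, map_smul, h1]

lemma w2_one : w2 (1 : V →L[ℝ] V) = 1 := w2_ext fun u v => by simp [w2_cr]
lemma w2_mul (M N : V →L[ℝ] V) : w2 (M * N) = w2 M * w2 N :=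
  w2_ext fun u v => by simp [w2_cr]

lemma inner_w2 {M N : V →L[ℝ] V} (h : ∀ u v, ⟪M u, N v⟫_ℝ = ⟪u, v⟫_ℝ) (a b : Wd V) :
    ⟪w2 M a, w2 N b⟫_ℝ = ⟪a, b⟫_ℝ := by
  refine wd_ind (p := fun a => ⟪w2 M a, w2 N b⟫_ℝ = ⟪a, b⟫_ℝ) (fun u v => ?_) (by simp) ?_ ?_ a
  · refine wd_ind (p := fun b => ⟪w2 M (cr u v), w2 N b⟫_ℝ = ⟪cr u v, b⟫_ℝ) (fun x y => ?_)
      (by simp) ?_ ?_ b
    · simp only [w2_cr, inner_cr_cr, h]
    · intro x y h1 h2; rw [map_add, inner_add_right, inner_add_right, h1, h2]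
    · intro c x h1; rw [map_smul, inner_smul_right, inner_smul_right, h1]
  · intro x y h1 h2; rw [map_add, inner_add_left, inner_add_left, h1, h2]
  · intro c x h1; rw [map_smul, real_inner_smul_left, real_inner_smul_left, h1]

lemma cr_map_map_le (M : V →L[ℝ] V) (u v : V) : ‖cr (M u) (M v)‖ ≤ ‖M‖ ^ 2 * ‖cr u v‖ := by
  rcases eq_or_ne u 0 with rfl | hu
  · have : cr (0 : V) (M v) = 0 := by simpa using cr_smul_left 0 0 (M v)
    rw [map_zero, this, norm_zero]; positivity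
  have hn := norm_pos_iff.2 hu
  set a := ‖u‖⁻¹ • u with ha
  have h1 : ‖a‖ = 1 := by rw [ha, norm_smul, norm_inv, norm_norm, inv_mul_cancel₀ hn.ne']
  have e : u = ‖u‖ • a := by rw [ha, smul_smul, mul_inv_cancel₀ hn.ne', one_smul]
  have e2 : cr (M a) (M v) = cr (M a) (M (v - ⟪a, v⟫_ℝ • a)) := by
    rw [map_sub, map_smul M ⟪a, v⟫_ℝ, cr_sub_right, cr_smul_right, cr_self, smul_zero, sub_zero]
  have h2 : ‖cr (M a) (M v)‖ ≤ ‖M‖ ^ 2 * ‖cr a v‖ := by
    rw [e2, ← norm_perp h1]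
    refine (norm_cr_le _ _).trans ?_
    have b1 := M.le_opNorm a
    rw [h1, mul_one] at b1
    calc _ ≤ ‖M‖ * (‖M‖ * ‖v - ⟪a, v⟫_ℝ • a‖) :=
          mul_le_mul b1 (M.le_opNorm _) (norm_nonneg _) (norm_nonneg _)
      _ = _ := by ring
  rw [e, map_smul, cr_smul_left, cr_smul_left, norm_smul, norm_smul, norm_norm]
  calc _ ≤ ‖u‖ * (‖M‖ ^ 2 * ‖cr a v‖) := mul_le_mul_of_nonneg_left h2 hn.le
    _ = _ := by ring

lemma exists_cr_ne [Nontrivial (Wd V)] : ∃ u v : V, cr u v ≠ 0 := by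
  by_contra hc
  push Not at hc
  obtain ⟨w, hw⟩ := exists_ne (0 : Wd V)
  exact hw (wd_ind (p := fun w => w = 0) hc rfl (fun a b h1 h2 => by rw [h1, h2, add_zero])
    (fun c a h => by rw [h, smul_zero]) w)

end Pool.Agent.P.MP_39a2dc_an.H
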