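import Mathlib

/-! Definitions for the statement on hyperconvexity and the affinity exponent. -/

open scoped MatrixGroups Matrix
open Filter Topology

namespace Pool.Agent.P.MP_39a2dc_an.HD

variable {d : ℕ}

/-- Singular values in decreasing order: `sv g 0 = σ₁`, `sv g 1 = σ₂`, `sv g 2 = σ₃`, ... -/
noncomputable def sv (g : SL(d, ℝ)) (i : ℕ) : ℝ :=
  (Matrix.toEuclideanLin (g : Matrix (Fin d) (Fin d) ℝ)).singularValues i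

/-- The Cartan attractor `U_k(g)`: the sum of the eigenspaces of `g gᵀ` for the eigenvalues that
are at least `σ_k(g)²`. -/
noncomputable def attr (g : SL(d, ℝ)) (k : ℕ) : Submodule ℝ (Fin d → ℝ) :=
  ⨆ μ ∈ {μ : ℝ | sv g (k - 1) ^ 2 ≤ μ}, Module.End.eigenspace
    (Matrix.toLin' ((g : Matrix (Fin d) (Fin d) ℝ) * (g : Matrix (Fin d) (Fin d) ℝ)ᵀ)) μ

/-- The points `g n • i` of the upper half plane tend to the boundary point `[x.1 : x.2]` for the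
chordal metric of the Riemann sphere. -/
def Toward (g : ℕ → SL(2, ℝ)) (x : ℝ × ℝ) : Prop :=
  Tendsto (fun n => ((x.1 * g n 1 0 - x.2 * g n 0 0) ^ 2 + (x.1 * g n 1 1 - x.2 * g n 0 1) ^ 2) /
    (g n 0 0 ^ 2 + g n 0 1 ^ 2 + g n 1 0 ^ 2 + g n 1 1 ^ 2)) atTop (𝓝 0)

variable {Γ : Type*} [Group Γ]

/-- Word length with respect to `S`. -/
noncomputable def wordLen (S : Finset Γ) (γ : Γ) : ℕ :=
  sInf {n | ∃ l : List Γ, l.length = n ∧ (∀ s ∈ l, s ∈ S) ∧ l.prod = γ}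

/-- Exponential gap between `σ_k` and `σ_(k+1)`. -/
def IsAnosov (S : Finset Γ) (ρ : Γ →* SL(d, ℝ)) (k : ℕ) : Prop :=
  ∃ C c : ℝ, 0 < C ∧ 0 < c ∧
    ∀ γ, C⁻¹ * Real.exp (c * wordLen S γ) ≤ sv (ρ γ) (k - 1) / sv (ρ γ) k

/-- The limit map `ξ^k` at the boundary point `[x.1 : x.2]`: the limit of the Cartan attractors. -/
def xi (ρ₀ : Γ →* SL(2, ℝ)) (ρ : Γ →* SL(d, ℝ)) (k : ℕ) (x : ℝ × ℝ) : Set (Fin d → ℝ) :=
  {v | ∀ γ : ℕ → Γ, Toward (fun n => ρ₀ (γ n)) x →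
    ∃ u : ℕ → Fin d → ℝ, (∀ n, u n ∈ attr (ρ (γ n)) k) ∧ Tendsto u atTop (𝓝 v)}

/-- `(1,1,2)`-hyperconvexity. -/
def Hyperconvex (ρ₀ : Γ →* SL(2, ℝ)) (ρ : Γ →* SL(d, ℝ)) : Prop :=
  ∀ x y z : ℝ × ℝ, x.1 * y.2 ≠ x.2 * y.1 → x.1 * z.2 ≠ x.2 * z.1 → y.1 * z.2 ≠ y.2 * z.1 →
    Submodule.span ℝ (xi ρ₀ ρ 1 x ∪ xi ρ₀ ρ 1 y ∪ xi ρ₀ ρ (d - 2) z) = ⊤

/-- The general term of the series `P_ρ(s)`. -/
noncomputable def term (g : SL(d, ℝ)) (s : ℝ) : ℝ :=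
  if s ≤ 1 then (sv g 1 / sv g 0) ^ s else sv g 1 / sv g 0 * (sv g 2 / sv g 0) ^ (s - 1)

/-- The affinity exponent: infimum of the `s ∈ (0,2]` where `P_ρ(s)` converges. -/
noncomputable def affExp (ρ : Γ →* SL(d, ℝ)) : EReal :=
  sInf ((fun s : ℝ => (s : EReal)) '' {s | 0 < s ∧ s ≤ 2 ∧ Summable fun γ => term (ρ γ) s})

end Pool.Agent.P.MP_39a2dc_an.HD
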