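import Mathlib

/-! A curve with a Lipschitz coordinate that turns back at every scale has dimension above one. -/

open Set MeasureTheory Filter Topology
open scoped ENNReal NNReal

namespace Pool.Agent.P.MP_39a2dc_an.Dim

lemma tight {U : ℝ → ℝ} {a b : ℝ} (hab : a ≤ b) (hc : ContinuousOn U (Icc a b)) (h : U a ≤ U b) :
    ∃ a' b', a ≤ a' ∧ a' ≤ b' ∧ b' ≤ b ∧ U a' = U a ∧ U b' = U b ∧
      ∀ x ∈ Icc a' b', U a ≤ U x ∧ U x ≤ U b := by
  obtain ⟨b', ⟨⟨h1, h2⟩, h3⟩, h4⟩ := (isCompact_Icc.of_isClosed_subset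
    (hc.preimage_isClosed_of_isClosed isClosed_Icc (isClosed_singleton (x := U b)))
    inter_subset_left).exists_isLeast ⟨b, ⟨hab, le_rfl⟩, rfl⟩
  have hc' := hc.mono (Icc_subset_Icc le_rfl h2)
  obtain ⟨a', ⟨⟨k1, k2⟩, k3⟩, k4⟩ := (isCompact_Icc.of_isClosed_subset
    (hc'.preimage_isClosed_of_isClosed isClosed_Icc (isClosed_singleton (x := U a)))
    inter_subset_left).exists_isGreatest ⟨a, ⟨le_rfl, h1⟩, rfl⟩
  have h3 : U b' = U b := h3
  have k3 : U a' = U a := k3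
  refine ⟨a', b', k1, k2, h2, k3, h3, fun x hx => ⟨?_, ?_⟩⟩
  · by_contra hn
    obtain ⟨y, hy, e⟩ := intermediate_value_Icc hx.2
      (hc'.mono (Icc_subset_Icc (k1.trans hx.1) le_rfl)) ⟨(not_le.1 hn).le, h.trans h3.ge⟩
    have := k4 ⟨⟨(k1.trans hx.1).trans hy.1, hy.2⟩, e⟩
    rw [le_antisymm (this.trans hx.1) hy.1] at e
    exact hn e.ge
  · by_contra hn
    obtain ⟨y, hy, e⟩ := intermediate_value_Icc (k1.trans hx.1)
      (hc'.mono (Icc_subset_Icc le_rfl hx.2)) ⟨h, (not_le.1 hn).le⟩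
    have := h4 ⟨⟨hy.1, (hy.2.trans hx.2).trans h2⟩, e⟩
    rw [le_antisymm hy.2 (hx.2.trans this)] at e
    exact hn e.le

/-- Every upward arc crosses a definite part of its range twice. -/
def Split (U : ℝ → ℝ) (η θ : ℝ) : Prop :=
  ∀ a b, 0 ≤ a → a ≤ b → b ≤ η → U a < U b → ∃ x1 t1 t2 x2, a ≤ x1 ∧ x1 ≤ t1 ∧ t1 ≤ t2 ∧
    t2 ≤ x2 ∧ x2 ≤ b ∧ U x1 = U t2 ∧ U x2 = U t1 ∧ U a ≤ U t2 ∧ U t1 ≤ U b ∧
      θ * (U b - U a) ≤ U t1 - U t2

lemma split {U : ℝ → ℝ} {η θ : ℝ} (hθ : 0 < θ) (hc : ContinuousOn U (Icc 0 η))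
    (back : ∀ a b, 0 ≤ a → a < b → b ≤ η → ∃ t1 t2, a ≤ t1 ∧ t1 ≤ t2 ∧ t2 ≤ b ∧
      (1 + 2 * θ) * |U a - U b| ≤ |U a - U t1| + |U t1 - U t2| + |U t2 - U b|) : Split U η θ := by
  intro a b ha hab hb h
  obtain ⟨a', b', h1, h2, h3, e1, e2, hm⟩ := tight hab (hc.mono (Icc_subset_Icc ha hb)) h.le
  have hlt : a' < b' := lt_of_le_of_ne h2 fun e => by
    rw [← e1, ← e2, e] at h
    exact lt_irrefl _ h
  obtain ⟨t1, t2, c1, c2, c3, c4⟩ := back a' b' (ha.trans h1) hlt (h3.trans hb)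
  obtain ⟨m1, m2⟩ := hm t1 ⟨c1, c2.trans c3⟩
  obtain ⟨m3, m4⟩ := hm t2 ⟨c1.trans c2, c3⟩
  rw [e1, e2, abs_of_nonpos (by linarith : U a - U b ≤ 0),
    abs_of_nonpos (by linarith : U a - U t1 ≤ 0),
    abs_of_nonpos (by linarith : U t2 - U b ≤ 0)] at c4
  have hp := mul_pos hθ (sub_pos.2 h)
  have c5 : θ * (U b - U a) ≤ U t1 - U t2 := by
    rcases abs_cases (U t1 - U t2) with k | k <;> nlinarith [k.1]
  obtain ⟨x1, hx1, f1⟩ := intermediate_value_Icc (h1.trans c1)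
    (hc.mono (Icc_subset_Icc ha ((c2.trans c3).trans (h3.trans hb))))
    (show U t2 ∈ _ from ⟨m3, by linarith⟩)
  obtain ⟨x2, hx2, f2⟩ := intermediate_value_Icc (c3.trans h3)
    (hc.mono (Icc_subset_Icc ((ha.trans h1).trans (c1.trans c2)) hb))
    (show U t1 ∈ _ from ⟨by linarith, m2⟩)
  exact ⟨x1, t1, t2, x2, hx1.1, hx1.2, c2, hx2.1, hx2.2, f1, f2, m3, m2, c5⟩

lemma rpow_le {t l ε : ℝ} (ht : 0 ≤ t) (hl : 0 < l) (h0 : 0 ≤ ε) (h1 : ε ≤ 1) :
    t ^ (1 - ε) ≤ (t / l + ε) * l ^ (1 - ε) := by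
  have hq : 0 ≤ t / l := by positivity
  have := Real.geom_mean_le_arith_mean2_weighted (w₁ := 1 - ε) (w₂ := ε) (p₁ := t / l) (p₂ := 1)
    (by linarith) h0 hq zero_le_one (by ring)
  rw [Real.one_rpow, mul_one, Real.div_rpow ht hl.le, div_le_iff₀ (by positivity)] at this
  refine this.trans (mul_le_mul_of_nonneg_right (by nlinarith) (by positivity))

/-- The energy of an arc. -/
noncomputable def J (U : ℝ → ℝ) (F : ℝ → ℝ → ℝ → ℝ) (a b : ℝ) : ℝ≥0∞ :=
  ∫⁻ y in Icc (U a) (U b), ENNReal.ofReal (F a b y)⁻¹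

lemma energy {U : ℝ → ℝ} {η θ ε c L β : ℝ} (hθ : 0 < θ) (hθ1 : θ ≤ 1) (hε : 0 < ε)
    (hεθ : ε ≤ θ / 10) (hc : 0 < c) (hβ : 0 < β) (hs : Split U η θ)
    (hL : ∀ a b, 0 ≤ a → a ≤ b → b ≤ η → U b - U a ≤ L) {F : ℝ → ℝ → ℝ → ℝ}
    (meas : ∀ a b, Measurable (F a b))
    (lb : ∀ a b, 0 ≤ a → a ≤ b → b ≤ η → ∀ y ∈ Icc (U a) (U b), β ≤ F a b y)
    (mono : ∀ a b a' b' y, a ≤ a' → b' ≤ b → F a' b' y ≤ F a b y)
    (two : ∀ a x1 t1 t2 x2 b y, 0 ≤ a → a ≤ x1 → x1 ≤ t1 → t1 ≤ t2 → t2 ≤ x2 → x2 ≤ b → b ≤ η →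
      c * |U t1 - U t2| ^ ε ≤ F a b y ∨ F x1 t1 y + F t2 x2 y ≤ F a b y)
    {a b : ℝ} (ha : 0 ≤ a) (hab : a ≤ b) (hb : b ≤ η) (h : U a ≤ U b) :
    J U F a b ≤ ENNReal.ofReal ((4 / (θ * c) + 1) * (U b - U a) ^ (1 - ε)) := by
  have hε1 : ε ≤ 1 := by linarith
  let P : ℝ → Prop := fun Q => ∀ a b, 0 ≤ a → a ≤ b → b ≤ η → U a ≤ U b →
    J U F a b ≤ ENNReal.ofReal (Q * (U b - U a) ^ (1 - ε))
  have Pm : ∀ {Q Q'}, Q ≤ Q' → P Q → P Q' := fun hQ H a b ha hab hb h =>
    (H a b ha hab hb h).trans (ENNReal.ofReal_le_ofReal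
      (mul_le_mul_of_nonneg_right hQ (Real.rpow_nonneg (sub_nonneg.2 h) _)))
  have mi : ∀ a b, Measurable fun y => ENNReal.ofReal (F a b y)⁻¹ := fun a b =>
    (meas a b).inv.ennreal_ofReal
  have step : ∀ Q, 0 ≤ Q → P Q → P (c⁻¹ + (1 - θ / 4) * Q) := by
    intro Q hQ H a b ha hab hb h
    rcases h.eq_or_lt with h | h
    · rw [J, setLIntegral_measure_zero _ _ (by simp [h])]
      exact zero_le
    obtain ⟨x1, t1, t2, x2, c1, c2, c3, c4, c5, e1, e2, m1, m2, m3⟩ := hs a b ha hab hb h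
    have hl := sub_pos.2 h
    have hp : 0 < U t1 - U t2 := (mul_pos hθ hl).trans_le m3
    have sub : ∀ a' b', a ≤ a' → a' ≤ b' → b' ≤ b → U a' ≤ U b' →
        ∫⁻ y in Icc (U a') (U b'), ENNReal.ofReal (F a b y)⁻¹ ≤
          ENNReal.ofReal (Q * (U b' - U a') ^ (1 - ε)) := fun a' b' k1 k2 k3 k4 =>
      (setLIntegral_mono' measurableSet_Icc fun y hy => ENNReal.ofReal_le_ofReal
        (inv_anti₀ (hβ.trans_le (lb a' b' (ha.trans k1) k2 (k3.trans hb) y hy))
          (mono _ _ _ _ y k1 k3))).trans (H a' b' (ha.trans k1) k2 (k3.trans hb) k4)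
    have i1 := sub a x1 le_rfl c1 (by linarith) (by linarith)
    have i3 := sub x2 b (by linarith) c5 le_rfl (by linarith)
    have j1 := H x1 t1 (by linarith) c2 (by linarith) (by linarith)
    have j2 := H t2 x2 (by linarith) c4 (by linarith) (by linarith)
    rw [J, e1] at j1
    rw [J, e2] at j2
    rw [e1] at i1
    rw [e2] at i3
    have hd : 0 < c * (U t1 - U t2) ^ ε := by positivity
    have i2 : ∫⁻ y in Icc (U t2) (U t1), ENNReal.ofReal (F a b y)⁻¹ ≤
        ENNReal.ofReal ((c * (U t1 - U t2) ^ ε)⁻¹ * (U t1 - U t2)) +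
          ENNReal.ofReal (1 / 4 * (Q * (U t1 - U t2) ^ (1 - ε))) +
          ENNReal.ofReal (1 / 4 * (Q * (U t1 - U t2) ^ (1 - ε))) := by
      refine (setLIntegral_mono' (g := fun y => ENNReal.ofReal (c * (U t1 - U t2) ^ ε)⁻¹ +
        ENNReal.ofReal (1 / 4) * ENNReal.ofReal (F x1 t1 y)⁻¹ +
        ENNReal.ofReal (1 / 4) * ENNReal.ofReal (F t2 x2 y)⁻¹) measurableSet_Icc
          fun y hy => ?_).trans ?_
      · have p1 := hβ.trans_le (lb x1 t1 (by linarith) c2 (by linarith) y (e1 ▸ hy))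
        have p2 := hβ.trans_le (lb t2 x2 (by linarith) c4 (by linarith) y (e2 ▸ hy))
        rw [← ENNReal.ofReal_mul (by norm_num), ← ENNReal.ofReal_mul (by norm_num),
          ← ENNReal.ofReal_add (by positivity) (by positivity),
          ← ENNReal.ofReal_add (by positivity) (by positivity)]
        refine ENNReal.ofReal_le_ofReal ?_
        rcases two a x1 t1 t2 x2 b y ha c1 c2 c3 c4 c5 hb with k | k
        · rw [abs_of_pos hp] at k
          have := inv_anti₀ hd k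
          have : 0 ≤ 1 / 4 * (F x1 t1 y)⁻¹ + 1 / 4 * (F t2 x2 y)⁻¹ := by positivity
          linarith
        · have k1 := inv_anti₀ (add_pos p1 p2) k
          have k2 : (F x1 t1 y + F t2 x2 y)⁻¹ ≤
              1 / 4 * (F x1 t1 y)⁻¹ + 1 / 4 * (F t2 x2 y)⁻¹ := by
            rw [← sub_nonneg]
            have : 1 / 4 * (F x1 t1 y)⁻¹ + 1 / 4 * (F t2 x2 y)⁻¹ - (F x1 t1 y + F t2 x2 y)⁻¹ =
              (F x1 t1 y - F t2 x2 y) ^ 2 / (4 * F x1 t1 y * F t2 x2 y *
                (F x1 t1 y + F t2 x2 y)) := by field_simp; ring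
            rw [this]
            positivity
          have := (inv_pos.2 hd).le
          linarith
      · rw [lintegral_add_right _ ((mi _ _).const_mul _), lintegral_add_left measurable_const,
          lintegral_const_mul _ (mi _ _), lintegral_const_mul _ (mi _ _), setLIntegral_const,
          Real.volume_Icc, ← ENNReal.ofReal_mul (by positivity),
          ENNReal.ofReal_mul (show (0 : ℝ) ≤ 1 / 4 by norm_num)]
        gcongr
    have hu : Icc (U a) (U b) ⊆ Icc (U a) (U t2) ∪ Icc (U t2) (U t1) ∪ Icc (U t1) (U b) :=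
      Icc_subset_Icc_union_Icc.trans (union_subset_union_left _ Icc_subset_Icc_union_Icc)
    refine ((lintegral_mono_set hu).trans ((lintegral_union_le _ _ _).trans (add_le_add
      ((lintegral_union_le _ _ _).trans (add_le_add i1 i2)) i3))).trans ?_
    have n1 := sub_nonneg.2 m1
    have n3 := sub_nonneg.2 m2
    rw [← ENNReal.ofReal_add (by positivity) (by positivity),
      ← ENNReal.ofReal_add (by positivity) (by positivity),
      ← ENNReal.ofReal_add (by positivity) (by positivity),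
      ← ENNReal.ofReal_add (by positivity) (by positivity)]
    refine ENNReal.ofReal_le_ofReal ?_
    have r1 := rpow_le n1 hl hε.le hε1
    have r2 := rpow_le hp.le hl hε.le hε1
    have r3 := rpow_le n3 hl hε.le hε1
    have r4 : (c * (U t1 - U t2) ^ ε)⁻¹ * (U t1 - U t2) ≤ c⁻¹ * (U b - U a) ^ (1 - ε) := by
      rw [mul_inv, mul_assoc, mul_comm _ (U t1 - U t2), ← div_eq_mul_inv]
      refine mul_le_mul_of_nonneg_left ?_ (by positivity)
      refine le_trans (le_of_eq ?_) (Real.rpow_le_rpow hp.le (by linarith) (by linarith))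
      rw [Real.rpow_sub hp, Real.rpow_one]
    have r5 : θ ≤ (U t1 - U t2) / (U b - U a) := (le_div_iff₀ hl).2 m3
    have r6 : (U t2 - U a) / (U b - U a) + (U t1 - U t2) / (U b - U a) +
      (U b - U t1) / (U b - U a) = 1 := by field_simp; ring
    have r7 : 0 ≤ (U b - U a) ^ (1 - ε) := by positivity
    have r8 : (U t2 - U a) ^ (1 - ε) + (U t1 - U t2) ^ (1 - ε) / 2 + (U b - U t1) ^ (1 - ε) ≤
        (1 - θ / 4) * (U b - U a) ^ (1 - ε) := by
      have := mul_le_mul_of_nonneg_right (show (U t2 - U a) / (U b - U a) + ε +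
        ((U t1 - U t2) / (U b - U a) + ε) / 2 + ((U b - U t1) / (U b - U a) + ε) ≤ 1 - θ / 4 by
          linarith) r7
      linarith
    have := mul_le_mul_of_nonneg_left r8 hQ
    linarith
  have hL0 : 0 ≤ L := by simpa using hL a a ha le_rfl (hab.trans hb)
  have base : P (β⁻¹ * L ^ ε) := by
    intro a b ha hab hb h
    refine (setLIntegral_mono' (g := fun _ => ENNReal.ofReal β⁻¹) measurableSet_Icc fun y hy =>
      ENNReal.ofReal_le_ofReal (inv_anti₀ hβ (lb a b ha hab hb y hy))).trans ?_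
    rw [setLIntegral_const, Real.volume_Icc, ← ENNReal.ofReal_mul (by positivity), mul_assoc]
    refine ENNReal.ofReal_le_ofReal (mul_le_mul_of_nonneg_left ?_ (by positivity))
    have n := sub_nonneg.2 h
    calc U b - U a = (U b - U a) ^ ε * (U b - U a) ^ (1 - ε) := by
          rw [← Real.rpow_add' n (by simp), add_sub_cancel, Real.rpow_one]
      _ ≤ _ := mul_le_mul_of_nonneg_right (Real.rpow_le_rpow n (hL a b ha hab hb) hε.le)
          (by positivity)
  have g0 : 0 ≤ 1 - θ / 4 := by linarith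
  have ind : ∀ n : ℕ, P (4 / (θ * c) + (1 - θ / 4) ^ n * (β⁻¹ * L ^ ε)) := by
    intro n
    induction n with
    | zero => exact Pm (by rw [pow_zero, one_mul]; exact le_add_of_nonneg_left (by positivity)) base
    | succ n ih => exact Pm (le_of_eq (by field_simp; ring)) (step _ (by positivity) ih)
  obtain ⟨n, hn⟩ := (((tendsto_pow_atTop_nhds_zero_of_lt_one g0 (by linarith)).mul_const
    (β⁻¹ * L ^ ε)).eventually (ge_mem_nhds (show (0 : ℝ) * _ < 1 by simp))).exists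
  exact Pm (by linarith) (ind n) a b ha hab hb h

/-- A lower bound for finite covers. -/
lemma cover {U : ℝ → ℝ} {D : ℝ → ℝ → ℝ} {η θ C c K a₀ b₀ : ℝ} (hθ : 0 < θ) (hθ1 : θ ≤ 1)
    (hC : 0 < C) (hc : 0 < c) (hK : 0 < K) (hU : ContinuousOn U (Icc 0 η)) (hs : Split U η θ)
    (lip : ∀ x ∈ Icc 0 η, ∀ x' ∈ Icc 0 η, |U x - U x'| ≤ C * D x x')
    (sep : ∀ x y y' z, 0 ≤ x → x ≤ y → y ≤ y' → y' ≤ z → z ≤ η → c * |U y - U y'| ^ K ≤ D x z)
    (ha : 0 ≤ a₀) (hab : a₀ ≤ b₀) (hb : b₀ ≤ η) (h : U a₀ < U b₀) :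
    ∃ δ c₀ : ℝ, 0 < δ ∧ 0 < c₀ ∧ ∀ (s : Finset ℕ) (T : ℕ → Set ℝ) (r : ℕ → ℝ), (∀ i, 0 < r i) →
      (∀ x ∈ Icc 0 η, ∃ i ∈ s, x ∈ T i) → (∀ i, ∀ x ∈ T i, ∀ x' ∈ T i, D x x' ≤ r i) →
        c₀ ≤ ∑ i ∈ s, r i ^ (1 + δ) := by
  classical
  obtain ⟨L, hL⟩ := isCompact_Icc.exists_bound_of_continuousOn hU
  have hl := sub_pos.2 h
  have hδ : 0 < θ / 10 / K := by positivity
  set δ := θ / 10 / K with eδ
  set Q := (4 / (θ * c ^ δ) + 1) * (U b₀ - U a₀) ^ (1 - θ / 10) with eQ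
  have hQ : 0 < Q := by positivity
  refine ⟨δ, (U b₀ - U a₀) ^ 2 / (8 * Q * C), hδ, by positivity, fun s T r hr hT hD => ?_⟩
  have hm : ∀ i, ∃ m, ∀ x ∈ T i ∩ Icc 0 η, U x ∈ Metric.closedBall m (C * r i) := fun i => by
    rcases (T i ∩ Icc 0 η).eq_empty_or_nonempty with e | ⟨x', hx'⟩
    · exact ⟨0, fun x hx => by simp [e] at hx⟩
    · exact ⟨U x', fun x hx => (lip x hx.2 x' hx'.2).trans
        (mul_le_mul_of_nonneg_left (hD i x hx.1 x' hx'.1) hC.le)⟩
  choose m hm using hm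
  let w : ℕ → ℝ → ℝ := fun i => (Metric.closedBall (m i) (C * r i)).indicator fun _ => r i ^ δ
  have w0 : ∀ i y, 0 ≤ w i y := fun i y =>
    indicator_nonneg (fun _ _ => (Real.rpow_pos_of_pos (hr i) δ).le) y
  let F : ℝ → ℝ → ℝ → ℝ := fun a b y => ∑ i ∈ s with (T i ∩ Icc a b).Nonempty, w i y
  have meas : ∀ a b, Measurable (F a b) := fun a b => Finset.measurable_sum _ fun i _ =>
    measurable_const.indicator Metric.isClosed_closedBall.measurableSet
  obtain ⟨i₀, hi₀, -⟩ := hT a₀ ⟨ha, hab.trans hb⟩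
  obtain ⟨j, -, hj⟩ := s.exists_min_image (fun i => r i ^ δ) ⟨i₀, hi₀⟩
  have hβ := Real.rpow_pos_of_pos (hr j) δ
  have lb : ∀ a b, 0 ≤ a → a ≤ b → b ≤ η → ∀ y ∈ Icc (U a) (U b), r j ^ δ ≤ F a b y := by
    intro a b ha hab hb y hy
    obtain ⟨x, hx, rfl⟩ := intermediate_value_Icc hab (hU.mono (Icc_subset_Icc ha hb)) hy
    have hx' : x ∈ Icc 0 η := Icc_subset_Icc ha hb hx
    obtain ⟨i, hi, hxi⟩ := hT x hx'
    refine (hj i hi).trans (le_trans (le_of_eq ?_) (Finset.single_le_sum (fun i _ => w0 i _)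
      (Finset.mem_filter.2 ⟨hi, x, hxi, hx⟩)))
    exact (indicator_of_mem (hm i x ⟨hxi, hx'⟩) fun _ => r i ^ δ).symm
  have fs : ∀ {a b a' b'}, a ≤ a' → b' ≤ b → (s.filter fun i => (T i ∩ Icc a' b').Nonempty) ⊆
      s.filter fun i => (T i ∩ Icc a b).Nonempty := fun k1 k2 =>
    Finset.monotone_filter_right s fun i _ hi =>
      hi.mono (inter_subset_inter_right _ (Icc_subset_Icc k1 k2))
  have en := energy (c := c ^ δ) (L := 2 * L) hθ hθ1 (by positivity) le_rfl (by positivity) hβ hs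
    (fun a b k1 k2 k3 => by
      have := (abs_le.1 (hL a ⟨k1, k2.trans k3⟩)).1
      have := (abs_le.1 (hL b ⟨k1.trans k2, k3⟩)).2
      linarith) meas lb
    (fun a b a' b' y k1 k2 => Finset.sum_le_sum_of_subset_of_nonneg (fs k1 k2) fun i _ _ => w0 i y)
    (fun a x1 t1 t2 x2 b y k0 k1 k2 k3 k4 k5 k6 => by
      by_cases hi : ∃ i ∈ s, (T i ∩ Icc x1 t1).Nonempty ∧ (T i ∩ Icc t2 x2).Nonempty ∧ w i y ≠ 0
      · obtain ⟨i, hi, ⟨x, hx, hx'⟩, ⟨z, hz, hz'⟩, hw⟩ := hi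
        refine Or.inl (le_trans ?_ (Finset.single_le_sum (fun i _ => w0 i y)
          (Finset.mem_filter.2 ⟨hi, x, hx, by linarith [hx'.1], by linarith [hx'.2]⟩)))
        have e : w i y = r i ^ δ := indicator_of_mem (mem_of_indicator_ne_zero hw) _
        have := Real.rpow_le_rpow (by positivity) ((sep x t1 t2 z (by linarith [hx'.1]) hx'.2 k3
          hz'.1 (by linarith [hz'.2])).trans (hD i x hx z hz)) hδ.le
        rwa [Real.mul_rpow hc.le (by positivity), ← Real.rpow_mul (abs_nonneg _),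
          show K * δ = θ / 10 by rw [eδ]; field_simp, ← e] at this
      · refine Or.inr ?_
        simp only [F, Finset.sum_filter, ← Finset.sum_add_distrib]
        refine Finset.sum_le_sum fun i hi' => ?_
        have p := w0 i y
        have q1 : (T i ∩ Icc x1 t1).Nonempty → (T i ∩ Icc a b).Nonempty := fun hi =>
          hi.mono (inter_subset_inter_right _ (Icc_subset_Icc k1 (by linarith)))
        have q2 : (T i ∩ Icc t2 x2).Nonempty → (T i ∩ Icc a b).Nonempty := fun hi =>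
          hi.mono (inter_subset_inter_right _ (Icc_subset_Icc (by linarith) k5))
        by_cases n1 : (T i ∩ Icc x1 t1).Nonempty <;> by_cases n2 : (T i ∩ Icc t2 x2).Nonempty
        · have : w i y = 0 := not_not.1 fun e => hi ⟨i, hi', n1, n2, e⟩
          simp [this]
        · simp [n1, n2, q1 n1]
        · simp [n1, n2, q2 n2]
        · simp only [n1, n2, if_false, add_zero]
          split_ifs
          exacts [p, le_rfl]) ha hab hb h.le
  rw [← eQ] at en
  set l := 2 * Q / (U b₀ - U a₀) with el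
  have hl' : 0 < l := by positivity
  have i1 : ∫⁻ y in Icc (U a₀) (U b₀), ENNReal.ofReal (F a₀ b₀ y) ≤
      ENNReal.ofReal (∑ i ∈ s, r i ^ δ * (2 * (C * r i))) := by
    refine (setLIntegral_le_lintegral _ _).trans ((lintegral_mono (g := fun y => ∑ i ∈ s,
      (Metric.closedBall (m i) (C * r i)).indicator (fun _ => ENNReal.ofReal (r i ^ δ)) y)
        fun y => ?_).trans (le_of_eq ?_))
    · refine (ENNReal.ofReal_le_ofReal (Finset.sum_le_sum_of_subset_of_nonneg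
        (Finset.filter_subset _ s) fun i _ _ => w0 i y)).trans (le_of_eq ?_)
      rw [ENNReal.ofReal_sum_of_nonneg fun i _ => w0 i y]
      refine Finset.sum_congr rfl fun i _ => ?_
      by_cases e : y ∈ Metric.closedBall (m i) (C * r i)
      · simp only [w, indicator_of_mem e]
      · simp only [w, indicator_of_notMem e, ENNReal.ofReal_zero]
    · rw [lintegral_finsetSum _ fun i _ =>
        measurable_const.indicator Metric.isClosed_closedBall.measurableSet,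
        ENNReal.ofReal_sum_of_nonneg fun i _ => by have := hr i; positivity]
      refine Finset.sum_congr rfl fun i _ => ?_
      rw [lintegral_indicator_const Metric.isClosed_closedBall.measurableSet,
        Real.volume_closedBall, ENNReal.ofReal_mul (Real.rpow_pos_of_pos (hr i) δ).le]
  have S0 : 0 ≤ ∑ i ∈ s, r i ^ δ * (2 * (C * r i)) :=
    Finset.sum_nonneg fun i _ => by have := hr i; positivity
  have i2 : ENNReal.ofReal (U b₀ - U a₀) ≤
      ENNReal.ofReal (l * ∑ i ∈ s, r i ^ δ * (2 * (C * r i)) + l⁻¹ * Q) := by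
    rw [← Real.volume_Icc, ← setLIntegral_one]
    refine (setLIntegral_mono' (g := fun y => ENNReal.ofReal l * ENNReal.ofReal (F a₀ b₀ y) +
      ENNReal.ofReal l⁻¹ * ENNReal.ofReal (F a₀ b₀ y)⁻¹) measurableSet_Icc fun y hy => ?_).trans ?_
    · have p := hβ.trans_le (lb a₀ b₀ ha hab hb y hy)
      rw [← ENNReal.ofReal_mul hl'.le, ← ENNReal.ofReal_mul (by positivity),
        ← ENNReal.ofReal_add (by positivity) (by positivity), ← mul_inv, ENNReal.one_le_ofReal]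
      have q := mul_pos hl' p
      rcases le_total 1 (l * F a₀ b₀ y) with k | k
      · linarith [inv_pos.2 q]
      · linarith [(one_le_inv₀ q).2 k]
    · rw [lintegral_add_left ((meas _ _).ennreal_ofReal.const_mul _),
        lintegral_const_mul _ (meas _ _).ennreal_ofReal,
        lintegral_const_mul (f := fun y => ENNReal.ofReal (F a₀ b₀ y)⁻¹) _
          (meas _ _).inv.ennreal_ofReal,
        ENNReal.ofReal_add (by positivity) (by positivity), ENNReal.ofReal_mul hl'.le,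
        ENNReal.ofReal_mul (inv_pos.2 hl').le]
      gcongr
      exact en
  rw [ENNReal.ofReal_le_ofReal_iff (by positivity)] at i2
  have e : ∑ i ∈ s, r i ^ δ * (2 * (C * r i)) = 2 * C * ∑ i ∈ s, r i ^ (1 + δ) := by
    rw [Finset.mul_sum]
    refine Finset.sum_congr rfl fun i _ => ?_
    rw [Real.rpow_add (hr i), Real.rpow_one]
    ring
  rw [e, show l⁻¹ * Q = (U b₀ - U a₀) / 2 by rw [el]; field_simp, el] at i2
  rw [div_le_iff₀ (by positivity)]
  have := mul_le_mul_of_nonneg_left i2 hl.le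
  rw [mul_add, ← mul_assoc, mul_div_cancel₀ _ hl.ne'] at this
  linarith

theorem one_lt_dimH {E : Type*} [MetricSpace E] (g : ℝ → E) {U : ℝ → ℝ} {D : ℝ → ℝ → ℝ}
    {η κ C c K : ℝ} (hκ : 0 < κ) (hC : 0 < C) (hc : 0 < c) (hK : 0 < K)
    (hg : ∀ x x', D x x' ≤ dist (g x) (g x')) (symm : ∀ x x', D x x' = D x' x)
    (tri : ∀ x y z, D x z ≤ D x y + D y z) (cont : ∀ x, Tendsto (D x) (𝓝 x) (𝓝 0))
    (lip : ∀ x ∈ Icc 0 η, ∀ x' ∈ Icc 0 η, |U x - U x'| ≤ C * D x x')
    (sep : ∀ x y y' z, 0 ≤ x → x ≤ y → y ≤ y' → y' ≤ z → z ≤ η → c * |U y - U y'| ^ K ≤ D x z)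
    (back : ∀ a b, 0 ≤ a → a < b → b ≤ η → ∃ t1 t2, a ≤ t1 ∧ t1 ≤ t2 ∧ t2 ≤ b ∧
      (1 + κ) * |U a - U b| ≤ |U a - U t1| + |U t1 - U t2| + |U t2 - U b|)
    (ne : ∃ a b, 0 ≤ a ∧ a ≤ b ∧ b ≤ η ∧ U a ≠ U b) : 1 < dimH (range g) := by
  classical
  obtain ⟨a, b, ha, hab, hb, h⟩ := ne
  wlog hlt : U a < U b generalizing U
  · have e : ∀ x y, |(-U) x - (-U) y| = |U x - U y| := fun x y => by
      rw [Pi.neg_apply, Pi.neg_apply, neg_sub_neg, abs_sub_comm]
    refine this (U := -U) (by simpa only [e] using lip) (by simpa only [e] using sep)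
      (by simpa only [e] using back) (fun k => h (neg_inj.1 k)) (neg_lt_neg ?_)
    exact lt_of_le_of_ne (not_lt.1 hlt) h.symm
  have hU : ContinuousOn U (Icc 0 η) := fun x hx => by
    rw [ContinuousWithinAt, tendsto_iff_dist_tendsto_zero]
    refine squeeze_zero' (Eventually.of_forall fun _ => dist_nonneg)
      (eventually_nhdsWithin_of_forall fun y hy => ?_)
      (by simpa using ((cont x).const_mul C).mono_left nhdsWithin_le_nhds)
    rw [dist_comm]
    exact lip x hx y hy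
  have hθ : 0 < min (κ / 2) 1 := by positivity
  obtain ⟨δ, c₀, hδ, hc₀, H⟩ := cover hθ (min_le_right _ _) hC hc hK hU
    (split hθ hU fun a b k1 k2 k3 => by
      obtain ⟨t1, t2, c1, c2, c3, c4⟩ := back a b k1 k2 k3
      refine ⟨t1, t2, c1, c2, c3, le_trans (mul_le_mul_of_nonneg_right ?_ (abs_nonneg _)) c4⟩
      linarith [min_le_left (κ / 2) 1]) lip sep ha hab hb hlt
  borelize E
  obtain ⟨d, ed⟩ : ∃ d : ℝ≥0, (d : ℝ) = 1 + δ := ⟨⟨1 + δ, by positivity⟩, rfl⟩
  refine lt_of_lt_of_le ?_ (le_dimH_of_hausdorffMeasure_ne_zero (d := d) fun h0 => ?_)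
  · rw [← ENNReal.coe_one, ENNReal.coe_lt_coe, ← NNReal.coe_lt_coe, ed]
    exact lt_add_of_pos_right _ hδ
  rw [Measure.hausdorffMeasure_apply, ed] at h0
  have h1 := (le_iSup₂_of_le (1 : ℝ≥0∞) zero_lt_one le_rfl).trans h0.le |>.trans_lt
    (ENNReal.ofReal_pos.2 (show 0 < c₀ / 4 by positivity))
  simp only [iInf_lt_iff] at h1
  obtain ⟨t, ht, hd, hsum⟩ := h1
  have hη : ∀ n : ℕ, ∃ e : ℝ, 0 < e ∧ (Metric.diam (t n) + 2 * e) ^ (1 + δ) ≤
      Metric.diam (t n) ^ (1 + δ) + c₀ / 4 * (1 / 2) ^ n := fun n => by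
    have k : Tendsto (fun e : ℝ => (Metric.diam (t n) + 2 * e) ^ (1 + δ)) (𝓝[>] 0)
        (𝓝 (Metric.diam (t n) ^ (1 + δ))) := by
      have : Continuous fun e : ℝ => (Metric.diam (t n) + 2 * e) ^ (1 + δ) :=
        (Real.continuous_rpow_const (by positivity)).comp (by fun_prop)
      simpa using (this.tendsto 0).mono_left nhdsWithin_le_nhds
    exact (eventually_mem_nhdsWithin.and (k.eventually (ge_mem_nhds
      (lt_add_of_pos_right _ (by positivity))))).exists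
  choose e he he' using hη
  have hn : ∀ x, ∃ n, g x ∈ t n := fun x => mem_iUnion.1 (ht ⟨x, rfl⟩)
  choose n hn using hn
  obtain ⟨p, -, hp⟩ := (isCompact_Icc (a := (0 : ℝ)) (b := η)).elim_nhds_subcover
    (fun x => {y | D x y < e (n x)}) fun x _ => (cont x).eventually (gt_mem_nhds (he _))
  have := H (p.image n) (fun i => {y | ∃ x, g x ∈ t i ∧ D x y < e i})
    (fun i => Metric.diam (t i) + 2 * e i)
    (fun i => by have := he i; have := Metric.diam_nonneg (s := t i); positivity)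
    (fun y hy => by
      obtain ⟨x, hx, k⟩ := mem_iUnion₂.1 (hp hy)
      exact ⟨n x, Finset.mem_image_of_mem n hx, x, hn x, k⟩)
    (fun i y ⟨x, hx, k⟩ y' ⟨x', hx', k'⟩ => by
      have := Metric.dist_le_diam_of_mem' (ne_top_of_le_ne_top ENNReal.one_ne_top (hd i)) hx hx'
      linarith [tri y x y', tri x x' y', hg x x', symm y x])
  have s1 : ∑ i ∈ p.image n, Metric.diam (t i) ^ (1 + δ) < c₀ / 4 := by
    rw [← ENNReal.ofReal_lt_ofReal_iff (by positivity), ENNReal.ofReal_sum_of_nonneg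
      fun i _ => Real.rpow_nonneg Metric.diam_nonneg _]
    refine lt_of_le_of_lt ((Finset.sum_le_sum fun i _ => ?_).trans (ENNReal.sum_le_tsum _)) hsum
    rcases (t i).eq_empty_or_nonempty with k | k
    · rw [k, Metric.diam_empty, Real.zero_rpow (by positivity), ENNReal.ofReal_zero]
      exact zero_le
    · rw [iSup_pos k, Metric.diam, ENNReal.toReal_rpow]
      exact ENNReal.ofReal_toReal_le
  have s2 : ∑ i ∈ p.image n, (1 / 2 : ℝ) ^ i ≤ 2 :=
    (summable_geometric_two.sum_le_tsum _ fun i _ => by positivity).trans tsum_geometric_two.le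
  have s3 := this.trans (Finset.sum_le_sum fun i _ => he' i)
  rw [Finset.sum_add_distrib, ← Finset.mul_sum] at s3
  nlinarith

end Pool.Agent.P.MP_39a2dc_an.Dim
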