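import Pool.Agent.P.MP_39a2dc_an.HFinal
import Pool.Agent.P.MP_39a2dc_an.HDim

/-! The limit curve has Hausdorff dimension above one. -/

open scoped InnerProductSpace MatrixGroups Matrix
open Filter Topology Set

set_option linter.unusedSectionVars false

namespace Pool.Agent.P.MP_39a2dc_an.H

variable {V : Type*} [NormedAddCommGroup V] [InnerProductSpace ℝ V] [FiniteDimensional ℝ V]

lemma exp_scale {t l : ℝ} (h : Real.exp (-(2 * t)) = l) (p : ℝ) :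
    l ^ p = Real.exp (-(2 * p * t)) := by
  rw [← h, ← Real.exp_mul]
  congr 1
  ring

namespace Sys
variable {Γ : Type*} [Group Γ] [Nontrivial V] [Nontrivial (Wd V)] (S : Sys Γ V)

lemma growth (T : ℝ) : ∃ K : ℝ, 0 < K ∧ ∀ γ g t h, S.Al T γ g t h →
    ‖S.A γ‖ ≤ K ^ 2 * Real.exp (K * t) := by
  obtain ⟨K, hK, h1⟩ := S.exists_bd (max T S.F.R * 6 * max T S.F.R)
  refine ⟨K, by linarith, fun γ g t h H => ?_⟩
  have kb : ∀ n, nn (S.trk g n) ≤ max T S.F.R := fun n => (S.nn_trk g n).trans (le_max_right _ _)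
  have b : ∀ {δ : Γ} {p q : G} {s : ℝ}, S.F.r δ = p * D s * q⁻¹ → nn p ≤ max T S.F.R →
      nn q ≤ max T S.F.R → |s| ≤ 1 → ‖S.A δ‖ ≤ K := fun e hp hq hs =>
    (h1 _ (by rw [e]; exact nn_mul_le (nn_mul_le hp (nn_D_le hs)) (by rwa [nn_inv]))).1
  have ind : ∀ n : ℕ, ‖S.A (S.tr g n)‖ ≤ K ^ (n + 1) := by
    intro n
    induction n with
    | zero => simpa using b (S.r_tr g 0) (H.2.1.trans (le_max_left _ _)) (kb 0) (by simp)
    | succ n ih =>
      have e : S.tr g (n + 1) = S.tr g n * ((S.tr g n)⁻¹ * S.tr g (n + 1)) := by group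
      rw [e, pow_succ]
      refine (S.norm_A_mul_le _ _).trans (mul_le_mul ih (b (s := 1) ?_ (kb n) (kb (n + 1))
        (by simp)) (norm_nonneg _) (by positivity))
      rw [map_mul, map_inv, r_tr, r_tr, Nat.cast_succ, D_add]; group
  have e : γ = S.tr g ⌊t⌋₊ * ((S.tr g ⌊t⌋₊)⁻¹ * γ) := by group
  have f1 := Nat.floor_le H.2.2.2
  have f2 := Nat.lt_floor_add_one t
  have b2 : ‖S.A ((S.tr g ⌊t⌋₊)⁻¹ * γ)‖ ≤ K := by
    refine b (s := t - ⌊t⌋₊) ?_ (kb ⌊t⌋₊) (H.2.2.1.trans (le_max_left _ _))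
      (abs_le.2 ⟨by linarith, by linarith⟩)
    rw [map_mul, map_inv, r_tr, H.1, show t - (⌊t⌋₊ : ℝ) = -(⌊t⌋₊ : ℝ) + t by ring, D_add, D_neg]
    group
  have b3 : K ^ ⌊t⌋₊ ≤ Real.exp (K * t) :=
    (pow_le_pow_left₀ (b := Real.exp K) (by linarith) (by linarith [Real.add_one_le_exp K])
      _).trans (by
      rw [← Real.exp_nat_mul]
      exact Real.exp_le_exp.2 (by nlinarith))
  calc ‖S.A γ‖ ≤ K ^ (⌊t⌋₊ + 1) * K := by
        conv_lhs => rw [e]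
        exact (S.norm_A_mul_le _ _).trans (mul_le_mul (ind _) b2 (norm_nonneg _) (by positivity))
    _ = K ^ 2 * K ^ ⌊t⌋₊ := by ring
    _ ≤ _ := mul_le_mul_of_nonneg_left b3 (by positivity)

lemma dd_lower : ∃ c β η : ℝ, 0 < c ∧ 0 < β ∧ 0 < η ∧
    ∀ a b, 0 ≤ a → a < b → b ≤ 1 → b - a ≤ η → c * (b - a) ^ β ≤ S.dd a b := by
  obtain ⟨K1, hK1, h1⟩ := S.growth (max 3 S.F.R)
  obtain ⟨K2, hK2, h2⟩ := S.swap.growth (max 3 S.F.R)
  obtain ⟨δ, hδ, hd⟩ := S.unif (isCompact_ball (max 3 S.F.R)) (z := fun h => act h (1, -0))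
    (w := fun h => act h (1, -1)) (by fun_prop) (by fun_prop)
    (fun h _ => by rw [dt_act_one]; norm_num)
  obtain ⟨η, hη, -, hs⟩ := S.exists_scale 0
  refine ⟨δ / (K1 ^ 4 * K2 ^ 4), K1 + K2, η, by positivity, by positivity, hη,
    fun a b ha hab hb hl => ?_⟩
  obtain ⟨γ, t, h, H, -, el⟩ := hs a b ha hab hb hl
  have e := S.dd_eq H.1 0 1
  simp only [el, zero_mul, add_zero, one_mul, add_sub_cancel] at e
  obtain ⟨p, -, ep⟩ := S.X_act_eq γ (act_one_ne h (-0))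
  obtain ⟨q, -, eq⟩ := S.X_act_eq γ (act_one_ne h (-1))
  have le : ∀ {v w : Pl} {p : ℝ}, S.A γ (S.X v) = p • S.X w → ‖p‖ ≤ ‖S.A γ‖ := fun {v w p} k => by
    have := (S.A γ).le_opNorm (S.X v)
    rwa [k, norm_smul, S.norm_X, S.norm_X, mul_one, mul_one] at this
  have k1 := cr_map_map_le (S.A γ⁻¹) (S.A γ (S.X (act h (1, -0)))) (S.A γ (S.X (act h (1, -1))))
  rw [S.A_inv_A, S.A_inv_A, ep, eq, cr_smul_left, cr_smul_right, norm_smul, norm_smul, e,
    S.norm_A_inv] at k1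
  have k2 := abs_inner_le_of_cr (S.norm_X (act h (1, -1))) (S.norm_X (act h (1, -0)))
    (S.Y (act h (1, -1)))
  rw [real_inner_comm, real_inner_comm (S.X (act h (1, -1))), S.incidence (act_one_ne h _),
    abs_zero, zero_add, S.norm_Y, mul_one, norm_cr_comm] at k2
  have k3 := ((hd h H.2.2.1).trans k2).trans k1
  have a1 := h1 γ _ t h H
  have a2 : ‖S.B γ‖ ≤ _ := h2 γ _ t h H
  have d0 : 0 ≤ S.dd a b := norm_nonneg _
  have k4 : ‖S.B γ‖ ^ 2 * (‖p‖ * (‖q‖ * S.dd a b)) ≤ (K2 ^ 2 * Real.exp (K2 * t)) ^ 2 *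
      (K1 ^ 2 * Real.exp (K1 * t) * (K1 ^ 2 * Real.exp (K1 * t) * S.dd a b)) := by
    gcongr
    exacts [(le ep).trans a1, (le eq).trans a1]
  have k5 : Real.exp (-(2 * (K1 + K2) * t)) *
      (Real.exp (K2 * t) ^ 2 * Real.exp (K1 * t) ^ 2) = 1 := by
    rw [sq, sq, ← Real.exp_add, ← Real.exp_add, ← Real.exp_add, ← Real.exp_add, ← Real.exp_zero]
    congr 1
    ring
  rw [exp_scale el, div_mul_eq_mul_div, div_le_iff₀ (by positivity)]
  refine (mul_le_mul_of_nonneg_right (k3.trans k4) (Real.exp_pos _).le).trans (le_of_eq ?_)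
  linear_combination (S.dd a b * (K1 ^ 4 * K2 ^ 4)) * k5

end Sys

namespace Sys2
variable {Γ : Type*} [Group Γ] [Nontrivial V] [Nontrivial (Wd V)] [Nontrivial (Wd (Wd V))]
  (S : Sys2 Γ V)
open Sys

lemma dd_upper : ∃ C η : ℝ, 0 < C ∧ 0 < η ∧
    ∀ a b, 0 ≤ a → a < b → b ≤ 1 → b - a ≤ η → S.dd a b ≤ C * (b - a) ^ (S.c / 2) := by
  obtain ⟨K, hK, h1⟩ := S.tau_le (max 3 S.F.R)
  obtain ⟨Dm, hDm, hD⟩ := S.Dd_le (max 3 S.F.R)
  obtain ⟨t0, ht0⟩ := S.approx (max 3 S.F.R) one_pos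
  obtain ⟨η, hη, -, hs⟩ := S.exists_scale t0
  refine ⟨(Dm + 1) * K, η, by positivity, hη, fun a b ha hab hb hl => ?_⟩
  obtain ⟨γ, t, h, H, ht, el⟩ := hs a b ha hab hb hl
  have ap := (abs_le.1 (ht0 γ _ t h H ht 0 ⟨le_rfl, zero_le_one⟩ 1 ⟨zero_le_one, le_rfl⟩)).2
  simp only [S.dd_eq H.1, el, zero_mul, add_zero, one_mul, add_sub_cancel] at ap
  have : S.dd a b ≤ (Dm + 1) * S.τ γ :=
    (div_le_iff₀ (S.τ_pos γ)).1 (by linarith [hD h H.2.2.1])
  rw [exp_scale el, mul_assoc, show 2 * (S.c / 2) * t = S.c * t by ring]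
  exact this.trans (mul_le_mul_of_nonneg_left (h1 γ _ t h H) (by positivity))

lemma dt_pt (x : ℝ) : dt (pt x) e1 ≠ 0 := by simp [dt, pt, e1]

/-- The projection of the limit curve from the point at infinity. -/
noncomputable def Up (x : ℝ) : ℝ := S.Uf e1 (pt x)

lemma Up_lip : ∃ C : ℝ, 0 < C ∧ ∀ x ∈ Icc (0 : ℝ) 1, ∀ x' ∈ Icc (0 : ℝ) 1,
    |S.Up x - S.Up x'| ≤ C * S.dd x x' := by
  obtain ⟨δ, hδ, hd⟩ := S.unif (isCompact_Icc (a := (0 : ℝ)) (b := 1)) (z := pt)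
    (w := fun _ => e1) (by unfold pt; fun_prop) continuous_const fun x _ => dt_pt x
  refine ⟨(δ * δ)⁻¹, by positivity, fun x hx x' hx' => ?_⟩
  have k : |S.om e1 (S.X (pt x)) (S.X (pt x'))| ≤ S.dd x x' := by
    rw [om, real_inner_comm]
    exact abs_inner_le_norm_of_unit (S.w.norm_Y _) _
  rw [S.om_X (dt_pt x) (dt_pt x'), abs_neg, abs_mul, abs_mul] at k
  rw [le_inv_mul_iff₀ (by positivity)]
  refine le_trans (mul_le_mul_of_nonneg_right ?_ (abs_nonneg _)) k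
  exact mul_le_mul (hd x hx) (hd x' hx') hδ.le (abs_nonneg _)

lemma Dd_scale {a t : ℝ} {γ : Γ} {h : G} (e : S.F.r γ = ga a * D t * h⁻¹) :
    ∃ l : ℝ, 0 < l ∧ ∀ s s', S.Dd h s s' =
      l * |S.Up (a + s * Real.exp (-(2 * t))) - S.Up (a + s' * Real.exp (-(2 * t)))| := by
  have r0 : Rel S.F γ (act h e2) e1 := ⟨e1_ne, -Real.exp (-t), by simp, by
    rw [e, act_mul, act_inv_act, act_mul, act_D]
    ext <;> simp [act, ga, e1, e2]⟩
  have r1 : ∀ s, Rel S.F γ (act h (1, -s)) (pt (a + s * Real.exp (-(2 * t)))) := fun s =>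
    ⟨pt_ne _, Real.exp t, (Real.exp_pos t).ne', by rw [e, act_mul, act_inv_act, act_ga_D]⟩
  obtain ⟨κ, hκ, e1⟩ := S.om_act r0
  obtain ⟨β, hβ, e2⟩ := S.Y_act r0
  have := abs_pos.2 hκ
  have := abs_pos.2 hβ
  refine ⟨|κ| / (|β| * |β|), by positivity, fun s s' => ?_⟩
  obtain ⟨p, hp, f1⟩ := S.X_rel (r1 s)
  obtain ⟨q, hq, f2⟩ := S.X_rel (r1 s')
  generalize a + s * Real.exp (-(2 * t)) = x at f1
  generalize a + s' * Real.exp (-(2 * t)) = x' at f2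
  have := abs_pos.2 hp
  have := abs_pos.2 hq
  have := abs_pos.2 (S.trans (dt_pt x))
  have := abs_pos.2 (S.trans (dt_pt x'))
  rw [Dd, e1, e2, e2 (S.X (act h (1, -s'))), f1, f2, om_smul, S.om_X (dt_pt _) (dt_pt _),
    real_inner_smul_left, real_inner_smul_left, Up, Up]
  simp only [abs_mul, abs_neg]
  field_simp

variable {S}

lemma NM.back (hN : S.NM) : ∃ κ η : ℝ, 0 < κ ∧ 0 < η ∧
    ∀ a b, 0 ≤ a → a < b → b ≤ 1 → b - a ≤ η → ∃ t1 t2, a ≤ t1 ∧ t1 ≤ t2 ∧ t2 ≤ b ∧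
      (1 + κ) * |S.Up a - S.Up b| ≤
        |S.Up a - S.Up t1| + |S.Up t1 - S.Up t2| + |S.Up t2 - S.Up b| ∧
      0 < |S.Up a - S.Up t1| + |S.Up t1 - S.Up t2| + |S.Up t2 - S.Up b| := by
  obtain ⟨κ, hκ, hg⟩ := hN.gain (max 3 S.F.R)
  obtain ⟨Dm, hDm, hD⟩ := S.Dd_le (max 3 S.F.R)
  obtain ⟨η, hη, -, hs⟩ := S.exists_scale 0
  refine ⟨κ / Dm, η, by positivity, hη, fun a b ha hab hb hl => ?_⟩
  obtain ⟨γ, t, h, H, -, el⟩ := hs a b ha hab hb hl
  obtain ⟨t1, t2, c1, c2, c3, c4⟩ := hg h H.2.2.1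
  obtain ⟨l, hl, e⟩ := S.Dd_scale H.1
  have k := hD h H.2.2.1
  simp only [e, el, zero_mul, add_zero, one_mul, add_sub_cancel] at c4 k
  have hl0 : 0 ≤ b - a := by linarith
  have k0 := mul_nonneg hl.le (abs_nonneg (S.Up a - S.Up b))
  have k1 : κ / Dm * (l * |S.Up a - S.Up b|) ≤ κ := by
    rw [div_mul_eq_mul_div, div_le_iff₀ hDm]
    exact mul_le_mul_of_nonneg_left k hκ.le
  refine ⟨a + t1 * (b - a), a + t2 * (b - a), by nlinarith, by nlinarith, by nlinarith,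
    le_of_mul_le_mul_left (by linarith) hl, pos_of_mul_pos_left' hl (by linarith)⟩
where pos_of_mul_pos_left' {l x : ℝ} (hl : 0 < l) (h : 0 < l * x) : 0 < x :=
  (mul_pos_iff_of_pos_left hl).1 h

theorem NM.dim (hN : S.NM) : 1 < dimH (range fun x => S.X (pt x)) := by
  obtain ⟨κ, η1, hκ, h1, hb⟩ := hN.back
  obtain ⟨C1, η2, hC1, h2, hu⟩ := S.dd_upper
  obtain ⟨c, β, η3, hc, hβ, h3, hl⟩ := S.dd_lower
  obtain ⟨C, hC, hp⟩ := S.Up_lip
  obtain ⟨η, hη, e0, e1, e2, e3⟩ : ∃ η : ℝ, 0 < η ∧ η ≤ 1 ∧ η ≤ η1 ∧ η ≤ η2 ∧ η ≤ η3 :=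
    ⟨min (min 1 η1) (min η2 η3), by positivity, by simp, by simp, by simp, by simp⟩
  have hα : 0 < S.c / 2 := half_pos S.cpos
  refine Dim.one_lt_dimH _ (U := S.Up) (D := S.dd) (η := η) (c := c / (C * C1) ^ (β / (S.c / 2)))
    (K := β / (S.c / 2)) hκ hC (by positivity) (by positivity) (fun x x' => ?_)
    (fun x x' => norm_cr_comm _ _)
    (fun x y z => cr_triangle' (S.norm_X _) (S.norm_X _) (S.norm_X _))
    (fun x => (S.X_cont (pt_ne x)).comp ((show Continuous pt by unfold pt; fun_prop).tendsto x))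
    (fun x hx x' hx' => hp x ⟨hx.1, hx.2.trans e0⟩ x' ⟨hx'.1, hx'.2.trans e0⟩)
    (fun x y y' z k0 k1 k2 k3 k4 => ?_) (fun a b ha hab hb' => ?_) ?_
  · have := norm_cr_le (S.X (pt x)) (S.X (pt x') - S.X (pt x))
    rwa [cr_sub_right, cr_self, sub_zero, S.norm_X, one_mul, ← dist_eq_norm, dist_comm] at this
  · rcases k2.eq_or_lt with rfl | k2
    · rw [sub_self, abs_zero, Real.zero_rpow (by positivity), mul_zero]
      exact norm_nonneg _
    have m1 := hp y ⟨by linarith, by linarith⟩ y' ⟨by linarith, by linarith⟩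
    have m2 := hu y y' (by linarith) k2 (by linarith) (by linarith)
    have m3 := hl x z k0 (by linarith) (by linarith) (by linarith)
    have m4 : (y' - y) ^ (S.c / 2) ≤ (z - x) ^ (S.c / 2) :=
      Real.rpow_le_rpow (by linarith) (by linarith) hα.le
    have m5 : |S.Up y - S.Up y'| ≤ C * C1 * (z - x) ^ (S.c / 2) := by
      rw [mul_assoc]
      exact m1.trans (mul_le_mul_of_nonneg_left
        (m2.trans (mul_le_mul_of_nonneg_left m4 hC1.le)) hC.le)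
    have n : 0 ≤ z - x := by linarith
    have m6 := Real.rpow_le_rpow (abs_nonneg _) m5 (show 0 ≤ β / (S.c / 2) by positivity)
    rw [Real.mul_rpow (by positivity) (by positivity), ← Real.rpow_mul n,
      mul_div_cancel₀ _ hα.ne'] at m6
    refine (mul_le_mul_of_nonneg_left m6 (by positivity)).trans (le_trans (le_of_eq ?_) m3)
    field_simp
  · obtain ⟨t1, t2, c1, c2, c3, c4, -⟩ := hb a b ha hab (by linarith) (by linarith)
    exact ⟨t1, t2, c1, c2, c3, c4⟩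
  · obtain ⟨t1, t2, c1, c2, c3, -, c4⟩ := hb 0 η le_rfl hη e0 (by linarith)
    by_contra hn
    have k : ∀ x, 0 ≤ x → x ≤ η → S.Up x = S.Up 0 := fun x p q =>
      not_not.1 fun r => hn ⟨0, x, le_rfl, p, q, Ne.symm r⟩
    simp [k t1 c1 (c2.trans c3), k t2 (c1.trans c2) c3, k η hη.le le_rfl] at c4

/-- In the degenerate case the limit curve spans a proper subspace. -/
lemma exists_inv (hD : ∀ h s s', S.Dd h s s' = 0) :
    ∃ W : Submodule ℝ V, W ≠ ⊥ ∧ W ≠ ⊤ ∧ ∀ γ, ∀ v ∈ W, S.A γ v ∈ W := by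
  refine ⟨Submodule.span ℝ {u | ∃ v ≠ 0, u = S.X v}, fun h => S.X_ne e1 ?_, fun h => ?_,
    fun γ v hv => ?_⟩
  · rw [← Submodule.mem_bot ℝ, ← h]
    exact Submodule.subset_span ⟨e1, e1_ne, rfl⟩
  · let φ : V → ℝ := fun u => S.om e2 (S.Y e2) u - S.Uf e2 (1, -0) * ⟪u, S.Y e2⟫_ℝ
    have φs : ∀ (c : ℝ) u, φ (c • u) = c * φ u := fun c u => by
      simp only [φ, om, cr_smul_right, real_inner_smul_left]; ring
    have φa : ∀ u v, φ (u + v) = φ u + φ v := fun u v => by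
      simp only [φ, om, cr_add_right, inner_add_left]; ring
    have φc : Continuous φ :=
      ((continuous_cr.comp (continuous_const.prodMk continuous_id)).inner continuous_const).sub
        (continuous_const.mul (continuous_id.inner continuous_const))
    have p1 : ∀ v : Pl, v.1 ≠ 0 → φ (S.X v) = 0 := fun v hv => by
      obtain ⟨s, -, e⟩ := S.X_smul_eq hv (v := (1, -(-(v.2 / v.1)))) (by simp)
      rw [show v.1 • ((1 : ℝ), -(-(v.2 / v.1))) = v by ext <;> simp; field_simp] at e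
      have k := hD 1 (-(v.2 / v.1)) 0
      rw [Dd_eq, act_one, act_one, act_one, abs_eq_zero, sub_eq_zero] at k
      have q := S.trans (show dt (1, -(-(v.2 / v.1))) e2 ≠ 0 by simp [dt, e2])
      rw [e, φs]
      simp only [φ]
      rw [← k, Uf, div_mul_cancel₀ _ q, sub_self, mul_zero]
    have p2 : φ (S.X e2) = 0 := by
      obtain ⟨s, -, hs⟩ := S.exists_sign (l := 𝓝[≠] (0 : ℝ)) (f := pt) e2_ne
        (((show Continuous pt by unfold pt; fun_prop).tendsto 0).mono_left nhdsWithin_le_nhds)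
      refine tendsto_nhds_unique ((φc.tendsto _).comp hs) (tendsto_const_nhds.congr' ?_)
      filter_upwards [self_mem_nhdsWithin] with a ha
      rw [Function.comp_apply, φs, p1 (pt a) ha, mul_zero]
    have p3 : ∀ u, φ u = 0 := fun u => by
      refine Submodule.span_induction (p := fun u _ => φ u = 0) ?_ ?_ ?_ ?_
        (h ▸ Submodule.mem_top : u ∈ Submodule.span ℝ {u | ∃ v ≠ 0, u = S.X v})
      · rintro _ ⟨v, hv, rfl⟩
        by_cases k : v.1 = 0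
        · have k2 : v.2 ≠ 0 := fun k2 => hv (Prod.ext k k2)
          obtain ⟨s, -, e⟩ := S.X_smul_eq k2 e2_ne
          rw [show v.2 • e2 = v by ext <;> simp [e2, k]] at e
          rw [e, φs, p2, mul_zero]
        · exact p1 v k
      · simpa using φs 0 0
      · intro x y _ _ hx hy
        rw [φa, hx, hy, add_zero]
      · intro c x _ hx
        rw [φs, hx, mul_zero]
    have p4 : S.Uf e2 (1, -0) = 0 := by
      have := p3 (S.Y e2)
      simp only [φ, om, cr_self, inner_zero_left, real_inner_self_eq_norm_sq, S.norm_Y] at this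
      linarith
    have p5 : ∀ u, S.om e2 (S.Y e2) u = 0 := fun u => by
      simpa only [φ, p4, zero_mul, sub_zero] using p3 u
    have p6 : S.w.Y e2 = 0 := wd_ext fun u v => by
      rw [inner_zero_left, real_inner_comm]
      exact (S.om_eq e2_ne u v).trans (by rw [p5, p5]; ring)
    simpa [p6] using S.w.norm_Y e2
  · refine Submodule.span_induction (p := fun v _ => S.A γ v ∈ _) ?_ ?_ ?_ ?_ hv
    · rintro _ ⟨v, hv, rfl⟩
      obtain ⟨c, -, e⟩ := S.X_act_eq γ hv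
      rw [e]
      exact Submodule.smul_mem _ _ (Submodule.subset_span ⟨_, act_ne_zero _ hv, rfl⟩)
    · simp
    · intro x y _ _ hx hy
      rw [map_add]
      exact Submodule.add_mem _ hx hy
    · intro c x _ hx
      rw [map_smul]
      exact Submodule.smul_mem _ _ hx

end Sys2

open HD in
theorem main_dim {Γ : Type*} [Group Γ] {m : ℕ} {S : Finset Γ} (hsym : ∀ s ∈ S, s⁻¹ ∈ S)
    (hgen : Subgroup.closure (S : Set Γ) = ⊤) (F : Fu Γ) (ρ : Γ →* SL(m + 3, ℝ))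
    (h1 : IsAnosov S ρ 1) (h2 : IsAnosov S ρ 2)
    (hirr : ∀ W : Submodule ℝ (Fin (m + 3) → ℝ),
      (∀ γ, ∀ v ∈ W, (ρ γ : Matrix (Fin (m + 3)) (Fin (m + 3)) ℝ) *ᵥ v ∈ W) → W = ⊥ ∨ W = ⊤)
    (hn : ¬ Hyperconvex F.r ρ) :
    1 < dimH {v : Eu (m + 3) | ‖v‖ = 1 ∧ ∃ x ≠ 0, v.ofLp ∈ xi F.r ρ 1 x} := by
  obtain ⟨Sy, e1, rfl⟩ := exists_sys hsym hgen F h1 h2
  rcases Sy.tri with h | h | h
  · refine (Sys2.NM.dim h).trans_le (dimH_mono ?_)
    rintro _ ⟨x, rfl⟩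
    exact ⟨Sy.norm_X _, pt x, pt_ne x, X_mem e1 (pt_ne x)⟩
  · obtain ⟨W, w1, w2, w3⟩ := Sys2.exists_inv h
    rcases hirr (W.map (WithLp.linearEquiv 2 ℝ (Fin (m + 3) → ℝ)).toLinearMap) (by
      rintro γ _ ⟨v, hv, rfl⟩
      have := w3 γ v hv
      rw [e1] at this
      exact ⟨_, this, ofLp_op (ρ γ) v⟩) with k | k
    · exact absurd (Submodule.map_eq_bot_iff.1 k) w1
    · exact absurd (Submodule.map_eq_top_iff.1 k) w2
  · exact absurd (hyp_of e1 h) hn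

open HD WithLp in
lemma attr_line {Γ : Type*} [Group Γ] {m : ℕ} (ρ : Γ →* SL(m + 3, ℝ)) (γ : Γ)
    {b c : OrthonormalBasis (Fin (m + 3)) ℝ (Eu (m + 3))}
    (h : ∀ i, op (ρ γ) (b i) = sv (ρ γ) i • c i) (hs : sv (ρ γ) 1 < sv (ρ γ) 0)
    {u : Fin (m + 3) → ℝ} (hu : u ∈ attr (ρ γ) 1) : ∃ a : ℝ, toLp 2 u = a • c 0 := by
  have key : ∀ i ≠ 0, (c i).ofLp ⬝ᵥ u = 0 := by
    intro i hi
    have p := sv_pos (ρ γ) i.2
    have h1 := (pairOf ρ).fr_dual γ (b := b) (c := c) h (fun i => (sv_pos _ i.2).ne') i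
    have h2 : (pairOf ρ).B γ⁻¹ (c i) = sv (ρ γ) i • b i := by
      rw [← (pairOf ρ).B_inv_B γ (b i), h1, map_smul, smul_smul, mul_inv_cancel₀ p.ne', one_smul]
    have h3 : (ρ γ : Matrix (Fin (m + 3)) (Fin (m + 3)) ℝ)ᵀ *ᵥ (c i).ofLp =
        sv (ρ γ) i • (b i).ofLp := by
      have := congrArg ofLp h2
      change ((ρ γ⁻¹)⁻¹ : SL(m + 3, ℝ)).1ᵀ *ᵥ (c i).ofLp = _ at this
      rwa [map_inv, inv_inv] at this
    refine Submodule.iSup_induction _ (motive := fun u => (c i).ofLp ⬝ᵥ u = 0) hu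
      (fun μ u hu => ?_) (dotProduct_zero _) fun x y hx hy => by rw [dotProduct_add, hx, hy, add_zero]
    by_cases hμ : μ ∈ {μ : ℝ | sv (ρ γ) (1 - 1) ^ 2 ≤ μ}
    · rw [iSup_pos hμ, Module.End.mem_eigenspace_iff, Matrix.toLin'_apply] at hu
      have e := congrArg ((c i).ofLp ⬝ᵥ ·) hu
      simp only at e
      rw [Matrix.dotProduct_mulVec, ← Matrix.mulVec_transpose, Matrix.transpose_mul,
        Matrix.transpose_transpose, ← Matrix.mulVec_mulVec, h3, Matrix.mulVec_smul, ← ofLp_op, h,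
        ofLp_smul, smul_smul, smul_dotProduct, dotProduct_smul, smul_eq_mul, smul_eq_mul,
        ← sub_eq_zero, ← sub_mul] at e
      have q : sv (ρ γ) i < sv (ρ γ) 0 :=
        (sv_anti _ (Nat.one_le_iff_ne_zero.2 fun k => hi (Fin.ext k))).trans_lt hs
      have hμ : sv (ρ γ) 0 ^ 2 ≤ μ := hμ
      exact (mul_eq_zero.1 e).resolve_left (by nlinarith)
    · rw [iSup_neg hμ, Submodule.mem_bot] at hu
      rw [hu, dotProduct_zero]
  refine ⟨⟪c 0, toLp 2 u⟫_ℝ, ?_⟩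
  conv_lhs => rw [← c.sum_repr' (toLp 2 u)]
  refine Finset.sum_eq_single 0 (fun i _ hi => ?_) (by simp)
  rw [EuclideanSpace.inner_eq_star_dotProduct, star_trivial, dotProduct_comm, key i hi, zero_smul]

open HD WithLp in
theorem xi_line {Γ : Type*} [Group Γ] {m : ℕ} {S : Finset Γ} (hsym : ∀ s ∈ S, s⁻¹ ∈ S)
    (hgen : Subgroup.closure (S : Set Γ) = ⊤) (F : Fu Γ) (ρ : Γ →* SL(m + 3, ℝ))
    (h1 : IsAnosov S ρ 1) (h2 : IsAnosov S ρ 2) {x : Pl} (hx : x ≠ 0) :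
    ∃ u : Fin (m + 3) → ℝ, ∀ v ∈ xi F.r ρ 1 x, ∃ a : ℝ, v = a • u := by
  obtain ⟨Sy, e, rfl⟩ := exists_sys hsym hgen F h1 h2
  obtain ⟨γ, hγ, -⟩ := exists_toward Sy.F hx
  refine ⟨(Sy.X x).ofLp, fun v hv => ?_⟩
  obtain ⟨u, hu, l0⟩ := hv γ hγ
  obtain ⟨l1, l2⟩ := Sy.toward hx hγ
  have l3 : Tendsto (fun n => (toLp 2 (u n) : Eu (m + 3))) atTop (𝓝 (toLp 2 v)) :=
    ((PiLp.continuous_toLp 2 _).tendsto _).comp l0
  have l4 := (Filter.Tendsto.cr (tendsto_const_nhds (x := Sy.X x)) l3).norm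
  have l5 := (l1.add l2).mul l3.norm
  rw [add_zero, zero_mul] at l5
  have k := le_of_tendsto_of_tendsto l4 l5 (by
    filter_upwards [l2.eventually (gt_mem_nhds one_pos)] with n hn
    obtain ⟨b, c, h⟩ := exists_frame (ρ (γ n))
    have hn' := hn
    rw [e, (tau_eq ρ _).1, div_lt_one (sv_pos _ (by omega))] at hn'
    obtain ⟨a, ea⟩ := attr_line ρ _ h hn' (hu n)
    have n0 := c.orthonormal.1 0
    rw [ea, cr_smul_right, norm_smul, norm_smul, n0, mul_one, mul_comm]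
    refine mul_le_mul_of_nonneg_right ((cr_triangle' (Sy.norm_X x) (Sy.norm_U (γ n)) n0).trans
      (add_le_add (norm_cr_comm _ _).le ?_)) (norm_nonneg _)
    refine Sy.top_close (γ n) (b.orthonormal.1 0) ?_
    rw [e]
    change op (ρ (γ n)) _ = ‖op (ρ (γ n))‖ • _
    rw [(sv_spec _).1]; exact h 0)
  exact ⟨_, congrArg ofLp (eq_smul_of_cr (Sy.norm_X x) (norm_le_zero_iff.1 k))⟩

end Pool.Agent.P.MP_39a2dc_an.H
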