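import Pool.Agent.P.MP_39a2dc_an.HRefine

/-! Ping-pong: infinite length forces divergence of the series beyond exponent one. -/

open scoped InnerProductSpace
open Filter Topology Set

set_option linter.unusedSectionVars false

namespace Pool.Agent.P.MP_39a2dc_an.H

variable {V : Type*} [NormedAddCommGroup V] [InnerProductSpace ℝ V] [FiniteDimensional ℝ V]

def qt (y : ℝ) : Pl := (1, y)
lemma qt_ne (y : ℝ) : qt y ≠ 0 := by simp [qt]

lemma arc_of_sign {h : G} {σ σ' : ℝ} {v : Pl} (H : Arc h σ v) (hs : 0 < σ * σ') : Arc h σ' v := by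
  obtain ⟨h1, h2⟩ := H
  constructor
  · by_contra hc; nlinarith [mul_nonneg (mul_self_nonneg σ) (not_lt.1 hc)]
  · by_contra hc; nlinarith [mul_nonneg (mul_self_nonneg σ) (neg_nonneg.2 (not_lt.1 hc))]

lemma arc_interp {h g : G} {σ : ℝ} (H1 : Arc h σ (act g (pt (-2)))) (H2 : Arc h σ (act g (pt 2)))
    {x : ℝ} (hx : x ∈ Icc (-2 : ℝ) 2) : Arc h σ (act g (pt x)) := by
  unfold Arc at *
  rw [← act_mul] at *
  generalize h⁻¹ * g = k at *
  simp only [act, pt] at *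
  obtain ⟨a1, a2⟩ := H1
  obtain ⟨b1, b2⟩ := H2
  obtain ⟨x1, x2⟩ := hx
  have aux : ∀ u v : ℝ, 0 < u * (-2) + v → 0 < u * 2 + v → 0 < u * x + v := by
    intro u v p q
    rcases le_total 0 u with h0 | h0 <;> nlinarith
  constructor
  · have := aux (-(σ * k 1 0)) (-(σ * k 1 1)) (by linarith) (by linarith); linarith
  · have := aux (σ * (k 0 0 + k 1 0)) (σ * (k 0 1 + k 1 1)) (by linarith) (by linarith); linarith

lemma exists_fin {Γ : Type*} [Group Γ] (F : Fu Γ) (T : ℝ) :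
    ∃ T0 : ℝ, ∀ h, nn h ≤ T → ∃ f σ, nn (F.r f) ≤ T0 ∧
      ∀ x ∈ Icc (-2 : ℝ) 2, Arc h σ (act (F.r f) (pt x)) := by
  refine (isCompact_ball T).induction_on (p := fun s => ∃ T0 : ℝ, ∀ h ∈ s, ∃ f σ,
      nn (F.r f) ≤ T0 ∧ ∀ x ∈ Icc (-2 : ℝ) 2, Arc h σ (act (F.r f) (pt x)))
    ⟨1, by simp⟩ (fun s t hst ⟨κ, h⟩ => ⟨κ, fun x hx => h x (hst hx)⟩) ?_ ?_
  · rintro s t ⟨κ, h⟩ ⟨κ', h'⟩
    refine ⟨max κ κ', ?_⟩
    rintro x (hx | hx)
    · obtain ⟨f, σ, a, b⟩ := h x hx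
      exact ⟨f, σ, a.trans (le_max_left _ _), b⟩
    · obtain ⟨f, σ, a, b⟩ := h' x hx
      exact ⟨f, σ, a.trans (le_max_right _ _), b⟩
  · intro h _
    obtain ⟨k, f, kn, t, σ, hz, harc⟩ := F.exists_zoom_arc (hfix F) (h * L (1 / 2))
      (MP_39a2dc_an.mk 2 0 0 (1 / 2) (by norm_num))
    obtain ⟨c, s, hc, s0, s1, e⟩ := arc_rep harc
    have d : ∀ x, dt (pt x) (act k e2) = c * (-(x * s / 2) - 2) := fun x => by
      rw [e, dt_smul_right]; simp [dt, pt, act]; left; ring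
    have d1 : dt (pt (-2)) (act k e2) ≠ 0 := by rw [d]; exact mul_ne_zero hc (by linarith)
    have d2 : dt (pt 2) (act k e2) ≠ 0 := by rw [d]; exact mul_ne_zero hc (by linarith)
    obtain ⟨n, a1, a2⟩ := ((hz.arc d1).and (hz.arc d2)).exists
    have c2 := mul_self_pos.2 hc
    have a1' := arc_of_sign a1 (σ' := -c) (by rw [d]; nlinarith)
    have a2' := arc_of_sign a2 (σ' := -c) (by rw [d]; nlinarith)
    have op : ∀ v, IsOpen {h : G | Arc h (-c) v} := fun v => by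
      have ca : Continuous fun h : G => act h⁻¹ v := Continuous.act continuous_inv continuous_const
      exact (isOpen_lt (continuous_const.mul ca.snd) continuous_const).inter
        (isOpen_lt continuous_const (continuous_const.mul (ca.fst.add ca.snd)))
    refine ⟨_, mem_nhdsWithin_of_mem_nhds (((op _).inter (op _)).mem_nhds ⟨a1', a2'⟩),
      nn (F.r (f n)), fun h' hh' => ⟨f n, -c, le_rfl, fun x hx => arc_interp hh'.1 hh'.2 hx⟩⟩

namespace Sys2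
variable {Γ : Type*} [Group Γ] [Nontrivial V] [Nontrivial (Wd V)] [Nontrivial (Wd (Wd V))]
  (S : Sys2 Γ V)
open Sys

def Maps (s : Γ) (a b : ℝ) : Prop :=
  ∀ x ∈ Icc (-2 : ℝ) 2, ∃ c x' : ℝ, c ≠ 0 ∧ a < x' ∧ x' < b ∧ act (S.F.r s) (pt x) = c • pt x'

def Ex (δ : ℝ) (s : Γ) : Prop :=
  ∀ y : ℝ, |y| < 1 / 2 → δ * ‖S.w.A s‖ ≤ ‖S.w.B s⁻¹ (S.w.Y (qt y))‖

def Sep (s s' : Γ) : Prop := ∀ x ∈ Icc (-2 : ℝ) 2, ∀ x' ∈ Icc (-2 : ℝ) 2,
  dt (act (S.F.r s) (pt x)) (act (S.F.r s') (pt x')) ≠ 0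

def Q (δ a b r : ℝ) : Prop := ∃ W : Finset Γ, (∀ s ∈ W, S.Maps s a b ∧ S.Ex δ s) ∧
  (∀ s ∈ W, ∀ s' ∈ W, s ≠ s' → S.Sep s s') ∧ r ≤ ∑ s ∈ W, S.τ s

variable {S}

lemma Maps.mono {s : Γ} {a b a' b' : ℝ} (H : S.Maps s a b) (ha : a' ≤ a) (hb : b ≤ b') :
    S.Maps s a' b' := fun x hx => by
  obtain ⟨c, x', h1, h2, h3, h4⟩ := H x hx
  exact ⟨c, x', h1, ha.trans_lt h2, h3.trans_le hb, h4⟩

lemma Maps.sep {s s' : Γ} {a z b : ℝ} (H : S.Maps s a z) (H' : S.Maps s' z b) : S.Sep s s' := by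
  intro x hx y hy
  obtain ⟨c, x', h1, -, h3, h4⟩ := H x hx
  obtain ⟨c', y', k1, k2, -, k4⟩ := H' y hy
  rw [h4, k4, dt_smul_left, dt_smul_right]
  refine mul_ne_zero h1 (mul_ne_zero k1 ?_)
  simp only [dt, pt]; linarith

lemma Sep.symm {s s' : Γ} (H : S.Sep s s') : S.Sep s' s := fun x hx y hy => by
  rw [dt_comm]; exact neg_ne_zero.2 (H y hy x hx)

lemma Q.add {δ a z b r r' : ℝ} (h1 : a ≤ z) (h2 : z ≤ b) (H : S.Q δ a z r) (H' : S.Q δ z b r') :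
    S.Q δ a b (r + r') := by
  classical
  obtain ⟨W, w1, w2, w3⟩ := H
  obtain ⟨W', v1, v2, v3⟩ := H'
  have dj : Disjoint W W' := Finset.disjoint_left.2 fun s hs hs' =>
    (w1 s hs).1.sep (v1 s hs').1 0 (by norm_num) 0 (by norm_num) (dt_self _)
  refine ⟨W ∪ W', fun s hs => ?_, fun s hs s' hs' hne => ?_, ?_⟩
  · rcases Finset.mem_union.1 hs with h | h
    · exact ⟨(w1 s h).1.mono le_rfl h2, (w1 s h).2⟩
    · exact ⟨(v1 s h).1.mono h1 le_rfl, (v1 s h).2⟩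
  · rcases Finset.mem_union.1 hs with h | h <;> rcases Finset.mem_union.1 hs' with h' | h'
    · exact w2 s h s' h' hne
    · exact (w1 s h).1.sep (v1 s' h').1
    · exact ((w1 s' h').1.sep (v1 s h).1).symm
    · exact v2 s h s' h' hne
  · rw [Finset.sum_union dj]; linarith

variable (S) in
lemma base0 : ∃ δ c : ℝ, 0 < δ ∧ 0 < c ∧ ∀ t0 : ℝ, ∃ η : ℝ, 0 < η ∧ η ≤ 1 ∧
    ∀ a b, 0 ≤ a → a < b → b ≤ 1 → b - a ≤ η → ∃ γ t h, S.Al (max 3 S.F.R) γ (ga a) t h ∧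
      t0 ≤ t ∧ Real.exp (-(2 * t)) = b - a ∧ S.Q δ a b (c * S.τ γ) := by
  set T := max 3 S.F.R with hT
  obtain ⟨T0, hF⟩ := exists_fin S.F T
  obtain ⟨K, hK, hbd⟩ := S.exists_bd T0
  obtain ⟨K', hK', hbd'⟩ := S.w.exists_bd T0
  obtain ⟨K1, h1⟩ := S.w.swap.ratio_close (max T (T0 * T) * 2)
  obtain ⟨δ, hδ, hd⟩ := S.w.swap.unif ((isCompact_Icc (a := (0 : ℝ)) (b := 1)).prod
    (isCompact_Icc (a := (-(1 / 2) : ℝ)) (b := 1 / 2)))
    (z := fun p => qt p.2) (w := fun p => (-1 : ℝ) • pt p.1) (by unfold qt; fun_prop)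
    (by unfold pt; fun_prop) (fun p hp => by
      obtain ⟨⟨p1, p2⟩, p3, p4⟩ := hp
      rw [dt_smul_right]; simp only [dt, qt, pt]; nlinarith)
  obtain ⟨t1, ht1⟩ := eventually_atTop.1
    ((tendsto_exp_zero tendsto_id S.w.swap.cpos K1).eventually (gt_mem_nhds (half_pos hδ)))
  refine ⟨δ / 2, 1 / (K' * K ^ 2), by positivity, by positivity, fun t0 => ?_⟩
  obtain ⟨η, hη, hη1, hs⟩ := S.exists_scale (max t0 t1)
  refine ⟨η, hη, hη1, fun a b ha hab hb hl => ?_⟩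
  obtain ⟨γ, t, h, H, ht, el⟩ := hs a b ha hab hb hl
  obtain ⟨f, σ, hf, harc⟩ := hF h H.2.2.1
  obtain ⟨b1, -⟩ := hbd f hf
  obtain ⟨-, b2⟩ := hbd' f hf
  refine ⟨γ, t, h, H, (le_max_left _ _).trans ht, el, {γ * f}, fun s hs => ?_, by simp, ?_⟩
  · rw [Finset.mem_singleton.1 hs]
    constructor
    · intro x hx
      obtain ⟨c, s, hc, s0, s1, e⟩ := arc_rep (harc x hx)
      refine ⟨c * Real.exp t, a + s * (b - a), mul_ne_zero hc (Real.exp_pos t).ne',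
        by nlinarith, by nlinarith, ?_⟩
      rw [map_mul, act_mul, e, act_smul, H.1, act_mul, act_inv_act, act_ga_D, el, smul_smul]
    · intro y hy
      have H' : S.Al (max T (T0 * T)) (γ * f) (ga a) t ((S.F.r f)⁻¹ * h) :=
        ⟨by rw [map_mul, H.1]; group, H.2.1.trans (le_max_left _ _),
          (nn_mul_le (by rwa [nn_inv]) H.2.2.1).trans (le_max_right _ _), H.2.2.2⟩
      have a1 := (abs_le.1 (h1 _ _ _ _ H'.inv _ (S.w.norm_Y (qt y)).le)).1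
      have a2 := ht1 t ((le_max_right _ _).trans ht)
      have a3 := hd (a, y) ⟨⟨ha, by linarith⟩, (abs_le.1 hy.le)⟩
      have e : act (ga a * W) e2 = (-1 : ℝ) • pt a := by
        rw [act_mul, act_W_e2, act_smul]; simp [act, ga, e1, pt]
      have e' : ‖S.w.swap.A (γ * f)⁻¹‖ = ‖S.w.A (γ * f)‖ := S.w.norm_B_inv _
      rw [e, e'] at a1
      rw [← le_div_iff₀ (S.w.A_pos _)]
      simp only [id] at a2 a3
      have a4 : δ ≤ |⟪S.w.Y (qt y), S.w.swap.Y ((-1 : ℝ) • pt a)⟫_ℝ| := a3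
      have a5 : ‖S.w.swap.A (γ * f)⁻¹ (S.w.Y (qt y))‖ = ‖S.w.B (γ * f)⁻¹ (S.w.Y (qt y))‖ := rfl
      rw [a5] at a1
      linarith
  · rw [Finset.sum_singleton]
    have p1 := S.A_pos γ; have p2 := S.wedge.A_pos γ; have p3 := S.A_pos (γ * f)
    have p4 := S.wedge.A_pos (γ * f)
    have a3 : ‖S.A (γ * f)‖ ≤ ‖S.A γ‖ * K :=
      (S.norm_A_mul_le γ f).trans (mul_le_mul_of_nonneg_left b1 p1.le)
    have a4 : ‖S.wedge.A γ‖ ≤ ‖S.wedge.A (γ * f)‖ * K' :=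
      (S.wedge.norm_A_le_mul γ f).trans (mul_le_mul_of_nonneg_left b2 p4.le)
    have a5 : S.τ γ ≤ K' * K ^ 2 * S.τ (γ * f) := by
      simp only [Pair.τ]
      rw [← mul_div_assoc, div_le_div_iff₀ (by positivity) (by positivity)]
      calc ‖S.wedge.A γ‖ * ‖S.A (γ * f)‖ ^ 2
          ≤ ‖S.wedge.A (γ * f)‖ * K' * (‖S.A γ‖ * K) ^ 2 := by gcongr
        _ = _ := by ring
    rw [div_mul_eq_mul_div, one_mul, div_le_iff₀ (by positivity)]
    linarith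

lemma Q.le {δ a b r r' : ℝ} (H : S.Q δ a b r) (h : r' ≤ r) : S.Q δ a b r' := by
  obtain ⟨W, w1, w2, w3⟩ := H
  exact ⟨W, w1, w2, h.trans w3⟩

variable (S) in
lemma base : ∃ δ c : ℝ, 0 < δ ∧ 0 < c ∧ ∀ Dm : ℝ, 0 ≤ Dm →
    (∀ h, nn h ≤ max 3 S.F.R → S.Dd h 0 1 ≤ Dm) → ∀ ε : ℝ, 0 < ε → ∃ η : ℝ, 0 < η ∧ η ≤ 1 ∧
      ∀ a b, 0 ≤ a → a < b → b ≤ 1 → b - a ≤ η → S.Q δ a b (c / (Dm + ε) * S.dd a b) := by
  obtain ⟨δ, c, hδ, hc, h0⟩ := S.base0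
  refine ⟨δ, c, hδ, hc, fun Dm hDm hD ε hε => ?_⟩
  obtain ⟨t0, ht0⟩ := S.approx (max 3 S.F.R) hε
  obtain ⟨η, hη, hη1, hs⟩ := h0 t0
  refine ⟨η, hη, hη1, fun a b ha hab hb hl => ?_⟩
  obtain ⟨γ, t, h, H, ht, el, hQ⟩ := hs a b ha hab hb hl
  refine hQ.le ?_
  have a1 := (abs_le.1 (ht0 γ _ t h H ht 0 ⟨le_rfl, zero_le_one⟩ 1 ⟨zero_le_one, le_rfl⟩)).2
  rw [S.dd_eq H.1, el] at a1
  simp only [zero_mul, add_zero, one_mul, add_sub_cancel] at a1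
  have a2 : S.dd a b ≤ (Dm + ε) * S.τ γ := by
    rw [← div_le_iff₀ (S.τ_pos γ)]; linarith [hD h H.2.2.1]
  rw [div_mul_eq_mul_div, div_le_iff₀ (by positivity)]
  nlinarith [mul_le_mul_of_nonneg_left a2 hc.le]

lemma big_of_deg (hD : ∀ h s s', S.Dd h s s' = 0) : ∃ δ : ℝ, 0 < δ ∧ ∀ r, S.Q δ 0 1 r := by
  obtain ⟨δ, c, hδ, hc, hb⟩ := S.base
  have d0 : 0 < S.dd 0 1 := norm_pos_iff.2 (S.cr_X_ne (by simp [dt, pt]))
  refine ⟨δ, hδ, fun r => ?_⟩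
  have hr : 0 < |r| + 1 := by positivity
  obtain ⟨η, hη, -, hs⟩ := hb 0 le_rfl (fun h _ => (hD h 0 1).le) (c * S.dd 0 1 / (|r| + 1))
    (by positivity)
  set c' := c / (0 + c * S.dd 0 1 / (|r| + 1)) with hc'
  have c0 : 0 ≤ c' := by positivity
  have it : ∀ k : ℕ, ∀ b, 0 ≤ b → b ≤ 1 → b ≤ k * η → S.Q δ 0 b (c' * S.dd 0 b) := by
    intro k
    induction k with
    | zero =>
      intro b h0 _ h2
      obtain rfl : b = 0 := le_antisymm (by simpa using h2) h0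
      exact ⟨∅, by simp, by simp, by simp [dd, cr_self]⟩
    | succ k ih =>
      intro b h0 h1 h2
      rcases le_or_gt b (k * η) with h | h
      · exact ih b h0 h1 h
      have k0 : 0 ≤ k * η := by positivity
      push_cast at h2
      refine ((ih (k * η) k0 (by linarith) le_rfl).add k0 h.le
        (hs _ b k0 h h1 (by linarith))).le ?_
      rw [← mul_add]
      exact mul_le_mul_of_nonneg_left (cr_triangle' (S.norm_X _) (S.norm_X _) (S.norm_X _)) c0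
  obtain ⟨k, hk⟩ := exists_nat_ge (1 / η)
  rw [div_le_iff₀ hη] at hk
  refine (it k 1 zero_le_one le_rfl hk).le ?_
  have : c' * S.dd 0 1 = |r| + 1 := by rw [hc']; field_simp; ring
  rw [this]; linarith [le_abs_self r]

lemma NM.big (hN : S.NM) : ∃ δ : ℝ, 0 < δ ∧ ∀ r, S.Q δ 0 1 r := by
  obtain ⟨δ, c1, hδ, hc1, hb0⟩ := S.base
  obtain ⟨Dm, hDm, hD⟩ := S.Dd_le (max 3 S.F.R)
  obtain ⟨η, hη, hη1, hb⟩ := hb0 Dm hDm.le hD 1 one_pos
  have hc : 0 < c1 / (Dm + 1) := by positivity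
  generalize c1 / (Dm + 1) = c at hb hc
  obtain ⟨κ, η', hκ, hη', hr⟩ := hN.refine
  set η0 := min η η' with hη0
  have m1 : η0 ≤ η := min_le_left _ _
  have m2 : η0 ≤ η' := min_le_right _ _
  have it : ∀ k : ℕ, ∀ a b, 0 ≤ a → a ≤ b → b ≤ η0 → S.Q δ a b ((1 + κ) ^ k * (c * S.dd a b)) := by
    intro k
    induction k with
    | zero =>
      intro a b ha hab hb'
      rcases hab.eq_or_lt with rfl | h
      · exact ⟨∅, by simp, by simp, by simp [dd, cr_self]⟩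
      · simpa using hb a b ha h (by linarith) (by linarith)
    | succ k ih =>
      intro a b ha hab hb'
      rcases hab.eq_or_lt with rfl | h
      · exact ⟨∅, by simp, by simp, by simp [dd, cr_self]⟩
      · obtain ⟨z1, z2, c1, c2, c3, c4⟩ := hr a b ha h (by linarith) (by linarith)
        obtain ⟨W, w1, w2, w3⟩ := ((ih a z1 ha c1 (by linarith)).add c1 c2
          (ih z1 z2 (by linarith) c2 (by linarith))).add (by linarith) c3
          (ih z2 b (by linarith) c3 hb')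
        refine ⟨W, w1, w2, le_trans ?_ w3⟩
        have := mul_le_mul_of_nonneg_left c4 (show 0 ≤ (1 + κ) ^ k * c by positivity)
        rw [pow_succ]; linarith
  have hη00 : 0 < η0 := lt_min hη hη'
  have d0 : 0 < S.dd 0 η0 := norm_pos_iff.2 (S.cr_X_ne (by simp [dt, pt]; exact hη00.ne'))
  refine ⟨δ, hδ, fun r => ?_⟩
  obtain ⟨k, hk⟩ := (((tendsto_pow_atTop_atTop_of_one_lt (show 1 < 1 + κ by linarith)).atTop_mul_const
    (mul_pos hc d0)).eventually_ge_atTop r).exists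
  obtain ⟨W, w1, w2, w3⟩ := it k 0 η0 le_rfl hη00.le le_rfl
  exact ⟨W, fun s hs => ⟨(w1 s hs).1.mono le_rfl (by linarith), (w1 s hs).2⟩, w2, hk.trans w3⟩

lemma Maps.inv {s : Γ} (H : S.Maps s 0 1) {y : ℝ} (hy : |y| < 1 / 2) :
    ∃ c y' : ℝ, c ≠ 0 ∧ |y'| < 1 / 2 ∧ act (S.F.r s⁻¹) (qt y) = c • qt y' := by
  set w := act (S.F.r s⁻¹) (qt y) with hw
  have hw0 : w ≠ 0 := act_ne_zero _ (qt_ne y)
  have key : 2 * |w.2| < |w.1| := by
    by_contra hc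
    push Not at hc
    have h2 : w.2 ≠ 0 := by
      intro h0
      rw [h0, abs_zero, mul_zero, abs_nonpos_iff] at hc
      exact hw0 (Prod.ext hc h0)
    obtain ⟨c, x', -, h3, h4, e⟩ := H (w.1 / w.2) (abs_le.1 (by
      rw [abs_div, div_le_iff₀ (abs_pos.2 h2)]; exact hc))
    have e1 : w = w.2 • pt (w.1 / w.2) := by
      ext
      · simp [pt]; field_simp
      · simp [pt]
    have e2 : qt y = (w.2 * c) • pt x' := by
      rw [← smul_smul, ← e, ← act_smul, ← e1, hw, map_inv, act_act_inv]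
    simp only [qt, pt, Prod.smul_mk, smul_eq_mul, mul_one, Prod.mk.injEq] at e2
    obtain ⟨y1, y2⟩ := abs_lt.1 hy
    rw [← e2.2] at e2
    nlinarith [e2.1]
  have h1 : w.1 ≠ 0 := by
    intro h0; rw [h0, abs_zero] at key; linarith [abs_nonneg w.2]
  refine ⟨w.1, w.2 / w.1, h1, ?_, ?_⟩
  · rw [abs_div, div_lt_iff₀ (abs_pos.2 h1)]; linarith
  · ext
    · simp [qt]
    · simp [qt]; field_simp

theorem diverge (hbig : ∃ δ : ℝ, 0 < δ ∧ ∀ r, S.Q δ 0 1 r) : ∃ ε : ℝ, 0 < ε ∧ ε ≤ 1 ∧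
    ¬ Summable fun γ => S.τ γ * (‖S.A γ‖ * ‖S.B γ‖) ^ (-ε) := by
  classical
  obtain ⟨δ, hδ, hQ⟩ := hbig
  obtain ⟨W0, w1, w2, w3⟩ := hQ (3 / δ)
  have pos : ∀ γ, 0 < ‖S.A γ‖ * ‖S.B γ‖ := fun γ => mul_pos (S.A_pos γ) (S.B_pos γ)
  obtain ⟨ε, hε, hε1, hsum⟩ : ∃ ε : ℝ, 0 < ε ∧ ε ≤ 1 ∧
      2 < δ * ∑ s ∈ W0, S.τ s * (‖S.A s‖ * ‖S.B s‖) ^ (-ε) := by
    have hc : Continuous fun ε : ℝ => δ * ∑ s ∈ W0, S.τ s * (‖S.A s‖ * ‖S.B s‖) ^ (-ε) := by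
      refine continuous_const.mul (continuous_finsetSum _ fun s _ => continuous_const.mul ?_)
      exact Continuous.rpow continuous_const continuous_neg fun _ => Or.inl (pos s).ne'
    have h0 : 2 < δ * ∑ s ∈ W0, S.τ s * (‖S.A s‖ * ‖S.B s‖) ^ (-(0 : ℝ)) := by
      simp only [neg_zero, Real.rpow_zero, mul_one]
      rw [div_le_iff₀ hδ] at w3; linarith
    obtain ⟨ε, h1, h2⟩ := ((((hc.tendsto 0).eventually (lt_mem_nhds h0)).filter_mono
      nhdsWithin_le_nhds).and (Ioo_mem_nhdsGT (show (0 : ℝ) < 1 from one_pos))).exists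
    exact ⟨ε, h2.1, h2.2.le, h1⟩
  refine ⟨ε, hε, hε1, fun hs => ?_⟩
  have : Nonempty {y : ℝ // |y| < 1 / 2} := ⟨⟨0, by norm_num⟩⟩
  set m : Γ → ℝ := fun w => ⨅ y : {y : ℝ // |y| < 1 / 2}, ‖S.w.B w⁻¹ (S.w.Y (qt y))‖ with hm
  have mb : ∀ w, BddBelow (range fun y : {y : ℝ // |y| < 1 / 2} => ‖S.w.B w⁻¹ (S.w.Y (qt y))‖) :=
    fun w => ⟨0, by rintro _ ⟨y, rfl⟩; exact norm_nonneg _⟩
  have m0 : ∀ w, 0 ≤ m w := fun w => le_ciInf fun y => norm_nonneg _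
  have m1 : ∀ w, m w ≤ ‖S.w.A w‖ := fun w => by
    refine (ciInf_le (mb w) ⟨0, by norm_num⟩).trans ?_
    simpa [S.w.norm_Y, S.w.norm_B_inv] using (S.w.B w⁻¹).le_opNorm (S.w.Y (qt 0))
  have m2 : ∀ s ∈ W0, ∀ w, δ * ‖S.w.A s‖ * m w ≤ m (s * w) := fun s hs w => by
    refine le_ciInf fun y => ?_
    obtain ⟨c, y', hc, hy', e⟩ := (w1 s hs).1.inv y.2
    obtain ⟨a, -, ea0⟩ := S.w.swap.X_par s⁻¹ (qt_ne y') hc e
    have ea : S.w.B s⁻¹ (S.w.Y (qt y)) = a • S.w.Y (qt y') := ea0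
    have h1 := (w1 s hs).2 y y.2
    rw [mul_inv_rev, map_mul, mul_apply_eq_comp, ea, map_smul, norm_smul]
    rw [ea, norm_smul, S.w.norm_Y, mul_one] at h1
    exact mul_le_mul h1 (ciInf_le (mb w) ⟨y', hy'⟩) (m0 w) (norm_nonneg _)
  set Fn : Γ → ℝ := fun w => m w / ‖S.A w‖ ^ 2 * (‖S.A w‖ * ‖S.B w‖) ^ (-ε) with hFn
  have f1 : ∀ s ∈ W0, ∀ w, δ * (S.τ s * (‖S.A s‖ * ‖S.B s‖) ^ (-ε)) * Fn w ≤ Fn (s * w) := by
    intro s hs w
    have p1 := S.A_pos s; have p2 := S.A_pos w; have p3 := S.A_pos (s * w)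
    have p4 := S.B_pos s; have p5 := S.B_pos w; have p6 := S.B_pos (s * w)
    have a1 := S.norm_A_mul_le s w
    have a2 := S.norm_B_mul_le s w
    have a3 : (‖S.A s‖ * ‖S.B s‖) ^ (-ε) * (‖S.A w‖ * ‖S.B w‖) ^ (-ε) ≤
        (‖S.A (s * w)‖ * ‖S.B (s * w)‖) ^ (-ε) := by
      rw [← Real.mul_rpow (pos s).le (pos w).le]
      refine Real.rpow_le_rpow_of_nonpos (pos _) ?_ (by linarith)
      calc _ ≤ (‖S.A s‖ * ‖S.A w‖) * (‖S.B s‖ * ‖S.B w‖) := mul_le_mul a1 a2 p6.le (by positivity)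
        _ = _ := by ring
    have a4 : δ * ‖S.wedge.A s‖ * m w / (‖S.A s‖ * ‖S.A w‖) ^ 2 ≤ m (s * w) / ‖S.A (s * w)‖ ^ 2 :=
      div_le_div₀ (m0 _) (m2 s hs w) (pow_pos p3 2) (pow_le_pow_left₀ p3.le a1 2)
    have a5 := mul_le_mul a4 a3 (mul_nonneg (Real.rpow_nonneg (pos s).le _)
      (Real.rpow_nonneg (pos w).le _)) (div_nonneg (m0 _) (sq_nonneg _))
    refine le_trans (le_of_eq ?_) a5
    simp only [hFn, Pair.τ]; field_simp
  have f0 : ∀ w, 0 ≤ Fn w := fun w =>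
    mul_nonneg (div_nonneg (m0 _) (sq_nonneg _)) (Real.rpow_nonneg (pos w).le _)
  have it : ∀ k : ℕ, ∃ W : Finset Γ, (∀ w ∈ W, ∀ x ∈ Icc (-2 : ℝ) 2, ∃ c x' : ℝ, c ≠ 0 ∧
      x' ∈ Icc (-2 : ℝ) 2 ∧ act (S.F.r w) (pt x) = c • pt x') ∧ 2 ^ k ≤ ∑ w ∈ W, Fn w := by
    intro k
    induction k with
    | zero =>
      refine ⟨{1}, fun w hw x hx => ⟨1, x, one_ne_zero, hx, ?_⟩, ?_⟩
      · rw [Finset.mem_singleton.1 hw, map_one, act_one, one_smul]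
      · simp [hFn, hm, S.w.norm_Y]
    | succ k ih =>
      obtain ⟨W, v1, v2⟩ := ih
      refine ⟨(W0 ×ˢ W).image fun p => p.1 * p.2, ?_, ?_⟩
      · intro w hw x hx
        obtain ⟨⟨s, w'⟩, hp, rfl⟩ := Finset.mem_image.1 hw
        obtain ⟨hs, hw'⟩ := Finset.mem_product.1 hp
        obtain ⟨c, x', hc, hx', e⟩ := v1 w' hw' x hx
        obtain ⟨c', x'', hc', l1, l2, e'⟩ := (w1 s hs).1 x' hx'
        refine ⟨c * c', x'', mul_ne_zero hc hc', ⟨by linarith, by linarith⟩, ?_⟩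
        rw [map_mul, act_mul, e, act_smul, e', smul_smul]
      · rw [Finset.sum_image]
        · rw [Finset.sum_product]
          calc (2 : ℝ) ^ (k + 1) = 2 * 2 ^ k := by ring
            _ ≤ (δ * ∑ s ∈ W0, S.τ s * (‖S.A s‖ * ‖S.B s‖) ^ (-ε)) * ∑ w ∈ W, Fn w :=
              mul_le_mul hsum.le v2 (by positivity) (by linarith)
            _ = ∑ s ∈ W0, ∑ w ∈ W, δ * (S.τ s * (‖S.A s‖ * ‖S.B s‖) ^ (-ε)) * Fn w := by
              rw [Finset.mul_sum W0, Finset.sum_mul_sum]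
            _ ≤ _ := Finset.sum_le_sum fun s hs => Finset.sum_le_sum fun w _ => f1 s hs w
        · rintro ⟨s, w⟩ hp ⟨s', w'⟩ hp' e
          obtain ⟨hs, hw⟩ := Finset.mem_product.1 (Finset.mem_coe.1 hp)
          obtain ⟨hs', hw'⟩ := Finset.mem_product.1 (Finset.mem_coe.1 hp')
          simp only at e hs hw hs' hw'
          have hss : s = s' := by
            by_contra hne
            obtain ⟨c, x, hc, hx, e1⟩ := v1 w hw 0 (by norm_num)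
            obtain ⟨c', x', hc', hx', e2⟩ := v1 w' hw' 0 (by norm_num)
            have h0 := dt_self (act (S.F.r (s * w)) (pt 0))
            nth_rewrite 2 [e] at h0
            rw [map_mul, map_mul, act_mul, act_mul, e1, e2, act_smul, act_smul, dt_smul_left,
              dt_smul_right] at h0
            exact mul_ne_zero hc (mul_ne_zero hc' (w2 s hs s' hs' hne x hx x' hx')) h0
          subst hss
          rw [mul_left_cancel e]
  obtain ⟨k, hk⟩ := ((tendsto_pow_atTop_atTop_of_one_lt (show (1 : ℝ) < 2 by norm_num)).eventually_gt_atTop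
    (∑' γ, S.τ γ * (‖S.A γ‖ * ‖S.B γ‖) ^ (-ε))).exists
  obtain ⟨W, -, v2⟩ := it k
  have h1 : ∑ w ∈ W, Fn w ≤ ∑ w ∈ W, S.τ w * (‖S.A w‖ * ‖S.B w‖) ^ (-ε) :=
    Finset.sum_le_sum fun w _ => mul_le_mul_of_nonneg_right
      (div_le_div_of_nonneg_right (m1 w) (sq_nonneg _)) (Real.rpow_nonneg (pos w).le _)
  have h2 := hs.sum_le_tsum W fun w _ =>
    mul_nonneg (S.τ_pos w).le (Real.rpow_nonneg (pos w).le (-ε))
  linarith

end Sys2

end Pool.Agent.P.MP_39a2dc_an.H
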