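import Pool.Agent.P.MP_39a2dc_an.HTrans
import Pool.Agent.P.MP_39a2dc_an.HDefs

/-! Singular frames, and convergence of Cartan attractors along every sequence. -/

open scoped InnerProductSpace MatrixGroups Matrix
open Filter Topology Set WithLp

set_option linter.unusedSectionVars false

namespace Pool.Agent.P.MP_39a2dc_an.H

variable {V : Type*} [NormedAddCommGroup V] [InnerProductSpace ℝ V] [FiniteDimensional ℝ V]

section frame
variable {ι : Type*} [Fintype ι] {M : V →L[ℝ] V} {b c : OrthonormalBasis ι ℝ V} {σ : ι → ℝ}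

lemma fr_inner (h : ∀ i, M (b i) = σ i • c i) (u : V) (i : ι) :
    ⟪c i, M u⟫_ℝ = σ i * ⟪b i, u⟫_ℝ := by
  classical
  conv_lhs => rw [← b.sum_repr' u]
  simp only [map_sum, map_smul, h, inner_sum, inner_smul_right,
    orthonormal_iff_ite.1 c.orthonormal]
  simp [mul_comm]

lemma fr_le (h : ∀ i, M (b i) = σ i • c i) {s : ℝ} (h0 : 0 ≤ s) (hs : ∀ i, |σ i| ≤ s) :
    ‖M‖ ≤ s := by
  refine M.opNorm_le_bound h0 fun u => le_of_sq_le_sq ?_ (by positivity)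
  rw [mul_pow, ← c.sum_sq_inner_right (M u), ← b.sum_sq_inner_right u, Finset.mul_sum]
  refine Finset.sum_le_sum fun i _ => ?_
  rw [fr_inner h, mul_pow]
  exact mul_le_mul_of_nonneg_right (sq_le_sq' (abs_le.1 (hs i)).1 (abs_le.1 (hs i)).2)
    (sq_nonneg _)

lemma fr_w2 [LinearOrder ι] (h : ∀ i, M (b i) = σ i • c i) :
    ∃ B C : OrthonormalBasis (Fin 2 ↪o ι) ℝ (Wd V),
      ∀ e, w2 M (B e) = (σ (e 0) * σ (e 1)) • C e := by
  obtain ⟨B, hB⟩ := exists_onb b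
  obtain ⟨C, hC⟩ := exists_onb c
  exact ⟨B, C, fun e => by rw [hB, hC, w2_cr, h, h, cr_smul_left, cr_smul_right, smul_smul]⟩

lemma w2_le (h : ∀ i, M (b i) = σ i • c i) {s : ℝ} (h0 : 0 ≤ s)
    (hs : ∀ i j, i ≠ j → |σ i * σ j| ≤ s) : ‖w2 M‖ ≤ s := by
  let : LinearOrder ι := LinearOrder.lift' (Fintype.equivFin ι) (Equiv.injective _)
  obtain ⟨B, C, hB⟩ := fr_w2 h
  exact fr_le hB h0 fun e => hs _ _ (e.injective.ne (by decide))

lemma norm_cr_onb (b : OrthonormalBasis ι ℝ V) {i j : ι} (h : i ≠ j) : ‖cr (b i) (b j)‖ = 1 := by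
  rw [norm_cr_of_orth (b.orthonormal.2 h), b.orthonormal.1, b.orthonormal.1, mul_one]

lemma eq_of_top {W : Type*} [NormedAddCommGroup W] [InnerProductSpace ℝ W] {N : W →L[ℝ] W}
    {w w' : W} (hw : ‖w‖ = 1) (hw' : ‖w'‖ = 1) {s : ℝ} (h0 : 0 ≤ s) (h : N w = s • w')
    (hs : ‖N‖ ≤ s) : ‖N‖ = s := by
  refine le_antisymm hs ?_
  have := N.le_opNorm w
  rwa [h, norm_smul, hw, hw', mul_one, mul_one, Real.norm_of_nonneg h0] at this

lemma nontriv (b : OrthonormalBasis ι ℝ V) {i j : ι} (h : i ≠ j) : Nontrivial (Wd V) :=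
  ⟨⟨cr (b i) (b j), 0, by rw [← norm_ne_zero_iff, norm_cr_onb b h]; exact one_ne_zero⟩⟩

end frame

lemma Pair.top_close {Γ : Type*} [Group Γ] [Nontrivial V] [Nontrivial (Wd V)] (Q : Pair Γ V)
    (g : Γ) {w w' : V} (hw : ‖w‖ = 1) (h : Q.A g w = ‖Q.A g‖ • w') :
    ‖cr (Q.U g) w'‖ ≤ Q.τ g := by
  have := Q.near_top g hw
  rwa [h, smul_smul, inv_mul_cancel₀ (Q.A_pos g).ne', one_smul] at this

lemma Pair.fr_dual {Γ : Type*} [Group Γ] (Q : Pair Γ V) (g : Γ) {ι : Type*} [Fintype ι]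
    {b c : OrthonormalBasis ι ℝ V} {σ : ι → ℝ} (h : ∀ i, Q.A g (b i) = σ i • c i)
    (hσ : ∀ i, σ i ≠ 0) (i : ι) : Q.B g (b i) = (σ i)⁻¹ • c i := by
  classical
  apply c.repr.injective
  ext j
  have := Q.inn g (b j) (b i)
  rw [h, real_inner_smul_left, orthonormal_iff_ite.1 b.orthonormal] at this
  rw [c.repr_apply_apply, c.repr_apply_apply, inner_smul_right,
    orthonormal_iff_ite.1 c.orthonormal]
  refine mul_left_cancel₀ (hσ j) (this.trans ?_)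
  split_ifs with hij
  · rw [hij, mul_one, mul_inv_cancel₀ (hσ i)]
  · simp

lemma kak0 (m : G) (h : m 0 1 ^ 2 + m 1 1 ^ 2 ≤ m 0 0 ^ 2 + m 1 0 ^ 2) :
    ∃ (k h : G) (t : ℝ), m = k * D t * h⁻¹ ∧ nn k ≤ 4 ∧ nn h ≤ 3 ∧ 0 ≤ t ∧
      Real.exp (2 * t) = m 0 0 ^ 2 + m 1 0 ^ 2 ∧ act m e1 = Real.exp t • act k e1 ∧
      (act k e1).1 ^ 2 + (act k e1).2 ^ 2 = 1 := by
  have hd := gdet m
  obtain ⟨a, ha⟩ : ∃ a, a = m 0 0 := ⟨_, rfl⟩
  obtain ⟨b, hb⟩ : ∃ a, a = m 0 1 := ⟨_, rfl⟩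
  obtain ⟨c, hc⟩ : ∃ a, a = m 1 0 := ⟨_, rfl⟩
  obtain ⟨e, he⟩ : ∃ a, a = m 1 1 := ⟨_, rfl⟩
  rw [← ha, ← hb, ← hc, ← he] at h hd
  rw [← ha, ← hc]
  have lag : (a ^ 2 + c ^ 2) * (b ^ 2 + e ^ 2) = 1 + (a * b + c * e) ^ 2 := by
    linear_combination (a * e - b * c + 1) * hd
  have h1 : 1 ≤ a ^ 2 + c ^ 2 := by
    by_contra hc
    nlinarith [sq_nonneg (a * b + c * e), sq_nonneg b, sq_nonneg e, sq_nonneg a, sq_nonneg c]
  obtain ⟨ρ, ρ1, hρ⟩ : ∃ ρ : ℝ, 1 ≤ ρ ∧ ρ ^ 2 = a ^ 2 + c ^ 2 :=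
    ⟨√(a ^ 2 + c ^ 2), Real.one_le_sqrt.2 h1, Real.sq_sqrt (by linarith)⟩
  have ρ0 : 0 < ρ := by linarith
  have aρ : |a / ρ| ≤ 1 := by
    rw [abs_div, abs_of_pos ρ0, div_le_one ρ0]; exact abs_le_of_sq_le_sq (by nlinarith) ρ0.le
  have cρ : |c / ρ| ≤ 1 := by
    rw [abs_div, abs_of_pos ρ0, div_le_one ρ0]; exact abs_le_of_sq_le_sq (by nlinarith) ρ0.le
  have yρ : |(a * b + c * e) / ρ ^ 2| ≤ 1 := by
    rw [abs_div, abs_of_pos (pow_pos ρ0 2), div_le_one (pow_pos ρ0 2), hρ]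
    exact abs_le_of_sq_le_sq (by nlinarith) (by linarith)
  have ex : Real.exp (Real.log ρ) = ρ := Real.exp_log ρ0
  have ex' : Real.exp (-Real.log ρ) = ρ⁻¹ := by rw [Real.exp_neg, ex]
  refine ⟨mk (a / ρ) (-(c / ρ)) (c / ρ) (a / ρ) (by field_simp; linarith),
    (mk 1 ((a * b + c * e) / ρ ^ 2) 0 1 (by simp))⁻¹, Real.log ρ, ?_, ?_, ?_,
    Real.log_nonneg ρ1, ?_, ?_, ?_⟩
  · rw [inv_inv]
    apply gext <;> simp only [mul_e, D, mk00, mk01, mk10, mk11, ex, ex', ← ha, ← hb, ← hc, ← he]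
    · field_simp; ring
    · field_simp; linear_combination (b * ρ) * hρ - (ρ * c) * hd
    · field_simp; ring
    · field_simp; linear_combination (e * ρ) * hρ + (ρ * a) * hd
  · simp only [nn, mk00, mk01, mk10, mk11, abs_neg]; linarith
  · rw [nn_inv]; simp only [nn, mk00, mk01, mk10, mk11, abs_one, abs_zero]; linarith
  · rw [two_mul, Real.exp_add, ex, ← hρ, sq]
  · ext <;> simp only [act, e1, ex, mk00, mk01, mk10, mk11, ← ha, ← hb, ← hc, ← he, Prod.smul_fst,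
      Prod.smul_snd, smul_eq_mul] <;> field_simp <;> ring
  · simp only [act, e1, mk00, mk01, mk10, mk11]; field_simp; linarith

lemma kak (m : G) : ∃ (k h : G) (t : ℝ), m = k * D t * h⁻¹ ∧ nn k ≤ 6 ∧ nn h ≤ 6 ∧ 0 ≤ t ∧
    m 0 0 ^ 2 + m 0 1 ^ 2 + m 1 0 ^ 2 + m 1 1 ^ 2 ≤ 2 * Real.exp (2 * t) ∧
    (act k e1).1 ^ 2 + (act k e1).2 ^ 2 = 1 ∧ ∀ x : Pl, Real.exp (2 * t) * dt x (act k e1) ^ 2 ≤
      (x.1 * m 1 0 - x.2 * m 0 0) ^ 2 + (x.1 * m 1 1 - x.2 * m 0 1) ^ 2 := by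
  have ee : ∀ t : ℝ, Real.exp (2 * t) = Real.exp t ^ 2 := fun t => by
    rw [two_mul, Real.exp_add, sq]
  rcases le_total (m 0 1 ^ 2 + m 1 1 ^ 2) (m 0 0 ^ 2 + m 1 0 ^ 2) with h | h
  · obtain ⟨k, h', t, a1, a2, a3, a4, a5, a6, a7⟩ := kak0 m h
    refine ⟨k, h', t, a1, by linarith, by linarith, a4, by linarith, a7, fun x => ?_⟩
    rw [ee, ← mul_pow, ← dt_smul_right, ← a6]
    simp only [dt, act, e1, mul_one, mul_zero, add_zero]
    nlinarith [sq_nonneg (x.1 * m 1 1 - x.2 * m 0 1)]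
  · have w0 : (m * W) 0 0 = m 0 1 := by simp [mul_e, W]
    have w1 : (m * W) 1 0 = m 1 1 := by simp [mul_e, W]
    have w2 : (m * W) 0 1 = -m 0 0 := by simp [mul_e, W]
    have w3 : (m * W) 1 1 = -m 1 0 := by simp [mul_e, W]
    obtain ⟨k, h', t, a1, a2, a3, a4, a5, a6, a7⟩ := kak0 (m * W)
      (by rw [w0, w1, w2, w3]; linarith)
    rw [w0, w1] at a5
    refine ⟨k, W * h', t, by rw [mul_inv_rev, ← mul_assoc, ← a1]; group, by linarith,
      (nn_mul_le nn_W.le a3).trans (by norm_num), a4, by linarith, a7, fun x => ?_⟩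
    rw [ee, ← mul_pow, ← dt_smul_right, ← a6]
    simp only [dt, act, e1, mul_one, mul_zero, add_zero, w0, w1]
    nlinarith [sq_nonneg (x.1 * m 1 0 - x.2 * m 0 0)]

lemma tendsto_of_sq {f : ℕ → ℝ} (h : Tendsto (fun n => f n ^ 2) atTop (𝓝 0)) :
    Tendsto f atTop (𝓝 0) := by
  rw [tendsto_zero_iff_abs_tendsto_zero]
  simpa [Real.sqrt_sq_eq_abs, Function.comp_def] using h.sqrt

/-- Cartan attractors converge to the limit map along every sequence. -/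
lemma Sys.toward {Γ : Type*} [Group Γ] [Nontrivial V] [Nontrivial (Wd V)] (S : Sys Γ V)
    {γ : ℕ → Γ} {x : Pl} (hx : x ≠ 0) (H : HD.Toward (fun n => S.F.r (γ n)) x) :
    Tendsto (fun n => ‖cr (S.U (γ n)) (S.X x)‖) atTop (𝓝 0) ∧
      Tendsto (fun n => S.τ (γ n)) atTop (𝓝 0) := by
  choose k h t a1 a2 a3 a4 a5 a6 a7 using fun n => kak (S.F.r (γ n))
  have r0 := sq_pos_of_ne hx
  set r := x.1 ^ 2 + x.2 ^ 2 with hr
  unfold HD.Toward at H
  have both : ∀ n, Real.exp (-(4 * t n)) ≤ 4 / r * (((x.1 * S.F.r (γ n) 1 0 - x.2 * S.F.r (γ n) 0 0) ^ 2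
      + (x.1 * S.F.r (γ n) 1 1 - x.2 * S.F.r (γ n) 0 1) ^ 2) / (S.F.r (γ n) 0 0 ^ 2 +
        S.F.r (γ n) 0 1 ^ 2 + S.F.r (γ n) 1 0 ^ 2 + S.F.r (γ n) 1 1 ^ 2)) ∧
      dt x (act (k n) e1) ^ 2 ≤ 2 * (((x.1 * S.F.r (γ n) 1 0 - x.2 * S.F.r (γ n) 0 0) ^ 2
      + (x.1 * S.F.r (γ n) 1 1 - x.2 * S.F.r (γ n) 0 1) ^ 2) / (S.F.r (γ n) 0 0 ^ 2 +
        S.F.r (γ n) 0 1 ^ 2 + S.F.r (γ n) 1 0 ^ 2 + S.F.r (γ n) 1 1 ^ 2)) := fun n => by
    have hd := gdet (S.F.r (γ n))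
    have b5 := a5 n
    have b7 := a7 n x
    have ee : Real.exp (-(4 * t n)) = (Real.exp (2 * t n) ^ 2)⁻¹ := by
      rw [Real.exp_neg, sq, ← Real.exp_add]; congr 2; ring
    rw [ee]
    have p := Real.exp_pos (2 * t n)
    generalize Real.exp (2 * t n) = E at *
    generalize dt x (act (k n) e1) ^ 2 = q at *
    generalize S.F.r (γ n) 0 0 = a at *
    generalize S.F.r (γ n) 0 1 = b at *
    generalize S.F.r (γ n) 1 0 = c at *
    generalize S.F.r (γ n) 1 1 = e at *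
    have N0 : 0 < a ^ 2 + b ^ 2 + c ^ 2 + e ^ 2 := by
      nlinarith [sq_nonneg (a - e), sq_nonneg (b + c)]
    have u0 : 0 ≤ (x.1 * c - x.2 * a) ^ 2 + (x.1 * e - x.2 * b) ^ 2 := by positivity
    have cs : r ≤ (a ^ 2 + b ^ 2 + c ^ 2 + e ^ 2) *
        ((x.1 * c - x.2 * a) ^ 2 + (x.1 * e - x.2 * b) ^ 2) := by
      have e1 : x.1 = a * (x.1 * e - x.2 * b) - b * (x.1 * c - x.2 * a) := by
        linear_combination (-x.1) * hd
      have e2 : x.2 = c * (x.1 * e - x.2 * b) - e * (x.1 * c - x.2 * a) := by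
        linear_combination (-x.2) * hd
      rw [hr]
      generalize x.1 * e - x.2 * b = u at *
      generalize x.1 * c - x.2 * a = w at *
      rw [e1, e2]
      nlinarith [sq_nonneg (a * w + b * u), sq_nonneg (c * w + e * u)]
    generalize (x.1 * c - x.2 * a) ^ 2 + (x.1 * e - x.2 * b) ^ 2 = u at *
    generalize a ^ 2 + b ^ 2 + c ^ 2 + e ^ 2 = N at *
    constructor
    · rw [div_mul_div_comm, le_div_iff₀ (by positivity), inv_mul_eq_div,
        div_le_iff₀ (by positivity)]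
      have h1 : r * N ≤ N * u * N := mul_le_mul_of_nonneg_right cs N0.le
      have h2 : N * N ≤ (2 * E) * (2 * E) := mul_le_mul b5 b5 N0.le (by positivity)
      nlinarith [mul_le_mul_of_nonneg_left h2 u0]
    · rw [← mul_div_assoc, le_div_iff₀ N0]
      rcases le_total q 0 with hq | hq
      · nlinarith [mul_nonneg (neg_nonneg.2 hq) N0.le]
      · nlinarith [mul_le_mul_of_nonneg_left b5 hq]
  have ht : Tendsto t atTop atTop := by
    have h1 := H.const_mul (4 / r)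
    rw [mul_zero] at h1
    have h2 := Real.tendsto_exp_comp_nhds_zero.1
      (squeeze_zero (fun _ => (Real.exp_pos _).le) (fun n => (both n).1) h1)
    exact (tendsto_const_mul_atTop_of_pos (by norm_num : (0 : ℝ) < 4)).1
      (tendsto_neg_atBot_iff.1 h2)
  have he : Tendsto (fun n => dt x (act (k n) e1) ^ 2) atTop (𝓝 0) := by
    have h1 := H.const_mul 2
    rw [mul_zero] at h1
    exact squeeze_zero (fun _ => sq_nonneg _) (fun n => (both n).2) h1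
  have al : ∀ n, S.Al 6 (γ n) (k n) (t n) (h n) := fun n => ⟨a1 n, a2 n, a3 n, a4 n⟩
  obtain ⟨K, -, hK⟩ := S.key 6
  obtain ⟨K', -, hK'⟩ := S.tau_le 6
  refine ⟨?_, squeeze_zero (fun _ => (S.τ_pos _).le) (fun n => hK' _ _ _ _ (al n))
    (tendsto_exp_zero ht S.cpos K')⟩
  set p : ℕ → Pl := fun n => act (k n) e1 with hp
  set s : ℕ → ℝ := fun n => (p n).1 * x.1 + (p n).2 * x.2 with hs
  have se : ∀ n, s n ^ 2 = r - dt x (p n) ^ 2 := fun n => by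
    simp only [hs, hr, dt]; linear_combination (x.1 ^ 2 + x.2 ^ 2) * a6 n
  have sl : Tendsto (fun n => s n ^ 2) atTop (𝓝 r) := by
    simpa [se] using he.const_sub r
  have q0 : Tendsto (fun n => dt x (p n) / s n) atTop (𝓝 0) :=
    tendsto_of_sq (by simpa [div_pow, Pi.div_def] using he.div sl r0.ne')
  have lq : Tendsto (fun n => x + (dt x (p n) / s n) • ((-x.2, x.1) : Pl)) atTop (𝓝 x) := by
    simpa using (q0.smul_const ((-x.2, x.1) : Pl)).const_add x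
  have l1 := ((tendsto_exp_zero ht S.cpos K).add ((S.X_cont hx).comp lq))
  rw [add_zero] at l1
  refine squeeze_zero' (Eventually.of_forall fun _ => norm_nonneg _) ?_ l1
  filter_upwards [sl.eventually (lt_mem_nhds r0)] with n hn
  have s0 : s n ≠ 0 := by intro h0; simp [h0] at hn
  have e : x + (dt x (p n) / s n) • ((-x.2, x.1) : Pl) = (r / s n) • p n := by
    ext <;> simp only [Prod.fst_add, Prod.snd_add, Prod.smul_fst, Prod.smul_snd, smul_eq_mul] <;>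
      field_simp <;> simp only [hs, hr, dt] <;> ring
  obtain ⟨ε, hε, e'⟩ := S.X_smul_eq (div_ne_zero r0.ne' s0) (act_ne_zero (k n) e1_ne)
  have b1 := hK _ _ _ _ (al n)
  have b2 := cr_triangle' (S.norm_U (γ n)) (S.norm_X (p n)) (S.norm_X x)
  simp only [Function.comp, e]
  rw [show S.X ((r / s n) • p n) = ε • S.X (p n) from e', cr_smul_right, norm_smul,
    Real.norm_eq_abs, Sys.abs_sign hε, one_mul, norm_cr_comm (S.X x)]
  linarith

end Pool.Agent.P.MP_39a2dc_an.H
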