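import Pool.Agent.P.MP_39a2dc_an.HDiverge
import Pool.Agent.P.MP_39a2dc_an.HFrame

/-! From matrices to systems with two gaps, and the final theorem. -/

open scoped InnerProductSpace MatrixGroups Matrix
open Filter Topology Set WithLp

namespace Pool.Agent.P.MP_39a2dc_an.H
open HD

abbrev Eu (d : ℕ) : Type := EuclideanSpace ℝ (Fin d)

variable {d : ℕ}

noncomputable def op (g : SL(d, ℝ)) : Eu d →L[ℝ] Eu d :=
  Matrix.toEuclideanCLM (n := Fin d) (𝕜 := ℝ) (g : Matrix (Fin d) (Fin d) ℝ)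

lemma op_mul (g h : SL(d, ℝ)) : op (g * h) = op g * op h := by simp [op]
lemma op_one : op (1 : SL(d, ℝ)) = 1 := by simp [op]
lemma ofLp_op (g : SL(d, ℝ)) (u : Eu d) :
    (op g u).ofLp = (g : Matrix (Fin d) (Fin d) ℝ) *ᵥ u.ofLp := rfl

/-- The contragredient. -/
def dual (g : SL(d, ℝ)) : SL(d, ℝ) := (g⁻¹).transpose

lemma dual_mul (g h : SL(d, ℝ)) : dual (g * h) = dual g * dual h := by
  apply Subtype.ext
  simp only [dual, mul_inv_rev, Matrix.SpecialLinearGroup.coe_transpose,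
    Matrix.SpecialLinearGroup.coe_mul, Matrix.transpose_mul]
lemma dual_one : dual (1 : SL(d, ℝ)) = 1 := by apply Subtype.ext; simp [dual]

lemma inner_op (g : SL(d, ℝ)) (u v : Eu d) : ⟪op g u, op (dual g) v⟫_ℝ = ⟪u, v⟫_ℝ := by
  have h : op (dual g) = star (op g⁻¹) := by
    rw [op, op, ← map_star, Matrix.star_eq_conjTranspose,
      Matrix.conjTranspose_eq_transpose_of_trivial]; rfl
  rw [h, ContinuousLinearMap.star_eq_adjoint, ContinuousLinearMap.adjoint_inner_right,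
    ← mul_apply_eq_comp, ← op_mul, inv_mul_cancel, op_one]; rfl

variable {Γ : Type*} [Group Γ]

noncomputable def pairOf (ρ : Γ →* SL(d, ℝ)) : Pair Γ (Eu d) where
  A := { toFun := fun γ => op (ρ γ), map_one' := by simp [op_one],
         map_mul' := fun a b => by simp [op_mul] }
  B := { toFun := fun γ => op (dual (ρ γ)), map_one' := by simp [dual_one, op_one],
         map_mul' := fun a b => by simp [dual_mul, op_mul] }
  inn g u v := inner_op _ u v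

lemma sv_anti (g : SL(d, ℝ)) {i j : ℕ} (h : i ≤ j) : sv g j ≤ sv g i :=
  LinearMap.singularValues_antitone _ h

lemma sv_prod (g : SL(d, ℝ)) : ∏ i ∈ Finset.range d, sv g i = 1 := by
  have h := (Matrix.toEuclideanLin (g : Matrix (Fin d) (Fin d) ℝ)).normDet_eq_prod_singularValues
  rw [LinearMap.normDet_eq_abs_det, finrank_euclideanSpace_fin] at h
  conv_lhs at h => rw [Matrix.toEuclideanLin_eq_toLin_orthonormal, LinearMap.det_toLin, g.det_coe]
  rw [abs_one] at h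
  exact h.symm

lemma sv_pos (g : SL(d, ℝ)) {i : ℕ} (h : i < d) : 0 < sv g i := by
  refine lt_of_le_of_ne (LinearMap.singularValues_nonneg _ i) fun h0 => ?_
  have := sv_prod g
  rw [Finset.prod_eq_zero (Finset.mem_range.2 h) h0.symm] at this
  exact zero_ne_one this

lemma exists_frame (g : SL(d, ℝ)) : ∃ b c : OrthonormalBasis (Fin d) ℝ (Eu d),
    ∀ i, op g (b i) = sv g i • c i := by
  set T := Matrix.toEuclideanLin (g : Matrix (Fin d) (Fin d) ℝ) with hT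
  have hn : Module.finrank ℝ (Eu d) = d := finrank_euclideanSpace_fin
  set b := T.isSymmetric_adjoint_comp_self.eigenvectorBasis hn with hb
  have ho : Orthonormal ℝ fun i : Fin d => (sv g i)⁻¹ • op g (b i) := by
    rw [orthonormal_iff_ite]
    intro i j
    have e : ⟪op g (b i), op g (b j)⟫_ℝ = ⟪b i, (T.adjoint ∘ₗ T) (b j)⟫_ℝ := by
      rw [LinearMap.comp_apply, LinearMap.adjoint_inner_right]; rfl
    have s : sv g j ^ 2 = _ := T.sq_singularValues_fin hn j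
    rw [inner_smul_right, real_inner_smul_left, e, hb,
      LinearMap.IsSymmetric.apply_eigenvectorBasis, inner_smul_right, ← hb,
      orthonormal_iff_ite.1 b.orthonormal]
    split_ifs with hij
    · have := (sv_pos g j.2).ne'
      rw [hij, RCLike.ofReal_real_eq_id, id, ← s]; field_simp
    · simp
  refine ⟨b, OrthonormalBasis.mk ho
    (ho.linearIndependent.span_eq_top_of_card_eq_finrank' (by simp)).ge, fun i => ?_⟩
  rw [OrthonormalBasis.coe_mk, smul_smul, mul_inv_cancel₀ (sv_pos g i.2).ne', one_smul]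

variable {m : ℕ}

lemma sv_pair (g : SL(m + 3, ℝ)) {i j : Fin (m + 3)} (h : i ≠ j) :
    |sv g i * sv g j| ≤ sv g 0 * sv g 1 := by
  have p := sv_pos g i.2; have q := sv_pos g j.2
  have p0 := sv_pos g (show 0 < m + 3 by omega)
  rw [abs_of_pos (mul_pos p q)]
  rcases lt_or_gt_of_ne (Fin.val_ne_of_ne h) with h | h
  · exact mul_le_mul (sv_anti g (by omega)) (sv_anti g (by omega)) q.le p0.le
  · rw [mul_comm]; exact mul_le_mul (sv_anti g (by omega)) (sv_anti g (by omega)) p.le p0.le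

lemma sv_spec (g : SL(m + 3, ℝ)) : ‖op g‖ = sv g 0 ∧ ‖w2 (op g)‖ = sv g 0 * sv g 1 ∧
    ‖w2 (w2 (op g))‖ ≤ sv g 0 * sv g 1 * (sv g 0 * sv g 2) ∧ 1 ≤ sv g 0 * sv g 1 ∧
    1 ≤ ‖op g⁻¹‖ * sv g 2 := by
  obtain ⟨b, c, h⟩ := exists_frame g
  have p0 := sv_pos g (show 0 < m + 3 by omega)
  have p1 := sv_pos g (show 1 < m + 3 by omega)
  have p2 := sv_pos g (show 2 < m + 3 by omega)
  have n01 : (⟨0, by omega⟩ : Fin (m + 3)) ≠ ⟨1, by omega⟩ := by simp
  refine ⟨eq_of_top (b.orthonormal.1 ⟨0, by omega⟩) (c.orthonormal.1 _) p0.le (h _)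
    (fr_le h p0.le fun i => ?_), eq_of_top (norm_cr_onb b n01) (norm_cr_onb c n01)
    (by positivity) ?_ (w2_le h (by positivity) fun i j => sv_pair g), ?_, ?_, ?_⟩
  · rw [abs_of_pos (sv_pos g i.2)]; exact sv_anti g (Nat.zero_le _)
  · rw [w2_cr, h, h, cr_smul_left, cr_smul_right, smul_smul]
  · obtain ⟨B, C, hB⟩ := fr_w2 h
    have top : ∀ e : Fin 2 ↪o Fin (m + 3), |sv g (e 0) * sv g (e 1)| ≤ sv g 0 * sv g 1 :=
      fun e => sv_pair g (e.injective.ne (by decide))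
    have sec : ∀ e : Fin 2 ↪o Fin (m + 3), (e 1 : ℕ) ≠ 1 →
        |sv g (e 0) * sv g (e 1)| ≤ sv g 0 * sv g 2 := fun e he => by
      have l : (e 0 : ℕ) < e 1 := e.strictMono (by decide)
      have q := sv_pos g (e 1).2
      rw [abs_of_pos (mul_pos (sv_pos g (e 0).2) q)]
      exact mul_le_mul (sv_anti g (by omega)) (sv_anti g (by omega)) q.le p0.le
    refine w2_le hB (by positivity) fun e e' hne => ?_
    rw [abs_mul]
    by_cases he : (e 1 : ℕ) = 1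
    · refine mul_le_mul (top e) (sec e' fun he' => hne ?_) (abs_nonneg _) (by positivity)
      have l : (e 0 : ℕ) < e 1 := e.strictMono (by decide)
      have l' : (e' 0 : ℕ) < e' 1 := e'.strictMono (by decide)
      ext i
      fin_cases i <;> simp only [Fin.zero_eta, Fin.mk_one] <;> omega
    · rw [mul_comm]
      exact mul_le_mul (top e') (sec e he) (abs_nonneg _) (by positivity)
  · have hp := sv_prod g
    rw [Finset.prod_range_succ', Finset.prod_range_succ'] at hp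
    by_contra hc
    have h1 : sv g 1 ≤ 1 := by nlinarith [sv_anti g (zero_le_one' ℕ)]
    have h2 : ∏ i ∈ Finset.range (m + 1), sv g (i + 1 + 1) ≤ 1 :=
      Finset.prod_le_one (fun i _ => LinearMap.singularValues_nonneg _ _)
        fun i _ => (sv_anti g (by omega)).trans h1
    simp only [zero_add] at hp
    nlinarith [mul_pos p0 p1]
  · have := (op g⁻¹).le_opNorm (op g (b ⟨2, by omega⟩))
    rwa [← mul_apply_eq_comp, ← op_mul, inv_mul_cancel, op_one, one_apply_eq_self,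
      h, norm_smul, b.orthonormal.1, c.orthonormal.1, mul_one, Real.norm_of_nonneg p2.le] at this

instance : Nontrivial (Wd (Eu (m + 3))) :=
  nontriv (EuclideanSpace.basisFun (Fin (m + 3)) ℝ) (i := 0) (j := 1) (by simp)

instance : Nontrivial (Wd (Wd (Eu (m + 3)))) := by
  obtain ⟨B, -⟩ := exists_onb (EuclideanSpace.basisFun (Fin (m + 3)) ℝ)
  refine nontriv B (i := OrderEmbedding.ofStrictMono (fun i : Fin 2 => ⟨i, by omega⟩)
    fun i j h => h) (j := OrderEmbedding.ofStrictMono (fun i : Fin 2 => ⟨i + 1, by omega⟩)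
    fun i j h => Nat.succ_lt_succ h) fun h => ?_
  exact absurd (show 0 = 1 from congrArg (fun e : Fin 2 ↪o Fin (m + 3) => (e 0 : ℕ)) h)
    (by decide)

lemma tau_eq (ρ : Γ →* SL(m + 3, ℝ)) (γ : Γ) : (pairOf ρ).τ γ = sv (ρ γ) 1 / sv (ρ γ) 0 ∧
    (pairOf ρ).wedge.τ γ ≤ sv (ρ γ) 2 / sv (ρ γ) 1 ∧
    (‖(pairOf ρ).A γ‖ * ‖(pairOf ρ).B γ‖)⁻¹ ≤ sv (ρ γ) 2 / sv (ρ γ) 0 := by
  obtain ⟨h0, h1, h2, -, h3⟩ := sv_spec (ρ γ)
  have p0 := sv_pos (ρ γ) (show 0 < m + 3 by omega)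
  have p1 := sv_pos (ρ γ) (show 1 < m + 3 by omega)
  have p2 := sv_pos (ρ γ) (show 2 < m + 3 by omega)
  refine ⟨?_, ?_, ?_⟩
  · change ‖w2 (op (ρ γ))‖ / ‖op (ρ γ)‖ ^ 2 = _
    rw [h0, h1]; field_simp
  · change ‖w2 (w2 (op (ρ γ)))‖ / ‖w2 (op (ρ γ))‖ ^ 2 ≤ _
    rw [h1, div_le_iff₀ (by positivity)]
    refine h2.trans (le_of_eq ?_); field_simp
  · have pB := (pairOf ρ).B_pos γ
    have e : ‖(pairOf ρ).B γ‖ = ‖op (ρ γ)⁻¹‖ := by
      rw [← Pair.norm_A_inv, ← map_inv]; rfl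
    have e' : ‖(pairOf ρ).A γ‖ = sv (ρ γ) 0 := h0
    rw [e] at pB
    rw [e, e', inv_eq_one_div, div_le_div_iff₀ (by positivity) p0]
    nlinarith

lemma exists_fu (ρ₀ : Γ →* SL(2, ℝ))
    (hinj : Function.Injective ((QuotientGroup.mk' (Subgroup.center SL(2, ℝ))).comp ρ₀))
    (hd : DiscreteTopology ((QuotientGroup.mk' (Subgroup.center SL(2, ℝ))).comp ρ₀).range)
    (hc : CompactSpace
      (PSL(2, ℝ) ⧸ ((QuotientGroup.mk' (Subgroup.center SL(2, ℝ))).comp ρ₀).range)) :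
    ∃ F : Fu Γ, F.r = ρ₀ := by
  set η := (QuotientGroup.mk' (Subgroup.center SL(2, ℝ))).comp ρ₀ with hη
  have hcl : IsClosed ((Subgroup.center SL(2, ℝ) : Subgroup _) : Set SL(2, ℝ)) := by
    have : ((Subgroup.center SL(2, ℝ) : Subgroup _) : Set SL(2, ℝ)) = Set.centralizer univ := by
      ext x
      simp only [SetLike.mem_coe, Subgroup.mem_center_iff, Set.mem_centralizer_iff, mem_univ,
        forall_true_left]
    rw [this]
    have : T2Space SL(2, ℝ) :=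
      (Matrix.SpecialLinearGroup.isClosedEmbedding_val (n := Fin 2) (R := ℝ)).isEmbedding.t2Space
    exact Set.isClosed_centralizer _
  have cen : ∀ z ∈ Subgroup.center SL(2, ℝ), nn z ≤ 2 := by
    intro z hz
    obtain ⟨r, hr, e⟩ := Matrix.SpecialLinearGroup.mem_center_iff.1 hz
    have hr' : |r| = 1 := by
      have : r ^ 2 = 1 := by simpa using hr
      rwa [← sq_eq_sq₀ (abs_nonneg _) zero_le_one, sq_abs, one_pow]
    unfold nn
    rw [← e]; simp [hr']; norm_num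
  set π : G → PSL(2, ℝ) ⧸ η.range := fun g => QuotientGroup.mk (QuotientGroup.mk g) with hπ
  have πo : IsOpenMap π := QuotientGroup.isOpenMap_coe.comp QuotientGroup.isOpenMap_coe
  obtain ⟨T, hT⟩ : ∃ T : ℕ, ∀ x, x ∈ π '' {g | nn g < T} := by
    obtain ⟨T, hT⟩ := isCompact_univ.elim_directed_cover (fun T : ℕ => π '' {g | nn g < T})
      (fun T => πo _ (isOpen_lt continuous_nn continuous_const)) (fun x _ => by
        obtain ⟨y, rfl⟩ := QuotientGroup.mk_surjective x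
        obtain ⟨g, rfl⟩ := QuotientGroup.mk_surjective y
        obtain ⟨T, hT⟩ := exists_nat_gt (nn g)
        exact mem_iUnion.2 ⟨T, g, hT, rfl⟩)
      (Monotone.directed_le fun a b hab => image_mono fun g (hg : nn g < a) =>
        hg.trans_le (Nat.cast_le.2 hab))
    exact ⟨T, fun x => hT (mem_univ x)⟩
  refine ⟨⟨ρ₀, T * 2, fun g => ?_, fun T' => ?_⟩, rfl⟩
  · obtain ⟨k, hk, e⟩ := hT (π g⁻¹)
    obtain ⟨γ, hγ⟩ := QuotientGroup.eq.1 e.symm
    have : ((ρ₀ γ : G) : PSL(2, ℝ)) = ((g * k : G) : PSL(2, ℝ)) := by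
      rw [QuotientGroup.mk_mul]; simpa [hη] using hγ
    have hz := QuotientGroup.eq.1 this
    refine ⟨γ, (ρ₀ γ)⁻¹ * g, ?_, by group⟩
    have e' : (ρ₀ γ)⁻¹ * g = ((ρ₀ γ)⁻¹ * (g * k)) * k⁻¹ := by group
    rw [e', mul_comm]
    exact nn_mul_le (cen _ hz) (by rw [nn_inv]; exact le_of_lt hk)
  · have h := MonoidHom.tendsto_coe_cofinite_of_discrete hinj
      (isDiscrete_iff_discreteTopology.2 hd)
    have hK : IsCompact ((QuotientGroup.mk : G → PSL(2, ℝ)) '' {g | nn g ≤ T'}) :=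
      (isCompact_ball T').image QuotientGroup.continuous_mk
    have := h hK.compl_mem_cocompact
    rw [mem_map, mem_cofinite] at this
    exact this.subset fun γ hγ hc => hc ⟨ρ₀ γ, hγ, rfl⟩

lemma exists_word {S : Finset Γ} (hsym : ∀ s ∈ S, s⁻¹ ∈ S)
    (hgen : Subgroup.closure (S : Set Γ) = ⊤) (γ : Γ) :
    ∃ l : List Γ, l.length = wordLen S γ ∧ (∀ s ∈ l, s ∈ S) ∧ l.prod = γ := by
  refine Nat.sInf_mem (s := {n | ∃ l : List Γ, l.length = n ∧ (∀ s ∈ l, s ∈ S) ∧ l.prod = γ}) ?_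
  have h : γ ∈ (Subgroup.closure (S : Set Γ)).toSubmonoid := by rw [hgen]; trivial
  rw [Subgroup.closure_toSubmonoid] at h
  obtain ⟨l, hl, e⟩ := Submonoid.exists_list_of_mem_closure h
  refine ⟨_, l, rfl, fun s hs => ?_, e⟩
  rcases hl s hs with h | h
  · exact h
  · simpa using hsym _ h

lemma gap_of {S : Finset Γ} (hsym : ∀ s ∈ S, s⁻¹ ∈ S)
    (hgen : Subgroup.closure (S : Set Γ) = ⊤) (F : Fu Γ) {ρ : Γ →* SL(d, ℝ)} {k : ℕ}
    (h : IsAnosov S ρ k) : ∃ C c : ℝ, 0 < c ∧ ∀ γ,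
      sv (ρ γ) k / sv (ρ γ) (k - 1) ≤ C * Real.exp (-(c * Real.log (nn (F.r γ)))) := by
  obtain ⟨C, c, hC, hc, h⟩ := h
  obtain ⟨M, hM⟩ := (S.finite_toSet.image fun s => nn (F.r s)).bddAbove
  set M' := max M 2 with hM'
  have M2 : 2 ≤ M' := le_max_right _ _
  have lg : 0 < Real.log M' := Real.log_pos (by linarith)
  have hl : ∀ l : List Γ, (∀ s ∈ l, s ∈ S) → nn (F.r l.prod) ≤ M' ^ (l.length + 1) := by
    intro l
    induction l with
    | nil => intro _; simp [nn]; linarith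
    | cons a l ih =>
      intro hl
      rw [List.prod_cons, map_mul, List.length_cons, pow_succ']
      exact nn_mul_le ((hM ⟨a, hl a (by simp), rfl⟩).trans (le_max_left _ _))
        (ih fun s hs => hl s (by simp [hs]))
  refine ⟨C * Real.exp c, c / Real.log M', by positivity, fun γ => ?_⟩
  obtain ⟨l, l1, l2, l3⟩ := exists_word hsym hgen γ
  have a1 := Real.log_le_log (nn_pos _) (hl l l2)
  rw [l3, l1, Real.log_pow] at a1
  rw [← inv_div]
  refine (inv_anti₀ (by positivity) (h γ)).trans ?_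
  rw [mul_inv, inv_inv, ← Real.exp_neg, mul_assoc, ← Real.exp_add]
  refine mul_le_mul_of_nonneg_left (Real.exp_le_exp.2 ?_) hC.le
  have : c / Real.log M' * Real.log (nn (F.r γ)) ≤ c * (wordLen S γ + 1) := by
    rw [div_mul_eq_mul_div, div_le_iff₀ lg, mul_assoc]
    push_cast at a1
    exact mul_le_mul_of_nonneg_left a1 hc.le
  linarith

lemma exists_sys {S : Finset Γ} (hsym : ∀ s ∈ S, s⁻¹ ∈ S)
    (hgen : Subgroup.closure (S : Set Γ) = ⊤) (F : Fu Γ) {ρ : Γ →* SL(m + 3, ℝ)}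
    (h1 : IsAnosov S ρ 1) (h2 : IsAnosov S ρ 2) :
    ∃ Sy : Sys2 Γ (Eu (m + 3)), Sy.toPair = pairOf ρ ∧ Sy.F = F := by
  obtain ⟨C, c, hc, h⟩ := gap_of hsym hgen F h1
  obtain ⟨C', c', hc', h'⟩ := gap_of hsym hgen F h2
  refine ⟨⟨⟨pairOf ρ, F, C, c, hc, fun γ => (tau_eq ρ γ).1.trans_le (h γ), fun γ => ?_⟩, C', c',
    hc', fun γ => (tau_eq ρ γ).2.1.trans (h' γ), fun γ => ?_⟩, rfl, rfl⟩
  · obtain ⟨h0, -, -, h3, -⟩ := sv_spec (ρ γ)
    change 1 ≤ ‖op (ρ γ)‖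
    rw [h0]
    by_contra hc
    nlinarith [sv_anti (ρ γ) (zero_le_one' ℕ), sv_pos (ρ γ) (show 1 < m + 3 by omega)]
  · obtain ⟨-, h0, -, h3, -⟩ := sv_spec (ρ γ)
    change 1 ≤ ‖w2 (op (ρ γ))‖
    rwa [h0]

lemma mem_attr (ρ : Γ →* SL(d, ℝ)) (γ : Γ) {b c : OrthonormalBasis (Fin d) ℝ (Eu d)}
    (h : ∀ i, op (ρ γ) (b i) = sv (ρ γ) i • c i) {k : ℕ} {i : Fin d} (hi : (i : ℕ) ≤ k - 1) :
    (c i).ofLp ∈ attr (ρ γ) k := by
  have p := sv_pos (ρ γ) i.2
  have h1 := (pairOf ρ).fr_dual γ (b := b) (c := c) h (fun i => (sv_pos _ i.2).ne') i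
  have h2 : (pairOf ρ).B γ⁻¹ (c i) = sv (ρ γ) i • b i := by
    rw [← (pairOf ρ).B_inv_B γ (b i), h1, map_smul, smul_smul, mul_inv_cancel₀ p.ne', one_smul]
  have h3 : (ρ γ : Matrix (Fin d) (Fin d) ℝ)ᵀ *ᵥ (c i).ofLp = sv (ρ γ) i • (b i).ofLp := by
    have := congrArg ofLp h2
    change ((ρ γ⁻¹)⁻¹ : SL(d, ℝ)).1ᵀ *ᵥ (c i).ofLp = _ at this
    rwa [map_inv, inv_inv] at this
  refine Submodule.mem_iSup_of_mem (sv (ρ γ) i ^ 2) (Submodule.mem_iSup_of_mem
    (pow_le_pow_left₀ (LinearMap.singularValues_nonneg _ _) (sv_anti _ hi) 2) ?_)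
  rw [Module.End.mem_eigenspace_iff, Matrix.toLin'_apply, ← Matrix.mulVec_mulVec, h3,
    Matrix.mulVec_smul, ← ofLp_op, h, ofLp_smul, smul_smul, sq]

lemma X_mem {ρ : Γ →* SL(m + 3, ℝ)} {Sy : Sys2 Γ (Eu (m + 3))} (e : Sy.toPair = pairOf ρ)
    {x : Pl} (hx : x ≠ 0) : (Sy.X x).ofLp ∈ xi Sy.F.r ρ 1 x := by
  intro γ hγ
  obtain ⟨l1, l2⟩ := Sy.toward hx hγ
  choose b c h using fun n => exists_frame (ρ (γ n))
  refine ⟨fun n => (⟪c n 0, Sy.X x⟫_ℝ • c n 0).ofLp, fun n => ?_, ?_⟩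
  · exact Submodule.smul_mem _ _ (mem_attr ρ _ (h n) le_rfl)
  · refine ((PiLp.continuous_ofLp 2 _).tendsto _).comp ?_
    rw [tendsto_iff_norm_sub_tendsto_zero]
    have l := l2.add l1
    rw [add_zero] at l
    refine squeeze_zero (fun _ => norm_nonneg _) (fun n => ?_) l
    have n0 := (c n).orthonormal.1 0
    rw [norm_sub_rev, norm_perp n0]
    refine (cr_triangle' n0 (Sy.norm_U (γ n)) (Sy.norm_X x)).trans (add_le_add ?_ le_rfl)
    rw [norm_cr_comm]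
    refine Sy.top_close (γ n) ((b n).orthonormal.1 0) ?_
    rw [e]
    change op (ρ (γ n)) _ = ‖op (ρ (γ n))‖ • _
    rw [(sv_spec _).1]; exact h n 0

lemma ker_mem {ρ : Γ →* SL(m + 3, ℝ)} {Sy : Sys2 Γ (Eu (m + 3))} (e : Sy.toPair = pairOf ρ)
    {z : Pl} (hz : z ≠ 0) {v : Eu (m + 3)} (hv : ∀ w, Sy.om z v w = 0) :
    v.ofLp ∈ xi Sy.F.r ρ (m + 1) z := by
  intro γ hγ
  obtain ⟨l1, l2⟩ := Sy.w.swap.toward hz hγ
  choose b c h using fun n => exists_frame (ρ (γ n))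
  refine ⟨fun n => (∑ i : Fin (m + 3) with i.val ≤ m, ⟪c n i, v⟫_ℝ • c n i).ofLp,
    fun n => ?_, ?_⟩
  · simp only [ofLp_sum]
    refine Submodule.sum_mem _ fun i hi => ?_
    exact Submodule.smul_mem _ _ (mem_attr ρ _ (h n) (Finset.mem_filter.1 hi).2)
  refine ((PiLp.continuous_ofLp 2 _).tendsto _).comp ?_
  rw [tendsto_iff_norm_sub_tendsto_zero]
  have l := ((l2.add l1).mul_const ‖v‖).const_mul ((m + 3 : ℕ) : ℝ)
  rw [add_zero, zero_mul, mul_zero] at l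
  refine squeeze_zero (fun _ => norm_nonneg _) (fun n => ?_) l
  set i1 : Fin (m + 3) := ⟨m + 1, by omega⟩ with hi1
  set i2 : Fin (m + 3) := ⟨m + 2, by omega⟩ with hi2
  have n12 : i1 ≠ i2 := by simp [hi1, hi2]
  have pos : ∀ i : Fin (m + 3), 0 < sv (ρ (γ n)) i := fun i => sv_pos _ i.2
  have hB := (pairOf ρ).fr_dual (γ n) (b := b n) (c := c n) (h n) fun i => (pos i).ne'
  have a1 : w2 ((pairOf ρ).B (γ n)) (cr (b n i1) (b n i2)) =
      ((sv (ρ (γ n)) i1)⁻¹ * (sv (ρ (γ n)) i2)⁻¹) • cr (c n i1) (c n i2) := by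
    rw [w2_cr, hB, hB, cr_smul_left, cr_smul_right, smul_smul]
  have s0 : 0 ≤ (sv (ρ (γ n)) i1)⁻¹ * (sv (ρ (γ n)) i2)⁻¹ :=
    (mul_pos (inv_pos.2 (pos _)) (inv_pos.2 (pos _))).le
  have a2 := eq_of_top (norm_cr_onb (b n) n12) (norm_cr_onb (c n) n12) s0 a1
    (w2_le hB s0 fun i j hij => by
      have aux : ∀ i j : Fin (m + 3), (i : ℕ) < j → (sv (ρ (γ n)) i)⁻¹ * (sv (ρ (γ n)) j)⁻¹ ≤
          (sv (ρ (γ n)) i1)⁻¹ * (sv (ρ (γ n)) i2)⁻¹ := fun i j hij =>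
        mul_le_mul (inv_anti₀ (pos _) (sv_anti _ (by simp only [hi1]; omega)))
          (inv_anti₀ (pos _) (sv_anti _ (by simp only [hi2]; omega))) (inv_pos.2 (pos _)).le
          (inv_pos.2 (pos _)).le
      rw [abs_of_pos (mul_pos (inv_pos.2 (pos _)) (inv_pos.2 (pos _)))]
      rcases lt_or_gt_of_ne (Fin.val_ne_of_ne hij) with h | h
      · exact aux i j h
      · rw [mul_comm]; exact aux j i h)
  have eA : Sy.w.swap.A (γ n) = w2 ((pairOf ρ).B (γ n)) := by rw [← e]; rfl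
  have a3 := Sy.w.swap.top_close (γ n) (norm_cr_onb (b n) n12) (w' := cr (c n i1) (c n i2))
    (by rw [eA, a2, a1])
  have a4 := cr_triangle' (norm_cr_onb (c n) n12) (Sy.w.swap.norm_U (γ n)) (Sy.w.norm_Y z)
  rw [norm_cr_comm _ (Sy.w.swap.U (γ n))] at a4
  have a5 : ‖cr (Sy.w.Y z) (cr (c n i1) (c n i2))‖ ≤
      Sy.w.swap.τ (γ n) + ‖cr (Sy.w.swap.U (γ n)) (Sy.w.swap.X z)‖ := by
    rw [norm_cr_comm]; exact a4.trans (add_le_add a3 le_rfl)
  generalize Sy.w.swap.τ (γ n) + ‖cr (Sy.w.swap.U (γ n)) (Sy.w.swap.X z)‖ = ε at a5 ⊢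
  have a6 : ∀ w, ‖w‖ = 1 → |⟪cr v w, cr (c n i1) (c n i2)⟫_ℝ| ≤ ε * ‖v‖ := fun w hw => by
    have := abs_inner_le_of_cr (Sy.w.norm_Y z) (norm_cr_onb (c n) n12) (cr v w)
    rw [show ⟪cr v w, Sy.w.Y z⟫_ℝ = 0 from hv w, abs_zero, zero_add] at this
    refine this.trans (mul_le_mul a5 ?_ (norm_nonneg _) ((norm_nonneg _).trans a5))
    simpa [hw] using norm_cr_le v w
  have a7 : ∀ i : Fin (m + 3), ¬ (i : ℕ) ≤ m → |⟪c n i, v⟫_ℝ| ≤ ε * ‖v‖ := fun i hi => by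
    have o := orthonormal_iff_ite.1 (c n).orthonormal
    rcases (show i = i1 ∨ i = i2 by
      simp only [Fin.ext_iff, hi1, hi2]; omega) with rfl | rfl
    · have := a6 _ ((c n).orthonormal.1 i2)
      rwa [inner_cr_cr, o, o, if_pos rfl, if_neg n12.symm, mul_one, mul_zero, sub_zero,
        real_inner_comm] at this
    · have := a6 _ ((c n).orthonormal.1 i1)
      rwa [inner_cr_cr, o, o, if_pos rfl, if_neg n12, mul_one, mul_zero, zero_sub, abs_neg,
        real_inner_comm] at this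
  have a8 : v - ∑ i : Fin (m + 3) with i.val ≤ m, ⟪c n i, v⟫_ℝ • c n i =
      ∑ i : Fin (m + 3) with ¬ i.val ≤ m, ⟪c n i, v⟫_ℝ • c n i := by
    rw [sub_eq_iff_eq_add', Finset.sum_filter_add_sum_filter_not, (c n).sum_repr']
  rw [norm_sub_rev, a8]
  refine (norm_sum_le _ _).trans ((Finset.sum_le_card_nsmul _ _ (ε * ‖v‖) fun i hi => ?_).trans ?_)
  · rw [norm_smul, (c n).orthonormal.1, mul_one]; exact a7 i (Finset.mem_filter.1 hi).2
  · rw [nsmul_eq_mul]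
    refine mul_le_mul_of_nonneg_right (Nat.cast_le.2 ?_)
      (mul_nonneg ((norm_nonneg _).trans a5) (norm_nonneg _))
    simpa using Finset.card_le_univ (Finset.univ.filter fun i : Fin (m + 3) => ¬ (i : ℕ) ≤ m)

lemma hyp_of {ρ : Γ →* SL(m + 3, ℝ)} {Sy : Sys2 Γ (Eu (m + 3))} (e : Sy.toPair = pairOf ρ)
    (h : ∀ x y z, dt x y ≠ 0 → dt x z ≠ 0 → dt y z ≠ 0 → Sy.om z (Sy.X x) (Sy.X y) ≠ 0) :
    Hyperconvex Sy.F.r ρ := by
  intro x y z hxy hxz hyz
  have dxy : dt x y ≠ 0 := sub_ne_zero.2 hxy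
  have dxz : dt x z ≠ 0 := sub_ne_zero.2 hxz
  have dyz : dt y z ≠ 0 := sub_ne_zero.2 hyz
  have hz := ne_zero_of_dt_right dxz
  have o := h x y z dxy dxz dyz
  rw [eq_top_iff]
  intro v0 _
  set v : Eu (m + 3) := toLp 2 v0 with hv
  set α := Sy.om z v (Sy.X y) / Sy.om z (Sy.X x) (Sy.X y) with hα
  set β := Sy.om z (Sy.X x) v / Sy.om z (Sy.X x) (Sy.X y) with hβ
  have k := ker_mem e hz (v := v - α • Sy.X x - β • Sy.X y) fun w => by
    have : Sy.om z (v - α • Sy.X x - β • Sy.X y) w =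
        Sy.om z v w - α * Sy.om z (Sy.X x) w - β * Sy.om z (Sy.X y) w := by
      simp only [Sys2.om, cr_sub_left, cr_smul_left, inner_sub_left, real_inner_smul_left]
    rw [this, hα, hβ]
    field_simp
    rw [Sy.om_eq hz v w, Sy.om_eq hz (Sy.X x) (Sy.X y), Sy.om_eq hz v (Sy.X y),
      Sy.om_eq hz (Sy.X x) w, Sy.om_eq hz (Sy.X x) v, Sy.om_eq hz (Sy.X y) w]
    ring
  have ev : v0 = (v - α • Sy.X x - β • Sy.X y).ofLp + α • (Sy.X x).ofLp + β • (Sy.X y).ofLp := by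
    rw [ofLp_sub, ofLp_sub, ofLp_smul, ofLp_smul, hv]; simp; abel
  rw [ev]
  refine Submodule.add_mem _ (Submodule.add_mem _ (Submodule.subset_span (Or.inr k))
    (Submodule.smul_mem _ _ (Submodule.subset_span (Or.inl (Or.inl ?_)))))
    (Submodule.smul_mem _ _ (Submodule.subset_span (Or.inl (Or.inr ?_))))
  · exact X_mem e (ne_zero_of_dt_left dxy)
  · exact X_mem e (ne_zero_of_dt_left dyz)

theorem main {S : Finset Γ} (hsym : ∀ s ∈ S, s⁻¹ ∈ S) (hgen : Subgroup.closure (S : Set Γ) = ⊤)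
    (F : Fu Γ) (ρ : Γ →* SL(m + 3, ℝ)) (h1 : IsAnosov S ρ 1) (h2 : IsAnosov S ρ 2)
    (hn : ¬ Hyperconvex F.r ρ) : 1 < affExp ρ := by
  obtain ⟨Sy, e1, rfl⟩ := exists_sys hsym hgen F h1 h2
  obtain ⟨ε, hε, hε1, hdiv⟩ := Sys2.diverge (S := Sy) (by
    rcases Sy.tri with h | h | h
    · exact Sys2.NM.big h
    · exact Sys2.big_of_deg h
    · exact absurd (hyp_of e1 h) hn)
  refine lt_of_lt_of_le (show (1 : EReal) < ((1 + ε : ℝ) : EReal) by
    exact_mod_cast (by linarith : (1 : ℝ) < 1 + ε)) (le_sInf ?_)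
  rintro _ ⟨s, ⟨s0, -, hs⟩, rfl⟩
  by_contra hc
  have hc' : s < 1 + ε := by simpa only [EReal.coe_le_coe_iff, not_le] using hc
  refine hdiv (Summable.of_nonneg_of_le (fun g => mul_nonneg (Sy.τ_pos g).le
    (Real.rpow_nonneg (mul_pos (Sy.A_pos g) (Sy.B_pos g)).le _)) (fun g => ?_) hs)
  have p0 := sv_pos (ρ g) (show 0 < m + 3 by omega)
  have r1 : sv (ρ g) 1 / sv (ρ g) 0 ≤ 1 := (div_le_one p0).2 (sv_anti _ (by omega))
  have r2 : sv (ρ g) 2 / sv (ρ g) 0 ≤ 1 := (div_le_one p0).2 (sv_anti _ (by omega))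
  have r3 : 0 < sv (ρ g) 1 / sv (ρ g) 0 := div_pos (sv_pos _ (by omega)) p0
  have r4 : 0 < sv (ρ g) 2 / sv (ρ g) 0 := div_pos (sv_pos _ (by omega)) p0
  have r5 := (mul_pos (Sy.A_pos g) (Sy.B_pos g)).le
  rw [Real.rpow_neg r5, ← Real.inv_rpow r5]
  have r6 : (‖Sy.A g‖ * ‖Sy.B g‖)⁻¹ ^ ε ≤ (sv (ρ g) 2 / sv (ρ g) 0) ^ ε :=
    Real.rpow_le_rpow (inv_nonneg.2 r5) (by rw [e1]; exact (tau_eq ρ g).2.2) hε.le
  refine (mul_le_mul_of_nonneg_left r6 (Sy.τ_pos g).le).trans ?_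
  rw [e1, (tau_eq ρ g).1]
  unfold term
  split_ifs with h
  · calc _ ≤ sv (ρ g) 1 / sv (ρ g) 0 * 1 :=
          mul_le_mul_of_nonneg_left (Real.rpow_le_one r4.le r2 hε.le) r3.le
      _ = (sv (ρ g) 1 / sv (ρ g) 0) ^ (1 : ℝ) := by simp
      _ ≤ _ := Real.rpow_le_rpow_of_exponent_ge r3 r1 h
  · exact mul_le_mul_of_nonneg_left (Real.rpow_le_rpow_of_exponent_ge r4 r2 (by linarith)) r3.le

lemma exists_toward (F : Fu Γ) {x : Pl} (hx : x ≠ 0) : ∃ γ : ℕ → Γ,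
    Toward (fun n => F.r (γ n)) x ∧ ∀ᶠ n in atTop, 4 < nn (F.r (γ n)) := by
  obtain ⟨k, f, kn, t, hz⟩ := F.exists_zoom (gv x)
  refine ⟨f, ?_, ?_⟩
  · have l0 : Tendsto (fun n => act (F.r (f n))⁻¹ x) atTop (𝓝 0) := by
      have l := (Real.tendsto_exp_neg_atTop_nhds_zero.comp hz.2.2).smul
        (Tendsto.act hz.2.1 (tendsto_const_nhds (x := e1)))
      rw [zero_smul] at l
      refine l.congr fun n => ?_
      conv_rhs => rw [hz.1 n, ← act_gv hx]
      rw [gv_fix hx, mul_inv_rev, mul_inv_rev, inv_inv, act_mul, act_mul, act_inv_act, ← D_neg, act_D,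
        ← act_smul]
      simp [e1]
    have l1 := (((continuous_snd.tendsto _).comp l0).pow 2).add
      (((continuous_fst.tendsto _).comp l0).pow 2)
    simp only [Prod.fst_zero, Prod.snd_zero, ne_eq, OfNat.ofNat_ne_zero, not_false_eq_true,
      zero_pow, add_zero] at l1
    refine squeeze_zero (fun _ => by positivity) (fun n => ?_) l1
    have hd := gdet (F.r (f n))
    refine (div_le_self (by positivity) ?_).trans (le_of_eq ?_)
    · nlinarith [sq_nonneg (F.r (f n) 0 0 - F.r (f n) 1 1), sq_nonneg (F.r (f n) 0 1 + F.r (f n) 1 0)]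
    · simp only [Function.comp, act, inv00, inv01, inv10, inv11]; ring
  · filter_upwards [((continuous_nn.tendsto k).comp hz.2.1).eventually
      (gt_mem_nhds (lt_add_one (nn k))), (Real.tendsto_exp_atTop.comp hz.2.2).eventually_gt_atTop
      (nn (gv x) * 4 * (nn k + 1))] with n h1 h2
    by_contra hc
    have e : D (t n) = (gv x)⁻¹ * F.r (f n) * kn n := by rw [hz.1 n]; group
    have h3 := exp_le_nn_D (t n)
    rw [e] at h3
    exact absurd (h3.trans (nn_mul_le (nn_mul_le (nn_inv _).le (not_lt.1 hc)) (le_of_lt h1)))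
      (not_le.2 h2)
where gv_fix {x : Pl} (hx : x ≠ 0) : gv (act (gv x) e1) = gv x := by rw [act_gv hx]

/-- The base point of a Barbot component is not hyperconvex. -/
theorem barbot (F : Fu Γ) (ρ₁ : Γ →* SL(3, ℝ))
    (h₁ : ∀ γ, (ρ₁ γ : Matrix (Fin 3) (Fin 3) ℝ) =
      !![F.r γ 0 0, F.r γ 0 1, 0; F.r γ 1 0, F.r γ 1 1, 0; 0, 0, 1]) : ¬ Hyperconvex F.r ρ₁ := by
  have key : ∀ x : Pl, x ≠ 0 → ∀ v ∈ xi F.r ρ₁ 1 x, v 2 = 0 := fun x hx v hv => by
    obtain ⟨γ, h1, h2⟩ := exists_toward F hx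
    obtain ⟨u, hu, l⟩ := hv γ h1
    refine tendsto_nhds_unique (((continuous_apply 2).tendsto v).comp l)
      (tendsto_const_nhds.congr' (h2.mono fun n hn => ?_))
    have big : 1 < sv (ρ₁ (γ n)) 0 := by
      by_contra hc
      have ent : ∀ i j, |(ρ₁ (γ n) : Matrix (Fin 3) (Fin 3) ℝ) i j| ≤ 1 := fun i j => by
        have a1 := (op (ρ₁ (γ n))).le_opNorm (EuclideanSpace.single j 1)
        have a2 := PiLp.norm_apply_le (op (ρ₁ (γ n)) (EuclideanSpace.single j 1)) i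
        rw [(sv_spec (m := 0) _).1, PiLp.norm_single, norm_one, mul_one] at a1
        rw [ofLp_op] at a2
        simp only [PiLp.ofLp_single, Matrix.mulVec_single_one, Matrix.col_apply,
          Real.norm_eq_abs] at a2
        linarith
      have a := ent 0 0; have b := ent 0 1; have c := ent 1 0; have e := ent 1 1
      rw [h₁] at a b c e
      simp only [Matrix.of_apply, Matrix.cons_val', Matrix.cons_val_zero, Matrix.cons_val_one] at a b c e
      unfold nn at hn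
      linarith
    have sub : attr (ρ₁ (γ n)) 1 ≤ LinearMap.ker (LinearMap.proj (R := ℝ) (φ := fun _ => ℝ) 2) := by
      refine iSup₂_le fun μ hμ w hw => ?_
      have h3 := congrFun (Module.End.mem_eigenspace_iff.1 hw) 2
      have r0 : (ρ₁ (γ n) : Matrix (Fin 3) (Fin 3) ℝ) 2 0 = 0 := by rw [h₁]; rfl
      have r1 : (ρ₁ (γ n) : Matrix (Fin 3) (Fin 3) ℝ) 2 1 = 0 := by rw [h₁]; rfl
      have r2 : (ρ₁ (γ n) : Matrix (Fin 3) (Fin 3) ℝ) 2 2 = 1 := by rw [h₁]; rfl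
      have r3 : (ρ₁ (γ n) : Matrix (Fin 3) (Fin 3) ℝ) 0 2 = 0 := by rw [h₁]; rfl
      have r4 : (ρ₁ (γ n) : Matrix (Fin 3) (Fin 3) ℝ) 1 2 = 0 := by rw [h₁]; rfl
      simp only [Matrix.toLin'_apply, Matrix.mulVec, dotProduct, Fin.sum_univ_three,
        Matrix.mul_apply, Matrix.transpose_apply, r0, r1, r2, r3, r4, Pi.smul_apply,
        smul_eq_mul] at h3
      have h4 : 1 < μ := lt_of_lt_of_le (by nlinarith) (show sv (ρ₁ (γ n)) 0 ^ 2 ≤ μ from hμ)
      change w 2 = 0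
      exact (mul_eq_zero.1 (show (μ - 1) * w 2 = 0 by linarith)).resolve_left (by linarith)
    exact (sub (hu n)).symm
  intro H
  have h := H (1, 0) (0, 1) (1, 1) (by norm_num) (by norm_num) (by norm_num)
  have sub : Submodule.span ℝ (xi F.r ρ₁ 1 (1, 0) ∪ xi F.r ρ₁ 1 (0, 1) ∪ xi F.r ρ₁ (3 - 2) (1, 1)) ≤
      LinearMap.ker (LinearMap.proj (R := ℝ) (φ := fun _ => ℝ) 2) := by
    rw [Submodule.span_le]
    rintro v ((hv | hv) | hv)
    · exact key _ (by simp) v hv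
    · exact key _ (by simp) v hv
    · exact key _ (by simp) v hv
  rw [h] at sub
  simpa using sub (Submodule.mem_top (x := fun _ => (1 : ℝ)))

end Pool.Agent.P.MP_39a2dc_an.H
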