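import Pool.Agent.P.MP_39a2dc_an.SL2

/-! No global fixed point on the circle, and propagation of open invariant properties of
quadruples of points into a given arc. -/

open Filter Topology Set

namespace Pool.Agent.P.MP_39a2dc_an.H

lemma arc_rep {h : G} {σ : ℝ} {u : Pl} (H : Arc h σ u) :
    ∃ c s : ℝ, c ≠ 0 ∧ 0 < s ∧ s < 1 ∧ u = c • act h (1, -s) := by
  obtain ⟨h1, h2⟩ := H
  have h3 : 0 < σ * (act h⁻¹ u).1 := by linarith
  have h4 : (act h⁻¹ u).1 ≠ 0 := by intro h0; simp [h0] at h3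
  have h5 : σ ≠ 0 := by intro h0; simp [h0] at h3
  have e : -(act h⁻¹ u).2 / (act h⁻¹ u).1 = -(σ * (act h⁻¹ u).2) / (σ * (act h⁻¹ u).1) := by
    field_simp
  refine ⟨(act h⁻¹ u).1, -(act h⁻¹ u).2 / (act h⁻¹ u).1, h4, ?_, ?_, ?_⟩
  · rw [e]; exact div_pos (by linarith) h3
  · rw [e, div_lt_one h3]; linarith
  · rw [← act_smul]
    conv_lhs => rw [← act_act_inv h u]
    congr 1
    ext
    · simp
    · simp; field_simp

lemma dt_act_one (h : G) (a b : ℝ) : dt (act h (1, a)) (act h (1, b)) = b - a := by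
  rw [dt_act]; simp [dt]
lemma dt_act_e2 (h : G) (a : ℝ) : dt (act h (1, a)) (act h e2) = 1 := by
  rw [dt_act]; simp [dt, e2]
lemma act_one_ne (h : G) (a : ℝ) : act h (1, a) ≠ 0 := act_ne_zero h (by simp)

variable {Γ : Type*} [Group Γ] (F : Fu Γ)

lemma hfix (z : Pl) (hz : z ≠ 0) : ∃ γ, dt (act (F.r γ) z) z ≠ 0 := by
  by_contra hc
  push Not at hc
  obtain ⟨g, hg⟩ : ∃ g : G, act g e1 = z := ⟨_, act_gv hz⟩
  obtain ⟨m, hm⟩ : ∃ m : Γ → G, ∀ γ, m γ = g⁻¹ * F.r γ * g := ⟨_, fun _ => rfl⟩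
  have mmul : ∀ a b, m (a * b) = m a * m b := fun a b => by simp only [hm, map_mul]; group
  have minv : ∀ a, m a⁻¹ = (m a)⁻¹ := fun a => by simp only [hm, map_inv]; group
  have m10 : ∀ γ, m γ 1 0 = 0 := fun γ => by
    have h := hc γ
    rw [← dt_act g⁻¹, ← hg, act_inv_act, ← act_mul, ← act_mul, ← hm] at h
    simpa [dt, act, e1] using h
  have mdet : ∀ γ, m γ 0 0 * m γ 1 1 = 1 := fun γ => by
    have := gdet (m γ); rw [m10] at this; linarith
  obtain ⟨R, hR⟩ : ∃ R, R = F.R * nn g := ⟨_, rfl⟩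
  have ent : ∀ k : G, nn k ≤ F.R → ∀ i j, |(k⁻¹ * g) i j| ≤ R := fun k hk i j => by
    have h1 : nn (k⁻¹ * g) ≤ R := hR ▸ nn_mul_le (by rwa [nn_inv]) le_rfl
    have a1 := abs_nonneg ((k⁻¹ * g) 0 0); have a2 := abs_nonneg ((k⁻¹ * g) 0 1)
    have a3 := abs_nonneg ((k⁻¹ * g) 1 0); have a4 := abs_nonneg ((k⁻¹ * g) 1 1)
    unfold nn at h1
    fin_cases i <;> fin_cases j <;> simp only [Fin.zero_eta, Fin.mk_one] <;> linarith
  have R1 : 1 ≤ R := hR ▸ one_le_mul_of_one_le_of_one_le F.one_le_R (one_le_nn g)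
  obtain ⟨δ, hδ⟩ : ∃ δ, |m δ 1 1| ≤ 1 / 2 := by
    obtain ⟨δ, k, hk, e⟩ := F.cocpt (g * D (Real.log (2 * R)))
    refine ⟨δ, ?_⟩
    have : m δ = D (Real.log (2 * R)) * (k⁻¹ * g) := by simp only [hm, e]; group
    rw [this, mul_e]
    have h1 := ent k hk 1 1
    have h2 : D (Real.log (2 * R)) 1 1 = (2 * R)⁻¹ := by
      simp only [D, mk11]; rw [Real.exp_neg, Real.exp_log (by linarith)]
    have h3 : D (Real.log (2 * R)) 1 0 = 0 := by simp only [D, mk10]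
    rw [h2, h3, zero_mul, zero_add, abs_mul, abs_of_pos (by positivity), inv_mul_eq_div,
      div_le_iff₀ (by linarith)]
    linarith
  obtain ⟨l, hl⟩ : ∃ l, l = m δ 0 0 := ⟨_, rfl⟩
  obtain ⟨μ, hμ⟩ : ∃ l, l = m δ 0 1 := ⟨_, rfl⟩
  obtain ⟨ν, hν⟩ : ∃ l, l = m δ 1 1 := ⟨_, rfl⟩
  rw [← hν] at hδ
  have lν : l * ν = 1 := by rw [hl, hν]; exact mdet δ
  have ν0 : ν ≠ 0 := right_ne_zero_of_mul (lν ▸ one_ne_zero)
  have l0 : l ≠ 0 := left_ne_zero_of_mul (lν ▸ one_ne_zero)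
  have lν' : 1 ≤ |l - ν| := by
    have h1 : |l| * |ν| = 1 := by rw [← abs_mul, lν, abs_one]
    have h2 := abs_sub_abs_le_abs_sub l ν
    nlinarith [abs_nonneg l, abs_nonneg ν]
  obtain ⟨γ, hγ⟩ : ∃ γ, μ * (m γ 0 0 - m γ 1 1) - m γ 0 1 * (l - ν) ≠ 0 := by
    obtain ⟨x, hx⟩ : ∃ x, x = R * (R + |μ| * (2 * R) + 1) := ⟨_, rfl⟩
    obtain ⟨γ, k, hk, e⟩ := F.cocpt (g * mk 1 x 0 1 (by simp))
    refine ⟨γ, fun h0 => ?_⟩
    have em : m γ = mk 1 x 0 1 (by simp) * (k⁻¹ * g) := by simp only [hm, e]; group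
    have b10 : (k⁻¹ * g) 1 0 = 0 := by
      have := m10 γ; rw [em, mul_e] at this; simpa using this
    have b00 : m γ 0 0 = (k⁻¹ * g) 0 0 := by rw [em, mul_e, b10]; simp
    have b11 : m γ 1 1 = (k⁻¹ * g) 1 1 := by rw [em, mul_e]; simp
    have b01 : m γ 0 1 = (k⁻¹ * g) 0 1 + x * (k⁻¹ * g) 1 1 := by rw [em, mul_e]; simp
    have d := mdet γ
    have c0 := ent k hk 0 0; have c1 := ent k hk 0 1; have c2 := ent k hk 1 1
    rw [b00, b11] at d
    rw [b00, b11, b01] at h0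
    generalize (k⁻¹ * g) 0 0 = a at *
    generalize (k⁻¹ * g) 1 1 = b at *
    generalize (k⁻¹ * g) 0 1 = c at *
    have h1 : |c + x * b| * |l - ν| = |μ| * |a - b| := by
      rw [← abs_mul, ← abs_mul]; congr 1; linarith
    have h2 : |a - b| ≤ 2 * R := (abs_sub a b).trans (by linarith)
    have h3 : |c + x * b| ≤ |μ| * (2 * R) := by
      nlinarith [abs_nonneg (c + x * b), abs_nonneg μ]
    have x0 : 0 ≤ x := by rw [hx]; positivity
    have h4 : x * |b| ≤ |c + x * b| + |c| := by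
      have := abs_sub (c + x * b) c
      rwa [add_sub_cancel_left, abs_mul, abs_of_nonneg x0] at this
    have h5 : 1 ≤ R * |b| := by
      have : |a| * |b| = 1 := by rw [← abs_mul, d, abs_one]
      nlinarith [abs_nonneg b]
    have h6 : (R + |μ| * (2 * R) + 1) * 1 ≤ (R + |μ| * (2 * R) + 1) * (R * |b|) :=
      mul_le_mul_of_nonneg_left h5 (by positivity)
    have h7 : x * |b| = (R + |μ| * (2 * R) + 1) * (R * |b|) := by rw [hx]; ring
    linarith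
  obtain ⟨κ, hκ⟩ : ∃ κ, κ = γ * δ * γ⁻¹ * δ⁻¹ := ⟨_, rfl⟩
  obtain ⟨c, hc'⟩ : ∃ c, c = m κ 0 1 := ⟨_, rfl⟩
  have c0 : c ≠ 0 := by
    have : c = m γ 0 0 * l * (μ * (m γ 0 0 - m γ 1 1) - m γ 0 1 * (l - ν)) := by
      simp only [hc', hκ, mmul, minv, mul_e, inv00, inv01, inv10, inv11, m10, ← hl, ← hμ, ← hν]
      ring
    rw [this]
    exact mul_ne_zero (mul_ne_zero (left_ne_zero_of_mul (mdet γ ▸ one_ne_zero)) l0) hγ
  have k0 : m κ 0 0 = 1 ∧ m κ 1 1 = 1 := by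
    simp only [hκ, mmul, minv, mul_e, inv00, inv01, inv10, inv11, m10, ← hl, ← hμ, ← hν]
    constructor
    · linear_combination (l * ν) * mdet γ + lν
    · linear_combination (l * ν) * mdet γ + lν
  have it : ∀ j : ℕ, m ((δ ^ j)⁻¹ * κ * δ ^ j) = mk 1 (c * (ν ^ 2) ^ j) 0 1 (by simp) := by
    intro j
    induction j with
    | zero => apply gext <;> simp [k0.1, k0.2, m10, hc']
    | succ j ih =>
      have : (δ ^ (j + 1))⁻¹ * κ * δ ^ (j + 1) = δ⁻¹ * ((δ ^ j)⁻¹ * κ * δ ^ j) * δ := by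
        rw [pow_succ]; group
      rw [this, mmul, mmul, ih, minv]
      apply gext <;>
        simp only [mul_e, inv00, inv01, inv10, inv11, m10, ← hl, ← hμ, ← hν, mk00, mk01, mk10, mk11]
      · linear_combination lν
      · ring
      · ring
      · linear_combination lν
  have ν1 : ν ^ 2 < 1 := by rw [← sq_abs]; nlinarith [abs_nonneg ν]
  have ν2 : 0 < ν ^ 2 := by positivity
  refine Set.infinite_of_injective_forall_mem (f := fun j : ℕ => (δ ^ j)⁻¹ * κ * δ ^ j) ?_ ?_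
    (F.proper (nn g * (2 + |c|) * nn g))
  · intro i j hij
    have h1 := congrArg (fun a => m a 0 1) hij
    simp only [it, mk01] at h1
    exact pow_right_injective₀ ν2 ν1.ne (mul_left_cancel₀ c0 h1)
  · intro j
    have e : F.r ((δ ^ j)⁻¹ * κ * δ ^ j) = g * m ((δ ^ j)⁻¹ * κ * δ ^ j) * g⁻¹ := by
      simp only [hm]; group
    simp only [mem_ofPred_eq]
    rw [e, it]
    refine nn_mul_le (nn_mul_le le_rfl ?_) (by rw [nn_inv])
    have h1 : |c * (ν ^ 2) ^ j| ≤ |c| := by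
      rw [abs_mul, abs_of_pos (pow_pos ν2 j)]
      exact mul_le_of_le_one_right (abs_nonneg _) (pow_le_one₀ ν2.le ν1.le)
    simp only [nn, mk00, mk01, mk10, mk11, abs_one, abs_zero]
    linarith

/-- The group element `γ` sends the line of `v` to the line of `w`. -/
def Rel (γ : Γ) (v w : Pl) : Prop := w ≠ 0 ∧ ∃ c : ℝ, c ≠ 0 ∧ act (F.r γ) v = c • w

variable {F}

lemma Rel.refl {v : Pl} (hv : v ≠ 0) : Rel F 1 v v :=
  ⟨hv, 1, one_ne_zero, by rw [map_one, act_one, one_smul]⟩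

lemma Rel.of_smul {v w : Pl} (hw : w ≠ 0) {c : ℝ} (hc : c ≠ 0) (h : v = c • w) : Rel F 1 v w :=
  ⟨hw, c, hc, by rw [map_one, act_one, h]⟩

lemma Rel.of_arc {γ : Γ} {v : Pl} {h : G} {σ : ℝ} (H : Arc h σ (act (F.r γ) v)) :
    ∃ s ∈ Ioo (0 : ℝ) 1, Rel F γ v (act h (1, -s)) := by
  obtain ⟨c, s, hc, s0, s1, e⟩ := arc_rep H
  exact ⟨s, ⟨s0, s1⟩, act_one_ne _ _, c, hc, e⟩

lemma propagate {P : Pl → Pl → Pl → Pl → Prop}
    (hop : ∀ a b c z, P a b c z → ∀ᶠ w in 𝓝 z, P a b c w)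
    (hne : ∀ a b c z, P a b c z → dt a z ≠ 0 ∧ dt b z ≠ 0 ∧ dt c z ≠ 0)
    (inv : ∀ γ a b c z a' b' c' z', Rel F γ a a' → Rel F γ b b' → Rel F γ c c' → Rel F γ z z' →
      P a b c z → P a' b' c' z')
    {a b c z : Pl} (H : P a b c z) (h : G) :
    ∃ s1 ∈ Ioo (0 : ℝ) 1, ∃ s2 ∈ Ioo (0 : ℝ) 1, ∃ s3 ∈ Ioo (0 : ℝ) 1,
      P (act h (1, -s1)) (act h (1, -s2)) (act h (1, -s3)) (act h e2) := by
  obtain ⟨n1, n2, n3⟩ := hne _ _ _ _ H
  have hz := ne_zero_of_dt_right n1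
  have hl : Tendsto (fun β : ℝ => act (gv z) (1, β)) (𝓝 0) (𝓝 z) := by
    have : Continuous fun β : ℝ => act (gv z) (1, β) := by fun_prop
    have h2 := this.tendsto 0
    rwa [show act (gv z) (1, 0) = z from act_gv hz] at h2
  obtain ⟨δ, hδ, hb⟩ := Metric.eventually_nhds_iff.1 (hl.eventually (hop _ _ _ _ H))
  obtain ⟨k, f, kn, t, σ, hZ, harc⟩ := F.exists_zoom_arc (hfix F) (h * L (1 / 2))
    (gv z * D (-Real.log δ / 2))
  obtain ⟨c0, s, hc0, s0, s1, e⟩ := arc_rep harc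
  have e' : act k e2 = (c0 * Real.exp (-Real.log δ / 2)) • act (gv z) (1, -(s * δ)) := by
    rw [e, act_mul, act_D, mul_smul, ← act_smul (gv z) (Real.exp _)]
    have : Real.exp (-(-Real.log δ / 2)) = Real.exp (-Real.log δ / 2) * δ := by
      conv_rhs => rw [← Real.exp_log hδ, ← Real.exp_add]
      congr 1; rw [Real.log_exp]; ring
    congr 2
    ext
    · simp
    · simp only [this, Prod.smul_snd, smul_eq_mul]; ring
  have hc1 : c0 * Real.exp (-Real.log δ / 2) ≠ 0 := mul_ne_zero hc0 (Real.exp_pos _).ne'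
  have H1 : P a b c (act k e2) := by
    refine inv 1 _ _ _ _ _ _ _ _ (Rel.refl (ne_zero_of_dt_left n1))
      (Rel.refl (ne_zero_of_dt_left n2)) (Rel.refl (ne_zero_of_dt_left n3))
      (Rel.of_smul (act_ne_zero k e2_ne) (inv_ne_zero hc1) ?_) (hb (y := -(s * δ)) ?_)
    · rw [e', smul_smul, inv_mul_cancel₀ hc1, one_smul]
    · rw [Real.dist_eq, sub_zero, abs_neg, abs_of_pos (mul_pos s0 hδ)]; nlinarith
  obtain ⟨m1, m2, m3⟩ := hne _ _ _ _ H1
  obtain ⟨n, ⟨⟨a1, a2⟩, a3⟩, a4⟩ := ((((hZ.arc m1).and (hZ.arc m2)).and (hZ.arc m3)).and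
    ((Tendsto.act hZ.2.1 (tendsto_const_nhds (x := e2))).eventually (hop _ _ _ _ H1))).exists
  obtain ⟨s1, p1, r1⟩ := Rel.of_arc a1
  obtain ⟨s2, p2, r2⟩ := Rel.of_arc a2
  obtain ⟨s3, p3, r3⟩ := Rel.of_arc a3
  refine ⟨s1, p1, s2, p2, s3, p3, inv (f n) _ _ _ _ _ _ _ _ r1 r2 r3
    ⟨act_ne_zero h e2_ne, Real.exp (-t n), (Real.exp_pos _).ne', ?_⟩ a4⟩
  rw [hZ.1 n, act_mul, act_inv_act, act_mul, act_mul, act_D, act_L, ← act_smul]
  simp [e2]

/-- Three distinct points in standard position. -/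
lemma exists_std {x y z : Pl} (hxy : dt x y ≠ 0) (hxz : dt x z ≠ 0) (hyz : dt y z ≠ 0) :
    ∃ h : G, Rel F 1 z (act h e2) ∧
      (Rel F 1 x (act h (1, -0)) ∧ Rel F 1 y (act h (1, -1)) ∨
        Rel F 1 y (act h (1, -0)) ∧ Rel F 1 x (act h (1, -1))) := by
  have hz := ne_zero_of_dt_right hxz
  obtain ⟨g, gz⟩ : ∃ g : G, act g e2 = z :=
    ⟨gv z * W⁻¹, by rw [act_mul, ← act_W_e1, act_inv_act, act_gv hz]⟩
  have rep : ∀ v, dt v z ≠ 0 → ∃ c α : ℝ, c ≠ 0 ∧ v = c • act g (1, α) := fun v hv => by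
    have h1 : (act g⁻¹ v).1 = dt v z := by
      rw [← dt_act g⁻¹, ← gz, act_inv_act]; simp [dt, e2]
    refine ⟨dt v z, (act g⁻¹ v).2 / dt v z, hv, ?_⟩
    rw [← act_smul]
    conv_lhs => rw [← act_act_inv g v]
    congr 1
    ext
    · simp [h1]
    · simp; field_simp
  have main : ∀ α β : ℝ, β < α → ∃ h : G, Rel F 1 z (act h e2) ∧
      (∀ v (c : ℝ), c ≠ 0 → v = c • act g (1, α) → Rel F 1 v (act h (1, -0))) ∧
      (∀ v (c : ℝ), c ≠ 0 → v = c • act g (1, β) → Rel F 1 v (act h (1, -1))) := fun α β hab => by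
    set t := -Real.log (α - β) / 2 with ht
    have et : Real.exp (-t) = Real.exp t * (α - β) := by
      conv_rhs => rw [← Real.exp_log (sub_pos.2 hab), ← Real.exp_add]
      congr 1; rw [ht]; ring
    have p := Real.exp_pos t
    have key : ∀ s, act g (1, α - s * (α - β)) = (Real.exp t)⁻¹ • act (g * L (-α) * D t) (1, -s) :=
      fun s => by
        rw [act_mul, act_mul, act_D, act_L, ← act_smul, et]
        congr 1
        ext
        · simp
        · simp only [Prod.smul_snd, smul_eq_mul]; field_simp; ring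
    refine ⟨g * L (-α) * D t, Rel.of_smul (act_ne_zero _ e2_ne) p.ne' ?_, fun v c hc e => ?_,
      fun v c hc e => ?_⟩
    · rw [act_mul, act_mul, act_D, act_L, ← act_smul, ← gz]
      congr 1
      ext
      · simp [e2]
      · simp [e2, ← Real.exp_add]
    · refine Rel.of_smul (act_one_ne _ _) (mul_ne_zero hc (inv_ne_zero p.ne')) ?_
      rw [mul_smul, ← key, e]; simp
    · refine Rel.of_smul (act_one_ne _ _) (mul_ne_zero hc (inv_ne_zero p.ne')) ?_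
      rw [mul_smul, ← key, e]; simp
  obtain ⟨c, α, hc, ex⟩ := rep x hxz
  obtain ⟨c', β, hc', ey⟩ := rep y hyz
  have hab : α ≠ β := by
    rintro rfl
    apply hxy
    rw [ex, ey, dt_smul_left, dt_smul_right, dt_self]; simp
  rcases lt_or_gt_of_ne hab with h | h
  · obtain ⟨k, h1, h2, h3⟩ := main β α h
    exact ⟨k, h1, Or.inr ⟨h2 _ _ hc' ey, h3 _ _ hc ex⟩⟩
  · obtain ⟨k, h1, h2, h3⟩ := main α β h
    exact ⟨k, h1, Or.inl ⟨h2 _ _ hc ex, h3 _ _ hc' ey⟩⟩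

end Pool.Agent.P.MP_39a2dc_an.H
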