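import Pool.Agent.P.MP_39a2dc_an.HTrans
import Pool.Agent.P.MP_39a2dc_an.HProp

/-! Systems with two gaps. The projection of the limit curve from a codimension two limit
subspace is nowhere monotone, or constant, or injective. -/

open scoped InnerProductSpace
open Filter Topology Set

set_option linter.unusedSectionVars false

namespace Pool.Agent.P.MP_39a2dc_an.H

variable {V : Type*} [NormedAddCommGroup V] [InnerProductSpace ℝ V] [FiniteDimensional ℝ V]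

/-- A system whose second exterior power is also a system. -/
structure Sys2 (Γ : Type*) [Group Γ] (V : Type*) [NormedAddCommGroup V] [InnerProductSpace ℝ V]
    [FiniteDimensional ℝ V] extends Sys Γ V where
  C2 : ℝ
  c2 : ℝ
  c2pos : 0 < c2
  gap2 : ∀ γ, toSys.toPair.wedge.τ γ ≤ C2 * Real.exp (-(c2 * Real.log (nn (F.r γ))))
  one_le2 : ∀ γ, 1 ≤ ‖toSys.toPair.wedge.A γ‖

lemma mono_of_tri {U : ℝ → ℝ} (hc : ∀ t1 t2, 0 ≤ t1 → t1 ≤ t2 → t2 ≤ 1 →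
    |U 0 - U t1| + |U t1 - U t2| + |U t2 - U 1| ≤ |U 0 - U 1|) {a b c : ℝ} (ha : a ∈ Ioo (0 : ℝ) 1)
    (hb : b ∈ Ioo (0 : ℝ) 1) (hc' : c ∈ Ioo (0 : ℝ) 1) (h : 0 < (a - b) * (b - c)) :
    0 ≤ (U a - U b) * (U b - U c) := by
  obtain ⟨ρ, hρ, mono⟩ : ∃ ρ : ℝ, ρ * ρ = 1 ∧
      ∀ a b, 0 ≤ a → a ≤ b → b ≤ 1 → ρ * U a ≤ ρ * U b := by
    rcases le_total (U 0) (U 1) with h0 | h0
    · refine ⟨1, by norm_num, fun a b ha hab hb => ?_⟩
      have := hc a b ha hab hb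
      rw [abs_of_nonpos (sub_nonpos.2 h0)] at this
      have := neg_abs_le (U 0 - U a); have := le_abs_self (U a - U b)
      have := neg_abs_le (U b - U 1)
      linarith
    · refine ⟨-1, by norm_num, fun a b ha hab hb => ?_⟩
      have := hc a b ha hab hb
      rw [abs_of_nonneg (sub_nonneg.2 h0)] at this
      have := le_abs_self (U 0 - U a); have := neg_abs_le (U a - U b)
      have := le_abs_self (U b - U 1)
      linarith
  have e : (U a - U b) * (U b - U c) = (ρ * U a - ρ * U b) * (ρ * U b - ρ * U c) := by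
    linear_combination (-(U a - U b) * (U b - U c)) * hρ
  rw [e]
  rcases mul_pos_iff.1 h with ⟨h1, h2⟩ | ⟨h1, h2⟩
  · exact mul_nonneg (sub_nonneg.2 (mono b a hb.1.le (by linarith) ha.2.le))
      (sub_nonneg.2 (mono c b hc'.1.le (by linarith) hb.2.le))
  · exact mul_nonneg_of_nonpos_of_nonpos (sub_nonpos.2 (mono a b ha.1.le (by linarith) hb.2.le))
      (sub_nonpos.2 (mono b c hb.1.le (by linarith) hc'.2.le))

lemma neg_aux {p x : ℝ} (hp : 0 ≤ p) (h : p * x < 0) : x < 0 := by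
  by_contra hc; linarith [mul_nonneg hp (not_lt.1 hc)]

/-- The point `b` lies between `a` and `c` on the circle minus `z`. -/
def Ord (a b c z : Pl) : Prop := 0 < dt a b * dt b c * dt a z * dt c z ∧ dt b z ≠ 0

lemma dt_rel {Γ : Type*} [Group Γ] {F : Fu Γ} {γ : Γ} {a b a' b' : Pl} {p q : ℝ}
    (h1 : act (F.r γ) a = p • a') (h2 : act (F.r γ) b = q • b') : dt a b = p * q * dt a' b' := by
  rw [← dt_act (F.r γ), h1, h2, dt_smul_left, dt_smul_right]; ring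

lemma dt_ne_rel {Γ : Type*} [Group Γ] {F : Fu Γ} {γ : Γ} {a b a' b' : Pl} (h1 : Rel F γ a a')
    (h2 : Rel F γ b b') (h : dt a b ≠ 0) : dt a' b' ≠ 0 := by
  obtain ⟨-, p, -, e1⟩ := h1
  obtain ⟨-, q, -, e2⟩ := h2
  rw [dt_rel e1 e2] at h
  exact right_ne_zero_of_mul h

lemma Ord.rel {Γ : Type*} [Group Γ] {F : Fu Γ} {γ : Γ} {a b c z a' b' c' z' : Pl}
    (h1 : Rel F γ a a') (h2 : Rel F γ b b') (h3 : Rel F γ c c') (h4 : Rel F γ z z')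
    (H : Ord a b c z) : Ord a' b' c' z' := by
  refine ⟨?_, dt_ne_rel h2 h4 H.2⟩
  obtain ⟨-, p1, n1, e1⟩ := h1
  obtain ⟨-, p2, n2, e2⟩ := h2
  obtain ⟨-, p3, n3, e3⟩ := h3
  obtain ⟨-, p4, n4, e4⟩ := h4
  have h := H.1
  rw [dt_rel e1 e2, dt_rel e2 e3, dt_rel e1 e4, dt_rel e3 e4] at h
  have hp : 0 < (p1 * p2 * p3 * p4) ^ 2 := by positivity
  refine (mul_pos_iff_of_pos_left hp).1 ?_
  linarith

namespace Sys2
variable {Γ : Type*} [Group Γ] [Nontrivial V] [Nontrivial (Wd V)] [Nontrivial (Wd (Wd V))]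
  (S : Sys2 Γ V)

/-- The system on the second exterior power. -/
noncomputable def w : Sys Γ (Wd V) where
  toPair := S.toPair.wedge
  F := S.F
  C := S.C2
  c := S.c2
  cpos := S.c2pos
  gap := S.gap2
  one_le := S.one_le2

/-- The two-form whose kernel is the codimension two limit subspace. -/
noncomputable def om (z : Pl) (u v : V) : ℝ := ⟪cr u v, S.w.Y z⟫_ℝ

lemma om_perp {z : Pl} (hz : z ≠ 0) {a b : V} (ha : ⟪a, S.Y z⟫_ℝ = 0) (hb : ⟪b, S.Y z⟫_ℝ = 0) :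
    S.om z a b = 0 := by
  obtain ⟨k, f, kn, t, hZ⟩ := S.F.exists_zoom (gv z)
  have h1 := Sys.zoom_U (S := S.swap) hZ
  have h2 := Sys.zoom_U (S := S.w.swap) hZ
  have h3 := Sys.zoom_τ (S := S.swap) hZ
  rw [act_gv hz] at h1 h2
  set ζ : ℕ → V := fun n => S.swap.U (f n) with hζ
  have nζ : ∀ n, ‖ζ n‖ = 1 := fun n => S.swap.norm_U _
  have lim : ∀ u : V, ⟪u, S.Y z⟫_ℝ = 0 →
      Tendsto (fun n => u - ⟪ζ n, u⟫_ℝ • ζ n) atTop (𝓝 u) := fun u hu => by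
    rw [tendsto_iff_norm_sub_tendsto_zero]
    have h4 := h1.mul_const ‖u‖
    rw [zero_mul] at h4
    refine squeeze_zero (fun _ => norm_nonneg _) (fun n => ?_) h4
    have := abs_inner_le_of_cr (S.norm_Y z) (nζ n) u
    rw [hu, abs_zero, zero_add, norm_cr_comm] at this
    rw [sub_sub_cancel_left, norm_neg, norm_smul, nζ, mul_one, Real.norm_eq_abs, real_inner_comm]
    exact this
  have la := lim a ha
  have lb := lim b hb
  have l1 := ((Filter.Tendsto.cr la lb).inner (𝕜 := ℝ) (tendsto_const_nhds (x := S.w.Y z))).abs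
  have l2 := (h3.mul (la.norm.mul lb.norm)).add (h2.mul (Filter.Tendsto.cr la lb).norm)
  rw [zero_mul, zero_mul, add_zero] at l2
  rw [← abs_nonpos_iff]
  refine le_of_tendsto_of_tendsto' l1 l2 fun n => ?_
  have eZ : S.Z (f n)⁻¹ = ζ n := by simp only [Pair.Z, inv_inv, hζ, Sys.swap_pair]
  have eZ2 : S.wedge.Z (f n)⁻¹ = S.w.swap.U (f n) := by simp only [Pair.Z, inv_inv]; rfl
  have eτ : S.swap.τ (f n) = S.τ (f n)⁻¹ := S.swap_τ _
  have small : ∀ u : V, ‖S.A (f n)⁻¹ (u - ⟪ζ n, u⟫_ℝ • ζ n)‖ ≤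
      S.τ (f n)⁻¹ * ‖S.A (f n)⁻¹‖ * ‖u - ⟪ζ n, u⟫_ℝ • ζ n‖ := fun u => by
    have := S.upper (f n)⁻¹ (u - ⟪ζ n, u⟫_ℝ • ζ n)
    rwa [eZ, inner_sub_left, real_inner_smul_left, real_inner_self_eq_norm_sq, nζ,
      real_inner_comm (ζ n) u, one_pow, mul_one, sub_self, abs_zero, zero_mul, zero_add] at this
  have sa := small a
  have sb := small b
  generalize a - ⟪ζ n, a⟫_ℝ • ζ n = a' at sa ⊢
  generalize b - ⟪ζ n, b⟫_ℝ • ζ n = b' at sb ⊢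
  have c1 := S.wedge.lower (f n)⁻¹ (cr a' b')
  rw [← S.crA, eZ2] at c1
  have p := S.wedge.A_pos (f n)⁻¹
  have q := S.A_pos (f n)⁻¹
  have r := S.τ_pos (f n)⁻¹
  have c2 : |⟪cr a' b', S.w.swap.U (f n)⟫_ℝ| ≤ S.τ (f n)⁻¹ * (‖a'‖ * ‖b'‖) := by
    refine le_of_mul_le_mul_right (c1.trans ((norm_cr_le _ _).trans ?_)) p
    refine (mul_le_mul sa sb (norm_nonneg _) (by positivity)).trans (le_of_eq ?_)
    have : ‖S.wedge.A (f n)⁻¹‖ = S.τ (f n)⁻¹ * ‖S.A (f n)⁻¹‖ ^ 2 := by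
      rw [Pair.τ]; field_simp
    rw [this]; ring
  have c3 := abs_inner_le_of_cr (S.w.swap.norm_U (f n)) (S.w.norm_Y z) (cr a' b')
  rw [eτ]
  exact c3.trans (add_le_add c2 le_rfl)

lemma om_eq {z : Pl} (hz : z ≠ 0) (a b : V) :
    S.om z a b = ⟪a, S.Y z⟫_ℝ * S.om z (S.Y z) b - ⟪b, S.Y z⟫_ℝ * S.om z (S.Y z) a := by
  have pp : ∀ u : V, ⟪u - ⟪u, S.Y z⟫_ℝ • S.Y z, S.Y z⟫_ℝ = 0 := fun u => by
    rw [inner_sub_left, real_inner_smul_left, real_inner_self_eq_norm_sq, S.norm_Y]; ring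
  have h := S.om_perp hz (pp a) (pp b)
  simp only [om, cr_sub_left, cr_sub_right, cr_smul_left, cr_smul_right, cr_self, smul_zero,
    inner_sub_left, real_inner_smul_left, inner_zero_left, cr_comm a (S.Y z), inner_neg_left] at h
  simp only [om]
  linarith

/-- Affine coordinate of the projection of the limit curve. -/
noncomputable def Uf (z v : Pl) : ℝ := S.om z (S.Y z) (S.X v) / ⟪S.X v, S.Y z⟫_ℝ

lemma om_X {z a b : Pl} (ha : dt a z ≠ 0) (hb : dt b z ≠ 0) : S.om z (S.X a) (S.X b) =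
    -(⟪S.X a, S.Y z⟫_ℝ * ⟪S.X b, S.Y z⟫_ℝ * (S.Uf z a - S.Uf z b)) := by
  have p := S.trans ha
  have q := S.trans hb
  rw [S.om_eq (ne_zero_of_dt_right ha), Uf, Uf]; field_simp; ring

/-- Distance between two points of an arc after projection from the point at infinity. -/
noncomputable def Dd (h : G) (t t' : ℝ) : ℝ :=
  |S.om (act h e2) (S.X (act h (1, -t))) (S.X (act h (1, -t')))| /
    (|⟪S.X (act h (1, -t)), S.Y (act h e2)⟫_ℝ| * |⟪S.X (act h (1, -t')), S.Y (act h e2)⟫_ℝ|)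

lemma Dd_eq (h : G) (t t' : ℝ) :
    S.Dd h t t' = |S.Uf (act h e2) (act h (1, -t)) - S.Uf (act h e2) (act h (1, -t'))| := by
  have d : ∀ a, dt (act h (1, a)) (act h e2) ≠ 0 := fun a => by rw [dt_act_e2]; exact one_ne_zero
  have p := abs_pos.2 (S.trans (d (-t)))
  have q := abs_pos.2 (S.trans (d (-t')))
  rw [Dd, S.om_X (d _) (d _), abs_neg, abs_mul, abs_mul]; field_simp

/-- A quantity whose sign tells if the projection of `b` lies between those of `a` and `c`. -/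
noncomputable def Ψ (a b c z : Pl) : ℝ :=
  S.om z (S.X a) (S.X b) * S.om z (S.X b) (S.X c) * ⟪S.X a, S.Y z⟫_ℝ * ⟪S.X c, S.Y z⟫_ℝ

lemma Ψ_neg {a b c z : Pl} (ha : dt a z ≠ 0) (hb : dt b z ≠ 0) (hc : dt c z ≠ 0) :
    S.Ψ a b c z < 0 ↔ (S.Uf z a - S.Uf z b) * (S.Uf z b - S.Uf z c) < 0 := by
  have hp : 0 < (⟪S.X a, S.Y z⟫_ℝ * ⟪S.X b, S.Y z⟫_ℝ * ⟪S.X c, S.Y z⟫_ℝ) ^ 2 :=
    sq_pos_of_ne_zero (mul_ne_zero (mul_ne_zero (S.trans ha) (S.trans hb)) (S.trans hc))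
  have e : S.Ψ a b c z = (⟪S.X a, S.Y z⟫_ℝ * ⟪S.X b, S.Y z⟫_ℝ * ⟪S.X c, S.Y z⟫_ℝ) ^ 2 *
      ((S.Uf z a - S.Uf z b) * (S.Uf z b - S.Uf z c)) := by
    rw [Ψ, S.om_X ha hb, S.om_X hb hc]; ring
  rw [e]
  exact ⟨fun h => neg_aux hp.le h, fun h => mul_neg_of_pos_of_neg hp h⟩

lemma om_act {γ : Γ} {z z' : Pl} (h : Rel S.F γ z z') :
    ∃ κ : ℝ, κ ≠ 0 ∧ ∀ u v, S.om z u v = κ * S.om z' (S.A γ u) (S.A γ v) := by
  obtain ⟨hz, c, hc, e⟩ := h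
  obtain ⟨κ, hκ, e'⟩ := S.w.swap.X_par γ hz hc e
  refine ⟨κ, hκ, fun u v => ?_⟩
  have e'' : S.wedge.B γ (S.w.Y z) = κ • S.w.Y z' := e'
  rw [om, om, ← S.wedge.inn γ, e'', inner_smul_right, S.crA]

lemma Y_act {γ : Γ} {z z' : Pl} (h : Rel S.F γ z z') :
    ∃ κ : ℝ, κ ≠ 0 ∧ ∀ u, ⟪u, S.Y z⟫_ℝ = κ * ⟪S.A γ u, S.Y z'⟫_ℝ := by
  obtain ⟨hz, c, hc, e⟩ := h
  obtain ⟨κ, hκ, e'⟩ := S.swap.X_par γ hz hc e
  refine ⟨κ, hκ, fun u => ?_⟩
  have e'' : S.B γ (S.Y z) = κ • S.Y z' := e'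
  rw [← S.inn γ, e'', inner_smul_right]

lemma X_rel {γ : Γ} {v v' : Pl} (h : Rel S.F γ v v') :
    ∃ a : ℝ, a ≠ 0 ∧ S.A γ (S.X v) = a • S.X v' := by
  obtain ⟨hz, c, hc, e⟩ := h
  exact S.X_par γ hz hc e

lemma om_smul (z : Pl) (p q : ℝ) (u v : V) : S.om z (p • u) (q • v) = p * q * S.om z u v := by
  rw [om, om, cr_smul_left, cr_smul_right, real_inner_smul_left, real_inner_smul_left]; ring

lemma om_rel {γ : Γ} {a b z a' b' z' : Pl} (h1 : Rel S.F γ a a') (h2 : Rel S.F γ b b')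
    (h4 : Rel S.F γ z z') : S.om z (S.X a) (S.X b) = 0 ↔ S.om z' (S.X a') (S.X b') = 0 := by
  obtain ⟨κ, hκ, e⟩ := S.om_act h4
  obtain ⟨p, hp, e1⟩ := S.X_rel h1
  obtain ⟨q, hq, e2⟩ := S.X_rel h2
  rw [e, e1, e2, om_smul]
  simp [hκ, hp, hq]

lemma Ψ_rel {γ : Γ} {a b c z a' b' c' z' : Pl} (h1 : Rel S.F γ a a') (h2 : Rel S.F γ b b')
    (h3 : Rel S.F γ c c') (h4 : Rel S.F γ z z') (H : S.Ψ a b c z < 0) : S.Ψ a' b' c' z' < 0 := by
  obtain ⟨κ, hκ, e⟩ := S.om_act h4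
  obtain ⟨β, hβ, e'⟩ := S.Y_act h4
  obtain ⟨p, hp, e1⟩ := S.X_rel h1
  obtain ⟨q, hq, e2⟩ := S.X_rel h2
  obtain ⟨r, hr, e3⟩ := S.X_rel h3
  rw [Ψ, e, e, e', e' (S.X c), e1, e2, e3, om_smul, om_smul, real_inner_smul_left,
    real_inner_smul_left] at H
  refine neg_aux (sq_nonneg (p * q * r * κ * β)) ?_
  rw [Ψ]; linarith

lemma exists_signs {z : Pl} (hz : z ≠ 0) : ∃ s s' : Pl → ℝ, (∀ w, s w * s w = 1) ∧
    (∀ w, s' w * s' w = 1) ∧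
    (∀ u v, Tendsto (fun w => s w * S.om w u v) (𝓝 z) (𝓝 (S.om z u v))) ∧
    ∀ u, Tendsto (fun w => s' w * ⟪u, S.Y w⟫_ℝ) (𝓝 z) (𝓝 ⟪u, S.Y z⟫_ℝ) := by
  obtain ⟨s, hs, l⟩ := S.w.swap.exists_sign hz tendsto_id
  obtain ⟨s', hs', l'⟩ := S.swap.exists_sign hz tendsto_id
  refine ⟨s, s', fun w => by rcases hs w with h | h <;> simp [h],
    fun w => by rcases hs' w with h | h <;> simp [h], fun u v => ?_, fun u => ?_⟩
  · refine ((tendsto_const_nhds (x := cr u v)).inner (𝕜 := ℝ) l).congr fun w => ?_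
    rw [inner_smul_right]; rfl
  · refine ((tendsto_const_nhds (x := u)).inner (𝕜 := ℝ) l').congr fun w => ?_
    rw [inner_smul_right]; rfl

lemma tendsto_Ψ (a b c : Pl) {z : Pl} (hz : z ≠ 0) :
    Tendsto (fun w => S.Ψ a b c w) (𝓝 z) (𝓝 (S.Ψ a b c z)) := by
  obtain ⟨s, s', hs, hs', l, l'⟩ := S.exists_signs hz
  refine ((((l _ _).mul (l _ _)).mul (l' _)).mul (l' _)).congr fun w => ?_
  rw [Ψ]
  linear_combination (S.om w (S.X a) (S.X b) * S.om w (S.X b) (S.X c) * ⟪S.X a, S.Y w⟫_ℝ *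
    ⟪S.X c, S.Y w⟫_ℝ) * ((s' w * s' w) * hs w + hs' w)

/-- The trichotomy. -/
theorem tri : (∀ h : G, ∃ t1 t2 : ℝ, 0 ≤ t1 ∧ t1 ≤ t2 ∧ t2 ≤ 1 ∧
      S.Dd h 0 1 < S.Dd h 0 t1 + S.Dd h t1 t2 + S.Dd h t2 1) ∨ (∀ h s s', S.Dd h s s' = 0) ∨
    ∀ x y z, dt x y ≠ 0 → dt x z ≠ 0 → dt y z ≠ 0 → S.om z (S.X x) (S.X y) ≠ 0 := by
  have d : ∀ h a, dt (act h (1, a)) (act h e2) ≠ 0 := fun h a => by
    rw [dt_act_e2]; exact one_ne_zero
  have dne : ∀ {a z : Pl}, dt a z ≠ 0 → ∀ᶠ w in 𝓝 z, dt a w ≠ 0 := fun {a z} h =>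
    (Continuous.dt continuous_const continuous_id).continuousAt.eventually_ne h
  by_cases h1 : ∃ a b c z, Ord a b c z ∧ S.Ψ a b c z < 0
  · obtain ⟨a, b, c, z, H⟩ := h1
    refine Or.inl fun h => ?_
    have hop : ∀ a b c z, Ord a b c z ∧ S.Ψ a b c z < 0 →
        ∀ᶠ w in 𝓝 z, Ord a b c w ∧ S.Ψ a b c w < 0 := fun a b c z H => by
      have c1 : Continuous fun w => dt a b * dt b c * dt a w * dt c w := by fun_prop
      filter_upwards [(c1.tendsto z).eventually (lt_mem_nhds H.1.1), dne H.1.2,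
        (S.tendsto_Ψ a b c (ne_zero_of_dt_right H.1.2)).eventually (gt_mem_nhds H.2)] with w w1 w2 w3
      exact ⟨⟨w1, w2⟩, w3⟩
    obtain ⟨s1, p1, s2, p2, s3, p3, ho, hn⟩ := propagate (F := S.F)
      (P := fun a b c z => Ord a b c z ∧ S.Ψ a b c z < 0) hop
      (fun a b c z H => ⟨right_ne_zero_of_mul (left_ne_zero_of_mul H.1.1.ne'), H.1.2,
        right_ne_zero_of_mul H.1.1.ne'⟩)
      (fun γ a b c z a' b' c' z' r1 r2 r3 r4 H => ⟨H.1.rel r1 r2 r3 r4, S.Ψ_rel r1 r2 r3 r4 H.2⟩)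
      H h
    by_contra hc
    push Not at hc
    simp only [Dd_eq] at hc
    rw [S.Ψ_neg (d _ _) (d _ _) (d _ _)] at hn
    have h0 := ho.1
    rw [dt_act_one, dt_act_one, dt_act_e2, dt_act_e2] at h0
    exact absurd (mono_of_tri (U := fun t => S.Uf (act h e2) (act h (1, -t))) hc p1 p2 p3
      (by linarith)) (not_le.2 hn)
  by_cases h2 : ∃ a b z, dt a z ≠ 0 ∧ dt b z ≠ 0 ∧ S.om z (S.X a) (S.X b) ≠ 0
  swap
  · push Not at h2
    exact Or.inr (Or.inl fun h s s' => by rw [Dd, h2 _ _ _ (d _ _) (d _ _), abs_zero, zero_div])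
  obtain ⟨a, b, w, H⟩ := h2
  refine Or.inr (Or.inr fun x y z hxy hxz hyz h0 => ?_)
  obtain ⟨h, hU⟩ : ∃ h : G,
      S.om (act h e2) (S.X (act h (1, -0))) (S.X (act h (1, -1))) = 0 := by
    obtain ⟨h, rz, ⟨rx, ry⟩ | ⟨ry, rx⟩⟩ := exists_std (F := S.F) hxy hxz hyz
    · exact ⟨h, (S.om_rel rx ry rz).1 h0⟩
    · refine ⟨h, (S.om_rel ry rx rz).1 ?_⟩
      rw [om, cr_comm, inner_neg_left, neg_eq_zero]; exact h0
  have hU' : S.Uf (act h e2) (act h (1, -0)) = S.Uf (act h e2) (act h (1, -1)) := by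
    rw [S.om_X (d _ _) (d _ _), neg_eq_zero] at hU
    exact sub_eq_zero.1 ((mul_eq_zero.1 hU).resolve_left
      (mul_ne_zero (S.trans (d _ _)) (S.trans (d _ _))))
  have const : ∀ s ∈ Ioo (0 : ℝ) 1,
      S.Uf (act h e2) (act h (1, -s)) = S.Uf (act h e2) (act h (1, -0)) := fun s hs => by
    by_contra hc
    refine h1 ⟨act h (1, -0), act h (1, -s), act h (1, -1), act h e2, ⟨?_, d _ _⟩, ?_⟩
    · rw [dt_act_one, dt_act_one, dt_act_e2, dt_act_e2]; nlinarith [hs.1, hs.2]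
    · rw [S.Ψ_neg (d _ _) (d _ _) (d _ _), ← hU']
      nlinarith [mul_self_pos.2 (sub_ne_zero.2 hc)]
  have hop : ∀ a b c z, dt c z ≠ 0 ∧ (dt a z ≠ 0 ∧ dt b z ≠ 0) ∧ S.om z (S.X a) (S.X b) ≠ 0 →
      ∀ᶠ w in 𝓝 z, dt c w ≠ 0 ∧ (dt a w ≠ 0 ∧ dt b w ≠ 0) ∧ S.om w (S.X a) (S.X b) ≠ 0 :=
    fun a b c z H => by
      obtain ⟨s, -, -, -, l, -⟩ := S.exists_signs (ne_zero_of_dt_right H.1)
      filter_upwards [dne H.1, dne H.2.1.1, dne H.2.1.2, (l _ _).eventually_ne H.2.2]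
        with w w1 w2 w3 w4
      exact ⟨w1, ⟨w2, w3⟩, right_ne_zero_of_mul w4⟩
  obtain ⟨s1, p1, s2, p2, -, -, -, -, hn⟩ := propagate (F := S.F)
    (P := fun a b c z => dt c z ≠ 0 ∧ (dt a z ≠ 0 ∧ dt b z ≠ 0) ∧ S.om z (S.X a) (S.X b) ≠ 0)
    hop (fun a b c z H => ⟨H.2.1.1, H.2.1.2, H.1⟩)
    (fun γ a b c z a' b' c' z' r1 r2 r3 r4 H => ⟨dt_ne_rel r3 r4 H.1,
      ⟨dt_ne_rel r1 r4 H.2.1.1, dt_ne_rel r2 r4 H.2.1.2⟩, fun h0 => H.2.2 ((S.om_rel r1 r2 r4).2 h0)⟩)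
    (a := a) (b := b) (c := b) (z := w) ⟨H.2.1, ⟨H.1, H.2.1⟩, H.2.2⟩ h
  apply hn
  rw [S.om_X (d _ _) (d _ _), const s1 p1, const s2 p2]; simp

end Sys2

end Pool.Agent.P.MP_39a2dc_an.H
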