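import Mathlib

/-! Elementary geometry of `SL(2,R)` acting on the plane; cocompact discrete groups. -/

open Filter Topology
open scoped MatrixGroups

namespace Pool.Agent.P.MP_39a2dc_an

abbrev G : Type := SL(2, ℝ)
abbrev Pl : Type := ℝ × ℝ

def mk (a b c d : ℝ) (h : a * d - b * c = 1) : G :=
  ⟨!![a, b; c, d], by rwa [Matrix.det_fin_two_of]⟩

@[simp] lemma mk00 (a b c d : ℝ) (h) : mk a b c d h 0 0 = a := rfl
@[simp] lemma mk01 (a b c d : ℝ) (h) : mk a b c d h 0 1 = b := rfl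
@[simp] lemma mk10 (a b c d : ℝ) (h) : mk a b c d h 1 0 = c := rfl
@[simp] lemma mk11 (a b c d : ℝ) (h) : mk a b c d h 1 1 = d := rfl

lemma gext {g h : G} (h0 : g 0 0 = h 0 0) (h1 : g 0 1 = h 0 1) (h2 : g 1 0 = h 1 0)
    (h3 : g 1 1 = h 1 1) : g = h := by
  ext i j; fin_cases i <;> fin_cases j <;> assumption

lemma gdet (g : G) : g 0 0 * g 1 1 - g 0 1 * g 1 0 = 1 := by
  have := g.det_coe; rwa [Matrix.det_fin_two] at this

lemma mul_e (g h : G) (i j : Fin 2) : (g * h) i j = g i 0 * h 0 j + g i 1 * h 1 j := by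
  simp [Matrix.mul_apply, Fin.sum_univ_two]
lemma inv00 (g : G) : g⁻¹ 0 0 = g 1 1 := by simp [Matrix.adjugate_fin_two]
lemma inv01 (g : G) : g⁻¹ 0 1 = - g 0 1 := by simp [Matrix.adjugate_fin_two]
lemma inv10 (g : G) : g⁻¹ 1 0 = - g 1 0 := by simp [Matrix.adjugate_fin_two]
lemma inv11 (g : G) : g⁻¹ 1 1 = g 0 0 := by simp [Matrix.adjugate_fin_two]
lemma one00 : (1 : G) 0 0 = 1 := rfl
lemma one01 : (1 : G) 0 1 = 0 := rfl
lemma one10 : (1 : G) 1 0 = 0 := rfl
lemma one11 : (1 : G) 1 1 = 1 := rfl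

@[fun_prop] lemma cont_entry (i j : Fin 2) : Continuous fun g : G => g i j :=
  (continuous_apply_apply i j).comp continuous_subtype_val

/-- Size of an element. -/
def nn (g : G) : ℝ := |g 0 0| + |g 0 1| + |g 1 0| + |g 1 1|

lemma nn_inv (g : G) : nn g⁻¹ = nn g := by
  simp only [nn, inv00, inv01, inv10, inv11, abs_neg]; ring

lemma nn_mul (g h : G) : nn (g * h) ≤ nn g * nn h := by
  simp only [nn, mul_e]
  have e : ∀ a b c d : ℝ, |a * b + c * d| ≤ |a| * |b| + |c| * |d| := fun a b c d => by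
    rw [← abs_mul, ← abs_mul]; exact abs_add_le _ _
  have := e (g 0 0) (h 0 0) (g 0 1) (h 1 0)
  have := e (g 0 0) (h 0 1) (g 0 1) (h 1 1)
  have := e (g 1 0) (h 0 0) (g 1 1) (h 1 0)
  have := e (g 1 0) (h 0 1) (g 1 1) (h 1 1)
  have a1 := abs_nonneg (g 0 0); have a2 := abs_nonneg (g 0 1)
  have a3 := abs_nonneg (g 1 0); have a4 := abs_nonneg (g 1 1)
  have b1 := abs_nonneg (h 0 0); have b2 := abs_nonneg (h 0 1)
  have b3 := abs_nonneg (h 1 0); have b4 := abs_nonneg (h 1 1)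
  nlinarith [mul_nonneg a1 b3, mul_nonneg a1 b4, mul_nonneg a2 b1, mul_nonneg a2 b2,
    mul_nonneg a3 b3, mul_nonneg a3 b4, mul_nonneg a4 b1, mul_nonneg a4 b2]

lemma one_le_nn (g : G) : 1 ≤ nn g := by
  have h := gdet g
  have e : (1 : ℝ) ≤ |g 0 0| * |g 1 1| + |g 0 1| * |g 1 0| := by
    rw [← abs_mul, ← abs_mul]
    calc (1 : ℝ) = |g 0 0 * g 1 1 - g 0 1 * g 1 0| := by rw [h, abs_one]
      _ ≤ _ := abs_sub _ _
  have a1 := abs_nonneg (g 0 0); have a2 := abs_nonneg (g 0 1)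
  have a3 := abs_nonneg (g 1 0); have a4 := abs_nonneg (g 1 1)
  by_contra hc
  push Not at hc
  unfold nn at hc
  nlinarith [mul_nonneg a1 a2, mul_nonneg a1 a3, mul_nonneg a2 a4, mul_nonneg a3 a4]

lemma nn_pos (g : G) : 0 < nn g := lt_of_lt_of_le one_pos (one_le_nn g)

lemma nn_mul_le {g h : G} {a b : ℝ} (ha : nn g ≤ a) (hb : nn h ≤ b) : nn (g * h) ≤ a * b :=
  (nn_mul g h).trans (mul_le_mul ha hb (nn_pos h).le ((nn_pos g).le.trans ha))

@[fun_prop] lemma continuous_nn : Continuous nn := by unfold nn; fun_prop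

lemma isCompact_ball (T : ℝ) : IsCompact {g : G | nn g ≤ T} := by
  have h1 : IsCompact (Set.pi Set.univ fun _ : Fin 2 => Set.pi Set.univ fun _ : Fin 2 =>
      Set.Icc (-T) T) :=
    isCompact_univ_pi fun _ => isCompact_univ_pi fun _ => isCompact_Icc
  have h2 := (Matrix.SpecialLinearGroup.isClosedEmbedding_val (n := Fin 2) (R := ℝ)).isCompact_preimage h1
  refine h2.of_isClosed_subset (isClosed_le continuous_nn continuous_const) ?_
  intro (g : G) (hg : nn g ≤ T)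
  unfold nn at hg
  have a1 := abs_nonneg (g 0 0); have a2 := abs_nonneg (g 0 1)
  have a3 := abs_nonneg (g 1 0); have a4 := abs_nonneg (g 1 1)
  intro i _ j _
  refine abs_le.1 (show |g i j| ≤ T from ?_)
  fin_cases i <;> fin_cases j <;> simp <;> linarith

instance : FirstCountableTopology G :=
  haveI : FirstCountableTopology (Matrix (Fin 2) (Fin 2) ℝ) :=
    inferInstanceAs (FirstCountableTopology (Fin 2 → Fin 2 → ℝ))
  (Matrix.SpecialLinearGroup.isClosedEmbedding_val (n := Fin 2) (R := ℝ)).isEmbedding.firstCountableTopology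

/-- The linear action on the plane. -/
def act (g : G) (v : Pl) : Pl := (g 0 0 * v.1 + g 0 1 * v.2, g 1 0 * v.1 + g 1 1 * v.2)

def dt (v w : Pl) : ℝ := v.1 * w.2 - v.2 * w.1

lemma act_mul (g h : G) (v : Pl) : act (g * h) v = act g (act h v) := by
  ext <;> simp only [act, mul_e] <;> ring
lemma act_one (v : Pl) : act 1 v = v := by
  ext <;> simp [act]
lemma act_inv_act (g : G) (v : Pl) : act g⁻¹ (act g v) = v := by
  rw [← act_mul, inv_mul_cancel, act_one]
lemma act_act_inv (g : G) (v : Pl) : act g (act g⁻¹ v) = v := by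
  rw [← act_mul, mul_inv_cancel, act_one]
lemma act_smul (g : G) (c : ℝ) (v : Pl) : act g (c • v) = c • act g v := by
  ext <;> simp [act] <;> ring
lemma dt_act (g : G) (v w : Pl) : dt (act g v) (act g w) = dt v w := by
  simp only [dt, act]; linear_combination (v.1 * w.2 - v.2 * w.1) * gdet g
lemma dt_smul_left (c : ℝ) (v w : Pl) : dt (c • v) w = c * dt v w := by simp [dt]; ring
lemma dt_smul_right (c : ℝ) (v w : Pl) : dt v (c • w) = c * dt v w := by simp [dt]; ring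
lemma dt_self (v : Pl) : dt v v = 0 := by simp [dt]; ring
lemma dt_comm (v w : Pl) : dt v w = - dt w v := by simp [dt]; ring
lemma ne_zero_of_dt_left {v w : Pl} (h : dt v w ≠ 0) : v ≠ 0 := by
  rintro rfl; simp [dt] at h
lemma ne_zero_of_dt_right {v w : Pl} (h : dt v w ≠ 0) : w ≠ 0 := by
  rintro rfl; simp [dt] at h
lemma act_ne_zero (g : G) {v : Pl} (hv : v ≠ 0) : act g v ≠ 0 := by
  intro h; apply hv
  rw [← act_inv_act g v, h]; ext <;> simp [act]
lemma exists_smul_of_dt {v w : Pl} (hv : v ≠ 0) (h : dt v w = 0) : ∃ c : ℝ, w = c • v := by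
  have : v.1 ≠ 0 ∨ v.2 ≠ 0 := by
    by_contra hc; push Not at hc; exact hv (Prod.ext hc.1 hc.2)
  unfold dt at h
  rcases this with h1 | h1
  · refine ⟨w.1 / v.1, Prod.ext ?_ ?_⟩
    · simp; field_simp
    · simp; field_simp; linarith
  · refine ⟨w.2 / v.2, Prod.ext ?_ ?_⟩
    · simp; field_simp; linarith
    · simp; field_simp

@[fun_prop] lemma Continuous.act {X : Type*} [TopologicalSpace X] {f : X → G} {v : X → Pl}
    (hf : Continuous f) (hv : Continuous v) : Continuous fun x => act (f x) (v x) := by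
  unfold MP_39a2dc_an.act
  have := fun i j => (cont_entry i j).comp hf
  refine Continuous.prodMk ?_ ?_
  · exact ((this 0 0).mul hv.fst).add ((this 0 1).mul hv.snd)
  · exact ((this 1 0).mul hv.fst).add ((this 1 1).mul hv.snd)

lemma Tendsto.act {X : Type*} {l : Filter X} {f : X → G} {v : X → Pl} {g : G} {w : Pl}
    (hf : Tendsto f l (𝓝 g)) (hv : Tendsto v l (𝓝 w)) :
    Tendsto (fun x => act (f x) (v x)) l (𝓝 (act g w)) :=
  ((Continuous.act (continuous_fst (X := G) (Y := Pl)) continuous_snd).tendsto (g, w)).comp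
    (hf.prodMk_nhds hv)

@[fun_prop] lemma Continuous.dt {X : Type*} [TopologicalSpace X] {v w : X → Pl}
    (hv : Continuous v) (hw : Continuous w) : Continuous fun x => dt (v x) (w x) := by
  unfold MP_39a2dc_an.dt; fun_prop

def e1 : Pl := (1, 0)
def e2 : Pl := (0, 1)
lemma e1_ne : e1 ≠ 0 := by simp [e1]
lemma e2_ne : e2 ≠ 0 := by simp [e2]
lemma dt_e1_e2 : dt e1 e2 = 1 := by simp [dt, e1, e2]

/-- The diagonal flow. -/
noncomputable def D (t : ℝ) : G :=
  mk (Real.exp t) 0 0 (Real.exp (-t)) (by rw [← Real.exp_add]; simp)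

lemma D_add (s t : ℝ) : D (s + t) = D s * D t := by
  apply gext <;> simp [D, mul_e, ← Real.exp_add]; ring
lemma D_zero : D 0 = 1 := by apply gext <;> simp [D]
lemma D_neg (t : ℝ) : D (-t) = (D t)⁻¹ := by
  rw [eq_inv_iff_mul_eq_one, ← D_add]; simp [D_zero]
lemma exp_le_nn_D (t : ℝ) : Real.exp t ≤ nn (D t) := by
  simp only [nn, D, mk00, mk01, mk10, mk11, abs_zero, abs_of_pos (Real.exp_pos _)]
  linarith [Real.exp_pos (-t)]
lemma nn_D_le {t : ℝ} (h : |t| ≤ 1) : nn (D t) ≤ 6 := by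
  simp only [nn, D, mk00, mk01, mk10, mk11, abs_zero, abs_of_pos (Real.exp_pos _)]
  obtain ⟨h1, h2⟩ := abs_le.1 h
  have e := Real.exp_one_lt_d9
  have := Real.exp_le_exp.2 h2
  have := Real.exp_le_exp.2 (show -t ≤ 1 by linarith)
  linarith
lemma act_D (t : ℝ) (v : Pl) : act (D t) v = (Real.exp t * v.1, Real.exp (-t) * v.2) := by
  simp [act, D]

/-- Rotation by a quarter turn. -/
def W : G := mk 0 (-1) 1 0 (by simp)
lemma W_D (t : ℝ) : (D t)⁻¹ = W * D t * W⁻¹ := by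
  rw [← D_neg]
  apply gext <;> simp [D, W, mul_e, inv00, inv01, inv10, inv11]
lemma nn_W : nn W = 2 := by simp [nn, W]; norm_num
lemma act_W_e1 : act W e1 = e2 := by simp [act, W, e1, e2]
lemma act_W_e2 : act W e2 = (-1 : ℝ) • e1 := by simp [act, W, e1, e2]

/-- Lower unipotent elements. -/
def L (s : ℝ) : G := mk 1 0 (-s) 1 (by simp)
lemma act_L (s : ℝ) (v : Pl) : act (L s) v = (v.1, v.2 - s * v.1) := by
  ext <;> simp [act, L]; ring

open Classical in
/-- An element with first column `v`. -/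
noncomputable def gv (v : Pl) : G :=
  if h : v = 0 then 1 else
    mk v.1 (-v.2 / (v.1 ^ 2 + v.2 ^ 2)) v.2 (v.1 / (v.1 ^ 2 + v.2 ^ 2)) (by
      have : v.1 ^ 2 + v.2 ^ 2 ≠ 0 := by
        intro h0; apply h
        exact Prod.ext (by simpa using by nlinarith) (by simpa using by nlinarith)
      field_simp; ring)

lemma sq_pos_of_ne {v : Pl} (h : v ≠ 0) : 0 < v.1 ^ 2 + v.2 ^ 2 := by
  by_contra h0; apply h
  exact Prod.ext (by simpa using by nlinarith) (by simpa using by nlinarith)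

lemma act_gv {v : Pl} (h : v ≠ 0) : act (gv v) e1 = v := by
  ext <;> simp [gv, h, act, e1]

lemma gv_e1 : gv e1 = 1 := by
  apply gext <;> simp [gv, e1_ne] <;> simp [e1]

lemma continuousAt_gv {v : Pl} (h : v ≠ 0) : ContinuousAt gv v := by
  have hs := (sq_pos_of_ne h).ne'
  refine (Matrix.SpecialLinearGroup.isClosedEmbedding_val (n := Fin 2)
    (R := ℝ)).isInducing.continuousAt_iff.2 ?_
  have he : (fun w : Pl => !![w.1, -w.2 / (w.1 ^ 2 + w.2 ^ 2); w.2, w.1 / (w.1 ^ 2 + w.2 ^ 2)])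
      =ᶠ[𝓝 v] (Subtype.val ∘ gv) := by
    filter_upwards [isOpen_ne.mem_nhds h] with w hw
    simp [gv, hw, mk]
  refine ContinuousAt.congr ?_ he
  refine continuousAt_pi.2 fun i => continuousAt_pi.2 fun j => ?_
  fin_cases i <;> fin_cases j <;> simp <;> fun_prop (disch := exact hs)

lemma nn_gv_act (g : G) : nn (gv (act g e1)) ≤ 4 * nn g := by
  have hv : act g e1 ≠ 0 := act_ne_zero g e1_ne
  have hs := sq_pos_of_ne hv
  have h1 : (act g e1).1 = g 0 0 := by simp [act, e1]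
  have h2 : (act g e1).2 = g 1 0 := by simp [act, e1]
  simp only [gv, hv, dite_false, nn, mk00, mk01, mk10, mk11]
  rw [h1, h2] at hs ⊢
  have hd := gdet g
  set a := g 0 0; set b := g 0 1; set c := g 1 0; set d := g 1 1
  have e : (1 : ℝ) ≤ |a| * |d| + |b| * |c| := by
    rw [← abs_mul, ← abs_mul]
    calc (1 : ℝ) = |a * d - b * c| := by rw [hd, abs_one]
      _ ≤ _ := abs_sub _ _
  have a1 := abs_nonneg a; have a2 := abs_nonneg b
  have a3 := abs_nonneg c; have a4 := abs_nonneg d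
  rw [abs_div, abs_div, abs_neg, abs_of_pos hs]
  have hsq : a ^ 2 + c ^ 2 = |a| ^ 2 + |c| ^ 2 := by simp
  have k : (|a| + |c|) / (a ^ 2 + c ^ 2) ≤ 2 * (|b| + |d|) := by
    rw [div_le_iff₀ hs, hsq]
    have : 1 ≤ (|a| + |c|) * (|b| + |d|) := by nlinarith [mul_nonneg a1 a2, mul_nonneg a3 a4]
    have h3 : (|a| + |c|) ^ 2 ≤ 2 * (|a| ^ 2 + |c| ^ 2) := by nlinarith [sq_nonneg (|a| - |c|)]
    nlinarith [mul_nonneg (add_nonneg a2 a4) (sub_nonneg.2 h3),
      mul_nonneg (add_nonneg a1 a3) (sub_nonneg.2 this)]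
  rw [add_div] at k
  linarith

/-- Conjugating an upper triangular element by the flow keeps it bounded. -/
lemma nn_conj_upper {b : G} (hb : b 1 0 = 0) {s t : ℝ} (hs : 0 ≤ s) (hst : s ≤ t)
    (hts : t ≤ s + 1) : nn ((D t)⁻¹ * b * D s) ≤ 3 * nn b := by
  rw [← D_neg]
  simp only [nn, mul_e, D, mk00, mk01, mk10, mk11, hb, neg_neg]
  simp only [zero_mul, mul_zero, add_zero, zero_add, abs_zero, abs_mul,
    abs_of_pos (Real.exp_pos _)]
  have e1 : Real.exp (-t) * Real.exp s ≤ 1 := by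
    rw [← Real.exp_add]; exact Real.exp_le_one_iff.2 (by linarith)
  have e2 : Real.exp (-t) * Real.exp (-s) ≤ 1 := by
    rw [← Real.exp_add]; exact Real.exp_le_one_iff.2 (by linarith)
  have e3 : Real.exp t * Real.exp (-s) ≤ 3 := by
    rw [← Real.exp_add]
    have := Real.exp_le_exp.2 (show t + -s ≤ 1 by linarith)
    linarith [Real.exp_one_lt_d9]
  have a1 := abs_nonneg (b 0 0); have a2 := abs_nonneg (b 0 1); have a4 := abs_nonneg (b 1 1)
  nlinarith [mul_le_mul_of_nonneg_left e1 a1, mul_le_mul_of_nonneg_left e2 a2,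
    mul_le_mul_of_nonneg_left e3 a4]

/-- Hyperbolic elements are diagonalisable. -/
lemma exists_diag (a : G) (h : 2 < |a 0 0 + a 1 1|) :
    ∃ (g : G) (t σ : ℝ), 0 < t ∧ (σ = 1 ∨ σ = -1) ∧
      act a (act g e1) = (σ * Real.exp t) • act g e1 ∧
      act a (act g e2) = (σ * Real.exp (-t)) • act g e2 := by
  have hd := gdet a
  set T := a 0 0 + a 1 1 with hT
  have hΔ : 0 < T ^ 2 - 4 := by rw [← sq_abs]; nlinarith
  obtain ⟨σ, hσ, hσT⟩ : ∃ σ : ℝ, (σ = 1 ∨ σ = -1) ∧ σ * T = |T| := by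
    rcases le_total 0 T with h0 | h0
    · exact ⟨1, Or.inl rfl, by simp [abs_of_nonneg h0]⟩
    · exact ⟨-1, Or.inr rfl, by simp [abs_of_nonpos h0]⟩
  have hσ2 : σ * σ = 1 := by rcases hσ with rfl | rfl <;> norm_num
  set r := √(T ^ 2 - 4) with hr
  have hr0 : 0 < r := Real.sqrt_pos.2 hΔ
  have hr2 : r * r = T ^ 2 - 4 := Real.mul_self_sqrt hΔ.le
  set m := (|T| + r) / 2 with hm
  have hm1 : 1 < m := by rw [hm]; linarith
  have hmi : m⁻¹ = (|T| - r) / 2 := by
    rw [inv_eq_iff_eq_inv, eq_comm, inv_eq_iff_eq_inv, eq_comm, inv_eq_of_mul_eq_one_right]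
    rw [hm]; have := sq_abs T; nlinarith
  have eig : ∀ l : ℝ, l * l - T * l + 1 = 0 → ∃ v : Pl, v ≠ 0 ∧ act a v = l • v := by
    intro l hl
    by_cases h1 : a 0 1 = 0 ∧ l - a 0 0 = 0
    · by_cases h2 : l - a 1 1 = 0 ∧ a 1 0 = 0
      · refine ⟨e1, e1_ne, ?_⟩
        ext <;> simp [act, e1] <;> linarith [h1.2, h2.2]
      · refine ⟨(l - a 1 1, a 1 0), fun h0 => h2 (by simpa using h0), ?_⟩
        ext <;> simp [act]
        · linear_combination (-1 : ℝ) * hl - hd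
        · ring
    · refine ⟨(a 0 1, l - a 0 0), fun h0 => h1 (by simpa using h0), ?_⟩
      ext <;> simp [act]
      · ring
      · linear_combination (-1 : ℝ) * hl - hd
  have hTa : T = σ * |T| := by rw [← hσT, ← mul_assoc, hσ2, one_mul]
  obtain ⟨v, hv, hav⟩ := eig (σ * m) (by
    have := sq_abs T
    rw [hm]; linear_combination (((|T| + r) / 2) ^ 2) * hσ2 - ((|T| + r) / 2) * hσT
      + (1 / 4) * hr2 - (1 / 4) * this)
  obtain ⟨w, hw, haw⟩ := eig (σ * m⁻¹) (by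
    have := sq_abs T
    rw [hmi]; linear_combination (((|T| - r) / 2) ^ 2) * hσ2 - ((|T| - r) / 2) * hσT
      + (1 / 4) * hr2 - (1 / 4) * this)
  have hvw : dt v w ≠ 0 := by
    intro h0
    obtain ⟨c, rfl⟩ := exists_smul_of_dt hv h0
    rw [act_smul, hav, smul_smul, smul_smul] at haw
    have hc : c ≠ 0 := by rintro rfl; simp at hw
    have := smul_left_injective ℝ hv haw
    have h3 : m = m⁻¹ := by
      have hσ0 : σ ≠ 0 := by rintro rfl; simp at hσ2
      have : c * σ * (m - m⁻¹) = 0 := by linarith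
      have := (mul_eq_zero.1 this).resolve_left (mul_ne_zero hc hσ0)
      linarith
    rw [hmi, hm] at h3; linarith
  refine ⟨mk v.1 (w.1 / dt v w) v.2 (w.2 / dt v w) (by field_simp; simp [dt]; ring),
    Real.log m, σ, Real.log_pos hm1, hσ, ?_, ?_⟩
  · have : act (mk v.1 (w.1 / dt v w) v.2 (w.2 / dt v w) (by field_simp; simp [dt]; ring)) e1
        = v := by ext <;> simp [act, e1]
    rw [this, hav, Real.exp_log (by linarith)]
  · have : act (mk v.1 (w.1 / dt v w) v.2 (w.2 / dt v w) (by field_simp; simp [dt]; ring)) e2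
        = (dt v w)⁻¹ • w := by ext <;> simp [act, e2] <;> field_simp
    rw [this, act_smul, haw, Real.exp_neg, Real.exp_log (by linarith), smul_comm]

/-- A cocompact properly embedded group. -/
structure Fu (Γ : Type*) [Group Γ] where
  r : Γ →* G
  R : ℝ
  cocpt : ∀ g : G, ∃ (γ : Γ) (k : G), nn k ≤ R ∧ r γ = g * k⁻¹
  proper : ∀ T : ℝ, {γ | nn (r γ) ≤ T}.Finite

variable {Γ : Type*} [Group Γ] (F : Fu Γ)

lemma Fu.one_le_R : 1 ≤ F.R := by
  obtain ⟨_, k, hk, _⟩ := F.cocpt 1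
  exact (one_le_nn k).trans hk

/-- Zooming sequences. -/
def Zoom (g k : G) (f : ℕ → Γ) (kn : ℕ → G) (t : ℕ → ℝ) : Prop :=
  (∀ n, F.r (f n) = g * D (t n) * (kn n)⁻¹) ∧ Tendsto kn atTop (𝓝 k) ∧ Tendsto t atTop atTop

lemma Fu.exists_zoom (g : G) : ∃ k f kn t, Zoom F g k f kn t := by
  choose γ k hk hγ using fun n : ℕ => F.cocpt (g * D n)
  obtain ⟨k0, -, φ, hφ, hlim⟩ := (isCompact_ball F.R).tendsto_subseq (x := k) hk
  exact ⟨k0, γ ∘ φ, k ∘ φ, fun n => (φ n : ℝ), fun n => hγ _, hlim,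
    tendsto_natCast_atTop_atTop.comp hφ.tendsto_atTop⟩

variable {F}

lemma Zoom.mul_right {g k : G} {f : ℕ → Γ} {kn : ℕ → G} {t : ℕ → ℝ} (h : Zoom F g k f kn t)
    (γ : Γ) : Zoom F g (F.r γ * k) (fun n => f n * γ⁻¹) (fun n => F.r γ * kn n) t := by
  refine ⟨fun n => ?_, h.2.1.const_mul _, h.2.2⟩
  simp [h.1 n, mul_assoc]

/-- North-south dynamics along a zooming sequence. -/
lemma Zoom.act_eq {g k : G} {f : ℕ → Γ} {kn : ℕ → G} {t : ℕ → ℝ} (h : Zoom F g k f kn t)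
    {v : Pl} (hv : dt v (act k e2) ≠ 0) :
    ∃ c β : ℕ → ℝ, Tendsto β atTop (𝓝 0) ∧
      ∀ᶠ n in atTop, act (F.r (f n)) v = c n • act g (1, β n) ∧ 0 < c n * dt v (act k e2) ∧
        ((act k⁻¹ v).1 * (act k⁻¹ v).2 < 0 → β n < 0) := by
  have hl : Tendsto (fun n => act (kn n)⁻¹ v) atTop (𝓝 (act k⁻¹ v)) :=
    Tendsto.act h.2.1.inv tendsto_const_nhds
  have h1 : (act k⁻¹ v).1 = dt v (act k e2) := by
    rw [← dt_act k⁻¹, act_inv_act]; simp [dt, e2]
  have hl1 := (continuous_fst.tendsto _).comp hl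
  have hl2 := (continuous_snd.tendsto _).comp hl
  have he : Tendsto (fun n => Real.exp (-(2 * t n))) atTop (𝓝 0) :=
    Real.tendsto_exp_neg_atTop_nhds_zero.comp (h.2.2.const_mul_atTop two_pos)
  refine ⟨fun n => Real.exp (t n) * (act (kn n)⁻¹ v).1,
    fun n => Real.exp (-(2 * t n)) * ((act (kn n)⁻¹ v).2 / (act (kn n)⁻¹ v).1), ?_, ?_⟩
  · simpa using he.mul (hl2.div hl1 (h1 ▸ hv))
  · have hp : ∀ᶠ n in atTop, 0 < (act (kn n)⁻¹ v).1 * dt v (act k e2) := by
      refine (hl1.mul_const _).eventually (lt_mem_nhds ?_)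
      rw [h1]; exact mul_self_pos.2 hv
    have hq : ∀ᶠ n in atTop, (act k⁻¹ v).1 * (act k⁻¹ v).2 < 0 →
        (act (kn n)⁻¹ v).1 * (act (kn n)⁻¹ v).2 < 0 := by
      by_cases hneg : (act k⁻¹ v).1 * (act k⁻¹ v).2 < 0
      · filter_upwards [(hl1.mul hl2).eventually (gt_mem_nhds hneg)] with n hn _ using hn
      · exact Eventually.of_forall fun n hc => absurd hc hneg
    filter_upwards [hp, hq] with n hn hn'
    have hne : (act (kn n)⁻¹ v).1 ≠ 0 := by intro h0; simp [h0] at hn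
    refine ⟨?_, by rw [mul_assoc]; exact mul_pos (Real.exp_pos _) hn, fun hc => ?_⟩
    · rw [h.1 n, act_mul, act_mul, act_D, ← act_smul]
      congr 1
      ext
      · simp
      · have : Real.exp (-t n) = Real.exp (t n) * Real.exp (-(2 * t n)) := by
          rw [← Real.exp_add]; congr 1; ring
        simp only [Prod.smul_snd, smul_eq_mul, this]; field_simp
    · refine mul_neg_of_pos_of_neg (Real.exp_pos _) ?_
      have := hn' hc
      rw [div_neg_iff]
      rcases lt_or_gt_of_ne hne with h2 | h2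
      · left; exact ⟨by nlinarith, h2⟩
      · right; exact ⟨by nlinarith, h2⟩

/-- The open arc `h (1, -s)`, `0 < s < 1`, with a sign. -/
def Arc (h : G) (σ : ℝ) (v : Pl) : Prop :=
  σ * (act h⁻¹ v).2 < 0 ∧ 0 < σ * ((act h⁻¹ v).1 + (act h⁻¹ v).2)

lemma Zoom.arc {h k : G} {f : ℕ → Γ} {kn : ℕ → G} {t : ℕ → ℝ}
    (hz : Zoom F (h * L (1 / 2)) k f kn t) {v : Pl} (hv : dt v (act k e2) ≠ 0) :
    ∀ᶠ n in atTop, Arc h (dt v (act k e2)) (act (F.r (f n)) v) := by
  obtain ⟨c, β, hβ, he⟩ := hz.act_eq hv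
  filter_upwards [he, hβ.eventually (gt_mem_nhds (show (0 : ℝ) < 1 / 2 by norm_num)),
    hβ.eventually (lt_mem_nhds (show (-1 / 2 : ℝ) < 0 by norm_num))] with n hn h1 h2
  obtain ⟨e, hc, -⟩ := hn
  unfold Arc
  rw [e, act_smul, act_mul, act_inv_act, act_L]
  simp only [Prod.smul_snd, Prod.smul_fst, smul_eq_mul]
  constructor <;> nlinarith

/-- Minimality. -/
lemma Fu.minimal (hfix : ∀ z : Pl, z ≠ 0 → ∃ γ, dt (act (F.r γ) z) z ≠ 0) (h : G) {z : Pl}
    (hz : z ≠ 0) : ∃ γ σ, Arc h σ (act (F.r γ) z) := by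
  obtain ⟨k, f, kn, t, hZ⟩ := F.exists_zoom (h * L (1 / 2))
  by_cases h0 : dt z (act k e2) = 0
  · obtain ⟨γ, hγ⟩ := hfix z hz
    have : dt (act (F.r γ) z) (act k e2) ≠ 0 := by
      obtain ⟨c, hc⟩ := exists_smul_of_dt hz h0
      have hc0 : c ≠ 0 := by
        rintro rfl; exact act_ne_zero k e2_ne (by simpa using hc)
      rw [hc, dt_smul_right]; exact mul_ne_zero hc0 hγ
    obtain ⟨n, hn⟩ := (hZ.arc this).exists
    exact ⟨f n * γ, _, by rwa [map_mul, act_mul]⟩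
  · obtain ⟨n, hn⟩ := (hZ.arc h0).exists
    exact ⟨f n, _, hn⟩

/-- Zooming sequences with prescribed attracting point and repelling point in a given arc. -/
lemma Fu.exists_zoom_arc (hfix : ∀ z : Pl, z ≠ 0 → ∃ γ, dt (act (F.r γ) z) z ≠ 0) (g h : G) :
    ∃ k f kn t σ, Zoom F g k f kn t ∧ Arc h σ (act k e2) := by
  obtain ⟨k, f, kn, t, hZ⟩ := F.exists_zoom g
  obtain ⟨γ, σ, hγ⟩ := F.minimal hfix h (act_ne_zero k e2_ne)
  exact ⟨_, _, _, _, σ, hZ.mul_right γ, by rwa [act_mul]⟩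

end Pool.Agent.P.MP_39a2dc_an
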