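import Pool.Agent.P.MP_39a2dc_an.HCross
import Pool.Agent.P.MP_39a2dc_an.SL2

/-! A representation on a Euclidean space together with its contragredient. -/

open scoped InnerProductSpace
open Filter Topology

set_option linter.unusedSectionVars false

namespace Pool.Agent.P.MP_39a2dc_an.H

variable {V : Type*} [NormedAddCommGroup V] [InnerProductSpace ℝ V] [FiniteDimensional ℝ V]

lemma exists_top [Nontrivial V] (M : V →L[ℝ] V) : ∃ p : V, ‖p‖ = 1 ∧ ‖M p‖ = ‖M‖ := by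
  have hne : (Metric.sphere (0 : V) 1).Nonempty := NormedSpace.sphere_nonempty.2 zero_le_one
  obtain ⟨p, hp, hmax⟩ := (isCompact_sphere (0 : V) 1).exists_isMaxOn hne
    (f := fun v => ‖M v‖) (by fun_prop)
  have hp1 : ‖p‖ = 1 := by simpa using hp
  refine ⟨p, hp1, le_antisymm (by simpa [hp1] using M.le_opNorm p) ?_⟩
  refine ContinuousLinearMap.opNorm_le_of_unit_norm (norm_nonneg _) fun x hx => ?_
  exact hmax (by simpa using hx)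

structure Pair (Γ : Type*) [Group Γ] (V : Type*) [NormedAddCommGroup V]
    [InnerProductSpace ℝ V] where
  A : Γ →* (V →L[ℝ] V)
  B : Γ →* (V →L[ℝ] V)
  inn : ∀ g u v, ⟪A g u, B g v⟫_ℝ = ⟪u, v⟫_ℝ

namespace Pair
variable {Γ : Type*} [Group Γ] (Q : Pair Γ V)

def swap : Pair Γ V where
  A := Q.B
  B := Q.A
  inn g u v := by rw [real_inner_comm, Q.inn, real_inner_comm]

/-- The pair induced on the second exterior power. -/
noncomputable def wedge : Pair Γ (Wd V) where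
  A := { toFun := fun g => w2 (Q.A g), map_one' := by rw [map_one, w2_one]
         map_mul' := fun a b => by rw [map_mul, w2_mul] }
  B := { toFun := fun g => w2 (Q.B g), map_one' := by rw [map_one, w2_one]
         map_mul' := fun a b => by rw [map_mul, w2_mul] }
  inn g := inner_w2 (Q.inn g)

lemma wedge_A (g : Γ) : Q.wedge.A g = w2 (Q.A g) := rfl
lemma wedge_B (g : Γ) : Q.wedge.B g = w2 (Q.B g) := rfl
lemma crA (g : Γ) (u v : V) : cr (Q.A g u) (Q.A g v) = Q.wedge.A g (cr u v) := (w2_cr _ _ _).symm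

@[simp] lemma swap_A : Q.swap.A = Q.B := rfl
@[simp] lemma swap_B : Q.swap.B = Q.A := rfl

lemma A_mul (g h : Γ) (u : V) : Q.A (g * h) u = Q.A g (Q.A h u) := by simp
lemma A_inv_A (g : Γ) (u : V) : Q.A g⁻¹ (Q.A g u) = u := by rw [← A_mul]; simp
lemma A_A_inv (g : Γ) (u : V) : Q.A g (Q.A g⁻¹ u) = u := by rw [← A_mul]; simp
lemma B_B_inv (g : Γ) (u : V) : Q.B g (Q.B g⁻¹ u) = u := Q.swap.A_A_inv g u
lemma B_inv_B (g : Γ) (u : V) : Q.B g⁻¹ (Q.B g u) = u := Q.swap.A_inv_A g u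

lemma adj (g : Γ) (u v : V) : ⟪Q.A g u, v⟫_ℝ = ⟪u, Q.B g⁻¹ v⟫_ℝ := by
  rw [← Q.inn g u, B_B_inv]

lemma norm_A_le (g : Γ) : ‖Q.A g‖ ≤ ‖Q.B g⁻¹‖ := by
  refine ContinuousLinearMap.opNorm_le_bound _ (norm_nonneg _) fun u => ?_
  have h := Q.adj g u (Q.A g u)
  rw [real_inner_self_eq_norm_sq] at h
  have h2 := real_inner_le_norm u (Q.B g⁻¹ (Q.A g u))
  have h3 := (Q.B g⁻¹).le_opNorm (Q.A g u)
  rcases (norm_nonneg (Q.A g u)).eq_or_lt with h0 | h0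
  · rw [← h0]; positivity
  · have := mul_le_mul_of_nonneg_left h3 (norm_nonneg u)
    nlinarith

lemma norm_B_inv (g : Γ) : ‖Q.B g⁻¹‖ = ‖Q.A g‖ :=
  le_antisymm (by simpa using Q.swap.norm_A_le g⁻¹) (Q.norm_A_le g)
lemma norm_A_inv (g : Γ) : ‖Q.A g⁻¹‖ = ‖Q.B g‖ := Q.swap.norm_B_inv g

lemma le_norm_A (g : Γ) (u : V) : ‖u‖ ≤ ‖Q.B g‖ * ‖Q.A g u‖ := by
  conv_lhs => rw [← Q.A_inv_A g u]
  rw [← norm_A_inv]; exact (Q.A g⁻¹).le_opNorm _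

variable [Nontrivial V]

lemma one_le_norm (g : Γ) : 1 ≤ ‖Q.B g‖ * ‖Q.A g‖ := by
  obtain ⟨p, hp, hM⟩ := exists_top (Q.A g)
  simpa [hp, hM] using Q.le_norm_A g p

lemma A_pos (g : Γ) : 0 < ‖Q.A g‖ := by
  have := Q.one_le_norm g
  rcases (norm_nonneg (Q.A g)).eq_or_lt with h0 | h0
  · rw [← h0] at this; linarith
  · exact h0
lemma B_pos (g : Γ) : 0 < ‖Q.B g‖ := Q.swap.A_pos g

lemma A_ne_zero (g : Γ) {u : V} (hu : u ≠ 0) : Q.A g u ≠ 0 := by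
  intro h; apply hu; rw [← Q.A_inv_A g u, h, map_zero]

lemma norm_A_mul_le (g h : Γ) : ‖Q.A (g * h)‖ ≤ ‖Q.A g‖ * ‖Q.A h‖ := by
  rw [map_mul]; exact norm_mul_le _ _
lemma norm_B_mul_le (g h : Γ) : ‖Q.B (g * h)‖ ≤ ‖Q.B g‖ * ‖Q.B h‖ := Q.swap.norm_A_mul_le g h
lemma norm_A_le_mul (g h : Γ) : ‖Q.A g‖ ≤ ‖Q.A (g * h)‖ * ‖Q.B h‖ := by
  have := Q.norm_A_mul_le (g * h) h⁻¹
  rwa [mul_inv_cancel_right, norm_A_inv] at this
lemma norm_A_le_mul' (g h : Γ) : ‖Q.A g‖ ≤ ‖Q.B h‖ * ‖Q.A (h * g)‖ := by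
  have := Q.norm_A_mul_le h⁻¹ (h * g)
  rwa [inv_mul_cancel_left, norm_A_inv] at this

lemma cr_A_le (g : Γ) (u v : V) :
    ‖cr (Q.A g u) (Q.A g v)‖ ≤ ‖Q.wedge.A g‖ * (‖u‖ * ‖v‖) := by
  rw [Q.crA]
  exact ((Q.wedge.A g).le_opNorm _).trans (mul_le_mul_of_nonneg_left (norm_cr_le _ _) (norm_nonneg _))

/-- A unit vector on which `A g` attains its norm. -/
noncomputable def tp (g : Γ) : V := (exists_top (Q.A g)).choose
lemma norm_tp (g : Γ) : ‖Q.tp g‖ = 1 := (exists_top (Q.A g)).choose_spec.1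
lemma norm_A_tp (g : Γ) : ‖Q.A g (Q.tp g)‖ = ‖Q.A g‖ := (exists_top (Q.A g)).choose_spec.2

/-- The top left singular direction. -/
noncomputable def U (g : Γ) : V := ‖Q.A g‖⁻¹ • Q.A g (Q.tp g)
lemma norm_U (g : Γ) : ‖Q.U g‖ = 1 := by
  rw [U, norm_smul, norm_A_tp, norm_inv, norm_norm, inv_mul_cancel₀ (Q.A_pos g).ne']

/-- The ratio of the second to the first singular value. -/
noncomputable def τ (g : Γ) : ℝ := ‖Q.wedge.A g‖ / ‖Q.A g‖ ^ 2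

variable [Nontrivial (Wd V)]

lemma τ_pos (g : Γ) : 0 < Q.τ g := div_pos (Q.wedge.A_pos g) (pow_pos (Q.A_pos g) 2)
lemma swap_τ (g : Γ) : Q.swap.τ g = Q.τ g⁻¹ := by
  have h : ‖Q.swap.wedge.A g‖ = ‖Q.wedge.A g⁻¹‖ := (Q.wedge.norm_A_inv g).symm
  simp only [τ, swap_A, norm_A_inv, h]

/-- Any unit vector on which the norm is attained gives nearly the direction `U`. -/
lemma near_top (g : Γ) {w : V} (hw : ‖w‖ = 1) :
    ‖cr (Q.U g) (‖Q.A g‖⁻¹ • Q.A g w)‖ ≤ Q.τ g := by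
  have a1 := Q.A_pos g
  rw [U, cr_smul_left, cr_smul_right, norm_smul, norm_smul, norm_inv, norm_norm]
  have h1 := Q.cr_A_le g (Q.tp g) w
  rw [norm_tp, hw, mul_one, mul_one] at h1
  calc _ ≤ ‖Q.A g‖⁻¹ * (‖Q.A g‖⁻¹ * ‖Q.wedge.A g‖) := by gcongr
    _ = _ := by rw [τ]; field_simp

lemma near (g h : Γ) : ‖cr (Q.U g) (Q.U (g * h))‖ ≤ Q.τ g * (‖Q.A h‖ * ‖Q.B h‖) := by
  have a1 := Q.A_pos g; have a2 := Q.A_pos (g * h); have a3 := Q.wedge.A_pos g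
  have a4 := Q.A_pos h; have a5 := Q.B_pos h
  rw [U, U, cr_smul_left, cr_smul_right, A_mul, norm_smul, norm_smul, norm_inv, norm_inv,
    norm_norm, norm_norm]
  have h1 := Q.cr_A_le g (Q.tp g) (Q.A h (Q.tp (g * h)))
  have h2 := (Q.A h).le_opNorm (Q.tp (g * h))
  rw [norm_tp] at h1 h2
  have h3 := Q.norm_A_le_mul g h
  have h4 : ‖cr (Q.A g (Q.tp g)) (Q.A g (Q.A h (Q.tp (g * h))))‖ ≤
      ‖Q.wedge.A g‖ * ‖Q.A h‖ := by
    nlinarith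
  calc _ ≤ ‖Q.A g‖⁻¹ * (‖Q.A (g * h)‖⁻¹ * (‖Q.wedge.A g‖ * ‖Q.A h‖)) := by gcongr
    _ ≤ ‖Q.A g‖⁻¹ * ((‖Q.A g‖⁻¹ * ‖Q.B h‖) * (‖Q.wedge.A g‖ * ‖Q.A h‖)) := by
      gcongr
      rw [inv_le_iff_one_le_mul₀ a2, mul_assoc, inv_mul_eq_div, one_le_div a1]; linarith
    _ = _ := by rw [τ]; field_simp

lemma near_left (g h : Γ) :
    ‖cr (Q.A h (Q.U g)) (Q.U (h * g))‖ ≤ Q.τ g * (‖Q.wedge.A h‖ * ‖Q.B h‖) := by
  have a1 := Q.A_pos g; have a2 := Q.A_pos (h * g); have a3 := Q.wedge.A_pos g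
  have a6 := Q.wedge.A_pos h
  have a4 := Q.A_pos h; have a5 := Q.B_pos h
  rw [U, U, map_smul, cr_smul_left, cr_smul_right, ← A_mul, norm_smul, norm_smul, norm_inv,
    norm_inv, norm_norm, norm_norm]
  have h1 := Q.cr_A_le (h * g) (Q.tp g) (Q.tp (h * g))
  rw [norm_tp, norm_tp] at h1
  have h2 := Q.wedge.norm_A_mul_le h g
  have h3 := Q.norm_A_le_mul' g h
  have h4 : ‖cr (Q.A (h * g) (Q.tp g)) (Q.A (h * g) (Q.tp (h * g)))‖ ≤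
      ‖Q.wedge.A h‖ * ‖Q.wedge.A g‖ := by
    linarith
  calc _ ≤ ‖Q.A g‖⁻¹ * (‖Q.A (h * g)‖⁻¹ * (‖Q.wedge.A h‖ * ‖Q.wedge.A g‖)) := by gcongr
    _ ≤ ‖Q.A g‖⁻¹ * ((‖Q.A g‖⁻¹ * ‖Q.B h‖) * (‖Q.wedge.A h‖ * ‖Q.wedge.A g‖)) := by
      gcongr
      rw [inv_le_iff_one_le_mul₀ a2, mul_assoc, inv_mul_eq_div, one_le_div a1]; linarith
    _ = _ := by rw [τ]; field_simp

/-- The top right singular direction. -/
noncomputable def Z (g : Γ) : V := Q.swap.U g⁻¹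
lemma norm_Z (g : Γ) : ‖Q.Z g‖ = 1 := Q.swap.norm_U _

lemma inner_Z (g : Γ) (u : V) :
    ⟪u, Q.Z g⟫_ℝ * ‖Q.A g‖ = ⟪Q.A g u, Q.swap.tp g⁻¹⟫_ℝ := by
  rw [adj, Z, U, inner_smul_right, swap_A, norm_B_inv]
  have := Q.A_pos g
  field_simp

lemma lower (g : Γ) (u : V) : |⟪u, Q.Z g⟫_ℝ| * ‖Q.A g‖ ≤ ‖Q.A g u‖ := by
  rw [← abs_of_pos (Q.A_pos g), ← abs_mul, inner_Z]
  simpa [Q.swap.norm_tp] using abs_real_inner_le_norm (Q.A g u) (Q.swap.tp g⁻¹)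

lemma A_Z (g : Γ) : Q.A g (Q.Z g) = ‖Q.A g‖ • Q.swap.tp g⁻¹ := by
  have h1 := Q.inner_Z g (Q.Z g)
  rw [real_inner_self_eq_norm_sq, norm_Z] at h1
  have h2 := (Q.A g).le_opNorm (Q.Z g)
  rw [norm_Z] at h2
  have h3 : ‖Q.A g (Q.Z g) - ‖Q.A g‖ • Q.swap.tp g⁻¹‖ ^ 2 ≤ 0 := by
    rw [@norm_sub_sq_real, inner_smul_right, ← h1, norm_smul, norm_norm, Q.swap.norm_tp]
    nlinarith [norm_nonneg (Q.A g (Q.Z g))]
  have h4 := pow_eq_zero_iff two_ne_zero |>.1 (le_antisymm h3 (sq_nonneg _))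
  rwa [norm_eq_zero, sub_eq_zero] at h4

lemma upper (g : Γ) (u : V) :
    ‖Q.A g u‖ ≤ |⟪u, Q.Z g⟫_ℝ| * ‖Q.A g‖ + Q.τ g * ‖Q.A g‖ * ‖u‖ := by
  have a1 := Q.A_pos g
  set z := Q.Z g with hz
  set w := u - ⟪z, u⟫_ℝ • z with hw
  have hw1 : ‖w‖ ≤ ‖u‖ := by
    rw [hw, norm_perp (Q.norm_Z g)]
    simpa [hz, Q.norm_Z] using norm_cr_le z u
  have hwz : ⟪w, z⟫_ℝ = 0 := by
    rw [hw, inner_sub_left, real_inner_smul_left, real_inner_self_eq_norm_sq, hz, norm_Z,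
      real_inner_comm]; ring
  have ho : ⟪Q.A g w, Q.A g z⟫_ℝ = 0 := by
    rw [hz, A_Z, inner_smul_right, ← inner_Z, ← hz, hwz]; ring
  have hn : ‖Q.A g z‖ = ‖Q.A g‖ := by
    rw [hz, A_Z, norm_smul, norm_norm, Q.swap.norm_tp, mul_one]
  have h1 := Q.cr_A_le g w z
  rw [norm_cr_of_orth ho, hn, hz, norm_Z, mul_one] at h1
  have h2 : ‖Q.A g w‖ ≤ Q.τ g * ‖Q.A g‖ * ‖u‖ := by
    have : Q.τ g * ‖Q.A g‖ * ‖u‖ = ‖Q.wedge.A g‖ * ‖u‖ / ‖Q.A g‖ := by rw [τ]; field_simp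
    rw [this, le_div_iff₀ a1]
    exact h1.trans (mul_le_mul_of_nonneg_left hw1 (norm_nonneg _))
  have h3 : Q.A g u = ⟪z, u⟫_ℝ • Q.A g z + Q.A g w := by
    rw [hw, map_sub, map_smul]; abel
  rw [h3]
  refine (norm_add_le _ _).trans (add_le_add ?_ h2)
  rw [norm_smul, hn, Real.norm_eq_abs, real_inner_comm]

lemma incid (g : Γ) : |⟪Q.U g, Q.swap.U g⟫_ℝ| ≤ √(Q.τ g) := by
  have a1 := Q.A_pos g; have a3 := Q.B_pos g
  rw [U, U, inner_smul_right, real_inner_smul_left, swap_A, Q.inn, abs_mul, abs_mul,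
    abs_inv, abs_inv, abs_norm, abs_norm]
  have h := abs_real_inner_le_norm (Q.tp g) (Q.swap.tp g)
  rw [norm_tp, Q.swap.norm_tp] at h
  obtain ⟨u, v, huv⟩ := exists_cr_ne (V := V)
  have h0 := norm_pos_iff.2 huv
  have h1 := cr_map_map_le (Q.A g⁻¹) (Q.A g u) (Q.A g v)
  rw [A_inv_A, A_inv_A, norm_A_inv, crA] at h1
  have h2 := (Q.wedge.A g).le_opNorm (cr u v)
  have h3 : 1 ≤ ‖Q.B g‖ ^ 2 * ‖Q.wedge.A g‖ := by
    refine le_of_mul_le_mul_right ?_ h0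
    rw [one_mul, mul_assoc]
    exact h1.trans (mul_le_mul_of_nonneg_left h2 (by positivity))
  calc _ ≤ ‖Q.B g‖⁻¹ * (‖Q.A g‖⁻¹ * (1 * 1)) := by gcongr
    _ ≤ _ := by
      refine Real.le_sqrt_of_sq_le ?_
      rw [τ, le_div_iff₀ (by positivity)]
      have : (‖Q.B g‖⁻¹ * (‖Q.A g‖⁻¹ * (1 * 1))) ^ 2 * ‖Q.A g‖ ^ 2 = (‖Q.B g‖ ^ 2)⁻¹ := by
        field_simp
      rw [this, inv_le_iff_one_le_mul₀ (by positivity)]; linarith

end Pair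

/-- An Anosov system: a dual pair over a cocompact Fuchsian group with a singular value gap. -/
structure Sys (Γ : Type*) [Group Γ] (V : Type*) [NormedAddCommGroup V] [InnerProductSpace ℝ V]
    [FiniteDimensional ℝ V] extends Pair Γ V where
  F : Fu Γ
  C : ℝ
  c : ℝ
  cpos : 0 < c
  gap : ∀ γ, toPair.τ γ ≤ C * Real.exp (-(c * Real.log (nn (F.r γ))))
  one_le : ∀ γ, 1 ≤ ‖toPair.A γ‖

namespace Sys
variable {Γ : Type*} [Group Γ] [Nontrivial V] [Nontrivial (Wd V)] (S : Sys Γ V)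

def swap : Sys Γ V where
  toPair := S.toPair.swap
  F := S.F
  C := S.C
  c := S.c
  cpos := S.cpos
  gap γ := by rw [Pair.swap_τ]; simpa [nn_inv] using S.gap γ⁻¹
  one_le γ := by rw [Pair.swap_A, ← Pair.norm_A_inv]; exact S.one_le _

@[simp] lemma swap_pair : S.swap.toPair = S.toPair.swap := rfl
@[simp] lemma swap_F : S.swap.F = S.F := rfl
@[simp] lemma swap_c : S.swap.c = S.c := rfl

lemma Cpos : 0 < S.C := by
  have := (S.τ_pos 1).trans_le (S.gap 1)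
  exact pos_of_mul_pos_of_pos_right' this
where pos_of_mul_pos_of_pos_right' {a b : ℝ} (h : 0 < a * Real.exp b) : 0 < a :=
  (mul_pos_iff_of_pos_right (Real.exp_pos b)).1 h

lemma exists_bd (T : ℝ) : ∃ K : ℝ, 1 ≤ K ∧ ∀ γ, nn (S.F.r γ) ≤ T → ‖S.A γ‖ ≤ K ∧ ‖S.B γ‖ ≤ K := by
  obtain ⟨K1, h1⟩ := ((S.F.proper T).image fun γ => ‖S.A γ‖).bddAbove
  obtain ⟨K2, h2⟩ := ((S.F.proper T).image fun γ => ‖S.B γ‖).bddAbove
  refine ⟨max 1 (max K1 K2), le_max_left _ _, fun γ hγ => ⟨?_, ?_⟩⟩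
  · exact (h1 ⟨γ, hγ, rfl⟩).trans ((le_max_left _ _).trans (le_max_right _ _))
  · exact (h2 ⟨γ, hγ, rfl⟩).trans ((le_max_right _ _).trans (le_max_right _ _))

/-- Aligned elements. -/
def Al (T : ℝ) (γ : Γ) (g : G) (t : ℝ) (h : G) : Prop :=
  S.F.r γ = g * D t * h⁻¹ ∧ nn g ≤ T ∧ nn h ≤ T ∧ 0 ≤ t

lemma Al.mono {S : Sys Γ V} {T T' : ℝ} {γ : Γ} {g : G} {t : ℝ} {h : G} (H : S.Al T γ g t h)
    (hT : T ≤ T') : S.Al T' γ g t h := ⟨H.1, H.2.1.trans hT, H.2.2.1.trans hT, H.2.2.2⟩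

lemma Al.inv {S : Sys Γ V} {T : ℝ} {γ : Γ} {g : G} {t : ℝ} {h : G} (H : S.Al T γ g t h) :
    S.Al (T * 2) γ⁻¹ (h * W) t (g * W) := by
  refine ⟨?_, nn_mul_le H.2.2.1 nn_W.le, nn_mul_le H.2.1 nn_W.le, H.2.2.2⟩
  rw [map_inv, H.1, mul_inv_rev, mul_inv_rev, inv_inv, W_D]; group

lemma tau_le (T : ℝ) : ∃ K : ℝ, 0 < K ∧ ∀ γ g t h, S.Al T γ g t h →
    S.τ γ ≤ K * Real.exp (-(S.c * t)) := by
  refine ⟨S.C * Real.exp (S.c * (2 * Real.log T)), mul_pos S.Cpos (Real.exp_pos _), ?_⟩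
  rintro γ g t h ⟨h1, h2, h3, h4⟩
  have hT : 0 < T := (nn_pos g).trans_le h2
  have e : D t = g⁻¹ * S.F.r γ * h := by rw [h1]; group
  have h5 : Real.exp t ≤ T * nn (S.F.r γ) * T := by
    refine (exp_le_nn_D t).trans ?_
    rw [e]
    exact nn_mul_le (nn_mul_le (by rwa [nn_inv]) le_rfl) h3
  have h6 : t ≤ 2 * Real.log T + Real.log (nn (S.F.r γ)) := by
    have := Real.log_le_log (Real.exp_pos t) h5
    rw [Real.log_exp, Real.log_mul (mul_pos hT (nn_pos _)).ne' hT.ne',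
      Real.log_mul hT.ne' (nn_pos _).ne'] at this
    linarith
  refine (S.gap γ).trans ?_
  rw [mul_assoc, ← Real.exp_add]
  refine mul_le_mul_of_nonneg_left (Real.exp_le_exp.2 ?_) S.Cpos.le
  nlinarith [S.cpos]

end Sys

end Pool.Agent.P.MP_39a2dc_an.H
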