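import Pool.Agent.P.MP_39a2dc_an.HMono

/-! Every short chord of the limit curve can be refined with a definite gain of length. -/

open scoped InnerProductSpace
open Filter Topology Set

set_option linter.unusedSectionVars false

namespace Pool.Agent.P.MP_39a2dc_an.H

variable {V : Type*} [NormedAddCommGroup V] [InnerProductSpace ℝ V] [FiniteDimensional ℝ V]

lemma quot_close {δ ε : ℝ} (hδ : 0 < δ) (hε : 0 < ε) : ∃ η : ℝ, 0 < η ∧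
    ∀ a a' b b' c c' : ℝ, |a| ≤ 1 → δ ≤ b → b ≤ 1 → δ ≤ c → c ≤ 1 → |a' - a| ≤ η → |b' - b| ≤ η →
      |c' - c| ≤ η → |a' / (b' * c') - a / (b * c)| ≤ ε := by
  have hK : IsCompact (Icc (-2 : ℝ) 2 ×ˢ Icc (δ / 2) 2 ×ˢ Icc (δ / 2) 2) :=
    isCompact_Icc.prod (isCompact_Icc.prod isCompact_Icc)
  have hc : ContinuousOn (fun p : ℝ × ℝ × ℝ => p.1 / (p.2.1 * p.2.2))
      (Icc (-2 : ℝ) 2 ×ˢ Icc (δ / 2) 2 ×ˢ Icc (δ / 2) 2) := by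
    refine ContinuousOn.div (by fun_prop) (by fun_prop) fun p hp => ?_
    exact (mul_pos (by linarith [hp.2.1.1]) (by linarith [hp.2.2.1])).ne'
  obtain ⟨η, hη, h⟩ := Metric.uniformContinuousOn_iff_le.1
    (hK.uniformContinuousOn_of_continuous hc) ε hε
  refine ⟨min η (min 1 (δ / 2)), by positivity, ?_⟩
  intro a a' b b' c c' h1 h2 h3 h4 h5 h6 h7 h8
  have m1 := min_le_left η (min 1 (δ / 2))
  have m2 := (min_le_right η (min 1 (δ / 2))).trans (min_le_left _ _)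
  have m3 := (min_le_right η (min 1 (δ / 2))).trans (min_le_right _ _)
  obtain ⟨a1, a2⟩ := abs_le.1 h1
  obtain ⟨a3, a4⟩ := abs_le.1 h6
  obtain ⟨a5, a6⟩ := abs_le.1 h7
  obtain ⟨a7, a8⟩ := abs_le.1 h8
  have := h (a', b', c') ⟨⟨by linarith, by linarith⟩, ⟨by linarith, by linarith⟩,
    ⟨by linarith, by linarith⟩⟩ (a, b, c) ⟨⟨by linarith, by linarith⟩, ⟨by linarith, by linarith⟩,
    ⟨by linarith, by linarith⟩⟩ (by
      simp only [Prod.dist_eq, Real.dist_eq, max_le_iff]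
      exact ⟨by linarith, by linarith, by linarith⟩)
  simpa [Real.dist_eq] using this

/-- Affine chart. -/
def pt (x : ℝ) : Pl := (x, 1)
lemma pt_ne (x : ℝ) : pt x ≠ 0 := by simp [pt]
def ga (a : ℝ) : G := mk a (-1) 1 0 (by simp)
lemma nn_ga {a : ℝ} (h0 : 0 ≤ a) (h1 : a ≤ 1) : nn (ga a) ≤ 3 := by
  simp [nn, ga, abs_of_nonneg h0]; linarith
lemma act_ga_D (a t s : ℝ) :
    act (ga a * D t) (1, -s) = Real.exp t • pt (a + s * Real.exp (-(2 * t))) := by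
  have : Real.exp (-t) = Real.exp t * Real.exp (-(2 * t)) := by
    rw [← Real.exp_add]; congr 1; ring
  rw [act_mul, act_D, this]
  ext <;> simp [act, ga, pt]; ring

namespace Sys
variable {Γ : Type*} [Group Γ] [Nontrivial V] [Nontrivial (Wd V)] (S : Sys Γ V)

lemma ratio_close (T : ℝ) : ∃ K : ℝ, ∀ γ g t h, S.Al T γ g t h → ∀ u : V, ‖u‖ ≤ 1 →
    |‖S.A γ u‖ / ‖S.A γ‖ - (|⟪u, S.Y (act h e2)⟫_ℝ|)| ≤ K * Real.exp (-(S.c * t)) := by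
  obtain ⟨K1, hK1, h1⟩ := S.keyZ T
  obtain ⟨K2, hK2, h2⟩ := S.tau_le T
  refine ⟨K1 + K2, fun γ g t h H u hu => ?_⟩
  have a1 := h1 _ _ _ _ H
  have a2 := h2 _ _ _ _ H
  have p := S.A_pos γ
  have a3 : |⟪u, S.Z γ⟫_ℝ| ≤ ‖S.A γ u‖ / ‖S.A γ‖ := by rw [le_div_iff₀ p]; exact S.lower γ u
  have a4 : ‖S.A γ u‖ / ‖S.A γ‖ ≤ |⟪u, S.Z γ⟫_ℝ| + S.τ γ * ‖u‖ := by
    rw [div_le_iff₀ p]; linarith [S.upper γ u]
  have a5 := abs_inner_le_of_cr (S.norm_Z γ) (S.norm_Y (act h e2)) u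
  have a6 := abs_inner_le_of_cr (S.norm_Y (act h e2)) (S.norm_Z γ) u
  rw [norm_cr_comm] at a6
  have a7 := mul_le_of_le_one_right (norm_nonneg (cr (S.Z γ) (S.Y (act h e2)))) hu
  have a8 := mul_le_of_le_one_right (S.τ_pos γ).le hu
  have := S.τ_pos γ
  rw [abs_le]; constructor <;> linarith

lemma norm_cr_act (γ : Γ) {v w : Pl} (hv : v ≠ 0) (hw : w ≠ 0) :
    ‖cr (S.X (act (S.F.r γ) v)) (S.X (act (S.F.r γ) w))‖ / S.τ γ =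
      (‖S.wedge.A γ (cr (S.X v) (S.X w))‖ / ‖S.wedge.A γ‖) /
        (‖S.A γ (S.X v)‖ / ‖S.A γ‖ * (‖S.A γ (S.X w)‖ / ‖S.A γ‖)) := by
  obtain ⟨a, ha, ea⟩ := S.X_act_eq γ hv
  obtain ⟨b, hb, eb⟩ := S.X_act_eq γ hw
  rw [← S.crA, ea, eb, cr_smul_left, cr_smul_right]
  simp only [norm_smul, S.norm_X, mul_one, Pair.τ]
  have := S.A_pos γ; have := S.wedge.A_pos γ
  have := norm_pos_iff.2 ha; have := norm_pos_iff.2 hb
  field_simp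

lemma exists_delta (T : ℝ) : ∃ δ : ℝ, 0 < δ ∧ ∀ h, nn h ≤ T → ∀ s ∈ Icc (0 : ℝ) 1,
    δ ≤ |⟪S.X (act h (1, -s)), S.Y (act h e2)⟫_ℝ| := by
  obtain ⟨δ, hδ, h⟩ := S.unif ((isCompact_ball T).prod (isCompact_Icc (a := (0 : ℝ)) (b := 1)))
    (z := fun p => act p.1 (1, -p.2)) (w := fun p => act p.1 e2) (by fun_prop) (by fun_prop)
    (fun p _ => by rw [dt_act_e2]; exact one_ne_zero)
  exact ⟨δ, hδ, fun h' hh s hs => h (h', s) ⟨hh, hs⟩⟩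

lemma abs_inner_XY_le (v w : Pl) : |⟪S.X v, S.Y w⟫_ℝ| ≤ 1 := by
  simpa [S.norm_Y] using abs_inner_le_norm_of_unit (S.norm_X v) (S.Y w)

lemma norm_cr_X_le (v w : Pl) : ‖cr (S.X v) (S.X w)‖ ≤ 1 := by
  simpa [S.norm_X] using norm_cr_le (S.X v) (S.X w)

/-- Sine distance between two points of the limit curve. -/
noncomputable def dd (x x' : ℝ) : ℝ := ‖cr (S.X (pt x)) (S.X (pt x'))‖

lemma dd_eq {a t : ℝ} {γ : Γ} {h : G} (e : S.F.r γ = ga a * D t * h⁻¹) (s s' : ℝ) :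
    ‖cr (S.X (act (S.F.r γ) (act h (1, -s)))) (S.X (act (S.F.r γ) (act h (1, -s'))))‖ =
      S.dd (a + s * Real.exp (-(2 * t))) (a + s' * Real.exp (-(2 * t))) := by
  rw [e, act_mul, act_inv_act, act_mul (ga a * D t), act_inv_act, act_ga_D, act_ga_D]
  obtain ⟨s1, h1, e1⟩ := S.X_smul_eq (Real.exp_pos t).ne' (pt_ne (a + s * Real.exp (-(2 * t))))
  obtain ⟨s2, h2, e2⟩ := S.X_smul_eq (Real.exp_pos t).ne' (pt_ne (a + s' * Real.exp (-(2 * t))))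
  rw [e1, e2, cr_smul_left, cr_smul_right, norm_smul, norm_smul, Real.norm_eq_abs,
    Real.norm_eq_abs, abs_sign h1, abs_sign h2, one_mul, one_mul, dd]

lemma exists_scale (t0 : ℝ) : ∃ η : ℝ, 0 < η ∧ η ≤ 1 ∧ ∀ a b, 0 ≤ a → a < b → b ≤ 1 → b - a ≤ η →
    ∃ γ t h, S.Al (max 3 S.F.R) γ (ga a) t h ∧ t0 ≤ t ∧ Real.exp (-(2 * t)) = b - a := by
  refine ⟨min 1 (Real.exp (-(2 * t0))), by positivity, min_le_left _ _, ?_⟩
  intro a b ha hab hb hη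
  have hl : 0 < b - a := by linarith
  obtain ⟨γ, h, hh, e⟩ := S.F.cocpt (ga a * D (-Real.log (b - a) / 2))
  have l1 := Real.log_nonpos hl.le (hη.trans (min_le_left _ _))
  have l2 := Real.log_le_log hl (hη.trans (min_le_right _ _))
  rw [Real.log_exp] at l2
  refine ⟨γ, _, h, ⟨e, (nn_ga ha (by linarith)).trans (le_max_left _ _),
    hh.trans (le_max_right _ _), by linarith⟩, by linarith, ?_⟩
  rw [show -(2 * (-Real.log (b - a) / 2)) = Real.log (b - a) by ring, Real.exp_log hl]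

end Sys

namespace Sys2
variable {Γ : Type*} [Group Γ] [Nontrivial V] [Nontrivial (Wd V)] [Nontrivial (Wd (Wd V))]
  (S : Sys2 Γ V)
open Sys

/-- The projections are nowhere monotone. -/
def NM : Prop := ∀ h : G, ∃ t1 t2 : ℝ, 0 ≤ t1 ∧ t1 ≤ t2 ∧ t2 ≤ 1 ∧
  S.Dd h 0 1 < S.Dd h 0 t1 + S.Dd h t1 t2 + S.Dd h t2 1

lemma abs_triple_le (v w z : Pl) : |S.om z (S.X v) (S.X w)| ≤ 1 := by
  rw [om, real_inner_comm]
  exact (abs_inner_le_norm_of_unit (S.w.norm_Y z) _).trans (S.norm_cr_X_le v w)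

lemma approx (T : ℝ) {ε : ℝ} (hε : 0 < ε) : ∃ t0 : ℝ, ∀ γ g t h, S.Al T γ g t h → t0 ≤ t →
    ∀ s ∈ Icc (0 : ℝ) 1, ∀ s' ∈ Icc (0 : ℝ) 1,
      |‖cr (S.X (act (S.F.r γ) (act h (1, -s)))) (S.X (act (S.F.r γ) (act h (1, -s'))))‖ / S.τ γ
        - S.Dd h s s'| ≤ ε := by
  obtain ⟨δ, hδ, hd⟩ := S.exists_delta T
  obtain ⟨η, hη, hq⟩ := quot_close hδ hε
  obtain ⟨K1, h1⟩ := S.ratio_close T
  obtain ⟨K2, h2⟩ := S.w.ratio_close T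
  obtain ⟨t0, ht0⟩ := eventually_atTop.1
    (((tendsto_exp_zero tendsto_id S.cpos K1).eventually (gt_mem_nhds hη)).and
      ((tendsto_exp_zero tendsto_id S.w.cpos K2).eventually (gt_mem_nhds hη)))
  refine ⟨t0, fun γ g t h H ht s hs s' hs' => ?_⟩
  obtain ⟨b1, b2⟩ := ht0 t ht
  rw [S.norm_cr_act γ (act_one_ne _ _) (act_one_ne _ _)]
  refine hq _ _ _ _ _ _ ?_ (hd h H.2.2.1 s hs) (S.abs_inner_XY_le _ _) (hd h H.2.2.1 s' hs')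
    (S.abs_inner_XY_le _ _) ((h2 _ _ _ _ H _ (S.norm_cr_X_le _ _)).trans b2.le)
    ((h1 _ _ _ _ H _ (S.norm_X _).le).trans b1.le) ((h1 _ _ _ _ H _ (S.norm_X _).le).trans b1.le)
  rw [abs_abs]; exact S.abs_triple_le _ _ _

lemma Dd_le (T : ℝ) : ∃ Dm : ℝ, 0 < Dm ∧ ∀ h, nn h ≤ T → S.Dd h 0 1 ≤ Dm := by
  obtain ⟨δ, hδ, hd⟩ := S.exists_delta T
  refine ⟨1 / (δ * δ), by positivity, fun h hh => ?_⟩
  have a1 := hd h hh 0 ⟨le_rfl, zero_le_one⟩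
  have a2 := hd h hh 1 ⟨zero_le_one, le_rfl⟩
  exact div_le_div₀ zero_le_one (S.abs_triple_le _ _ _) (mul_pos hδ hδ)
    (mul_le_mul a1 a2 hδ.le (abs_nonneg _))

lemma cont_Dd (t t' : ℝ) : Continuous fun h => S.Dd h t t' := by
  refine continuous_iff_continuousAt.2 fun h => ?_
  have c1 : ∀ v : Pl, Tendsto (fun h' => act h' v) (𝓝 h) (𝓝 (act h v)) := fun v =>
    Tendsto.act tendsto_id tendsto_const_nhds
  have n2 := act_ne_zero h e2_ne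
  have d : ∀ a, |⟪S.X (act h (1, a)), S.Y (act h e2)⟫_ℝ| ≠ 0 := fun a =>
    abs_ne_zero.2 (S.trans (by rw [dt_act_e2]; exact one_ne_zero))
  refine Tendsto.div ?_ ((S.tendsto_abs_inner (act_one_ne _ _) n2 (c1 _) (c1 _)).mul
    (S.tendsto_abs_inner (act_one_ne _ _) n2 (c1 _) (c1 _))) (mul_ne_zero (d _) (d _))
  obtain ⟨s1, h1, l1⟩ := S.exists_sign (act_one_ne h (-t)) (c1 _)
  obtain ⟨s2, h2, l2⟩ := S.exists_sign (act_one_ne h (-t')) (c1 _)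
  obtain ⟨s3, h3, l3⟩ := S.w.swap.exists_sign n2 (c1 _)
  refine ((Filter.Tendsto.cr l1 l2).inner (𝕜 := ℝ) l3).abs.congr fun a => ?_
  simp only [cr_smul_left, cr_smul_right, real_inner_smul_left, inner_smul_right, abs_mul,
    abs_sign (h1 a), abs_sign (h2 a), abs_sign (h3 a), one_mul]
  rfl

variable {S}

lemma NM.gain (hN : S.NM) (T : ℝ) : ∃ κ : ℝ, 0 < κ ∧ ∀ h, nn h ≤ T →
    ∃ t1 t2 : ℝ, 0 ≤ t1 ∧ t1 ≤ t2 ∧ t2 ≤ 1 ∧
      S.Dd h 0 1 + κ ≤ S.Dd h 0 t1 + S.Dd h t1 t2 + S.Dd h t2 1 := by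
  refine (isCompact_ball T).induction_on (p := fun s => ∃ κ : ℝ, 0 < κ ∧ ∀ h ∈ s,
    ∃ t1 t2 : ℝ, 0 ≤ t1 ∧ t1 ≤ t2 ∧ t2 ≤ 1 ∧
      S.Dd h 0 1 + κ ≤ S.Dd h 0 t1 + S.Dd h t1 t2 + S.Dd h t2 1)
    ⟨1, one_pos, by simp⟩ (fun s t hst ⟨κ, hκ, h⟩ => ⟨κ, hκ, fun x hx => h x (hst hx)⟩) ?_ ?_
  · rintro s t ⟨κ, hκ, h⟩ ⟨κ', hκ', h'⟩
    refine ⟨min κ κ', lt_min hκ hκ', ?_⟩
    rintro x (hx | hx)
    · obtain ⟨t1, t2, a, b, c, d⟩ := h x hx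
      exact ⟨t1, t2, a, b, c, by linarith [min_le_left κ κ']⟩
    · obtain ⟨t1, t2, a, b, c, d⟩ := h' x hx
      exact ⟨t1, t2, a, b, c, by linarith [min_le_right κ κ']⟩
  · intro h _
    obtain ⟨t1, t2, a, b, c, d⟩ := hN h
    set κ := (S.Dd h 0 t1 + S.Dd h t1 t2 + S.Dd h t2 1 - S.Dd h 0 1) / 2 with hκ
    have hc : Continuous fun h => S.Dd h 0 t1 + S.Dd h t1 t2 + S.Dd h t2 1 - S.Dd h 0 1 :=
      (((S.cont_Dd _ _).add (S.cont_Dd _ _)).add (S.cont_Dd _ _)).sub (S.cont_Dd _ _)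
    refine ⟨_, mem_nhdsWithin_of_mem_nhds ((hc.tendsto h).eventually
      (lt_mem_nhds (show κ < _ by simp only [hκ]; linarith))), κ, by simp only [hκ]; linarith,
      fun x hx => ⟨t1, t2, a, b, c, ?_⟩⟩
    simp only [mem_ofPred_eq] at hx
    linarith

lemma NM.refine (hN : S.NM) : ∃ κ η : ℝ, 0 < κ ∧ 0 < η ∧
    ∀ a b, 0 ≤ a → a < b → b ≤ 1 → b - a ≤ η → ∃ z1 z2, a ≤ z1 ∧ z1 ≤ z2 ∧ z2 ≤ b ∧
      (1 + κ) * S.dd a b ≤ S.dd a z1 + S.dd z1 z2 + S.dd z2 b := by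
  obtain ⟨κ, hκ, hg⟩ := hN.gain (max 3 S.F.R)
  obtain ⟨Dm, hDm, hD⟩ := S.Dd_le (max 3 S.F.R)
  obtain ⟨t0, ht0⟩ := S.approx (max 3 S.F.R) (show 0 < κ / 8 by positivity)
  obtain ⟨η, hη, -, hs⟩ := S.exists_scale t0
  refine ⟨κ / (2 * (Dm + κ)), η, by positivity, hη, fun a b ha hab hb hl => ?_⟩
  obtain ⟨γ, t, h, H, ht, el⟩ := hs a b ha hab hb hl
  obtain ⟨t1, t2, c1, c2, c3, c4⟩ := hg h H.2.2.1
  have ap := ht0 γ _ t h H ht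
  simp only [S.dd_eq H.1, el] at ap
  have m0 : (0 : ℝ) ∈ Icc (0 : ℝ) 1 := ⟨le_rfl, zero_le_one⟩
  have m1 : (1 : ℝ) ∈ Icc (0 : ℝ) 1 := ⟨zero_le_one, le_rfl⟩
  have m2 : t1 ∈ Icc (0 : ℝ) 1 := ⟨c1, c2.trans c3⟩
  have m3 : t2 ∈ Icc (0 : ℝ) 1 := ⟨c1.trans c2, c3⟩
  have b0 := (abs_le.1 (ap 0 m0 1 m1)).2
  have b1 := (abs_le.1 (ap 0 m0 t1 m2)).1
  have b2 := (abs_le.1 (ap t1 m2 t2 m3)).1
  have b3 := (abs_le.1 (ap t2 m3 1 m1)).1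
  simp only [zero_mul, add_zero, one_mul, add_sub_cancel] at b0 b1 b2 b3
  have hl0 : 0 ≤ b - a := by linarith
  refine ⟨a + t1 * (b - a), a + t2 * (b - a), by nlinarith, by nlinarith, by nlinarith, ?_⟩
  have p := S.τ_pos γ
  have b4 := hD h H.2.2.1
  have b5 : κ / (2 * (Dm + κ)) * (S.dd a b / S.τ γ) ≤ κ / 2 := by
    calc _ ≤ κ / (2 * (Dm + κ)) * (Dm + κ) := by gcongr; linarith
      _ = _ := by field_simp
  refine le_of_mul_le_mul_right (a := (S.τ γ)⁻¹) ?_ (inv_pos.2 p)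
  generalize κ / (2 * (Dm + κ)) = κ' at b5 ⊢
  simp only [div_eq_mul_inv _ (S.τ γ)] at b0 b1 b2 b3 b5
  linarith

end Sys2

end Pool.Agent.P.MP_39a2dc_an.H
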