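import Pool.Agent.P.MP_39a2dc_an.HLimit

/-! Transversality of the limit map and the dual limit map. -/

open scoped InnerProductSpace
open Filter Topology

set_option linter.unusedSectionVars false

namespace Pool.Agent.P.MP_39a2dc_an.H

variable {V : Type*} [NormedAddCommGroup V] [InnerProductSpace ℝ V] [FiniteDimensional ℝ V]

lemma sub_contra (a : ℤ → ℕ → ℝ) {c K : ℝ} (hc : 0 < c) (hK : 0 ≤ K) (lb : ∀ s n, -K ≤ a s n)
    (ub : ∀ n, ∃ M, ∀ s, a s n ≤ M)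
    (sub : ∀ s (n m : ℕ), a s (n + m) ≤ a s n + a (s + n) m)
    (df : ∀ T : ℕ, ∃ k0 : ℕ, ∀ k ≥ k0, ∀ s, a s (k + T) ≤ a s k + a (s + k) T - c * T + K) :
    False := by
  set α : ℕ → ℝ := fun n => ⨆ s, a s n with hα
  have hb : ∀ n, BddAbove (Set.range fun s => a s n) := fun n => by
    obtain ⟨M, hM⟩ := ub n
    exact ⟨M, by rintro _ ⟨s, rfl⟩; exact hM s⟩
  have hle : ∀ s n, a s n ≤ α n := fun s n => le_ciSup (hb n) s
  have s1 : ∀ n m, α (n + m) ≤ α n + α m := fun n m =>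
    ciSup_le fun s => (sub s n m).trans (add_le_add (hle _ _) (hle _ _))
  have s2 : ∀ T : ℕ, ∃ k0 : ℕ, ∀ k ≥ k0, α (k + T) ≤ α k + α T - c * T + K := fun T => by
    obtain ⟨k0, h⟩ := df T
    refine ⟨k0, fun k hk => ciSup_le fun s => (h k hk s).trans ?_⟩
    linarith [hle s k, hle (s + k) T]
  set l : ℝ := ⨅ n : ℕ, α (n + 1) / (n + 1) with hl
  have hbb : BddBelow (Set.range fun n : ℕ => α (n + 1) / (n + 1)) := by
    refine ⟨-K, ?_⟩
    rintro _ ⟨n, rfl⟩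
    have h1 := (lb 0 (n + 1)).trans (hle 0 (n + 1))
    have h2 : (0 : ℝ) ≤ n := Nat.cast_nonneg n
    simp only
    rw [le_div_iff₀ (by linarith)]; nlinarith
  have hl1 : ∀ n : ℕ, l * (n + 1) ≤ α (n + 1) := fun n => by
    have := ciInf_le hbb n
    rwa [le_div_iff₀ (by positivity)] at this
  obtain ⟨n0, hn0⟩ := exists_lt_of_ciInf_lt (show l < l + c / 4 by linarith)
  rw [div_lt_iff₀ (by positivity)] at hn0
  have s3 : ∀ m : ℕ, α ((m + 1) * (n0 + 1)) ≤ (m + 1) * α (n0 + 1) := fun m => by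
    induction m with
    | zero => simp
    | succ m ih =>
      have := s1 ((m + 1) * (n0 + 1)) (n0 + 1)
      rw [show (m + 1 + 1) * (n0 + 1) = (m + 1) * (n0 + 1) + (n0 + 1) by ring]
      push_cast; linarith
  obtain ⟨m, hm⟩ := exists_nat_gt (4 * K / c)
  rw [div_lt_iff₀ hc] at hm
  set T := (m + 1) * (n0 + 1) with hT
  have hTc : (T : ℝ) = (m + 1) * (n0 + 1) := by rw [hT]; push_cast; ring
  have hm0 : (0 : ℝ) ≤ m := Nat.cast_nonneg m
  have hn00 : (0 : ℝ) ≤ n0 := Nat.cast_nonneg n0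
  have hT1 : (m : ℝ) + 1 ≤ T := by rw [hTc]; nlinarith
  have hβ : α T - c * T + K ≤ T * (l - c / 2) := by
    have h1 := s3 m
    have h2 : ((m : ℝ) + 1) * α (n0 + 1) ≤ (m + 1) * ((l + c / 4) * (n0 + 1)) :=
      mul_le_mul_of_nonneg_left hn0.le (by linarith)
    have h3 : ((m : ℝ) + 1) * ((l + c / 4) * (n0 + 1)) = T * (l + c / 4) := by rw [hTc]; ring
    nlinarith
  obtain ⟨k0, hk0⟩ := s2 T
  have s4 : ∀ j : ℕ, α (k0 + 1 + j * T) ≤ α (k0 + 1) + j * (T * (l - c / 2)) := fun j => by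
    induction j with
    | zero => simp
    | succ j ih =>
      have := hk0 (k0 + 1 + j * T) (by omega)
      rw [show k0 + 1 + (j + 1) * T = k0 + 1 + j * T + T by ring]
      push_cast; linarith
  obtain ⟨j, hj⟩ := exists_nat_gt ((α (k0 + 1) - l * (k0 + 1)) / (c / 2))
  rw [div_lt_iff₀ (by linarith)] at hj
  have h1 := s4 j
  have h2 := hl1 (k0 + j * T)
  rw [show k0 + j * T + 1 = k0 + 1 + j * T by ring] at h2
  push_cast at h2
  have hj0 : (0 : ℝ) ≤ j := Nat.cast_nonneg j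
  nlinarith [mul_nonneg (mul_nonneg hj0 hc.le) (show (0 : ℝ) ≤ T - 1 by linarith)]

namespace Sys
variable {Γ : Type*} [Group Γ] [Nontrivial V] [Nontrivial (Wd V)] (S : Sys Γ V)

lemma X_par (γ : Γ) {v w : Pl} (hw : w ≠ 0) {c : ℝ} (hc : c ≠ 0) (h : act (S.F.r γ) v = c • w) :
    ∃ a : ℝ, a ≠ 0 ∧ S.A γ (S.X v) = a • S.X w := by
  have hv : v ≠ 0 := by
    rintro rfl
    have : act (S.F.r γ) 0 = 0 := by ext <;> simp [act]
    exact smul_ne_zero hc hw (h ▸ this)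
  obtain ⟨a, ha, e⟩ := S.X_act_eq γ hv
  obtain ⟨s, hs, e'⟩ := S.X_smul_eq hc hw
  refine ⟨a * s, mul_ne_zero ha (by rcases hs with rfl | rfl <;> norm_num), ?_⟩
  rw [e, h, e', smul_smul]

lemma log_A_ge (γ : Γ) : -|Real.log S.C| ≤ Real.log ‖S.A γ‖ := by
  linarith [Real.log_nonneg (S.one_le γ), abs_nonneg (Real.log S.C)]

lemma trans_core (g : G) : ⟪S.X (act g e2), S.Y (act g e1)⟫_ℝ ≠ 0 := by
  intro h0
  choose γ k hk hγ using fun s : ℤ => S.F.cocpt (g * D s)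
  have hR := S.F.one_le_R
  have al : ∀ (s : ℤ) (n : ℕ), S.Al S.F.R ((γ s)⁻¹ * γ (s + n)) (k s) n (k (s + n)) := by
    intro s n
    refine ⟨?_, hk _, hk _, Nat.cast_nonneg n⟩
    rw [map_mul, map_inv, hγ, hγ]; push_cast; rw [D_add]; group
  set M : ℤ → ℕ → Γ := fun s n => ((γ s)⁻¹ * γ (s + n))⁻¹ with hM
  have Mmul : ∀ s (n m : ℕ), M s (n + m) = M (s + n) m * M s n := by
    intro s n m; simp only [hM]; push_cast; rw [← add_assoc]; group
  have orth : ∀ s, ⟪S.X (act (k s) e2), S.Y (act (k s) e1)⟫_ℝ = 0 := by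
    intro s
    obtain ⟨a, ha, e⟩ := S.X_par (γ s) (v := act (k s) e2) (act_ne_zero g e2_ne)
      (Real.exp_pos (-s)).ne' (by
        rw [hγ, act_mul, act_mul, act_inv_act, act_D, ← act_smul]; simp [e2])
    obtain ⟨b, hb, e'⟩ := S.swap.X_par (γ s) (v := act (k s) e1) (act_ne_zero g e1_ne)
      (Real.exp_pos s).ne' (by
        rw [swap_F, hγ, act_mul, act_mul, act_inv_act, act_D, ← act_smul]; simp [e1])
    rw [← S.inn (γ s), e]
    have : S.B (γ s) (S.Y (act (k s) e1)) = b • S.Y (act g e1) := e'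
    rw [this, inner_smul_right, real_inner_smul_left, h0]; ring
  have mv : ∀ s (n : ℕ), ∃ a : ℝ, a ≠ 0 ∧
      S.A (M s n) (S.X (act (k s) e2)) = a • S.X (act (k (s + n)) e2) := by
    intro s n
    refine S.X_par _ (act_ne_zero _ e2_ne) (Real.exp_pos n).ne' ?_
    simp only [hM]
    rw [map_inv, (al s n).1, mul_inv_rev, mul_inv_rev, inv_inv, ← D_neg, act_mul, act_mul,
      act_inv_act, act_D, ← act_smul]
    simp [e2]
  obtain ⟨K1, hK1, h1⟩ := S.swap.key S.F.R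
  obtain ⟨K2, hK2, h2⟩ := S.tau_le (S.F.R * 2)
  obtain ⟨K3, hK3, h3⟩ := S.key (S.F.R * 2)
  have c1 : ∀ s (n : ℕ), ‖S.A (M s n) (S.X (act (k s) e2))‖ ≤
      (K1 + K2) * Real.exp (-(S.c * n)) * ‖S.A (M s n)‖ := by
    intro s n
    have u := S.upper (M s n) (S.X (act (k s) e2))
    have z := abs_inner_le_of_cr (S.norm_Y (act (k s) e1)) (S.norm_Z (M s n))
      (S.X (act (k s) e2))
    have y := h1 _ _ _ _ (al s n)
    have t := h2 _ _ _ _ (al s n).inv
    have ez : S.Z (M s n) = S.swap.U ((γ s)⁻¹ * γ (s + n)) := by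
      simp only [hM, Pair.Z, inv_inv, swap_pair]
    rw [orth, abs_zero, norm_cr_comm, S.norm_X] at z
    rw [S.norm_X] at u
    rw [← ez] at y
    have p := S.A_pos (M s n)
    have y' : ‖cr (S.Z (M s n)) (S.Y (act (k s) e1))‖ ≤ K1 * Real.exp (-(S.c * n)) := y
    have t' : S.τ (M s n) ≤ K2 * Real.exp (-(S.c * n)) := t
    nlinarith
  have bd : ∀ n : ℕ, ∃ K, 1 ≤ K ∧ ∀ s, ‖S.A (M s n)‖ ≤ K ∧ ‖S.B (M s n)‖ ≤ K := by
    intro n
    obtain ⟨K, hK, h⟩ := S.exists_bd (S.F.R * nn (D n) * S.F.R)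
    refine ⟨K, hK, fun s => h _ ?_⟩
    simp only [hM]
    rw [map_inv, nn_inv, (al s n).1]
    exact nn_mul_le (nn_mul_le (hk _) le_rfl) (by rw [nn_inv]; exact hk _)
  refine sub_contra (fun s n => Real.log ‖S.A (M s n)‖) S.cpos
    (K := |Real.log S.C| + |Real.log (2 * (K1 + K2))|) (by positivity)
    (fun s n => ?_) (fun n => ?_) (fun s n m => ?_) (fun T => ?_)
  · linarith [S.log_A_ge (M s n), abs_nonneg (Real.log (2 * (K1 + K2)))]
  · obtain ⟨K, hK, h⟩ := bd n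
    exact ⟨Real.log K, fun s => Real.log_le_log (S.A_pos _) (h s).1⟩
  · rw [Mmul, ← Real.log_mul (S.A_pos _).ne' (S.A_pos _).ne', mul_comm]
    exact Real.log_le_log (S.A_pos _) (S.norm_A_mul_le _ _)
  · obtain ⟨K, hK, hb⟩ := bd T
    obtain ⟨k0, hk0⟩ := eventually_atTop.1
      ((tendsto_exp_zero tendsto_natCast_atTop_atTop S.cpos (K3 * (K * K))).eventually
        (gt_mem_nhds (show (0 : ℝ) < 1 / 2 by norm_num)))
    refine ⟨k0, fun n hn s => ?_⟩
    have e1' := hk0 (n + T) (by omega)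
    have y := h3 _ _ _ _ (al s (n + T)).inv
    rw [act_mul, act_W_e1] at y
    have y' : ‖cr (S.U (M s (n + T))) (S.X (act (k (s + n + T)) e2))‖ ≤
        K3 * Real.exp (-(S.c * (n + T : ℕ))) := by
      have : s + ((n + T : ℕ) : ℤ) = s + n + T := by push_cast; ring
      rw [← this]; exact y
    obtain ⟨a, ha, ea⟩ := mv (s + n) T
    have c1' := c1 (s + n) T
    obtain ⟨b1, b2⟩ := hb (s + n)
    rw [Mmul] at y' ⊢
    set N := M (s + n) T
    set N' := M s n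
    set x := S.X (act (k (s + n)) e2)
    set x' := S.X (act (k (s + n + T)) e2)
    have nx : ‖x‖ = 1 := S.norm_X _
    have nx' : ‖x'‖ = 1 := S.norm_X _
    have p1 := S.A_pos N; have p2 := S.A_pos N'; have p3 := S.A_pos (N * N')
    have p4 := S.B_pos N
    have na : ‖S.A N x‖ = |a| := by rw [ea, norm_smul, nx', mul_one, Real.norm_eq_abs]
    have apos : 0 < |a| := abs_pos.2 ha
    have aN : |a| ≤ ‖S.A N‖ := by rw [← na]; simpa [nx] using (S.A N).le_opNorm x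
    set p := S.U (N * N') with hp
    have d1 : x = a • S.A N⁻¹ x' := by rw [← map_smul, ← ea, S.A_inv_A]
    have d2 : S.A N⁻¹ x' = ⟪p, x'⟫_ℝ • S.A N⁻¹ p + S.A N⁻¹ (x' - ⟪p, x'⟫_ℝ • p) := by
      rw [map_sub, map_smul]; abel
    have d3 : ‖S.A N⁻¹ p‖ ≤ ‖S.A N'‖ / ‖S.A (N * N')‖ := by
      rw [hp, Pair.U, map_smul, S.A_mul, S.A_inv_A, norm_smul, norm_inv, norm_norm,
        div_eq_inv_mul]
      gcongr
      simpa [S.norm_tp] using (S.A N').le_opNorm (S.tp (N * N'))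
    have d4 : ‖S.A N⁻¹ (x' - ⟪p, x'⟫_ℝ • p)‖ ≤ K * (K3 * Real.exp (-(S.c * (n + T : ℕ)))) := by
      refine ((S.A N⁻¹).le_opNorm _).trans ?_
      rw [norm_perp (S.norm_U _), S.norm_A_inv]
      gcongr
    have d5 : |⟪p, x'⟫_ℝ| ≤ 1 := by simpa [nx'] using abs_inner_le_norm_of_unit (S.norm_U _) x'
    have d6 : ‖S.A N⁻¹ x'‖ ≤ ‖S.A N'‖ / ‖S.A (N * N')‖
        + K * (K3 * Real.exp (-(S.c * (n + T : ℕ)))) := by
      rw [d2]
      refine (norm_add_le _ _).trans (add_le_add ?_ d4)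
      rw [norm_smul, Real.norm_eq_abs]
      exact (mul_le_of_le_one_left (norm_nonneg _) d5).trans d3
    have d7 : 1 = |a| * ‖S.A N⁻¹ x'‖ := by rw [← nx, d1, norm_smul, Real.norm_eq_abs]
    have d8 : |a| * (K * (K3 * Real.exp (-(S.c * (n + T : ℕ))))) ≤ 1 / 2 := by
      have : |a| ≤ K := aN.trans b1
      calc _ ≤ K * (K * (K3 * Real.exp (-(S.c * (n + T : ℕ))))) := by gcongr
        _ ≤ _ := by linarith
    have d9 : ‖S.A (N * N')‖ ≤ 2 * |a| * ‖S.A N'‖ := by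
      have : 1 / 2 ≤ |a| * (‖S.A N'‖ / ‖S.A (N * N')‖) := by
        nlinarith [mul_le_mul_of_nonneg_left d6 apos.le]
      rw [← mul_div_assoc, le_div_iff₀ p3] at this
      linarith
    rw [na] at c1'
    have d10 : ‖S.A (N * N')‖ ≤
        ‖S.A N'‖ * ‖S.A N‖ * Real.exp (-(S.c * T)) * (2 * (K1 + K2)) := by nlinarith
    have d11 := Real.log_le_log p3 d10
    rw [Real.log_mul (by positivity) (by positivity), Real.log_mul (by positivity) (by positivity),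
      Real.log_mul p2.ne' p1.ne', Real.log_exp] at d11
    linarith [le_abs_self (Real.log (2 * (K1 + K2))), abs_nonneg (Real.log S.C)]

/-- Transversality. -/
lemma trans {v w : Pl} (h : dt v w ≠ 0) : ⟪S.X v, S.Y w⟫_ℝ ≠ 0 := by
  have h' : dt w v ≠ 0 := by rw [dt_comm]; exact neg_ne_zero.2 h
  have := S.trans_core (MP_39a2dc_an.mk w.1 (v.1 / dt w v) w.2 (v.2 / dt w v)
    (by field_simp; simp [dt]; ring))
  have e1' : act (MP_39a2dc_an.mk w.1 (v.1 / dt w v) w.2 (v.2 / dt w v)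
    (by field_simp; simp [dt]; ring)) e1 = w := by ext <;> simp [act, e1]
  have e2' : act (MP_39a2dc_an.mk w.1 (v.1 / dt w v) w.2 (v.2 / dt w v)
    (by field_simp; simp [dt]; ring)) e2 = (dt w v)⁻¹ • v := by
    ext <;> simp [act, e2] <;> field_simp
  rw [e1', e2'] at this
  obtain ⟨s, -, e⟩ := S.X_smul_eq (inv_ne_zero h') (ne_zero_of_dt_left h)
  rw [e, real_inner_smul_left] at this
  exact right_ne_zero_of_mul this

lemma cr_X_ne {v w : Pl} (h : dt v w ≠ 0) : cr (S.X v) (S.X w) ≠ 0 := by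
  intro h0
  have e := eq_smul_of_cr (S.norm_X v) h0
  have h' : dt w v ≠ 0 := by rw [dt_comm]; exact neg_ne_zero.2 h
  apply S.trans h'
  rw [e, real_inner_smul_left, S.incidence (ne_zero_of_dt_left h), mul_zero]

lemma abs_sign {s : ℝ} (hs : s = 1 ∨ s = -1) : |s| = 1 := by rcases hs with rfl | rfl <;> simp

lemma tendsto_abs_inner {α : Type*} {l : Filter α} {f g : α → Pl} {v w : Pl} (hv : v ≠ 0)
    (hw : w ≠ 0) (hf : Tendsto f l (𝓝 v)) (hg : Tendsto g l (𝓝 w)) :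
    Tendsto (fun a => |⟪S.X (f a), S.Y (g a)⟫_ℝ|) l (𝓝 |⟪S.X v, S.Y w⟫_ℝ|) := by
  obtain ⟨s, hs, h⟩ := S.exists_sign hv hf
  obtain ⟨s', hs', h'⟩ := S.swap.exists_sign hw hg
  refine (h.inner h').abs.congr fun a => ?_
  rw [inner_smul_right, real_inner_smul_left, abs_mul, abs_mul, abs_sign (hs a), abs_sign (hs' a),
    one_mul, one_mul]; rfl

lemma unif {α : Type*} [TopologicalSpace α] {K : Set α} (hK : IsCompact K) {z w : α → Pl}
    (hz : Continuous z) (hw : Continuous w) (h : ∀ a ∈ K, dt (z a) (w a) ≠ 0) :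
    ∃ δ : ℝ, 0 < δ ∧ ∀ a ∈ K, δ ≤ |⟪S.X (z a), S.Y (w a)⟫_ℝ| := by
  refine hK.exists_forall_le' (f := fun a => |⟪S.X (z a), S.Y (w a)⟫_ℝ|) (fun a ha => ?_)
    fun a ha => abs_pos.2 (S.trans (h a ha))
  exact (S.tendsto_abs_inner (ne_zero_of_dt_left (h a ha)) (ne_zero_of_dt_right (h a ha))
    (hz.tendsto a) (hw.tendsto a)).mono_left nhdsWithin_le_nhds

end Sys

end Pool.Agent.P.MP_39a2dc_an.H
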