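import Pool.Agent.P.MP_39a2dc_an.Pair

/-! The limit map of an Anosov system. -/

open scoped InnerProductSpace
open Filter Topology

namespace Pool.Agent.P.MP_39a2dc_an

lemma par_of_tendsto {α : Type*} {l : Filter α} [l.NeBot] {u : α → V} (hu : ∀ n, ‖u n‖ = 1)
    {x y : V} (hx : Tendsto (fun n => ‖cr (u n) x‖) l (𝓝 0))
    (hy : Tendsto (fun n => ‖cr (u n) y‖) l (𝓝 0)) : cr x y = 0 := by
  rw [← norm_le_zero_iff]
  have h : Tendsto (fun n => ‖cr (u n) x‖ * ‖y‖ + ‖x‖ * ‖cr (u n) y‖) l (𝓝 0) := by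
    simpa using (hx.mul_const ‖y‖).add (hy.const_mul ‖x‖)
  refine ge_of_tendsto' h fun n => ?_
  rw [norm_cr_comm (u n) x]; exact cr_triangle (hu n) x y

lemma tendsto_exp_zero {α : Type*} {l : Filter α} {t : α → ℝ} (ht : Tendsto t l atTop) {c : ℝ}
    (hc : 0 < c) (K : ℝ) : Tendsto (fun n => K * Real.exp (-(c * t n))) l (𝓝 0) := by
  simpa using (Real.tendsto_exp_neg_atTop_nhds_zero.comp (ht.const_mul_atTop hc)).const_mul K

lemma cr_map_le {w u : V} (hw : ‖w‖ = 1) (hu : ‖u‖ = 1) (M : V →L[ℝ] V) (x : V) :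
    ‖cr w (M x)‖ ≤ ‖cr w (M u)‖ * ‖x‖ + ‖M‖ * ‖cr u x‖ := by
  have h : M x = ⟪u, x⟫_ℝ • M u + M (x - ⟪u, x⟫_ℝ • u) := by rw [map_sub, map_smul]; abel
  rw [h, cr_add_right, cr_smul_right]
  refine (norm_add_le _ _).trans (add_le_add ?_ ?_)
  · rw [norm_smul, Real.norm_eq_abs, mul_comm]
    exact mul_le_mul_of_nonneg_left (abs_inner_le_norm_of_unit hu x) (norm_nonneg _)
  · refine (norm_cr_le _ _).trans ?_
    rw [hw, one_mul, ← norm_perp hu]; exact M.le_opNorm _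

namespace Sys
variable {Γ : Type*} [Group Γ] (S : Sys Γ)

noncomputable def tr (g : G) (n : ℕ) : Γ := (S.F.cocpt (g * D n)).choose
noncomputable def trk (g : G) (n : ℕ) : G := (S.F.cocpt (g * D n)).choose_spec.choose
lemma nn_trk (g : G) (n : ℕ) : nn (S.trk g n) ≤ S.F.R :=
  (S.F.cocpt (g * D n)).choose_spec.choose_spec.1
lemma r_tr (g : G) (n : ℕ) : S.F.r (S.tr g n) = g * D n * (S.trk g n)⁻¹ :=
  (S.F.cocpt (g * D n)).choose_spec.choose_spec.2

lemma exists_lim (T : ℝ) : ∃ K : ℝ, 0 < K ∧ ∀ g, nn g ≤ T → ∃ x : V, ‖x‖ = 1 ∧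
    ∀ n : ℕ, ‖cr (S.U (S.tr g n)) x‖ ≤ K * Real.exp (-(S.c * n)) := by
  obtain ⟨K1, hK1, h1⟩ := S.tau_le (max T S.F.R)
  obtain ⟨K2, hK2, h2⟩ := S.exists_bd (S.F.R * 6 * S.F.R)
  have hθ : Real.exp (-S.c) < 1 := Real.exp_lt_one_iff.2 (by linarith [S.cpos])
  refine ⟨K1 * (K2 * K2) / (1 - Real.exp (-S.c)), div_pos (by positivity) (by linarith),
    fun g hg => ?_⟩
  have he : ∀ n : ℕ, Real.exp (-(S.c * n)) = Real.exp (-S.c) ^ n := fun n => by
    rw [← Real.exp_nat_mul]; congr 1; ring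
  obtain ⟨x, hx, h⟩ := exists_limit (fun n => S.U (S.tr g n)) (fun n => S.norm_U _)
    (C := K1 * (K2 * K2)) (Real.exp_pos _).le hθ (fun n => by
      have e : S.tr g (n + 1) = S.tr g n * ((S.tr g n)⁻¹ * S.tr g (n + 1)) := by group
      have hb : nn (S.F.r ((S.tr g n)⁻¹ * S.tr g (n + 1))) ≤ S.F.R * 6 * S.F.R := by
        have : S.F.r ((S.tr g n)⁻¹ * S.tr g (n + 1)) = S.trk g n * D 1 * (S.trk g (n + 1))⁻¹ := by
          rw [map_mul, map_inv, r_tr, r_tr, Nat.cast_succ, D_add]; group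
        rw [this]
        exact nn_mul_le (nn_mul_le (S.nn_trk _ _) (nn_D_le (by simp)))
          (by rw [nn_inv]; exact S.nn_trk _ _)
      have ht := h1 _ g n _ ⟨S.r_tr g n, hg.trans (le_max_left _ _),
        (S.nn_trk g n).trans (le_max_right _ _), Nat.cast_nonneg n⟩
      obtain ⟨b1, b2⟩ := h2 _ hb
      rw [e]
      refine (S.near _ _).trans ?_
      rw [← he]
      calc _ ≤ K1 * Real.exp (-(S.c * n)) * (K2 * K2) := by gcongr
        _ = _ := by ring)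
  exact ⟨x, hx, fun n => by rw [he]; exact h n⟩

lemma exists_xi (g : G) : ∃ x : V, ‖x‖ = 1 ∧
    Tendsto (fun n : ℕ => ‖cr (S.U (S.tr g n)) x‖) atTop (𝓝 0) := by
  obtain ⟨K, -, h⟩ := S.exists_lim (nn g)
  obtain ⟨x, hx, h⟩ := h g le_rfl
  exact ⟨x, hx, squeeze_zero (fun _ => norm_nonneg _) h
    (tendsto_exp_zero tendsto_natCast_atTop_atTop S.cpos K)⟩

/-- The limit map, evaluated on a nonzero vector of the plane. -/
noncomputable def X (v : Pl) : V := (S.exists_xi (gv v)).choose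
lemma norm_X (v : Pl) : ‖S.X v‖ = 1 := (S.exists_xi (gv v)).choose_spec.1
lemma X_ne (v : Pl) : S.X v ≠ 0 := by
  intro h; simpa [h] using S.norm_X v
lemma tendsto_X (v : Pl) :
    Tendsto (fun n : ℕ => ‖cr (S.U (S.tr (gv v) n)) (S.X v)‖) atTop (𝓝 0) :=
  (S.exists_xi (gv v)).choose_spec.2

/-- The key estimate. -/
lemma key (T : ℝ) : ∃ K : ℝ, 0 < K ∧ ∀ γ g t h, S.Al T γ g t h →
    ‖cr (S.U γ) (S.X (act g e1))‖ ≤ K * Real.exp (-(S.c * t)) := by
  obtain ⟨K1, hK1, h1⟩ := S.tau_le T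
  obtain ⟨K2, hK2, h2⟩ := S.exists_bd (T * (3 * (T * (4 * T))) * S.F.R)
  obtain ⟨K3, hK3, h3⟩ := S.exists_lim (4 * T)
  refine ⟨K1 * (K2 * K2) + K3 * Real.exp S.c, by positivity, fun γ g t h H => ?_⟩
  obtain ⟨e, hg, hh, ht⟩ := id H
  set v := act g e1 with hv
  have hv0 : v ≠ 0 := act_ne_zero g e1_ne
  have hg0 : nn (gv v) ≤ 4 * T := (nn_gv_act g).trans (by linarith)
  obtain ⟨x, hx, hlim⟩ := h3 _ hg0
  have hpar : cr x (S.X v) = 0 := par_of_tendsto (fun n => S.norm_U _)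
    (squeeze_zero (fun _ => norm_nonneg _) hlim
      (tendsto_exp_zero tendsto_natCast_atTop_atTop S.cpos K3)) (S.tendsto_X v)
  set n := ⌊t⌋₊
  have hn1 : (n : ℝ) ≤ t := Nat.floor_le ht
  have hn2 : t ≤ n + 1 := (Nat.lt_floor_add_one t).le
  have hb : (g⁻¹ * gv v) 1 0 = 0 := by
    have : act (g⁻¹ * gv v) e1 = e1 := by rw [act_mul, act_gv hv0, hv, act_inv_act]
    simpa [act, e1] using congrArg Prod.snd this
  have hnn : nn (S.F.r (γ⁻¹ * S.tr (gv v) n)) ≤ T * (3 * (T * (4 * T))) * S.F.R := by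
    have : S.F.r (γ⁻¹ * S.tr (gv v) n) =
        h * ((D t)⁻¹ * (g⁻¹ * gv v) * D n) * (S.trk (gv v) n)⁻¹ := by
      rw [map_mul, map_inv, r_tr, e]; group
    rw [this]
    refine nn_mul_le (nn_mul_le hh ((nn_conj_upper hb (Nat.cast_nonneg n) hn1 hn2).trans ?_))
      (by rw [nn_inv]; exact S.nn_trk _ _)
    have := nn_mul_le (show nn g⁻¹ ≤ T by rwa [nn_inv]) hg0
    linarith
  obtain ⟨b1, b2⟩ := h2 _ hnn
  have a1 := S.near γ (γ⁻¹ * S.tr (gv v) n)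
  rw [mul_inv_cancel_left] at a1
  have a2 : ‖cr (S.U γ) (S.U (S.tr (gv v) n))‖ ≤ K1 * Real.exp (-(S.c * t)) * (K2 * K2) := by
    refine a1.trans ?_
    have := h1 γ g t h H
    gcongr
  have a3 : ‖cr (S.U (S.tr (gv v) n)) x‖ ≤ K3 * Real.exp S.c * Real.exp (-(S.c * t)) := by
    refine (hlim n).trans ?_
    rw [mul_assoc, ← Real.exp_add]
    refine mul_le_mul_of_nonneg_left (Real.exp_le_exp.2 ?_) hK3.le
    nlinarith [S.cpos]
  have a4 := cr_triangle' (S.norm_U γ) (S.norm_U (S.tr (gv v) n)) hx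
  have a5 := cr_triangle' (S.norm_U γ) hx (S.norm_X v)
  rw [hpar, norm_zero] at a5
  nlinarith

variable {S}
variable {g k : G} {f : ℕ → Γ} {kn : ℕ → G} {t : ℕ → ℝ}

lemma zoom_al (hz : Zoom S.F g k f kn t) :
    ∃ T, ∀ᶠ n in atTop, S.Al T (f n) g (t n) (kn n) := by
  refine ⟨max (nn g) (nn k + 1), ?_⟩
  filter_upwards [((continuous_nn.tendsto k).comp hz.2.1).eventually
    (gt_mem_nhds (lt_add_one (nn k))), hz.2.2.eventually_ge_atTop 0] with n h1 h2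
  exact ⟨hz.1 n, le_max_left _ _, (le_of_lt h1).trans (le_max_right _ _), h2⟩

lemma zoom_U (hz : Zoom S.F g k f kn t) :
    Tendsto (fun n => ‖cr (S.U (f n)) (S.X (act g e1))‖) atTop (𝓝 0) := by
  obtain ⟨T, hT⟩ := zoom_al hz
  obtain ⟨K, -, hK⟩ := S.key T
  exact squeeze_zero' (Eventually.of_forall fun _ => norm_nonneg _)
    (hT.mono fun n hn => hK _ _ _ _ hn) (tendsto_exp_zero hz.2.2 S.cpos K)

lemma zoom_τ (hz : Zoom S.F g k f kn t) : Tendsto (fun n => S.τ (f n)) atTop (𝓝 0) := by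
  obtain ⟨T, hT⟩ := zoom_al hz
  obtain ⟨K, -, hK⟩ := S.tau_le T
  exact squeeze_zero' (Eventually.of_forall fun _ => (S.τ_pos _).le)
    (hT.mono fun n hn => hK _ _ _ _ hn) (tendsto_exp_zero hz.2.2 S.cpos K)

variable (S)

lemma X_smul {c : ℝ} (hc : c ≠ 0) {v : Pl} (hv : v ≠ 0) : cr (S.X v) (S.X (c • v)) = 0 := by
  obtain ⟨k, f, kn, t, hz⟩ := S.F.exists_zoom (gv v)
  set m : G := MP_39a2dc_an.mk c 0 0 c⁻¹ (by field_simp; ring)
  have hm : ∀ s, m * D s = D s * m := fun s => by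
    apply gext <;> simp [m, D, mul_e] <;> ring
  have hz' : Zoom S.F (gv v * m) (k * m) f (fun n => kn n * m) t :=
    ⟨fun n => by rw [hz.1 n, mul_assoc (gv v) m, hm]; group, hz.2.1.mul_const _, hz.2.2⟩
  have h1 := zoom_U hz
  have h2 := zoom_U hz'
  have : act m e1 = c • e1 := by ext <;> simp [m, act, e1]
  rw [act_mul, this, act_smul] at h2
  rw [act_gv hv] at h1 h2
  exact par_of_tendsto (fun n => S.norm_U _) h1 h2

lemma X_act (γ : Γ) {v : Pl} (hv : v ≠ 0) :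
    cr (S.X (act (S.F.r γ) v)) (S.A γ (S.X v)) = 0 := by
  obtain ⟨k, f, kn, t, hz⟩ := S.F.exists_zoom (gv v)
  have hz' : Zoom S.F (S.F.r γ * gv v) k (fun n => γ * f n) kn t :=
    ⟨fun n => by rw [map_mul, hz.1 n]; group, hz.2.1, hz.2.2⟩
  have h1 := zoom_U hz
  have h2 := zoom_U hz'
  rw [act_mul] at h2
  rw [act_gv hv] at h1 h2
  refine par_of_tendsto (fun n => S.norm_U _) h2 ?_
  have h3 : Tendsto (fun n => S.τ (f n) * (‖S.B γ‖ * ‖S.B γ‖) * ‖S.X v‖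
      + ‖S.A γ‖ * ‖cr (S.U (f n)) (S.X v)‖) atTop (𝓝 0) := by
    simpa using (((zoom_τ hz).mul_const _).mul_const ‖S.X v‖).add (h1.const_mul ‖S.A γ‖)
  refine squeeze_zero (fun _ => norm_nonneg _) (fun n => ?_) h3
  refine (cr_map_le (S.norm_U _) (S.norm_U (f n)) _ _).trans ?_
  rw [norm_cr_comm (S.U (γ * f n))]
  have := S.near_left (f n) γ
  gcongr

lemma X_act_eq (γ : Γ) {v : Pl} (hv : v ≠ 0) :
    ∃ c : ℝ, c ≠ 0 ∧ S.A γ (S.X v) = c • S.X (act (S.F.r γ) v) := by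
  refine ⟨_, fun h => ?_, eq_smul_of_cr (S.norm_X _) (S.X_act γ hv)⟩
  have := eq_smul_of_cr (S.norm_X _) (S.X_act γ hv)
  rw [h, zero_smul] at this
  exact S.A_ne_zero γ (S.X_ne v) this

lemma X_smul_eq {c : ℝ} (hc : c ≠ 0) {v : Pl} (hv : v ≠ 0) :
    ∃ s : ℝ, (s = 1 ∨ s = -1) ∧ S.X (c • v) = s • S.X v := by
  obtain ⟨s, hs, h⟩ := exists_sign_close (S.norm_X v) (S.norm_X (c • v))
  rw [S.X_smul hc hv, norm_zero, mul_zero, norm_le_zero_iff, sub_eq_zero] at h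
  exact ⟨s, hs, h⟩

lemma X_cont {v : Pl} (hv : v ≠ 0) :
    Tendsto (fun w => ‖cr (S.X v) (S.X w)‖) (𝓝 v) (𝓝 0) := by
  set g := gv v
  obtain ⟨K, hK0, hK⟩ := S.key (max (nn g * 3) (S.F.R * 3))
  rw [NormedAddGroup.tendsto_nhds_zero]
  intro ε hε
  obtain ⟨n, hn⟩ := ((tendsto_exp_zero tendsto_natCast_atTop_atTop S.cpos K).eventually
    (gt_mem_nhds (half_pos hε))).exists
  have hl : Tendsto (fun w => gv (act g⁻¹ w)) (𝓝 v) (𝓝 1) := by
    have h1 : Tendsto (fun w => act g⁻¹ w) (𝓝 v) (𝓝 e1) := by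
      have := Tendsto.act (tendsto_const_nhds (x := g⁻¹)) (tendsto_id (x := 𝓝 v))
      rwa [show act g⁻¹ v = e1 by rw [← act_gv hv, act_inv_act]] at this
    simpa [gv_e1, Function.comp_def] using (continuousAt_gv e1_ne).tendsto.comp h1
  have hn1 : nn 1 < 3 := by simp [nn]; norm_num
  have hl2 : Tendsto (fun w => (D n)⁻¹ * gv (act g⁻¹ w) * D n) (𝓝 v) (𝓝 1) := by
    simpa using (hl.const_mul (D n)⁻¹).mul_const (D n)
  filter_upwards [((continuous_nn.tendsto 1).comp hl).eventually (gt_mem_nhds hn1),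
    ((continuous_nn.tendsto 1).comp hl2).eventually (gt_mem_nhds hn1),
    isOpen_ne.mem_nhds hv] with w h1 h2 hw
  have hg := nn_pos g
  have hR := S.F.one_le_R
  have a1 := hK _ g n _ ⟨S.r_tr g n, le_max_of_le_left (by linarith),
    le_max_of_le_right ((S.nn_trk g n).trans (by linarith)), Nat.cast_nonneg n⟩
  have a2 := hK (S.tr g n) (g * gv (act g⁻¹ w)) n
    (S.trk g n * ((D n)⁻¹ * gv (act g⁻¹ w) * D n))
    ⟨by rw [r_tr]; group, le_max_of_le_left (nn_mul_le le_rfl (le_of_lt h1)),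
      le_max_of_le_right (nn_mul_le (S.nn_trk g n) (le_of_lt h2)), Nat.cast_nonneg n⟩
  rw [act_mul, act_gv (act_ne_zero _ hw), act_act_inv] at a2
  rw [act_gv hv, norm_cr_comm] at a1
  have := cr_triangle' (S.norm_X v) (S.norm_U (S.tr g n)) (S.norm_X w)
  rw [norm_norm]
  linarith

lemma exists_sign {α : Type*} {l : Filter α} {f : α → Pl} {v : Pl} (hv : v ≠ 0)
    (hf : Tendsto f l (𝓝 v)) : ∃ s : α → ℝ, (∀ a, s a = 1 ∨ s a = -1) ∧
      Tendsto (fun a => s a • S.X (f a)) l (𝓝 (S.X v)) := by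
  choose s hs h using fun a => exists_sign_close (S.norm_X (f a)) (S.norm_X v)
  refine ⟨s, hs, ?_⟩
  rw [tendsto_iff_norm_sub_tendsto_zero]
  have h1 := ((S.X_cont hv).comp hf).const_mul 2
  rw [mul_zero] at h1
  refine squeeze_zero (fun _ => norm_nonneg _) (fun a => ?_) h1
  rw [norm_sub_rev, Function.comp, norm_cr_comm]; exact h a

/-- The dual limit map. -/
noncomputable def Y (v : Pl) : V := S.swap.X v
lemma norm_Y (v : Pl) : ‖S.Y v‖ = 1 := S.swap.norm_X v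

lemma incidence {v : Pl} (hv : v ≠ 0) : ⟪S.X v, S.Y v⟫_ℝ = 0 := by
  obtain ⟨k, f, kn, t, hz⟩ := S.F.exists_zoom (gv v)
  have h1 := zoom_U hz
  have h2 := zoom_U (S := S.swap) hz
  rw [act_gv hv] at h1 h2
  have h3 := (zoom_τ hz).mul (zoom_τ (S := S.swap) hz)
  have h4 := (h3.add h1).add h2
  simp only [mul_zero, add_zero] at h4
  rw [← abs_nonpos_iff]
  refine ge_of_tendsto' h4 fun n => ?_
  have a1 := abs_inner_le_of_cr (S.swap.norm_U (f n)) (S.norm_Y v) (S.X v)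
  have a2 := abs_inner_le_of_cr (S.norm_U (f n)) (S.norm_X v) (S.swap.U (f n))
  have a3 := S.incid (f n)
  rw [S.norm_X] at a1
  rw [S.swap.norm_U, real_inner_comm, real_inner_comm (S.U (f n))] at a2
  simp only [Y, swap_pair] at *
  linarith

/-- The key estimate for the top right singular direction. -/
lemma keyZ (T : ℝ) : ∃ K : ℝ, 0 < K ∧ ∀ γ g t h, S.Al T γ g t h →
    ‖cr (S.Z γ) (S.Y (act h e2))‖ ≤ K * Real.exp (-(S.c * t)) := by
  obtain ⟨K, hK0, hK⟩ := S.swap.key (T * 2)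
  refine ⟨K, hK0, fun γ g t h H => ?_⟩
  have := hK _ _ _ _ H.inv
  rwa [act_mul, act_W_e1] at this

end Sys

end Pool.Agent.P.MP_39a2dc_an
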