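import Pool.Agent.P.MP_39a2dc_an.Sign

/-! Zooming at a point of the limit curve; projections from a point of the curve are nowhere
monotone in the crossing case. -/

open scoped InnerProductSpace
open Filter Topology Set

namespace Pool.Agent.P.MP_39a2dc_an

lemma dini {U W M : ℝ → ℝ} (hU : Continuous U) (hW : Continuous W) (hM : Continuous M)
    (mono : MonotoneOn U (Icc 0 1))
    (h1 : ∀ t t', t < t' → 0 < W t' - W t - M t * (U t' - U t))
    (h2 : ∀ t t', t < t' → 0 < W t' - W t - M t' * (U t' - U t))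
    (hz : ∀ t ε δ : ℝ, 0 < ε → 0 < δ → ∃ s, 0 < s ∧ s < δ ∧
      |W (t + s) - W t - M t * (U (t + s) - U t)| ≤ ε * |U (t + s) - U t|) : False := by
  obtain ⟨t0, ht0, hmax⟩ := isCompact_Icc.exists_isMaxOn (nonempty_Icc.2 zero_le_one)
    (hM.continuousOn (s := Icc (0 : ℝ) 1))
  have claim : ∀ a b, 0 ≤ a → a ≤ b → b ≤ 1 → W b - W a ≤ M t0 * (U b - U a) := by
    intro a b ha hab hb
    have hab' : 0 ≤ U b - U a := sub_nonneg.2 (mono ⟨ha, hab.trans hb⟩ ⟨ha.trans hab, hb⟩ hab)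
    refine le_of_forall_pos_le_add fun ε hε => ?_
    set η := ε / (U b - U a + 1) with hη
    have hη0 : 0 < η := by positivity
    have hc : IsClosed ({t | W t - (M t0 + η) * U t ≤ W a - (M t0 + η) * U a} ∩ Icc a b) :=
      (isClosed_le (by fun_prop) continuous_const).inter isClosed_Icc
    have := hc.mem_of_ge_of_forall_exists_gt (show W a - _ ≤ _ from le_rfl) hab (by
      rintro x ⟨hx, hx1, hx2⟩
      obtain ⟨s, hs, hs', h⟩ := hz x η (b - x) hη0 (by linarith)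
      have m1 : 0 ≤ U (x + s) - U x := sub_nonneg.2
        (mono ⟨by linarith, by linarith⟩ ⟨by linarith, by linarith⟩ (by linarith))
      have m2 : M x ≤ M t0 := hmax ⟨by linarith, by linarith⟩
      rw [abs_of_nonneg m1] at h
      have h' := (le_abs_self _).trans h
      refine ⟨x + s, ?_, by linarith, by linarith⟩
      simp only [mem_ofPred_eq] at hx ⊢
      nlinarith)
    simp only [mem_ofPred_eq] at this
    have h3 : η * (U b - U a) ≤ ε := by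
      rw [hη, div_mul_eq_mul_div, div_le_iff₀ (by linarith)]; nlinarith
    linarith
  rcases ht0.2.eq_or_lt with h | h
  · have := claim 0 1 le_rfl zero_le_one le_rfl
    have := h2 0 1 one_pos
    rw [h] at *; linarith
  · have := claim t0 1 ht0.1 h.le le_rfl
    have := h1 t0 1 h
    linarith

lemma par_of_cr {u v : V} (hu : u ≠ 0) (h : cr u v = 0) : ∃ c : ℝ, v = c • u := by
  have hn := norm_ne_zero_iff.2 hu
  have h1 : ‖‖u‖⁻¹ • u‖ = 1 := by rw [norm_smul, norm_inv, norm_norm, inv_mul_cancel₀ hn]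
  have := eq_smul_of_cr h1 (v := v) (by rw [cr_smul_left, h, smul_zero])
  exact ⟨_, by rw [this, smul_smul]⟩

lemma parseval {y e : V} (hy : ‖y‖ = 1) (he : ‖e‖ = 1) (h : ⟪e, y⟫_ℝ = 0) (a b : V) :
    ⟪a, b⟫_ℝ = ⟪a, y⟫_ℝ * ⟪b, y⟫_ℝ + ⟪a, cr y e⟫_ℝ * ⟪b, cr y e⟫_ℝ + ⟪a, e⟫_ℝ * ⟪b, e⟫_ℝ := by
  have h1 : ⟪y, y⟫_ℝ = 1 := by rw [real_inner_self_eq_norm_sq, hy]; norm_num
  have h2 : ⟪e, e⟫_ℝ = 1 := by rw [real_inner_self_eq_norm_sq, he]; norm_num
  have g : ⟪a, cr y e⟫_ℝ * ⟪b, cr y e⟫_ℝ =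
      ⟪a, b⟫_ℝ * (⟪y, y⟫_ℝ * ⟪e, e⟫_ℝ - ⟪e, y⟫_ℝ * ⟪e, y⟫_ℝ)
      - ⟪a, y⟫_ℝ * (⟪b, y⟫_ℝ * ⟪e, e⟫_ℝ - ⟪e, y⟫_ℝ * ⟪b, e⟫_ℝ)
      + ⟪a, e⟫_ℝ * (⟪b, y⟫_ℝ * ⟪e, y⟫_ℝ - ⟪y, y⟫_ℝ * ⟪b, e⟫_ℝ) := by
    simp only [inner3, cr0, cr1, cr2]; ring
  rw [g, h1, h2, h]; ring

lemma inner_cr_frame {y e : V} (hy : ‖y‖ = 1) (h : ⟪e, y⟫_ℝ = 0) (a b : V) :
    ⟪cr a b, e⟫_ℝ = ⟪a, cr y e⟫_ℝ * ⟪b, y⟫_ℝ - ⟪a, y⟫_ℝ * ⟪b, cr y e⟫_ℝ := by
  have h1 : ⟪y, y⟫_ℝ = 1 := by rw [real_inner_self_eq_norm_sq, hy]; norm_num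
  have h2 : cr y (cr y e) = -e := by rw [cr_cr, h1, real_inner_comm, h]; simp
  have := inner_cr_cr a b y (cr y e)
  rw [h2, inner_neg_right] at this
  linarith

lemma arc_rep {h : G} {σ : ℝ} {u : Pl} (H : Arc h σ u) :
    ∃ c s : ℝ, c ≠ 0 ∧ 0 < s ∧ s < 1 ∧ u = c • act h (1, -s) := by
  obtain ⟨h1, h2⟩ := H
  have h3 : 0 < σ * (act h⁻¹ u).1 := by linarith
  have h4 : (act h⁻¹ u).1 ≠ 0 := by intro h0; simp [h0] at h3
  have h5 : σ ≠ 0 := by intro h0; simp [h0] at h3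
  have e : -(act h⁻¹ u).2 / (act h⁻¹ u).1 = -(σ * (act h⁻¹ u).2) / (σ * (act h⁻¹ u).1) := by
    field_simp
  refine ⟨(act h⁻¹ u).1, -(act h⁻¹ u).2 / (act h⁻¹ u).1, h4, ?_, ?_, ?_⟩
  · rw [e]; exact div_pos (by linarith) h3
  · rw [e, div_lt_one h3]; linarith
  · rw [← act_smul]
    conv_lhs => rw [← act_act_inv h u]
    congr 1
    ext
    · simp
    · simp; field_simp

lemma dt_act_one (h : G) (a b : ℝ) : dt (act h (1, a)) (act h (1, b)) = b - a := by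
  rw [dt_act]; simp [dt]
lemma dt_act_e2 (h : G) (a : ℝ) : dt (act h (1, a)) (act h e2) = 1 := by
  rw [dt_act]; simp [dt, e2]
lemma act_one_ne (h : G) (a : ℝ) : act h (1, a) ≠ 0 := act_ne_zero h (by simp)

namespace Sys
variable {Γ : Type*} [Group Γ] (S : Sys Γ)

/-- No invariant plane. -/
def Irr : Prop := ∀ ω : V, ω ≠ 0 → ∃ γ, cr ω (S.B γ ω) ≠ 0

variable {S}

lemma Irr.hfix (hI : S.Irr) : ∀ z : Pl, z ≠ 0 → ∃ γ, dt (act (S.F.r γ) z) z ≠ 0 := by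
  intro z hz
  obtain ⟨γ, hγ⟩ := hI (S.Y z) (S.swap.X_ne z)
  refine ⟨γ, fun h0 => hγ ?_⟩
  obtain ⟨c, hc⟩ := exists_smul_of_dt hz (show dt z (act (S.F.r γ) z) = 0 by
    rw [dt_comm, h0, neg_zero])
  have hc0 : c ≠ 0 := by rintro rfl; exact act_ne_zero _ hz (by simpa using hc)
  obtain ⟨a, -, e⟩ := S.swap.X_par γ hz hc0 hc
  have e' : S.B γ (S.Y z) = a • S.Y z := e
  rw [e', cr_smul_right, cr_self, smul_zero]

lemma Irr.not_coplanar (hI : S.Irr) (k : G) {ω : V} (hω : ω ≠ 0)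
    (h : ∀ s, 0 < s → s < 1 → ⟪S.X (act k (1, -s)), ω⟫_ℝ = 0) : False := by
  have n0 : cr (S.X e1) (S.X e2) ≠ 0 := S.cr_X_ne (by rw [dt_e1_e2]; exact one_ne_zero)
  have all : ∀ v, v ≠ 0 → ⟪S.X v, cr (S.X e1) (S.X e2)⟫_ℝ = 0 := by
    intro v hv
    obtain ⟨k', f, kn, t, hz, d0, d1, d2⟩ : ∃ k' f kn t, Zoom S.F (k * L (1 / 2)) k' f kn t ∧
        dt v (act k' e2) ≠ 0 ∧ dt e1 (act k' e2) ≠ 0 ∧ dt e2 (act k' e2) ≠ 0 := by
      obtain ⟨k1, f1, kn1, t1, σ1, z1, a1⟩ := S.F.exists_zoom_arc hI.hfix (k * L (1 / 2)) 1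
      obtain ⟨k2, f2, kn2, t2, σ2, z2, a2⟩ := S.F.exists_zoom_arc hI.hfix (k * L (1 / 2)) (L 1)
      obtain ⟨c1, s1, hc1, p1, q1, r1⟩ := arc_rep a1
      obtain ⟨c2, s2, hc2, p2, q2, r2⟩ := arc_rep a2
      rw [act_one] at r1
      rw [act_L] at r2
      by_cases hd : dt v (act k1 e2) = 0
      · refine ⟨k2, f2, kn2, t2, z2, fun hd' => ?_, ?_, ?_⟩
        · rw [r1, dt_smul_right] at hd
          rw [r2, dt_smul_right] at hd'
          have b1 := (mul_eq_zero.1 hd).resolve_left hc1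
          have b2 := (mul_eq_zero.1 hd').resolve_left hc2
          simp only [dt] at b1 b2
          have b3 : v.1 * (s2 + 1 - s1) = 0 := by linarith
          have b4 : v.1 = 0 := (mul_eq_zero.1 b3).resolve_right (by linarith)
          exact hv (Prod.ext b4 (by simpa [b4] using b1))
        · rw [r2, dt_smul_right]; refine mul_ne_zero hc2 ?_; simp only [dt, e1]; linarith
        · rw [r2, dt_smul_right]; refine mul_ne_zero hc2 ?_; simp [dt, e2]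
      · refine ⟨k1, f1, kn1, t1, z1, hd, ?_, ?_⟩
        · rw [r1, dt_smul_right]; refine mul_ne_zero hc1 ?_; simp only [dt, e1]; linarith
        · rw [r1, dt_smul_right]; refine mul_ne_zero hc1 ?_; simp [dt, e2]
    obtain ⟨n, ⟨a0, a1⟩, a2⟩ := (((hz.arc d0).and (hz.arc d1)).and (hz.arc d2)).exists
    have aux : ∀ u σ, Arc k σ (act (S.F.r (f n)) u) → ⟪S.X u, S.B (f n)⁻¹ ω⟫_ℝ = 0 := by
      intro u σ ha
      obtain ⟨c, s, hc, p, q, r⟩ := arc_rep ha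
      obtain ⟨a, -, e⟩ := S.X_par (f n) (act_one_ne _ _) hc r
      rw [← S.adj, e, real_inner_smul_left, h s p q, mul_zero]
    have hω' : S.B (f n)⁻¹ ω ≠ 0 := S.swap.A_ne_zero _ hω
    obtain ⟨c, hc⟩ := par_of_cr hω' (v := cr (S.X e1) (S.X e2)) (by
      rw [cr_cr, real_inner_comm, aux _ _ a2, real_inner_comm, aux _ _ a1]; simp)
    rw [hc, inner_smul_right, aux _ _ a0, mul_zero]
  obtain ⟨γ, hγ⟩ := hI _ n0
  apply hγ
  obtain ⟨a, -, ea⟩ := S.X_act_eq γ e1_ne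
  obtain ⟨b, -, eb⟩ := S.X_act_eq γ e2_ne
  rw [← S.crA, ea, eb, cr_smul_left, cr_smul_right, cr_smul_right, cr_smul_right, cr_cr,
    real_inner_comm, all _ (act_ne_zero _ e2_ne), real_inner_comm, all _ (act_ne_zero _ e1_ne)]
  simp

/-- Secants at a point of the curve cannot stay away from the dual line. -/
lemma Irr.zoom_point (hI : S.Irr) (g : G) {ψ : V} (hψ : cr ψ (S.Y (act g e1)) ≠ 0) {δ Λ : ℝ}
    (hδ : 0 < δ) (h : ∀ s, 0 < s → s < δ → ∃ a : ℝ, |a| ≤ Λ ∧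
      ⟪S.X (act g (1, -s)), ψ + a • S.Y (act g e1)⟫_ℝ = 0) : False := by
  obtain ⟨k, f0, kn0, t0, hz0⟩ := S.F.exists_zoom g
  have hψ0 : ψ ≠ 0 := by
    rintro rfl; apply hψ; simpa using cr_smul_left 0 0 (S.Y (act g e1))
  have hne : ∀ γ, S.B γ ψ ≠ 0 := fun γ => S.swap.A_ne_zero γ hψ0
  have hmem : ∀ n, ‖S.B (f0 n)⁻¹ ψ‖⁻¹ • S.B (f0 n)⁻¹ ψ ∈ Metric.sphere (0 : V) 1 := fun n => by
    simp [norm_smul, inv_mul_cancel₀ (norm_ne_zero_iff.2 (hne _))]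
  obtain ⟨ω, hω, φ, hφ, hlim⟩ := (isCompact_sphere (0 : V) 1).tendsto_subseq hmem
  have hz : Zoom S.F g k (f0 ∘ φ) (kn0 ∘ φ) (t0 ∘ φ) :=
    ⟨fun n => hz0.1 _, hz0.2.1.comp hφ.tendsto_atTop, hz0.2.2.comp hφ.tendsto_atTop⟩
  set f := f0 ∘ φ
  set kn := kn0 ∘ φ
  set t := t0 ∘ φ
  have hlim' : Tendsto (fun n => ‖S.B (f n)⁻¹ ψ‖⁻¹ • S.B (f n)⁻¹ ψ) atTop (𝓝 ω) := hlim
  set y := S.Y (act g e1) with hy
  set δ0 := |⟪S.X (act k e2), S.Y (act k e1)⟫_ℝ| with hδ0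
  have δpos : 0 < δ0 := abs_pos.2 (S.trans (by rw [dt_act, dt_comm, dt_e1_e2]; norm_num))
  have c0 := norm_pos_iff.2 hψ
  have ratio : Tendsto (fun n => ‖S.B (f n)⁻¹ ψ‖⁻¹ * ‖S.B (f n)⁻¹ y‖) atTop (𝓝 0) := by
    have l1 := S.tendsto_abs_inner (act_ne_zero k e2_ne) (act_ne_zero k e1_ne)
      (tendsto_const_nhds (x := act k e2)) (Tendsto.act hz.2.1 (tendsto_const_nhds (x := e1)))
    have l2 := zoom_Z (S := S.swap) hz
    have l3 := l1.sub l2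
    rw [sub_zero] at l3
    have l4 := (zoom_τ (S := S.swap) hz).mul_const (4 / (‖cr ψ y‖ * δ0 ^ 2))
    rw [zero_mul] at l4
    refine squeeze_zero' (Eventually.of_forall fun _ => by positivity) ?_ l4
    filter_upwards [l3.eventually (lt_mem_nhds (half_lt_self δpos))] with n hn
    obtain ⟨b, hb, eb⟩ := S.swap.X_par (f n) (v := act (kn n) e1) (act_ne_zero g e1_ne)
      (Real.exp_pos (t n)).ne' (by
        rw [swap_F, hz.1 n, act_mul, act_mul, act_inv_act, act_D, ← act_smul]; simp [e1])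
    have eb' : S.B (f n) (S.Y (act (kn n) e1)) = b • y := eb
    have a1 := S.swap.lower (f n) (S.Y (act (kn n) e1))
    have a2 := abs_inner_le_of_cr (S.swap.norm_Z (f n)) (S.norm_X (act k e2))
      (S.Y (act (kn n) e1))
    rw [S.norm_Y, mul_one, real_inner_comm] at a2
    have a3 : δ0 / 2 ≤ |⟪S.Y (act (kn n) e1), S.swap.Z (f n)⟫_ℝ| := by
      have : ‖cr (S.swap.Z (f n)) (S.swap.Y (act k e2))‖ =
        ‖cr (S.swap.Z (f n)) (S.X (act k e2))‖ := rfl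
      linarith
    have p1 := S.A_pos (f n); have p2 := S.B_pos (f n)
    have a4 : δ0 / 2 * ‖S.B (f n)‖ ≤ |b| := by
      have : ‖S.swap.A (f n) (S.Y (act (kn n) e1))‖ = |b| := by
        change ‖S.B (f n) (S.Y (act (kn n) e1))‖ = _
        rw [eb', norm_smul, hy, S.norm_Y, mul_one, Real.norm_eq_abs]
      rw [← this]
      exact (mul_le_mul_of_nonneg_right a3 p2.le).trans a1
    have a5 : ‖S.B (f n)⁻¹ y‖ = |b|⁻¹ := by
      have : S.B (f n)⁻¹ y = b⁻¹ • S.Y (act (kn n) e1) := by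
        rw [← S.B_inv_B (f n) (S.Y (act (kn n) e1)), eb', map_smul, smul_smul,
          inv_mul_cancel₀ hb, one_smul]
      rw [this, norm_smul, S.norm_Y, mul_one, norm_inv, Real.norm_eq_abs]
    have a6 := S.swap.cr_A_le (f n) (S.B (f n)⁻¹ ψ) (S.B (f n)⁻¹ y)
    simp only [swap_pair, Pair.swap_A, Pair.swap_B, S.B_B_inv] at a6
    have p3 := norm_pos_iff.2 (hne (f n)⁻¹)
    have p4 := abs_pos.2 hb
    have a7 : ‖S.B (f n)⁻¹ ψ‖⁻¹ ≤ ‖S.A (f n)‖ * |b|⁻¹ / ‖cr ψ y‖ := by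
      rw [inv_le_iff_one_le_mul₀ p3, div_mul_eq_mul_div, one_le_div c0]
      rw [a5] at a6; linarith
    have a8 : |b|⁻¹ ≤ (δ0 / 2 * ‖S.B (f n)‖)⁻¹ := inv_anti₀ (by positivity) a4
    rw [a5]
    calc _ ≤ ‖S.A (f n)‖ * (δ0 / 2 * ‖S.B (f n)‖)⁻¹ / ‖cr ψ y‖ * (δ0 / 2 * ‖S.B (f n)‖)⁻¹ := by
          refine mul_le_mul (a7.trans ?_) a8 (by positivity) (by positivity)
          gcongr
      _ = _ := by
          simp only [Pair.τ, swap_pair, Pair.swap_A, Pair.swap_B]; field_simp; norm_num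
  refine hI.not_coplanar k (ω := ω) (by rintro rfl; simp at hω) fun s hs _ => ?_
  obtain ⟨c, β, hβ, he⟩ := hz.act_eq (v := act k (1, -s)) (by rw [dt_act_e2]; exact one_ne_zero)
  have l5 := (Filter.Tendsto.inner (𝕜 := ℝ) (tendsto_const_nhds (x := S.X (act k (1, -s)))) hlim').abs
  have l6 := ratio.const_mul Λ
  rw [mul_zero] at l6
  rw [← abs_nonpos_iff]
  refine le_of_tendsto_of_tendsto l5 l6 ?_
  filter_upwards [he, hβ.eventually (lt_mem_nhds (show -δ < 0 by linarith))] with n hn hn'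
  obtain ⟨e, hc, hneg⟩ := hn
  have hb := hneg (by rw [act_inv_act]; simpa using hs)
  have hc0 : c n ≠ 0 := by intro h0; simp [h0] at hc
  obtain ⟨a, ha, h0⟩ := h (-β n) (by linarith) (by linarith)
  rw [neg_neg] at h0
  obtain ⟨a', -, e'⟩ := S.X_par (f n) (act_one_ne g (β n)) hc0 e
  have h1 : ⟪S.X (act k (1, -s)), S.B (f n)⁻¹ (ψ + a • y)⟫_ℝ = 0 := by
    rw [← S.adj, e', real_inner_smul_left, h0, mul_zero]
  rw [map_add, map_smul, inner_add_right, inner_smul_right] at h1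
  have h2 := abs_inner_le_norm_of_unit (S.norm_X (act k (1, -s))) (S.B (f n)⁻¹ y)
  rw [inner_smul_right, abs_mul, abs_inv, abs_norm, eq_neg_of_add_eq_zero_left h1, abs_neg,
    abs_mul, mul_left_comm]
  exact mul_le_mul ha (by gcongr) (by positivity) ((abs_nonneg a).trans ha)

variable (S)

lemma cont_lift {f : ℝ → Pl} (hf : Continuous f) (hf0 : ∀ t, f t ≠ 0) {φ : V}
    (h : ∀ t, ⟪S.X (f t), φ⟫_ℝ ≠ 0) : Continuous fun t => (⟪S.X (f t), φ⟫_ℝ)⁻¹ • S.X (f t) := by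
  refine continuous_iff_continuousAt.2 fun t => ?_
  obtain ⟨s, hs, l⟩ := S.exists_sign (hf0 t) (hf.tendsto t)
  refine (((l.inner tendsto_const_nhds).inv₀ (h t)).smul l).congr fun a => ?_
  have : s a ≠ 0 := by rcases hs a with h | h <;> simp [h]
  rw [real_inner_smul_left, smul_smul]
  congr 1; field_simp

/-- Distance between two points of an arc after projection from the point at infinity. -/
noncomputable def Dd (h : G) (t t' : ℝ) : ℝ :=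
  |⟪cr (S.X (act h (1, -t))) (S.X (act h (1, -t'))), S.X (act h e2)⟫_ℝ| /
    (|⟪S.X (act h (1, -t)), S.Y (act h e2)⟫_ℝ| * |⟪S.X (act h (1, -t')), S.Y (act h e2)⟫_ℝ|)

variable {S}

lemma Irr.nonmono (hI : S.Irr) (hP : ¬ S.Pos) (h : G) : ∃ t1 t2 : ℝ, 0 ≤ t1 ∧ t1 ≤ t2 ∧ t2 ≤ 1 ∧
    S.Dd h 0 1 < S.Dd h 0 t1 + S.Dd h t1 t2 + S.Dd h t2 1 := by
  set e := S.X (act h e2) with he
  set y := S.Y (act h e2) with hy
  set z : ℝ → Pl := fun t => act h (1, -t) with hz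
  have zc : Continuous z := by simp only [hz]; fun_prop
  have z0 : ∀ t, z t ≠ 0 := fun t => act_one_ne _ _
  have ey : ⟪e, y⟫_ℝ = 0 := S.incidence (act_ne_zero h e2_ne)
  have t1 : ∀ t, ⟪S.X (z t), y⟫_ℝ ≠ 0 := fun t => S.trans (by rw [dt_act_e2]; exact one_ne_zero)
  have t2 : ∀ t, ⟪S.Y (z t), e⟫_ℝ ≠ 0 := fun t => by
    rw [real_inner_comm]; exact S.trans (by rw [dt_comm, dt_act_e2]; norm_num)
  set u : ℝ → V := fun t => (⟪S.X (z t), y⟫_ℝ)⁻¹ • S.X (z t) with hu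
  set n : ℝ → V := fun t => (⟪S.Y (z t), e⟫_ℝ)⁻¹ • S.Y (z t) with hn
  have uc : Continuous u := S.cont_lift zc z0 t1
  have nc : Continuous n := S.swap.cont_lift zc z0 t2
  have uy : ∀ t, ⟪u t, y⟫_ℝ = 1 := fun t => by
    simp only [hu, real_inner_smul_left]; exact inv_mul_cancel₀ (t1 t)
  have ne : ∀ t, ⟪n t, e⟫_ℝ = 1 := fun t => by
    simp only [hn, real_inner_smul_left]; exact inv_mul_cancel₀ (t2 t)
  have un : ∀ t t', ⟪u t', n t⟫_ℝ =
      (⟪S.X (z t'), y⟫_ℝ)⁻¹ * (⟪S.Y (z t), e⟫_ℝ)⁻¹ * ⟪S.X (z t'), S.Y (z t)⟫_ℝ := fun t t' => by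
    simp only [hu, hn, real_inner_smul_left, inner_smul_right]; ring
  set U : ℝ → ℝ := fun t => ⟪u t, cr y e⟫_ℝ with hU
  set Wf : ℝ → ℝ := fun t => ⟪u t, e⟫_ℝ with hW
  set M : ℝ → ℝ := fun t => -⟪n t, cr y e⟫_ℝ with hM
  have Gf : ∀ t t', ⟪u t', n t⟫_ℝ = Wf t' - Wf t - M t * (U t' - U t) := fun t t' => by
    have a1 := parseval (S.norm_Y _) (S.norm_X _) ey (u t') (n t)
    have a2 := parseval (S.norm_Y _) (S.norm_X _) ey (u t) (n t)
    rw [un, S.incidence (z0 t), mul_zero] at a2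
    rw [← he, ← hy, uy, ne] at a1 a2
    simp only [hU, hW, hM]; linarith
  have crU : ∀ t t', ⟪cr (u t) (u t'), e⟫_ℝ = U t - U t' := fun t t' => by
    rw [inner_cr_frame (S.norm_Y _) ey, ← hy, uy, uy]; simp only [hU]; ring
  have DU : ∀ t t', S.Dd h t t' = |U t - U t'| := fun t t' => by
    rw [← crU]
    simp only [hu, cr_smul_left, cr_smul_right, real_inner_smul_left, abs_mul, abs_inv]
    change |⟪cr (S.X (z t)) (S.X (z t')), e⟫_ℝ| / (|⟪S.X (z t), y⟫_ℝ| * |⟪S.X (z t'), y⟫_ℝ|) = _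
    rw [div_eq_mul_inv, mul_inv]; ring
  have Gne : ∀ t t', t ≠ t' → ⟪u t', n t⟫_ℝ ≠ 0 := fun t t' htt => by
    rw [un]
    refine mul_ne_zero (mul_ne_zero (inv_ne_zero (t1 _)) (inv_ne_zero (t2 _))) (S.trans ?_)
    rw [dt_act_one]; intro h0; apply htt; linarith
  have Gneg : ∀ a t b, a < t → t < b → ⟪u a, n t⟫_ℝ * ⟪u b, n t⟫_ℝ < 0 := fun a t b h1 h2 => by
    by_contra hc
    have hc' := lt_of_le_of_ne (not_lt.1 hc) (mul_ne_zero (Gne t a h1.ne') (Gne t b h2.ne)).symm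
    refine hP (S.pos_of_linked h h1 h2 ?_)
    have : S.Φ (z a) (z b) (z t) (act h e2) = ⟪u a, n t⟫_ℝ * ⟪u b, n t⟫_ℝ *
        (⟪S.X (z a), y⟫_ℝ * ⟪S.X (z b), y⟫_ℝ * ⟪S.Y (z t), e⟫_ℝ) ^ 2 := by
      rw [un, un]; simp only [Φ, ← hy]
      have := t1 a; have := t1 b; have := t2 t
      field_simp
    change 0 < S.Φ (z a) (z b) (z t) (act h e2)
    rw [this]
    exact mul_pos hc' (sq_pos_of_ne_zero (mul_ne_zero (mul_ne_zero (t1 a) (t1 b)) (t2 t)))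
  obtain ⟨σ, hσ, hσ'⟩ : ∃ σ : ℝ, (σ = 1 ∨ σ = -1) ∧ ∀ t t', t < t' → 0 < σ * ⟪u t', n t⟫_ℝ := by
    have conv : Convex ℝ {p : ℝ × ℝ | p.1 < p.2} := by
      intro x hx y hy s t hs ht hst
      simp only [Set.mem_ofPred_eq, smul_eq_mul, Prod.fst_add, Prod.snd_add, Prod.smul_fst,
        Prod.smul_snd] at *
      rcases hs.eq_or_lt with rfl | hs'
      · simp only [zero_add] at hst; subst hst; simpa using hy
      · nlinarith [mul_pos hs' (sub_pos.2 hx), mul_nonneg ht (sub_pos.2 hy).le]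
    have aux : ∀ σ : ℝ, σ ≠ 0 → 0 < σ * ⟪u 1, n 0⟫_ℝ → ∀ t t', t < t' → 0 < σ * ⟪u t', n t⟫_ℝ :=
      fun σ h0 hp t t' htt => pos_of_preconn conv.isPreconnected
        (f := fun p : ℝ × ℝ => σ * ⟪u p.2, n p.1⟫_ℝ) (Continuous.continuousOn (by fun_prop))
        (fun p hp => mul_ne_zero h0 (Gne _ _ (ne_of_lt hp))) (a := (0, 1))
        (show (0 : ℝ) < 1 from one_pos) hp (t, t') htt
    rcases lt_or_gt_of_ne (Gne 0 1 zero_ne_one) with h0 | h0
    · exact ⟨-1, Or.inr rfl, aux _ (by norm_num) (by linarith)⟩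
    · exact ⟨1, Or.inl rfl, aux _ (by norm_num) (by linarith)⟩
  have hσ'' : ∀ t t', t < t' → σ * ⟪u t, n t'⟫_ℝ < 0 := fun t t' htt => by
    have a1 := Gneg t t' (t' + 1) htt (by linarith)
    have a2 := hσ' t' (t' + 1) (by linarith)
    by_contra hc
    have := sign_sq hσ
    nlinarith [mul_nonneg (not_lt.1 hc) a2.le]
  have Z : ∀ t ε δ : ℝ, 0 < ε → 0 < δ → ∃ s, 0 < s ∧ s < δ ∧
      |⟪u (t + s), n t⟫_ℝ| ≤ ε * |U (t + s) - U t| := by
    intro t ε δ hε hδ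
    by_contra hc
    push Not at hc
    have g1 : act (h * L t) e1 = z t := by rw [act_mul, act_L]; simp [hz, e1]
    have g2 : ∀ s, act (h * L t) (1, -s) = z (t + s) := fun s => by
      rw [act_mul, act_L]; simp only [hz]; congr 2; ring
    refine hI.zoom_point (h * L t) (ψ := cr (u t) e) ?_ hδ (Λ := ε⁻¹ * |(⟪S.Y (z t), e⟫_ℝ)⁻¹|)
      fun s hs hs' => ?_
    · rw [g1, cr_comm, cr_cr, neg_ne_zero]
      have : ⟪S.Y (z t), u t⟫_ℝ = 0 := by
        simp only [hu, inner_smul_right]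
        rw [real_inner_comm (S.X (z t)), S.incidence (z0 t), mul_zero]
      rw [this, zero_smul, sub_zero]
      exact smul_ne_zero (t2 t) (smul_ne_zero (inv_ne_zero (t1 t)) (S.X_ne _))
    · have G0 := Gne t (t + s) (by linarith)
      refine ⟨(U t - U (t + s)) / ⟪u (t + s), n t⟫_ℝ * (⟪S.Y (z t), e⟫_ℝ)⁻¹, ?_, ?_⟩
      · rw [abs_mul, abs_div]
        refine mul_le_mul_of_nonneg_right ?_ (abs_nonneg _)
        rw [div_le_iff₀ (abs_pos.2 G0), abs_sub_comm, inv_mul_eq_div, le_div_iff₀ hε]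
        linarith [hc s hs hs']
      · rw [g1, g2, ← smul_smul]
        have a1 : ⟪u (t + s), cr (u t) e
            + ((U t - U (t + s)) / ⟪u (t + s), n t⟫_ℝ) • n t⟫_ℝ = 0 := by
          rw [inner_add_right, inner_smul_right, div_mul_cancel₀ _ G0, real_inner_comm,
            ← inner_cr_cyc, crU]; ring
        have a2 := fun w : V => real_inner_smul_left (S.X (z (t + s))) w (⟪S.X (z (t + s)), y⟫_ℝ)⁻¹
        exact (mul_eq_zero.1 ((a2 _).symm.trans a1)).resolve_left (inv_ne_zero (t1 _))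
  by_contra hc
  push Not at hc
  simp only [DU] at hc
  obtain ⟨ρ, hρ, mono⟩ : ∃ ρ : ℝ, (ρ = 1 ∨ ρ = -1) ∧ MonotoneOn (fun t => ρ * U t) (Icc 0 1) := by
    rcases le_total (U 0) (U 1) with h0 | h0
    · refine ⟨1, Or.inl rfl, fun a ha b hb hab => ?_⟩
      have := hc a b ha.1 hab hb.2
      rw [abs_of_nonpos (sub_nonpos.2 h0)] at this
      have := neg_abs_le (U 0 - U a); have := le_abs_self (U a - U b)
      have := neg_abs_le (U b - U 1)
      simp only; linarith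
    · refine ⟨-1, Or.inr rfl, fun a ha b hb hab => ?_⟩
      have := hc a b ha.1 hab hb.2
      rw [abs_of_nonneg (sub_nonneg.2 h0)] at this
      have := le_abs_self (U 0 - U a); have := neg_abs_le (U a - U b)
      have := le_abs_self (U b - U 1)
      simp only; linarith
  have q := sign_sq hρ
  have id1 : ∀ t t' m : ℝ, σ * Wf t' - σ * Wf t - σ * ρ * m * (ρ * U t' - ρ * U t) =
      σ * (Wf t' - Wf t - m * (U t' - U t)) := fun t t' m => by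
    linear_combination (-σ * m * (U t' - U t)) * q
  refine dini (U := fun t => ρ * U t) (W := fun t => σ * Wf t) (M := fun t => σ * ρ * M t)
    (by simp only [hU]; fun_prop) (by simp only [hW]; fun_prop) (by simp only [hM]; fun_prop)
    mono (fun t t' htt => ?_) (fun t t' htt => ?_) (fun t ε δ hε hδ => ?_)
  · rw [id1, ← Gf]; exact hσ' t t' htt
  · have := hσ'' t t' htt
    rw [Gf] at this
    rw [id1]; linarith
  · obtain ⟨s, hs, hs', H⟩ := Z t ε δ hε hδ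
    refine ⟨s, hs, hs', ?_⟩
    rw [id1, ← Gf, ← mul_sub, abs_mul, abs_mul, abs_sign hσ, abs_sign hρ, one_mul, one_mul]
    exact H

end Sys

end Pool.Agent.P.MP_39a2dc_an
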