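import Pool.Agent.P.MP_39a2dc_an.Trans

/-! The sign of the cross ratio, and eigenvalues. -/

open scoped InnerProductSpace
open Filter Topology

namespace Pool.Agent.P.MP_39a2dc_an

lemma pos_of_preconn {α : Type*} [TopologicalSpace α] {s : Set α} (hs : IsPreconnected s)
    {f : α → ℝ} (hf : ContinuousOn f s) (h0 : ∀ x ∈ s, f x ≠ 0) {a : α} (ha : a ∈ s)
    (hp : 0 < f a) : ∀ x ∈ s, 0 < f x := by
  intro x hx
  by_contra hc
  obtain ⟨y, hy, e⟩ := hs.intermediate_value hx ha hf ⟨not_lt.1 hc, hp.le⟩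
  exact h0 y hy e

lemma exists_avoid {a b c : Pl} (ha : a ≠ 0) (hb : b ≠ 0) (hc : c ≠ 0) :
    ∃ w : Pl, dt a w ≠ 0 ∧ dt b w ≠ 0 ∧ dt c w ≠ 0 := by
  have fin : ∀ a : Pl, a ≠ 0 → {x : ℝ | dt a (1, x) = 0}.Finite := by
    intro a ha
    refine Set.Subsingleton.finite fun x hx y hy => ?_
    simp only [Set.mem_ofPred_eq, dt] at hx hy
    by_contra hne
    have h1 : a.1 * (x - y) = 0 := by linarith
    have h2 : a.1 = 0 := (mul_eq_zero.1 h1).resolve_right (sub_ne_zero.2 hne)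
    exact ha (Prod.ext h2 (by simpa [h2] using hx))
  obtain ⟨x, hx⟩ := (((fin a ha).union (fin b hb)).union (fin c hc)).exists_notMem
  simp only [Set.mem_union, Set.mem_ofPred_eq, not_or] at hx
  exact ⟨(1, x), hx.1.1, hx.1.2, hx.2⟩

/-- Affine chart on the complement of the direction `w`. -/
def pp (w : Pl) (a : ℝ) : Pl := (w.2 - a * w.1, -w.1 - a * w.2)
lemma dt_pp (w : Pl) (a : ℝ) : dt (pp w a) w = w.1 ^ 2 + w.2 ^ 2 := by simp [dt, pp]; ring
lemma dt_pp_pp (w : Pl) (a c : ℝ) : dt (pp w a) (pp w c) = (a - c) * (w.1 ^ 2 + w.2 ^ 2) := by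
  simp [dt, pp]; ring
lemma exists_pp {v w : Pl} (h : dt v w ≠ 0) : ∃ α a : ℝ, α ≠ 0 ∧ v = α • pp w a := by
  have hs := (sq_pos_of_ne (ne_zero_of_dt_right h)).ne'
  refine ⟨dt v w / (w.1 ^ 2 + w.2 ^ 2), -(v.1 * w.1 + v.2 * w.2) / dt v w, div_ne_zero h hs, ?_⟩
  ext <;> simp only [pp, Prod.smul_fst, Prod.smul_snd, smul_eq_mul] <;> field_simp <;>
    simp only [dt] <;> ring

lemma act_ext {a b g : G} (h1 : act a (act g e1) = act b (act g e1))
    (h2 : act a (act g e2) = act b (act g e2)) : a = b := by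
  rw [← act_mul, ← act_mul] at h1 h2
  have : a * g = b * g := by
    simp only [act, e1, e2, mul_one, mul_zero, add_zero, zero_add, Prod.mk.injEq] at h1 h2
    exact gext h1.1 h2.1 h1.2 h2.2
  exact mul_right_cancel this

lemma r_sq_pow {a g : G} {t σ : ℝ} (hσ : σ = 1 ∨ σ = -1)
    (h1 : act a (act g e1) = (σ * Real.exp t) • act g e1)
    (h2 : act a (act g e2) = (σ * Real.exp (-t)) • act g e2) (n : ℕ) :
    (a * a) ^ n = g * D (2 * t * n) * g⁻¹ := by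
  have q : σ * σ = 1 := by rcases hσ with rfl | rfl <;> norm_num
  have e : a * a = g * D (2 * t) * g⁻¹ := by
    refine act_ext (g := g) ?_ ?_
    · rw [act_mul, h1, act_smul, h1, smul_smul, act_mul, act_mul, act_inv_act, act_D,
        ← act_smul]
      congr 1
      have : Real.exp (2 * t) = Real.exp t * Real.exp t := by rw [← Real.exp_add]; congr 1; ring
      ext <;> simp [e1, this]; linear_combination (Real.exp t * Real.exp t) * q
    · rw [act_mul, h2, act_smul, h2, smul_smul, act_mul, act_mul, act_inv_act, act_D,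
        ← act_smul]
      congr 1
      have : Real.exp (-(2 * t)) = Real.exp (-t) * Real.exp (-t) := by
        rw [← Real.exp_add]; congr 1; ring
      ext <;> simp [e2, this]; linear_combination (Real.exp (-t) * Real.exp (-t)) * q
  induction n with
  | zero => simp [D_zero]
  | succ n ih =>
    rw [pow_succ, ih, e]; push_cast
    rw [mul_add, mul_one, D_add]; group

namespace Sys
variable {Γ : Type*} [Group Γ] (S : Sys Γ)

noncomputable def Φ (v v' w w' : Pl) : ℝ :=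
  ⟪S.X v, S.Y w⟫_ℝ * ⟪S.X v', S.Y w'⟫_ℝ * ⟪S.X v, S.Y w'⟫_ℝ * ⟪S.X v', S.Y w⟫_ℝ

def Pos : Prop :=
  ∀ v v' w w', dt v w ≠ 0 → dt v w' ≠ 0 → dt v' w ≠ 0 → dt v' w' ≠ 0 → 0 < S.Φ v v' w w'

lemma sign_sq {s : ℝ} (hs : s = 1 ∨ s = -1) : s * s = 1 := by
  rcases hs with rfl | rfl <;> norm_num

lemma Φ_smul {a b c : ℝ} (ha : a ≠ 0) (hb : b ≠ 0) (hc : c ≠ 0) {v v' w : Pl} (hv : v ≠ 0)
    (hv' : v' ≠ 0) (hw : w ≠ 0) (w' : Pl) : S.Φ (a • v) (b • v') (c • w) w' = S.Φ v v' w w' := by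
  obtain ⟨s1, h1, e1⟩ := S.X_smul_eq ha hv
  obtain ⟨s2, h2, e2⟩ := S.X_smul_eq hb hv'
  obtain ⟨s3, h3, e3⟩ := S.swap.X_smul_eq hc hw
  have e3' : S.Y (c • w) = s3 • S.Y w := e3
  simp only [Φ, e1, e2, e3', inner_smul_right, real_inner_smul_left]
  have := sign_sq h1; have := sign_sq h2; have := sign_sq h3
  grind

lemma Φ_ne {v v' w w' : Pl} (h1 : dt v w ≠ 0) (h2 : dt v w' ≠ 0) (h3 : dt v' w ≠ 0)
    (h4 : dt v' w' ≠ 0) : S.Φ v v' w w' ≠ 0 :=
  mul_ne_zero (mul_ne_zero (mul_ne_zero (S.trans h1) (S.trans h4)) (S.trans h2)) (S.trans h3)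

lemma tendsto_Φ {α : Type*} {l : Filter α} {f f' g g' : α → Pl} {v v' w w' : Pl} (hv : v ≠ 0)
    (hv' : v' ≠ 0) (hw : w ≠ 0) (hw' : w' ≠ 0) (hf : Tendsto f l (𝓝 v))
    (hf' : Tendsto f' l (𝓝 v')) (hg : Tendsto g l (𝓝 w)) (hg' : Tendsto g' l (𝓝 w')) :
    Tendsto (fun a => S.Φ (f a) (f' a) (g a) (g' a)) l (𝓝 (S.Φ v v' w w')) := by
  obtain ⟨s1, h1, t1⟩ := S.exists_sign hv hf
  obtain ⟨s2, h2, t2⟩ := S.exists_sign hv' hf'
  obtain ⟨s3, h3, t3⟩ := S.swap.exists_sign hw hg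
  obtain ⟨s4, h4, t4⟩ := S.swap.exists_sign hw' hg'
  refine ((((t1.inner t3).mul (t2.inner t4)).mul (t1.inner t4)).mul (t2.inner t3)).congr
    fun a => ?_
  simp only [Φ, Y, inner_smul_right, real_inner_smul_left]
  have := sign_sq (h1 a); have := sign_sq (h2 a); have := sign_sq (h3 a); have := sign_sq (h4 a)
  grind

lemma pp_ne {w : Pl} (hw : w ≠ 0) (a : ℝ) : pp w a ≠ 0 :=
  ne_zero_of_dt_left (w := w) (by rw [dt_pp]; exact (sq_pos_of_ne hw).ne')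

lemma contOn_Ψ : ContinuousOn
    (fun x : Pl × ℝ × ℝ × ℝ => S.Φ (pp x.1 x.2.1) (pp x.1 x.2.2.1) (pp x.1 x.2.2.2) x.1)
    {x | x.1 ≠ 0} := by
  intro x hx
  refine Tendsto.mono_left ?_ nhdsWithin_le_nhds
  refine S.tendsto_Φ (pp_ne hx _) (pp_ne hx _) (pp_ne hx _) hx ?_ ?_ ?_ continuous_fst.continuousAt
  all_goals exact Continuous.tendsto (by unfold pp; fun_prop) x

lemma Ψ_ne {w : Pl} (hw : w ≠ 0) {a b c : ℝ} (ha : a ≠ c) (hb : b ≠ c) :
    S.Φ (pp w a) (pp w b) (pp w c) w ≠ 0 := by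
  have hs := (sq_pos_of_ne hw).ne'
  refine S.Φ_ne ?_ ?_ ?_ ?_
  · rw [dt_pp_pp]; exact mul_ne_zero (sub_ne_zero.2 ha) hs
  · rwa [dt_pp]
  · rw [dt_pp_pp]; exact mul_ne_zero (sub_ne_zero.2 hb) hs
  · rwa [dt_pp]

lemma Ψ_unlinked {w : Pl} (hw : w ≠ 0) {a b c : ℝ} (h : 0 < (a - c) * (b - c)) :
    0 < S.Φ (pp w a) (pp w b) (pp w c) w := by
  have hac : a ≠ c := by rintro rfl; simp at h
  have hconv : Convex ℝ {y : ℝ | 0 < (a - c) * (y - c)} := by
    intro x hx y hy s t hs ht hst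
    simp only [Set.mem_ofPred_eq, smul_eq_mul] at *
    have : (a - c) * (s * x + t * y - c) = s * ((a - c) * (x - c)) + t * ((a - c) * (y - c)) := by
      linear_combination (a - c) * c * hst
    rw [this]
    rcases hs.eq_or_lt with rfl | hs'
    · simp only [zero_add] at hst; subst hst; simpa using hy
    · nlinarith [mul_pos hs' hx, mul_nonneg ht hy.le]
  refine pos_of_preconn hconv.isPreconnected
    (f := fun y => S.Φ (pp w a) (pp w y) (pp w c) w) ?_ (fun y hy => S.Ψ_ne hw hac ?_)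
    (a := a) (mul_self_pos.2 (sub_ne_zero.2 hac)) ?_ b h
  · exact S.contOn_Ψ.comp (f := fun y : ℝ => ((w, a, y, c) : Pl × ℝ × ℝ × ℝ))
      (by fun_prop) fun _ _ => hw
  · rintro rfl; simp at hy
  · have := S.Ψ_ne hw hac hac
    simp only [Φ] at this ⊢
    have e : ∀ x y : ℝ, x * y * y * x ≠ 0 → 0 < x * y * y * x := fun x y h0 =>
      lt_of_le_of_ne (by nlinarith [sq_nonneg (x * y)]) h0.symm
    exact e _ _ this

lemma Ψ_linked {w0 : Pl} (hw0 : w0 ≠ 0) {a0 b0 c0 : ℝ} (h1 : a0 < c0) (h2 : c0 < b0)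
    (hp : 0 < S.Φ (pp w0 a0) (pp w0 b0) (pp w0 c0) w0) {w : Pl} (hw : w ≠ 0) {a b c : ℝ}
    (h3 : a < c) (h4 : c < b) : 0 < S.Φ (pp w a) (pp w b) (pp w c) w := by
  have c1 : IsPreconnected ({0}ᶜ : Set Pl) :=
    (isPathConnected_compl_singleton_of_one_lt_rank (by simp; norm_num) 0).isConnected.isPreconnected
  have c2 : Convex ℝ {y : ℝ × ℝ × ℝ | y.1 < y.2.2 ∧ y.2.2 < y.2.1} := by
    intro x hx y hy s t hs ht hst
    simp only [Set.mem_ofPred_eq, smul_eq_mul, Prod.fst_add, Prod.snd_add, Prod.smul_fst,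
      Prod.smul_snd] at *
    rcases hs.eq_or_lt with rfl | hs'
    · simp only [zero_add] at hst; subst hst; simpa using hy
    · constructor
      · nlinarith [mul_pos hs' (sub_pos.2 hx.1), mul_nonneg ht (sub_pos.2 hy.1).le]
      · nlinarith [mul_pos hs' (sub_pos.2 hx.2), mul_nonneg ht (sub_pos.2 hy.2).le]
  exact pos_of_preconn (c1.prod c2.isPreconnected) (S.contOn_Ψ.mono fun x hx => hx.1)
    (fun x hx => S.Ψ_ne hx.1 hx.2.1.ne hx.2.2.ne') (a := (w0, a0, b0, c0)) ⟨hw0, h1, h2⟩ hp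
    (w, a, b, c) ⟨hw, h3, h4⟩

lemma pos_of_linked (h : G) {t1 t t2 : ℝ} (h1 : t1 < t) (h2 : t < t2)
    (hp : 0 < S.Φ (act h (1, -t1)) (act h (1, -t2)) (act h (1, -t)) (act h e2)) : S.Pos := by
  have hw0 : act h e2 ≠ 0 := act_ne_zero h e2_ne
  have hs := sq_pos_of_ne hw0
  set n := (act h e2).1 ^ 2 + (act h e2).2 ^ 2 with hn
  set β := h 0 0 * h 0 1 + h 1 0 * h 1 1
  have e : ∀ s, act h (1, -s) = n⁻¹ • pp (act h e2) (s * n - β) := fun s => by
    have hd := gdet h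
    have a1 : (act h e2).1 = h 0 1 := by simp [act, e2]
    have a2 : (act h e2).2 = h 1 1 := by simp [act, e2]
    rw [a1, a2] at hn
    ext <;> simp only [pp, Prod.smul_fst, Prod.smul_snd, smul_eq_mul, a1, a2] <;>
      simp only [act] <;> field_simp <;> rw [hn]
    · linear_combination (h 1 1) * hd
    · linear_combination (-h 0 1) * hd
  have hi : n⁻¹ ≠ 0 := inv_ne_zero hs.ne'
  rw [e, e, e, S.Φ_smul hi hi hi (pp_ne hw0 _) (pp_ne hw0 _) (pp_ne hw0 _)] at hp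
  have key := fun {w} hw {a b c} => S.Ψ_linked hw0 (by nlinarith) (by nlinarith) hp (w := w) hw
    (a := a) (b := b) (c := c)
  intro v v' w w' d1 d2 d3 d4
  have hw' := ne_zero_of_dt_right d2
  by_cases hww : dt w' w = 0
  · obtain ⟨c, rfl⟩ := exists_smul_of_dt hw' hww
    have hc : c ≠ 0 := by rintro rfl; simp [dt] at d1
    have := S.Φ_smul one_ne_zero one_ne_zero hc (ne_zero_of_dt_left d2) (ne_zero_of_dt_left d4)
      hw' w'
    rw [one_smul, one_smul] at this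
    rw [this]
    have h0 := S.Φ_ne d2 d2 d4 d4
    simp only [Φ] at h0 ⊢
    have e : ∀ x y : ℝ, x * y * x * y ≠ 0 → 0 < x * y * x * y := fun x y h0 =>
      lt_of_le_of_ne (by nlinarith [sq_nonneg (x * y)]) h0.symm
    exact e _ _ h0
  · obtain ⟨α, a, hα, rfl⟩ := exists_pp d2
    obtain ⟨α', b, hα', rfl⟩ := exists_pp d4
    obtain ⟨α'', c, hα'', rfl⟩ := exists_pp (show dt w w' ≠ 0 by
      rw [dt_comm]; exact neg_ne_zero.2 hww)
    rw [S.Φ_smul hα hα' hα'' (pp_ne hw' _) (pp_ne hw' _) (pp_ne hw' _)]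
    have hac : a ≠ c := by rintro rfl; simp [dt_smul_left, dt_smul_right, dt_self] at d1
    have hbc : b ≠ c := by rintro rfl; simp [dt_smul_left, dt_smul_right, dt_self] at d3
    rcases lt_or_gt_of_ne hac with h3 | h3 <;> rcases lt_or_gt_of_ne hbc with h4 | h4
    · exact S.Ψ_unlinked hw' (by nlinarith)
    · exact key hw' h3 h4
    · have := key hw' h4 h3
      simp only [Φ] at this ⊢; linarith
    · exact S.Ψ_unlinked hw' (by nlinarith)

/-- In the positive case the limit curve lifts coherently to vectors. -/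
lemma exists_lift (hP : S.Pos) : ∃ s : Pl → ℝ, (∀ v, s v = 1 ∨ s v = -1) ∧
    ∀ v v' w, dt v w ≠ 0 → dt v' w ≠ 0 → 0 < ⟪s v • S.X v, S.Y w⟫_ℝ * ⟪s v' • S.X v', S.Y w⟫_ℝ := by
  have h : ∀ v : Pl, ∃ s : ℝ, (s = 1 ∨ s = -1) ∧ ∀ w, dt v w ≠ 0 → dt e1 w ≠ 0 →
      0 < s * ⟪S.X v, S.Y w⟫_ℝ * ⟪S.X e1, S.Y w⟫_ℝ := by
    intro v
    by_cases hv : v = 0
    · exact ⟨1, Or.inl rfl, fun w hw => absurd hv (ne_zero_of_dt_left hw)⟩
    obtain ⟨w0, a1, a2, -⟩ := exists_avoid hv e1_ne e1_ne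
    rcases lt_or_gt_of_ne (mul_ne_zero (S.trans a1) (S.trans a2)) with h0 | h0
    · refine ⟨-1, Or.inr rfl, fun w b1 b2 => ?_⟩
      have := hP v e1 w w0 b1 a1 b2 a2
      simp only [Φ] at this
      by_contra hc
      nlinarith
    · refine ⟨1, Or.inl rfl, fun w b1 b2 => ?_⟩
      have := hP v e1 w w0 b1 a1 b2 a2
      simp only [Φ] at this
      by_contra hc
      nlinarith
  choose s hs h using h
  refine ⟨s, hs, fun v v' w b1 b2 => ?_⟩
  obtain ⟨w0, a1, a2, a3⟩ := exists_avoid (ne_zero_of_dt_left b1) (ne_zero_of_dt_left b2) e1_ne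
  have p1 := h v w0 a1 a3
  have p2 := h v' w0 a2 a3
  have p3 := hP v v' w w0 b1 a1 b2 a2
  simp only [Φ, real_inner_smul_left] at p3 ⊢
  set x := ⟪S.X v, S.Y w⟫_ℝ; set y := ⟪S.X v', S.Y w⟫_ℝ
  set x0 := ⟪S.X v, S.Y w0⟫_ℝ; set y0 := ⟪S.X v', S.Y w0⟫_ℝ; set z := ⟪S.X e1, S.Y w0⟫_ℝ
  have p4 : 0 < (s v * x * (s v' * y)) * (x0 * y0 * z) ^ 2 := by
    have := mul_pos (mul_pos p1 p2) p3
    calc 0 < _ := this
      _ = _ := by ring
  by_contra hc
  nlinarith [sq_nonneg (x0 * y0 * z)]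

lemma pos_eigen (hP : S.Pos) {γ : Γ} (hγ : γ ∈ Submonoid.closure {g : Γ | ∃ h, g = h * h})
    {v : Pl} (hv : v ≠ 0) {μ l : ℝ} (hμ : μ ≠ 0) (h1 : act (S.F.r γ) v = μ • v)
    (h2 : S.A γ (S.X v) = l • S.X v) : 0 < l := by
  obtain ⟨s, hs, hpos⟩ := S.exists_lift hP
  set X' : Pl → V := fun v => s v • S.X v with hX'
  have ex : ∀ g v, v ≠ 0 → ∃ c : ℝ, c ≠ 0 ∧ S.A g (X' v) = c • X' (act (S.F.r g) v) := by
    intro g v hv
    obtain ⟨c, hc, e⟩ := S.X_act_eq g hv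
    have q1 := sign_sq (hs v); have q2 := sign_sq (hs (act (S.F.r g) v))
    refine ⟨s v * c * s (act (S.F.r g) v), ?_, ?_⟩
    · refine mul_ne_zero (mul_ne_zero ?_ hc) ?_ <;> intro h0 <;> simp [h0] at q1 q2
    · simp only [hX', map_smul, e, smul_smul]
      congr 1; linear_combination (-(s v * c)) * q2
  have same : ∀ g v v' (c c' : ℝ), v ≠ 0 → v' ≠ 0 → c ≠ 0 → c' ≠ 0 →
      S.A g (X' v) = c • X' (act (S.F.r g) v) → S.A g (X' v') = c' • X' (act (S.F.r g) v') →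
      0 < c * c' := by
    intro g v v' c c' hv hv' hc hc' e e'
    obtain ⟨w, a1, a2, -⟩ := exists_avoid hv hv' hv'
    obtain ⟨d, hd, ed⟩ := S.swap.X_act_eq g (ne_zero_of_dt_right a1)
    have ed' : S.B g (S.Y w) = d • S.Y (act (S.F.r g) w) := ed
    have p1 := hpos v v' w a1 a2
    have p2 := hpos (act (S.F.r g) v) (act (S.F.r g) v') (act (S.F.r g) w)
      (by rwa [dt_act]) (by rwa [dt_act])
    change 0 < ⟪X' v, _⟫_ℝ * ⟪X' v', _⟫_ℝ at p1
    change 0 < ⟪X' _, _⟫_ℝ * ⟪X' _, _⟫_ℝ at p2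
    rw [← S.inn g (X' v), ← S.inn g (X' v'), e, e', ed', inner_smul_right, inner_smul_right,
      real_inner_smul_left _ _ c, real_inner_smul_left _ _ c'] at p1
    by_contra hcon
    nlinarith [mul_nonneg (sq_nonneg d) p2.le]
  have pz : ∀ v, v ≠ 0 → ∃ c : ℝ, 0 < c ∧ S.A γ (X' v) = c • X' (act (S.F.r γ) v) := by
    clear h1 h2
    induction hγ using Submonoid.closure_induction with
    | mem x hx =>
      obtain ⟨g, rfl⟩ := hx
      intro v hv
      obtain ⟨c, hc, e⟩ := ex g v hv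
      obtain ⟨c', hc', e'⟩ := ex g _ (act_ne_zero (S.F.r g) hv)
      refine ⟨c * c', same g _ _ _ _ hv (act_ne_zero _ hv) hc hc' e e', ?_⟩
      rw [S.A_mul, e, map_smul, e', smul_smul, map_mul, act_mul]
    | one => intro v hv; exact ⟨1, one_pos, by simp [act_one]⟩
    | mul x y _ _ hx hy =>
      intro v hv
      obtain ⟨c, hc, e⟩ := hy v hv
      obtain ⟨c', hc', e'⟩ := hx _ (act_ne_zero (S.F.r y) hv)
      refine ⟨c * c', mul_pos hc hc', ?_⟩
      rw [S.A_mul, e, map_smul, e', smul_smul, map_mul, act_mul]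
  obtain ⟨c, hc, e⟩ := pz v hv
  obtain ⟨w, a1, -, -⟩ := exists_avoid hv hv hv
  have p := hpos v (μ • v) w a1 (by rw [dt_smul_left]; exact mul_ne_zero hμ a1)
  change 0 < ⟪X' v, _⟫_ℝ * ⟪X' _, _⟫_ℝ at p
  have e2 : l • X' v = c • X' (μ • v) := by
    rw [← h1, ← e]; simp only [hX', map_smul, h2, smul_comm l]
  have e3 := congrArg (fun u => ⟪u, S.Y w⟫_ℝ) e2
  simp only [real_inner_smul_left] at e3
  by_contra hcon
  have : c * (⟪X' v, S.Y w⟫_ℝ * ⟪X' (μ • v), S.Y w⟫_ℝ) = l * ⟪X' v, S.Y w⟫_ℝ ^ 2 := by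
    linear_combination (-⟪X' v, S.Y w⟫_ℝ) * e3
  nlinarith [mul_pos hc p, sq_nonneg ⟪X' v, S.Y w⟫_ℝ]

variable {S} in
lemma zoom_Z {g k : G} {f : ℕ → Γ} {kn : ℕ → G} {t : ℕ → ℝ} (hz : Zoom S.F g k f kn t) :
    Tendsto (fun n => ‖cr (S.Z (f n)) (S.Y (act k e2))‖) atTop (𝓝 0) := by
  obtain ⟨T, hT⟩ := zoom_al hz
  obtain ⟨K, -, hK⟩ := S.keyZ T
  have h1 := (S.swap.X_cont (act_ne_zero k e2_ne)).comp
    (Tendsto.act hz.2.1 (tendsto_const_nhds (x := e2)))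
  have h2 := (tendsto_exp_zero hz.2.2 S.cpos K).add h1
  rw [add_zero] at h2
  refine squeeze_zero' (Eventually.of_forall fun _ => norm_nonneg _) (hT.mono fun n hn => ?_) h2
  have a1 := hK _ _ _ _ hn
  have a2 := cr_triangle' (S.norm_Z (f n)) (S.norm_Y (act (kn n) e2)) (S.norm_Y (act k e2))
  rw [norm_cr_comm (S.Y _)] at a2
  exact a2.trans (add_le_add a1 le_rfl)

lemma eigen_gap {γ : Γ} {g : G} {t σ : ℝ} (ht : 0 < t) (hσ : σ = 1 ∨ σ = -1)
    (h1 : act (S.F.r γ) (act g e1) = (σ * Real.exp t) • act g e1)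
    (h2 : act (S.F.r γ) (act g e2) = (σ * Real.exp (-t)) • act g e2) {l1 l : ℝ}
    (e1' : S.A γ (S.X (act g e1)) = l1 • S.X (act g e1)) {u : V} (hu : u ≠ 0)
    (e : S.A γ u = l • u) (ho : ⟪u, S.Y (act g e2)⟫_ℝ = 0) : |l| < |l1| := by
  have hz : Zoom S.F g g (fun n => (γ * γ) ^ n) (fun _ => g) (fun n => 2 * t * n) :=
    ⟨fun n => by rw [map_pow, map_mul, r_sq_pow hσ h1 h2], tendsto_const_nhds,
      tendsto_natCast_atTop_atTop.const_mul_atTop (by linarith)⟩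
  have pw : ∀ (u : V) (l : ℝ), S.A γ u = l • u → ∀ n : ℕ,
      S.A ((γ * γ) ^ n) u = (l * l) ^ n • u := by
    intro u l e n
    induction n with
    | zero => simp
    | succ n ih => rw [pow_succ, S.A_mul, S.A_mul, e, map_smul, e, map_smul, map_smul, ih,
        smul_smul, smul_smul, pow_succ']
  by_contra hc
  push Not at hc
  set x := S.X (act g e1)
  set y := S.Y (act g e2)
  have hδ : 0 < |⟪x, y⟫_ℝ| := abs_pos.2 (S.trans (by rw [dt_act, dt_e1_e2]; exact one_ne_zero))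
  have hu0 := norm_pos_iff.2 hu
  have lim : Tendsto (fun n => 2 * ‖cr (S.Z ((γ * γ) ^ n)) y‖ * ‖u‖ + S.τ ((γ * γ) ^ n) * ‖u‖)
      atTop (𝓝 0) := by
    simpa using (((zoom_Z hz).const_mul 2).mul_const ‖u‖).add ((zoom_τ hz).mul_const ‖u‖)
  obtain ⟨n, hn⟩ := (lim.eventually (gt_mem_nhds (mul_pos hδ hu0))).exists
  set η := (γ * γ) ^ n
  have a1 := S.lower η x
  have a2 := S.upper η u
  rw [pw x l1 e1' n, norm_smul, S.norm_X, mul_one] at a1
  rw [pw u l e n, norm_smul] at a2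
  have a3 : ‖(l1 * l1) ^ n‖ ≤ ‖(l * l) ^ n‖ := by
    rw [norm_pow, norm_pow, norm_mul, norm_mul]
    simp only [Real.norm_eq_abs]
    gcongr
  have a4 := abs_inner_le_of_cr (S.norm_Y (act g e2)) (S.norm_Z η) u
  have a5 := abs_inner_le_of_cr (S.norm_Z η) (S.norm_Y (act g e2)) x
  rw [ho, abs_zero, norm_cr_comm] at a4
  rw [S.norm_X] at a5
  have p := S.A_pos η
  have a6 : |⟪x, S.Z η⟫_ℝ| * ‖u‖ ≤ |⟪u, S.Z η⟫_ℝ| + S.τ η * ‖u‖ := by
    refine le_of_mul_le_mul_right ?_ p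
    nlinarith [mul_le_mul_of_nonneg_right (a1.trans a3) hu0.le]
  nlinarith [mul_le_mul_of_nonneg_right a5 hu0.le]

/-- Eigenvalues of the image of a hyperbolic element. -/
lemma exists_eigen {γ : Γ} (h : 2 < |S.F.r γ 0 0 + S.F.r γ 1 1|) :
    ∃ (l1 l2 l3 : ℝ) (u1 u2 u3 : V), u1 ≠ 0 ∧ u2 ≠ 0 ∧ u3 ≠ 0 ∧ S.A γ u1 = l1 • u1 ∧
      S.A γ u2 = l2 • u2 ∧ S.A γ u3 = l3 • u3 ∧ |l2| < |l1| ∧ |l3| < |l2| ∧ l1 * l2 * l3 = 1 ∧
      (S.Pos → γ ∈ Submonoid.closure {g : Γ | ∃ h, g = h * h} → 0 < l1) := by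
  obtain ⟨g, t, σ, ht, hσ, h1, h2⟩ := exists_diag _ h
  have hσ0 : σ ≠ 0 := by rcases hσ with rfl | rfl <;> norm_num
  have n1 := act_ne_zero g e1_ne
  have n2 := act_ne_zero g e2_ne
  have m1 := mul_ne_zero hσ0 (Real.exp_pos t).ne'
  have m2 := mul_ne_zero hσ0 (Real.exp_pos (-t)).ne'
  obtain ⟨l1, hl1, a1⟩ := S.X_par γ n1 m1 h1
  obtain ⟨l3, hl3, a3⟩ := S.X_par γ n2 m2 h2
  obtain ⟨b1, hb1, c1⟩ := S.swap.X_par γ n1 m1 h1
  obtain ⟨b3, hb3, c3⟩ := S.swap.X_par γ n2 m2 h2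
  have c1' : S.B γ (S.Y (act g e1)) = b1 • S.Y (act g e1) := c1
  have c3' : S.B γ (S.Y (act g e2)) = b3 • S.Y (act g e2) := c3
  have d12 : dt (act g e1) (act g e2) ≠ 0 := by rw [dt_act, dt_e1_e2]; exact one_ne_zero
  have d21 : dt (act g e2) (act g e1) ≠ 0 := by rw [dt_comm]; exact neg_ne_zero.2 d12
  have r1 : l1 * b3 = 1 := by
    have := S.inn γ (S.X (act g e1)) (S.Y (act g e2))
    rw [a1, c3', inner_smul_right, real_inner_smul_left] at this
    exact mul_right_cancel₀ (S.trans d12) (by linarith)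
  have r3 : l3 * b1 = 1 := by
    have := S.inn γ (S.X (act g e2)) (S.Y (act g e1))
    rw [a3, c1', inner_smul_right, real_inner_smul_left] at this
    exact mul_right_cancel₀ (S.trans d21) (by linarith)
  have am : S.A γ (cr (S.Y (act g e1)) (S.Y (act g e2))) =
      (b1 * b3) • cr (S.Y (act g e1)) (S.Y (act g e2)) := by
    rw [← S.crB, c1', c3', cr_smul_left, cr_smul_right, smul_smul]
  have bm : S.B γ (cr (S.X (act g e1)) (S.X (act g e2))) =
      (l1 * l3) • cr (S.X (act g e1)) (S.X (act g e2)) := by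
    rw [← S.crA, a1, a3, cr_smul_left, cr_smul_right, smul_smul]
  have g1 := S.eigen_gap ht hσ h1 h2 a1 (S.swap.cr_X_ne d12) am
    (by rw [real_inner_comm]; exact inner_cr_right _ _)
  have g2 := S.swap.eigen_gap ht hσ h1 h2 c1 (S.cr_X_ne d12) bm
    (by rw [real_inner_comm]; exact inner_cr_right _ _)
  refine ⟨l1, b1 * b3, l3, _, _, _, S.X_ne _, S.swap.cr_X_ne d12, S.X_ne _, a1, am, a3, g1, ?_,
    by linear_combination (l3 * b1) * r1 + r3, fun hP hγ => S.pos_eigen hP hγ n1 m1 h1 a1⟩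
  have q : |l1| * |b3| = 1 := by rw [← abs_mul, r1, abs_one]
  rw [abs_mul] at g2 ⊢
  calc |l3| = |l1| * |l3| * |b3| := by linear_combination (-|l3|) * q
    _ < _ := mul_lt_mul_of_pos_right g2 (abs_pos.2 hb3)

end Sys

/-- A product of squares with trace below `-2`. -/
lemma Fu.exists_neg {Γ : Type*} [Group Γ] (F : Fu Γ)
    (hfix : ∀ z : Pl, z ≠ 0 → ∃ γ, dt (act (F.r γ) z) z ≠ 0) :
    ∃ γ ∈ Submonoid.closure {g : Γ | ∃ h, g = h * h}, F.r γ 0 0 + F.r γ 1 1 < -2 := by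
  obtain ⟨a, ha⟩ : ∃ a, 2 < |F.r a 0 0 + F.r a 1 1| := by
    obtain ⟨k, f, kn, t, σ, hz, harc⟩ := F.exists_zoom_arc hfix 1 1
    have hk : k 1 1 ≠ 0 := by
      intro h0; have := harc.1; simp [act, e2, h0] at this
    have l1 := ((cont_entry 1 1).tendsto k).comp hz.2.1
    have l0 := ((cont_entry 0 0).tendsto k).comp hz.2.1
    have l2 : Tendsto (fun n => Real.exp (t n) * |kn n 1 1|) atTop atTop :=
      (Real.tendsto_exp_atTop.comp hz.2.2).atTop_mul_pos (abs_pos.2 hk) l1.abs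
    have l3 : Tendsto (fun n => Real.exp (-t n) * |kn n 0 0|) atTop (𝓝 0) := by
      simpa using (Real.tendsto_exp_neg_atTop_nhds_zero.comp hz.2.2).mul l0.abs
    obtain ⟨n, h1, h2⟩ := ((l2.eventually_gt_atTop 3).and
      (l3.eventually (gt_mem_nhds one_pos))).exists
    refine ⟨f n, ?_⟩
    have e : F.r (f n) 0 0 + F.r (f n) 1 1 =
        Real.exp (t n) * kn n 1 1 + Real.exp (-t n) * kn n 0 0 := by
      rw [hz.1 n, one_mul, mul_e, mul_e, inv00, inv11]; simp [D]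
    rw [e]
    have := abs_add_le (Real.exp (t n) * kn n 1 1 + Real.exp (-t n) * kn n 0 0)
      (-(Real.exp (-t n) * kn n 0 0))
    rw [add_neg_cancel_right, abs_neg, abs_mul, abs_mul, abs_of_pos (Real.exp_pos _),
      abs_of_pos (Real.exp_pos _)] at this
    linarith
  obtain ⟨g, t, σ, ht, hσ, h1, h2⟩ := exists_diag _ ha
  obtain ⟨b, hb1, hb2⟩ : ∃ b, (g⁻¹ * F.r b * g) 0 0 * (g⁻¹ * F.r b * g) 1 0 < 0 ∧
      (g⁻¹ * F.r b * g) 0 1 * (g⁻¹ * F.r b * g) 1 1 < 0 := by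
    obtain ⟨k, f, kn, t, σ, hz, harc⟩ := F.exists_zoom_arc hfix (g * L (1 / 2)) g
    have d : ∀ v, dt (act g v) (act k e2) = dt v (act g⁻¹ (act k e2)) := fun v => by
      rw [← dt_act g⁻¹, act_inv_act]
    have d1 : dt (act g e1) (act k e2) ≠ 0 := by
      rw [d]; intro h0
      have := harc.1
      simp only [dt, e1, one_mul, zero_mul, sub_zero] at h0
      simp [h0] at this
    have d2 : dt (act g e2) (act k e2) ≠ 0 := by
      rw [d]; intro h0
      obtain ⟨p1, p2⟩ := harc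
      have h0' : (act g⁻¹ (act k e2)).1 = 0 := by simpa [dt, e2] using h0
      rw [h0', zero_add] at p2; linarith
    obtain ⟨n, ⟨p1, p2⟩, p3, p4⟩ := ((hz.arc d1).and (hz.arc d2)).exists
    rw [← act_mul, ← act_mul] at p1 p2 p3 p4
    generalize dt (act g e1) (act k e2) = σ1 at p1 p2
    generalize dt (act g e2) (act k e2) = σ2 at p3 p4
    simp only [act, e1, e2, mul_one, mul_zero, add_zero, zero_add] at p1 p2 p3 p4
    have aux : ∀ σ x y : ℝ, σ * y < 0 → 0 < σ * (x + y) → x * y < 0 := by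
      intro σ x y q1 q2
      have q3 : 0 < σ * x := by linarith
      by_contra hc
      nlinarith [mul_nonneg (sq_nonneg σ) (not_lt.1 hc)]
    exact ⟨f n, aux _ _ _ p1 p2, aux _ _ _ p3 p4⟩
  set c := g⁻¹ * F.r b * g with hc
  have hd := gdet c
  have trc : ∀ y : G, (g * y * g⁻¹) 0 0 + (g * y * g⁻¹) 1 1 = y 0 0 + y 1 1 := fun y => by
    simp only [mul_e, inv00, inv01, inv10, inv11]
    linear_combination (y 0 0 + y 1 1) * gdet g
  have big : ∀ κ M : ℝ, 0 < κ → ∃ n : ℕ,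
      M < κ * (Real.exp (2 * t * n) * Real.exp (2 * t * n)) := by
    intro κ M hκ
    have l := Real.tendsto_exp_atTop.comp
      (tendsto_natCast_atTop_atTop.const_mul_atTop (show 0 < 2 * t by linarith))
    exact (((l.atTop_mul_atTop₀ l).const_mul_atTop hκ).eventually_gt_atTop M).exists
  have sq : ∀ x : Γ, x * x ∈ Submonoid.closure {g : Γ | ∃ h, g = h * h} :=
    fun x => Submonoid.subset_closure ⟨x, rfl⟩
  have hb : F.r b = g * c * g⁻¹ := by rw [hc]; group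
  have ee : ∀ s : ℝ, Real.exp s * Real.exp (-s) = 1 := fun s => by rw [← Real.exp_add]; simp
  have hprod : 0 < (c 0 0 * c 1 1) * (c 0 1 * c 1 0) := by nlinarith [mul_pos_of_neg_of_neg hb1 hb2]
  rcases lt_or_gt_of_ne (left_ne_zero_of_mul hprod.ne') with h0 | h0
  · obtain ⟨n, hn⟩ := big (-(c 0 0 * c 1 1)) (2 - 2 * (c 0 1 * c 1 0)) (by linarith)
    refine ⟨((a * a) ^ n * b * ((a * a) ^ n * b)) * (b⁻¹ * b⁻¹), mul_mem (sq _) (sq _), ?_⟩
    have : F.r (((a * a) ^ n * b * ((a * a) ^ n * b)) * (b⁻¹ * b⁻¹)) =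
        g * (D (2 * t * n) * c * D (2 * t * n) * c⁻¹) * g⁻¹ := by
      simp only [map_mul, map_inv, map_pow]
      rw [r_sq_pow hσ h1 h2, hb]; group
    rw [this, trc]
    simp only [mul_e, inv00, inv01, inv10, inv11, D, mk00, mk01, mk10, mk11]
    have e := ee (2 * t * n)
    have p := Real.exp_pos (-(2 * t * n))
    set E := Real.exp (2 * t * n); set E' := Real.exp (-(2 * t * n))
    have : c 0 0 * c 1 1 * (E' * E') < 0 := mul_neg_of_neg_of_pos h0 (mul_pos p p)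
    have e' : c 0 1 * c 1 0 * (E * E') = c 0 1 * c 1 0 := by rw [e, mul_one]
    nlinarith
  · have h0' : 0 < c 0 1 * c 1 0 := (pos_iff_pos_of_mul_pos hprod).1 h0
    obtain ⟨n, hn⟩ := big (c 0 1 * c 1 0) (2 + 2 * (c 0 0 * c 1 1)) h0'
    refine ⟨((a * a) ^ n * (a * a) ^ n) * ((((a * a) ^ n)⁻¹ * b) * (((a * a) ^ n)⁻¹ * b))
      * (b⁻¹ * b⁻¹), mul_mem (mul_mem (sq _) (sq _)) (sq _), ?_⟩
    have : F.r (((a * a) ^ n * (a * a) ^ n) * ((((a * a) ^ n)⁻¹ * b) * (((a * a) ^ n)⁻¹ * b))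
      * (b⁻¹ * b⁻¹)) = g * (D (2 * t * n) * c * D (-(2 * t * n)) * c⁻¹) * g⁻¹ := by
      simp only [map_mul, map_inv, map_pow]
      rw [r_sq_pow hσ h1 h2, hb, D_neg]; group
    rw [this, trc]
    simp only [mul_e, inv00, inv01, inv10, inv11, D, mk00, mk01, mk10, mk11, neg_neg]
    have e := ee (2 * t * n)
    have p := Real.exp_pos (-(2 * t * n))
    set E := Real.exp (2 * t * n); set E' := Real.exp (-(2 * t * n))
    have : 0 < c 0 1 * c 1 0 * (E' * E') := mul_pos h0' (mul_pos p p)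
    have e' : c 0 0 * c 1 1 * (E * E') = c 0 0 * c 1 1 := by rw [e, mul_one]
    nlinarith

end Pool.Agent.P.MP_39a2dc_an
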